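import Mathlib

/-!
Algebra of the explicit family of Enriques surfaces (over an arbitrary commutative ring).
-/

namespace Pool.Agent.ENR

open Matrix

variable {R : Type*} [CommRing R]

/-- explicit 3x3 adjugate. -/
def adj (m : Matrix (Fin 3) (Fin 3) R) : Matrix (Fin 3) (Fin 3) R :=
  !![m 1 1 * m 2 2 - m 1 2 * m 2 1, m 0 2 * m 2 1 - m 0 1 * m 2 2, m 0 1 * m 1 2 - m 0 2 * m 1 1;
     m 1 2 * m 2 0 - m 1 0 * m 2 2, m 0 0 * m 2 2 - m 0 2 * m 2 0, m 0 2 * m 1 0 - m 0 0 * m 1 2;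
     m 1 0 * m 2 1 - m 1 1 * m 2 0, m 0 1 * m 2 0 - m 0 0 * m 2 1, m 0 0 * m 1 1 - m 0 1 * m 1 0]

/-- axial vector of a matrix. -/
def axv (m : Matrix (Fin 3) (Fin 3) R) : Fin 3 → R :=
  ![m 1 2 - m 2 1, m 2 0 - m 0 2, m 0 1 - m 1 0]

/-- dot product on `R^3`. -/
def dt (a b : Fin 3 → R) : R := a 0 * b 0 + a 1 * b 1 + a 2 * b 2

/-- matrix times vector on `R^3`. -/
def mv (m : Matrix (Fin 3) (Fin 3) R) (v : Fin 3 → R) : Fin 3 → R := fun i => dt (m i) v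

/-- explicit product of 3x3 matrices. -/
def mm (a b : Matrix (Fin 3) (Fin 3) R) : Matrix (Fin 3) (Fin 3) R :=
  fun i j => a i 0 * b 0 j + a i 1 * b 1 j + a i 2 * b 2 j

/-- trace. -/
def tr3 (m : Matrix (Fin 3) (Fin 3) R) : R := m 0 0 + m 1 1 + m 2 2

/-- determinant. -/
def det3 (m : Matrix (Fin 3) (Fin 3) R) : R :=
  m 0 0 * (m 1 1 * m 2 2 - m 1 2 * m 2 1) - m 0 1 * (m 1 0 * m 2 2 - m 1 2 * m 2 0)
    + m 0 2 * (m 1 0 * m 2 1 - m 1 1 * m 2 0)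

/-- `v v^T`. -/
def out (v : Fin 3 → R) : Matrix (Fin 3) (Fin 3) R := fun i j => v i * v j

/-- skew matrix of a vector. -/
def crs (y : Fin 3 → R) : Matrix (Fin 3) (Fin 3) R :=
  !![0, y 2, -y 1; -y 2, 0, y 0; y 1, -y 0, 0]

/-- standard vectors -/
def ev (k : Fin 3) : Fin 3 → R := fun i => if i = k then 1 else 0

/-- rows of the matrix K(x) for three symmetric matrices `N`. -/
def krN (A : Matrix (Fin 3) (Fin 3) R) (N : Fin 3 → Matrix (Fin 3) (Fin 3) R) (k : Fin 3) : Fin 3 → R :=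
  axv (mm (mm (N (k + 1)) A) (N (k + 2)))

/-- trilinear building block of the cubic covariant. -/
def jt (a b c : Fin 3 → R) (N : Fin 3 → Matrix (Fin 3) (Fin 3) R) : R :=
  tr3 (mm (mm (mm (crs a) (N 0)) (mm (crs b) (N 1))) (mm (crs c) (N 2)))

/-- full polarisation of the cubic covariant `J`. -/
def J3 (a b c : Fin 3 → R) (N : Fin 3 → Matrix (Fin 3) (Fin 3) R) : R :=
  jt a b c N + jt a c b N + jt b a c N + jt b c a N + jt c a b N + jt c b a N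

/-- contraction of the polarisation with a matrix. -/
def J3P (a : Fin 3 → R) (P : Matrix (Fin 3) (Fin 3) R) (N : Fin 3 → Matrix (Fin 3) (Fin 3) R) : R :=
  ∑ i, ∑ j, J3 a (ev i) (ev j) N * P i j

/-- symmetric matrix from six entries (11,22,33,23,13,12). -/
def sy (a : Fin 6 → R) : Matrix (Fin 3) (Fin 3) R :=
  !![a 0, a 5, a 4; a 5, a 1, a 3; a 4, a 3, a 2]

/-- the even quadric `rho_i` (times 8). -/
def rho (A : Matrix (Fin 3) (Fin 3) R) (y : Fin 3 → R) (N : Fin 3 → Matrix (Fin 3) (Fin 3) R)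
    (i : Fin 3) : R :=
  8 * (tr3 (mm A (N 0)) * krN A N 0 i + tr3 (mm A (N 1)) * krN A N 1 i
    + tr3 (mm A (N 2)) * krN A N 2 i) + 3 * J3P (ev i) (adj A) N - J3 (ev i) y y N

/-- the bilinear forms `delta'_k`. -/
def dlt' (A : Matrix (Fin 3) (Fin 3) R) (y : Fin 3 → R) (N : Fin 3 → Matrix (Fin 3) (Fin 3) R)
    (k : Fin 3) : R := dt y (krN A N k)

end Pool.Agent.ENR
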