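import Pool.Agent.ENR.Alg

namespace Pool.Agent.ENR

open Matrix

variable {R : Type*} [CommRing R]

theorem f01 : (0 + 1 : Fin 3) = 1 := rfl
theorem f02 : (0 + 2 : Fin 3) = 2 := rfl
theorem f11 : (1 + 1 : Fin 3) = 2 := rfl
theorem f12 : (1 + 2 : Fin 3) = 0 := rfl
theorem f21 : (2 + 1 : Fin 3) = 0 := rfl
theorem f22 : (2 + 2 : Fin 3) = 1 := rfl

/-- key identity, slot 0 -/
theorem rho_D0 (A N1 N2 : Fin 6 → R) (y : Fin 3 → R) (i : Fin 3) :
    rho (sy A) y ![adj (sy A) + out y, sy N1, sy N2] i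
      = 8 * mv (sy A) y i * dt y (axv (mm (mm (sy N1) (sy A)) (sy N2))) := by
  fin_cases i <;>
  · simp [rho, J3P, J3, jt, krN, mv, dt, axv, mm, tr3, crs, ev, sy, adj, out, Fin.sum_univ_three,
      Matrix.add_apply, f01, f02, f11, f12, f21, f22]
    ring

theorem rho_lin0 (A : Fin 6 → R) (y : Fin 3 → R) (N : Fin 3 → Fin 6 → R) (d : Fin 3 → R) (i : Fin 3) :
    rho (sy A) y ![sy (fun m => d 0 * N 0 m + d 1 * N 1 m + d 2 * N 2 m), sy (N 1), sy (N 2)] i
      = d 0 * rho (sy A) y (fun k => sy (N k)) i := by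
  fin_cases i <;>
  · simp [rho, J3P, J3, jt, krN, mv, dt, axv, mm, tr3, crs, ev, sy, adj, out, Fin.sum_univ_three,
      f01, f02, f11, f12, f21, f22]
    ring

end Pool.Agent.ENR
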