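import Pool.Agent.ENR.Alg2

namespace Pool.Agent.ENR

open Matrix

variable {R : Type*} [CommRing R]

/-- cross product -/
def cr (a b : Fin 3 → R) : Fin 3 → R :=
  ![a 1 * b 2 - a 2 * b 1, a 2 * b 0 - a 0 * b 2, a 0 * b 1 - a 1 * b 0]

theorem rho_cyc (A : Fin 6 → R) (y : Fin 3 → R) (N : Fin 3 → Fin 6 → R) (i : Fin 3) :
    rho (sy A) y (fun k => sy (N (k + 1))) i = rho (sy A) y (fun k => sy (N k)) i := by
  fin_cases i <;>
  · simp [rho, J3P, J3, jt, krN, mv, dt, axv, mm, tr3, crs, ev, sy, adj, out, Fin.sum_univ_three,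
      f01, f02, f11, f12, f21, f22]
    ring

/-- relation between `delta` and `delta'`: basic form. -/
theorem rel_D (A N : Fin 6 → R) (y : Fin 3 → R) :
    dt y (axv (mm (mm (sy N) (sy A)) (adj (sy A) + out y))) = 0 := by
  simp [dt, axv, mm, sy, adj, out, Matrix.add_apply]
  ring

theorem rel_lin (A : Fin 6 → R) (y : Fin 3 → R) (N : Fin 3 → Fin 6 → R) (d : Fin 3 → R) :
    dt y (axv (mm (mm (sy (N 2)) (sy A)) (sy (fun m => d 0 * N 0 m + d 1 * N 1 m + d 2 * N 2 m))))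
      = d 0 * dlt' (sy A) y (fun k => sy (N k)) 1 - d 1 * dlt' (sy A) y (fun k => sy (N k)) 0 := by
  simp [dlt', krN, dt, axv, mm, sy, f01, f02, f11, f12]
  ring

/-- hypothesis: the point lies on `T`. -/
def HT (A : Fin 6 → R) (y : Fin 3 → R) (N : Fin 3 → Fin 6 → R) (d : Fin 3 → R) : Prop :=
  adj (sy A) + out y = sy (fun m => d 0 * N 0 m + d 1 * N 1 m + d 2 * N 2 m)

theorem HT.cyc {A : Fin 6 → R} {y : Fin 3 → R} {N : Fin 3 → Fin 6 → R} {d : Fin 3 → R}
    (h : HT A y N d) : HT A y (fun k => N (k + 1)) (fun k => d (k + 1)) := by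
  unfold HT at *
  rw [h]
  congr 1
  funext m
  simp only [f01, f11, f21]
  ring

theorem dlt'_cyc (A : Matrix (Fin 3) (Fin 3) R) (y : Fin 3 → R) (N : Fin 3 → Matrix (Fin 3) (Fin 3) R)
    (k : Fin 3) : dlt' A y (fun k => N (k + 1)) k = dlt' A y N (k + 1) := by
  fin_cases k <;> rfl

theorem rel01 {A : Fin 6 → R} {y : Fin 3 → R} {N : Fin 3 → Fin 6 → R} {d : Fin 3 → R}
    (h : HT A y N d) : d 0 * dlt' (sy A) y (fun k => sy (N k)) 1
      = d 1 * dlt' (sy A) y (fun k => sy (N k)) 0 := by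
  have h1 := rel_lin A y N d
  have h2 := rel_D A (N 2) y
  rw [h, h1] at h2
  exact sub_eq_zero.mp h2

theorem rel12 {A : Fin 6 → R} {y : Fin 3 → R} {N : Fin 3 → Fin 6 → R} {d : Fin 3 → R}
    (h : HT A y N d) : d 1 * dlt' (sy A) y (fun k => sy (N k)) 2
      = d 2 * dlt' (sy A) y (fun k => sy (N k)) 1 := rel01 h.cyc

theorem rel20 {A : Fin 6 → R} {y : Fin 3 → R} {N : Fin 3 → Fin 6 → R} {d : Fin 3 → R}
    (h : HT A y N d) : d 2 * dlt' (sy A) y (fun k => sy (N k)) 0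
      = d 0 * dlt' (sy A) y (fun k => sy (N k)) 2 := rel01 h.cyc.cyc

theorem rel_abs (d e : Fin 3 → R) (h01 : d 0 * e 1 = d 1 * e 0) (h12 : d 1 * e 2 = d 2 * e 1)
    (h20 : d 2 * e 0 = d 0 * e 2) (k l : Fin 3) : d k * e l = d l * e k := by
  fin_cases k <;> fin_cases l <;> simp [h01, h12, h20]

/-- **relation**: `delta_k delta'_l = delta_l delta'_k` on `T`. -/
theorem rel {A : Fin 6 → R} {y : Fin 3 → R} {N : Fin 3 → Fin 6 → R} {d : Fin 3 → R}
    (h : HT A y N d) (k l : Fin 3) : d k * dlt' (sy A) y (fun k => sy (N k)) l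
      = d l * dlt' (sy A) y (fun k => sy (N k)) k :=
  rel_abs d (dlt' (sy A) y (fun k => sy (N k))) (rel01 h) (rel12 h) (rel20 h) k l

theorem s3_0 {A : Fin 6 → R} {y : Fin 3 → R} {N : Fin 3 → Fin 6 → R} {d : Fin 3 → R}
    (h : HT A y N d) (i : Fin 3) : d 0 * rho (sy A) y (fun k => sy (N k)) i
      = 8 * mv (sy A) y i * dlt' (sy A) y (fun k => sy (N k)) 0 := by
  rw [← rho_lin0 A y N d i, ← h, rho_D0]
  rfl

/-- **(S3)**: `delta_k rho_i = w_i delta'_k` on `T` (with factor 8). -/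
theorem s3 {A : Fin 6 → R} {y : Fin 3 → R} {N : Fin 3 → Fin 6 → R} {d : Fin 3 → R}
    (h : HT A y N d) (k i : Fin 3) : d k * rho (sy A) y (fun k => sy (N k)) i
      = 8 * mv (sy A) y i * dlt' (sy A) y (fun k => sy (N k)) k := by
  have h1 := s3_0 h.cyc i
  have h2 := s3_0 h.cyc.cyc i
  rw [rho_cyc A y N i] at h1
  rw [rho_cyc A y (fun k => N (k + 1)) i, rho_cyc A y N i] at h2
  have h0 := s3_0 h i
  have e1 : dlt' (sy A) y (fun k => sy (N (k + 1))) 0 = dlt' (sy A) y (fun k => sy (N k)) 1 :=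
    dlt'_cyc (sy A) y (fun k => sy (N k)) 0
  have e2 : dlt' (sy A) y (fun k => sy (N (k + 1 + 1))) 0 = dlt' (sy A) y (fun k => sy (N k)) 2 :=
    (dlt'_cyc (sy A) y (fun k => sy (N (k + 1))) 0).trans (dlt'_cyc (sy A) y (fun k => sy (N k)) 1)
  rw [e1] at h1
  rw [e2] at h2
  generalize rho (sy A) y (fun k => sy (N k)) i = r at *
  generalize dlt' (sy A) y (fun k => sy (N k)) = e at *
  fin_cases k
  · exact h0
  · exact h1
  · exact h2

theorem kr1_D (A N1 N2 : Fin 6 → R) (y : Fin 3 → R) :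
    krN (sy A) ![adj (sy A) + out y, sy N1, sy N2] 1 = cr (mv (sy N2) (mv (sy A) y)) y := by
  funext i
  fin_cases i <;>
  · simp [krN, mv, dt, axv, mm, sy, adj, out, cr, Matrix.add_apply, f11, f12]
    ring

theorem kr2_D (A N1 N2 : Fin 6 → R) (y : Fin 3 → R) :
    krN (sy A) ![adj (sy A) + out y, sy N1, sy N2] 2 = cr y (mv (sy N1) (mv (sy A) y)) := by
  funext i
  fin_cases i <;>
  · simp [krN, mv, dt, axv, mm, sy, adj, out, cr, Matrix.add_apply, f21, f22]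
    ring

theorem det_cr (k a b y : Fin 3 → R) :
    det3 (![k, cr a y, cr y b] : Matrix (Fin 3) (Fin 3) R) = dt y k * det3 (![a, y, b] : Matrix (Fin 3) (Fin 3) R) := by
  simp [det3, cr, dt]
  ring

theorem g10_core (A N1 N2 : Fin 6 → R) (y : Fin 3 → R) :
    2 * det3 (![mv (sy N2) (mv (sy A) y), y, mv (sy N1) (mv (sy A) y)] : Matrix (Fin 3) (Fin 3) R)
      = dt y (axv (mm (mm (sy N1) (sy A)) (sy N2))) * (8 * det3 (sy A) + 2 * dt y (mv (sy A) y))
        + J3P y (adj (sy A)) ![adj (sy A) + out y, sy N1, sy N2] := by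
  simp [det3, J3P, J3, jt, mv, dt, axv, mm, tr3, crs, ev, sy, adj, out, Fin.sum_univ_three,
      Matrix.add_apply]
  ring

end Pool.Agent.ENR
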