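import Pool.Agent.ENR.Open3

/-! the special parameters `n = t^2 · 1` -/

namespace Pool.Agent.ENR

open Matrix

/-- diagonal parameter -/
def dg {R : Type*} [CommRing R] (s : R) (k j : Fin 3) : R := if k = j then s else 0

section special
variable {R : Type*} [CommRing R]

theorem qT_dg (t : R) (x y : Fin 3 → R) (j : Fin 3) :
    qT t (dg (t ^ 2)) x y j = th t * x j ^ 2 + y (j + 1) * y (j + 2) - t ^ 2 * y j ^ 2 := by
  fin_cases j <;> simp [qT, dl, ofd, adj, hes, hv, sy, dg, th, f01, f02, f11, f12, f21, f22] <;> ring

theorem KM_dg (t : R) (x : Fin 3 → R) (i j : Fin 3) :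
    KM (hes t x) (Nn (dg (t ^ 2))) i j = (- th t) * hes (-t) x i j := by
  fin_cases i <;> fin_cases j <;>
    simp [KM, krN, axv, mm, hes, hv, sy, Nn, gv, ev, dg, th, f01, f02, f11, f12, f21, f22] <;> ring

end special

variable {t : ℂ}

theorem zero_of_b {t : ℂ} (ht : t ≠ 0) (ht6 : t ^ 6 ≠ 1) {y : Fin 3 → ℂ}
    (h : ∀ j, y (j + 1) * y (j + 2) - t ^ 2 * y j ^ 2 = 0) : y = 0 := by
  have h0 := h 0
  have h1 := h 1
  have h2 := h 2
  simp only [f01, f02, f11, f12, f21, f22] at h0 h1 h2
  have ht2 : t ^ 2 ≠ 0 := pow_ne_zero 2 ht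
  have hp : (y 0 * y 1 * y 2) ^ 2 * (1 - t ^ 6) = 0 := by
    linear_combination (y 0 * y 2 * (y 0 * y 1)) * h0 + (t ^ 2 * y 0 ^ 2 * (y 0 * y 1)) * h1
      + (t ^ 4 * y 0 ^ 2 * y 1 ^ 2) * h2
  have hq : y 0 * y 1 * y 2 = 0 := by
    have := (mul_eq_zero.mp hp).resolve_right (sub_ne_zero.mpr (Ne.symm ht6))
    exact pow_eq_zero_iff (two_ne_zero) |>.mp this
  have fin : ∀ a : ℂ, t ^ 2 * a ^ 2 = 0 → a = 0 := by
    intro a ha
    have := (mul_eq_zero.mp ha).resolve_left ht2
    exact pow_eq_zero_iff (two_ne_zero) |>.mp this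
  have all : y 0 = 0 ∧ y 1 = 0 ∧ y 2 = 0 := by
    rcases mul_eq_zero.mp hq with h3 | h3
    · rcases mul_eq_zero.mp h3 with h4 | h4
      · refine ⟨h4, fin _ ?_, fin _ ?_⟩
        · rw [h4] at h1; linear_combination -h1
        · rw [h4] at h2; linear_combination -h2
      · refine ⟨fin _ ?_, h4, fin _ ?_⟩
        · rw [h4] at h0; linear_combination -h0
        · rw [h4] at h2; linear_combination -h2
    · refine ⟨fin _ ?_, fin _ ?_, h3⟩
      · rw [h3] at h0; linear_combination -h0
      · rw [h3] at h1; linear_combination -h1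
  funext i
  fin_cases i
  · exact all.1
  · exact all.2.1
  · exact all.2.2

theorem x_zero_of_adj {t : ℂ} (hth : th t ≠ 0) {x : Fin 3 → ℂ} (h : ∀ i j, adj (hes t x) i j = 0) : x = 0 := by
  funext i
  have h1 := pp_adj t x i i
  have h2 : adj (hes t x) = fun i j => 0 * adj (hes t x) i j := by
    funext i j; rw [h i j]; ring
  rw [h2, pp_smul, zero_mul] at h1
  have := (mul_eq_zero.mp h1.symm).resolve_left hth
  exact mul_self_eq_zero.mp this

theorem vgood_special {t : ℂ} (ht : t ≠ 0) (ht6 : t ^ 6 ≠ 1) : VGood t (dg (t ^ 2)) := by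
  have hth : th t ≠ 0 := by
    intro h
    apply ht6
    have : t * (t ^ 3 - 1) = 0 := by unfold th at h; linear_combination h
    have h3 : t ^ 3 = 1 := sub_eq_zero.mp ((mul_eq_zero.mp this).resolve_left ht)
    calc t ^ 6 = (t ^ 3) ^ 2 := by ring
      _ = 1 := by rw [h3]; ring
  have hthn : th (-t) ≠ 0 := by
    intro h
    apply ht6
    have : t * (t ^ 3 + 1) = 0 := by unfold th at h; linear_combination h
    have h3 : t ^ 3 = -1 := by
      have := (mul_eq_zero.mp this).resolve_left ht
      linear_combination this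
    calc t ^ 6 = (t ^ 3) ^ 2 := by ring
      _ = 1 := by rw [h3]; ring
  have qz : ∀ (y : Fin 3 → ℂ) (j : Fin 3), qT t (dg (t ^ 2)) 0 y j = y (j + 1) * y (j + 2) - t ^ 2 * y j ^ 2 := by
    intro y j; rw [qT_dg]; simp
  refine { hth := hth, c2 := ?_, c6 := ?_, c3 := ?_, c4 := ?_, c5 := ?_ }
  · intro y hy
    by_contra hcon
    push Not at hcon
    apply hy
    apply zero_of_b ht ht6
    intro j
    rw [← qz]; exact hcon j
  · intro x hx
    by_contra hcon
    push Not at hcon
    apply hx
    funext j
    have := hcon j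
    rw [qT_dg] at this
    simp only [Pi.zero_apply] at this
    have h2 : th t * x j ^ 2 = 0 := by linear_combination this
    exact pow_eq_zero_iff (two_ne_zero) |>.mp ((mul_eq_zero.mp h2).resolve_left hth)
  · intro x hx
    by_contra hcon
    push Not at hcon
    apply hx
    apply x_zero_of_adj hthn
    intro i j
    have h1 : KM (hes t x) (Nn (dg (t ^ 2))) = fun i j => (- th t) * hes (-t) x i j := by
      funext i j; exact KM_dg t x i j
    have := hcon i j
    rw [h1, adj_smul] at this
    exact (mul_eq_zero.mp this).resolve_left (pow_ne_zero 2 (neg_ne_zero.mpr hth))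
  · intro x y hx hD
    by_contra hcon
    push Not at hcon
    have w1 := w_zero hD
    have w2 : ∀ i, mv (hes (-t) x) y i = 0 := by
      intro i
      have := hcon i
      rw [de_eq] at this
      have h2 : mv (KM (hes t x) (Nn (dg (t ^ 2)))) y i = (- th t) * mv (hes (-t) x) y i := by
        simp only [mv, dt, KM_dg]; ring
      rw [h2] at this
      exact (mul_eq_zero.mp this).resolve_left (neg_ne_zero.mpr hth)
    have a0 := w1 0
    have a1 := w1 1
    have a2 := w1 2
    have b0 := w2 0
    have b1 := w2 1
    have b2 := w2 2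
    simp only [mv, dt, hes, hv, sy, Matrix.of_apply, Matrix.cons_val', Matrix.cons_val] at a0 a1 a2 b0 b1 b2
    have p0 : x 0 * y 0 = 0 := by linear_combination (a0 + b0) / 2
    have p1 : x 1 * y 1 = 0 := by linear_combination (a1 + b1) / 2
    have p2 : x 2 * y 2 = 0 := by linear_combination (a2 + b2) / 2
    have r0 : x 2 * y 1 + x 1 * y 2 = 0 := by
      have : t * (x 2 * y 1 + x 1 * y 2) = 0 := by linear_combination (a0 - b0) / 2
      exact (mul_eq_zero.mp this).resolve_left ht
    have r1 : x 2 * y 0 + x 0 * y 2 = 0 := by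
      have : t * (x 2 * y 0 + x 0 * y 2) = 0 := by linear_combination (a1 - b1) / 2
      exact (mul_eq_zero.mp this).resolve_left ht
    have r2 : x 1 * y 0 + x 0 * y 1 = 0 := by
      have : t * (x 1 * y 0 + x 0 * y 1) = 0 := by linear_combination (a2 - b2) / 2
      exact (mul_eq_zero.mp this).resolve_left ht
    have hy : y ≠ 0 := by
      rintro rfl
      apply hx
      apply x_zero_of_adj hth
      intro i j
      have := hD i j
      simpa using this
    obtain ⟨p, hp⟩ : ∃ p, y p ≠ 0 := Function.ne_iff.mp hy
    apply hx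
    fin_cases p
    · have x0 : x 0 = 0 := (mul_eq_zero.mp p0).resolve_right hp
      have x1 : x 1 = 0 := by
        rw [x0, zero_mul, add_zero] at r2; exact (mul_eq_zero.mp r2).resolve_right hp
      have x2 : x 2 = 0 := by
        rw [x0, zero_mul, add_zero] at r1; exact (mul_eq_zero.mp r1).resolve_right hp
      funext i; fin_cases i
      · exact x0
      · exact x1
      · exact x2
    · have x1 : x 1 = 0 := (mul_eq_zero.mp p1).resolve_right hp
      have x0 : x 0 = 0 := by
        rw [x1, zero_mul, zero_add] at r2; exact (mul_eq_zero.mp r2).resolve_right hp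
      have x2 : x 2 = 0 := by
        rw [x1, zero_mul, add_zero] at r0; exact (mul_eq_zero.mp r0).resolve_right hp
      funext i; fin_cases i
      · exact x0
      · exact x1
      · exact x2
    · have x2 : x 2 = 0 := (mul_eq_zero.mp p2).resolve_right hp
      have x0 : x 0 = 0 := by
        rw [x2, zero_mul, zero_add] at r1; exact (mul_eq_zero.mp r1).resolve_right hp
      have x1 : x 1 = 0 := by
        rw [x2, zero_mul, zero_add] at r0; exact (mul_eq_zero.mp r0).resolve_right hp
      funext i; fin_cases i
      · exact x0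
      · exact x1
      · exact x2
  · intro x y hxy hT c hc
    have hB : ∀ (ξ η : Fin 3 → ℂ) (j : Fin 3), qB t (dg (t ^ 2)) x y ξ η j
        = 2 * th t * x j * ξ j + y (j + 1) * η (j + 2) + y (j + 2) * η (j + 1) - 2 * t ^ 2 * y j * η j := by
      intro ξ η j
      unfold qB
      rw [qT_dg, qT_dg, qT_dg]; ring
    have hx : ∀ m, c m * x m = 0 := by
      intro m
      have := hc (ev m) 0
      simp only [hB, Fin.sum_univ_three] at this
      have h2 : 2 * th t * (c m * x m) = 0 := by
        fin_cases m <;> simp [ev] at this ⊢ <;> simpa [hth] using this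
      have h3 : 2 * th t ≠ 0 := mul_ne_zero two_ne_zero hth
      exact (mul_eq_zero.mp h2).resolve_left h3
    have g0 : c 1 * y 2 + c 2 * y 1 - 2 * t ^ 2 * c 0 * y 0 = 0 := by
      have := hc 0 (ev 0)
      simp [hB, Fin.sum_univ_three, ev, f01, f02, f11, f12, f21, f22] at this
      linear_combination this
    have g1 : c 2 * y 0 + c 0 * y 2 - 2 * t ^ 2 * c 1 * y 1 = 0 := by
      have := hc 0 (ev 1)
      simp [hB, Fin.sum_univ_three, ev, f01, f02, f11, f12, f21, f22] at this
      linear_combination this
    have g2 : c 0 * y 1 + c 1 * y 0 - 2 * t ^ 2 * c 2 * y 2 = 0 := by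
      have := hc 0 (ev 2)
      simp [hB, Fin.sum_univ_three, ev, f01, f02, f11, f12, f21, f22] at this
      linear_combination this
    have hTj : ∀ j, th t * x j ^ 2 + y (j + 1) * y (j + 2) - t ^ 2 * y j ^ 2 = 0 := by
      intro j; rw [← qT_dg]; exact hT j
    -- `y = 0` is impossible
    have yne : y ≠ 0 := by
      rintro rfl
      have : x = 0 := by
        funext j
        have := hTj j
        simp only [Pi.zero_apply] at this
        have h2 : th t * x j ^ 2 = 0 := by linear_combination this
        exact pow_eq_zero_iff (two_ne_zero) |>.mp ((mul_eq_zero.mp h2).resolve_left hth)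
      simp [this] at hxy
    have hb : ∀ j, c j ≠ 0 → y (j + 1) * y (j + 2) - t ^ 2 * y j ^ 2 = 0 := by
      intro j hj
      have h1 := (mul_eq_zero.mp (hx j)).resolve_left hj
      have h2 := hTj j
      rw [h1] at h2
      linear_combination h2
    have ht2 : t ^ 2 ≠ 0 := pow_ne_zero 2 ht
    have y3 : y 0 = 0 → y 1 = 0 → y 2 = 0 → False := by
      intro h0 h1 h2
      apply yne
      funext i; fin_cases i
      · exact h0
      · exact h1
      · exact h2
    have two2 : (2 : ℂ) * t ^ 2 ≠ 0 := mul_ne_zero two_ne_zero ht2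
    by_contra hc0
    by_cases c0 : c 0 = 0
    · by_cases c1 : c 1 = 0
      · by_cases c2 : c 2 = 0
        · apply hc0; funext i; fin_cases i
          · exact c0
          · exact c1
          · exact c2
        · rw [c0, c1] at g0 g1 g2
          have e1 : c 2 * y 1 = 0 := by linear_combination g0
          have e2 : c 2 * y 0 = 0 := by linear_combination g1
          have e3 : 2 * t ^ 2 * (c 2 * y 2) = 0 := by linear_combination -g2
          exact y3 ((mul_eq_zero.mp e2).resolve_left c2) ((mul_eq_zero.mp e1).resolve_left c2)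
            ((mul_eq_zero.mp ((mul_eq_zero.mp e3).resolve_left two2)).resolve_left c2)
      · by_cases c2 : c 2 = 0
        · rw [c0, c2] at g0 g1 g2
          have e1 : c 1 * y 2 = 0 := by linear_combination g0
          have e2 : 2 * t ^ 2 * (c 1 * y 1) = 0 := by linear_combination -g1
          have e3 : c 1 * y 0 = 0 := by linear_combination g2
          exact y3 ((mul_eq_zero.mp e3).resolve_left c1)
            ((mul_eq_zero.mp ((mul_eq_zero.mp e2).resolve_left two2)).resolve_left c1)
            ((mul_eq_zero.mp e1).resolve_left c1)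
        · -- c0 = 0, c1, c2 nonzero
          have b1 := hb 1 c1
          have b2 := hb 2 c2
          simp only [f11, f12, f21, f22] at b1 b2
          rw [c0] at g0 g1 g2
          have k1 : t ^ 2 * 3 * (c 1 * c 2 * y 1 ^ 2) = 0 := by
            linear_combination -c 1 * c 2 * b1 + c 1 * y 2 * g1 + (2 * t ^ 2 * c 1 * y 1) * g0
          have hy1 : y 1 = 0 := by
            have := (mul_eq_zero.mp k1).resolve_left (mul_ne_zero ht2 three_ne_zero)
            exact pow_eq_zero_iff (two_ne_zero) |>.mp ((mul_eq_zero.mp this).resolve_left (mul_ne_zero c1 c2))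
          rw [hy1] at g0 g1
          have hy2 : y 2 = 0 := (mul_eq_zero.mp (show c 1 * y 2 = 0 by linear_combination g0)).resolve_left c1
          have hy0 : y 0 = 0 := (mul_eq_zero.mp (show c 2 * y 0 = 0 by linear_combination g1)).resolve_left c2
          exact y3 hy0 hy1 hy2
    · by_cases c1 : c 1 = 0
      · by_cases c2 : c 2 = 0
        · rw [c1, c2] at g0 g1 g2
          have e1 : 2 * t ^ 2 * (c 0 * y 0) = 0 := by linear_combination -g0
          have e2 : c 0 * y 2 = 0 := by linear_combination g1
          have e3 : c 0 * y 1 = 0 := by linear_combination g2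
          exact y3 ((mul_eq_zero.mp ((mul_eq_zero.mp e1).resolve_left two2)).resolve_left c0)
            ((mul_eq_zero.mp e3).resolve_left c0) ((mul_eq_zero.mp e2).resolve_left c0)
        · -- c1 = 0
          have b0 := hb 0 c0
          have b2 := hb 2 c2
          simp only [f01, f02, f21, f22] at b0 b2
          rw [c1] at g0 g1 g2
          have k1 : t ^ 2 * 3 * (c 2 * c 0 * y 2 ^ 2) = 0 := by
            linear_combination -c 2 * c 0 * b2 + c 2 * y 0 * g2 + (2 * t ^ 2 * c 2 * y 2) * g1
          have hy2 : y 2 = 0 := by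
            have := (mul_eq_zero.mp k1).resolve_left (mul_ne_zero ht2 three_ne_zero)
            exact pow_eq_zero_iff (two_ne_zero) |>.mp ((mul_eq_zero.mp this).resolve_left (mul_ne_zero c2 c0))
          rw [hy2] at g1 g2
          have hy0 : y 0 = 0 := (mul_eq_zero.mp (show c 2 * y 0 = 0 by linear_combination g1)).resolve_left c2
          have hy1 : y 1 = 0 := (mul_eq_zero.mp (show c 0 * y 1 = 0 by linear_combination g2)).resolve_left c0
          exact y3 hy0 hy1 hy2
      · by_cases c2 : c 2 = 0
        · have b0 := hb 0 c0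
          have b1 := hb 1 c1
          simp only [f01, f02, f11, f12] at b0 b1
          rw [c2] at g0 g1 g2
          have k1 : t ^ 2 * 3 * (c 0 * c 1 * y 0 ^ 2) = 0 := by
            linear_combination -c 0 * c 1 * b0 + c 0 * y 1 * g0 + (2 * t ^ 2 * c 0 * y 0) * g2
          have hy0 : y 0 = 0 := by
            have := (mul_eq_zero.mp k1).resolve_left (mul_ne_zero ht2 three_ne_zero)
            exact pow_eq_zero_iff (two_ne_zero) |>.mp ((mul_eq_zero.mp this).resolve_left (mul_ne_zero c0 c1))
          rw [hy0] at g0 g2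
          have hy2 : y 2 = 0 := (mul_eq_zero.mp (show c 1 * y 2 = 0 by linear_combination g0)).resolve_left c1
          have hy1 : y 1 = 0 := (mul_eq_zero.mp (show c 0 * y 1 = 0 by linear_combination g2)).resolve_left c0
          exact y3 hy0 hy1 hy2
        · apply yne
          apply zero_of_b ht ht6
          intro j
          apply hb
          fin_cases j
          · exact c0
          · exact c1
          · exact c2

end Pool.Agent.ENR
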