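import Mathlib

/-! smoothness of the special cubic: pure algebra -/

namespace Pool.Agent.ENR

theorem two_eq {c d q : ℂ} (hq : q ≠ 0) (hc : c ≠ 0) (h3 : c ^ 2 * d = q ^ 3)
    (e : 8 * c ^ 2 * (c + d) + 12 * q * c ^ 2 + 3 * q ^ 2 * c - 4 * q ^ 3 = 0)
    (D : c = d ∨ 8 * (c * c + c * d + c * d) + 12 * q * (c + d) + 3 * q ^ 2 = 0) : False := by
  rcases D with rfl | D
  · have h4 : 3 * q * (4 * q ^ 2 + 4 * c ^ 2 + q * c) = 0 := by linear_combination e - 16 * h3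
    have h5 : 4 * q ^ 2 + 4 * c ^ 2 + q * c = 0 :=
      (mul_eq_zero.mp h4).resolve_left (mul_ne_zero three_ne_zero hq)
    have h6 : (c - q) * (c ^ 2 + c * q + q ^ 2) = 0 := by linear_combination h3
    rcases mul_eq_zero.mp h6 with h7 | h7
    · have hcq : c = q := sub_eq_zero.mp h7
      rw [hcq] at h5
      have : 9 * q ^ 2 = 0 := by linear_combination h5
      have := (mul_eq_zero.mp this).resolve_left (by norm_num)
      exact hq (pow_eq_zero_iff (two_ne_zero) |>.mp this)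
    · have : 3 * (q * c) = 0 := by linear_combination 4 * h7 - h5
      exact mul_ne_zero three_ne_zero (mul_ne_zero hq hc) this
  · have h4 : 12 * q * (q ^ 2 + c * d) = 0 := by
      linear_combination c * D - e - 8 * h3
    have h5 : q ^ 2 + c * d = 0 :=
      (mul_eq_zero.mp h4).resolve_left (mul_ne_zero (by norm_num) hq)
    have h6 : q ^ 2 * (c + q) = 0 := by linear_combination c * h5 - h3
    have h7 : c = -q := by
      have := (mul_eq_zero.mp h6).resolve_left (pow_ne_zero 2 hq)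
      linear_combination this
    rw [h7] at e h3
    have h8 : 5 * q ^ 3 = 0 := by
      linear_combination e - 8 * h3
    have := (mul_eq_zero.mp h8).resolve_left (by norm_num)
    exact hq (pow_eq_zero_iff (three_ne_zero) |>.mp this)

/-- the core case: no solution with `R0 R1 R2 ≠ 0`. -/
theorem core3 {c0 c1 c2 q : ℂ} (hq : q ≠ 0) (h0 : c0 ≠ 0) (h1 : c1 ≠ 0) (h2 : c2 ≠ 0)
    (h3 : c0 * c1 * c2 = q ^ 3)
    (e0 : 8 * c0 ^ 2 * (c1 + c2) + 12 * q * c0 ^ 2 + 3 * q ^ 2 * c0 - 4 * q ^ 3 = 0)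
    (e1 : 8 * c1 ^ 2 * (c2 + c0) + 12 * q * c1 ^ 2 + 3 * q ^ 2 * c1 - 4 * q ^ 3 = 0)
    (e2 : 8 * c2 ^ 2 * (c0 + c1) + 12 * q * c2 ^ 2 + 3 * q ^ 2 * c2 - 4 * q ^ 3 = 0) : False := by
  have d01 : c0 = c1 ∨ 8 * (c0 * c1 + c0 * c2 + c1 * c2) + 12 * q * (c0 + c1) + 3 * q ^ 2 = 0 := by
    have : (c0 - c1) * (8 * (c0 * c1 + c0 * c2 + c1 * c2) + 12 * q * (c0 + c1) + 3 * q ^ 2) = 0 := by
      linear_combination e0 - e1
    rcases mul_eq_zero.mp this with h | h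
    · exact Or.inl (sub_eq_zero.mp h)
    · exact Or.inr h
  have d12 : c1 = c2 ∨ 8 * (c0 * c1 + c0 * c2 + c1 * c2) + 12 * q * (c1 + c2) + 3 * q ^ 2 = 0 := by
    have : (c1 - c2) * (8 * (c0 * c1 + c0 * c2 + c1 * c2) + 12 * q * (c1 + c2) + 3 * q ^ 2) = 0 := by
      linear_combination e1 - e2
    rcases mul_eq_zero.mp this with h | h
    · exact Or.inl (sub_eq_zero.mp h)
    · exact Or.inr h
  have d02 : c0 = c2 ∨ 8 * (c0 * c1 + c0 * c2 + c1 * c2) + 12 * q * (c0 + c2) + 3 * q ^ 2 = 0 := by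
    have : (c0 - c2) * (8 * (c0 * c1 + c0 * c2 + c1 * c2) + 12 * q * (c0 + c2) + 3 * q ^ 2) = 0 := by
      linear_combination e0 - e2
    rcases mul_eq_zero.mp this with h | h
    · exact Or.inl (sub_eq_zero.mp h)
    · exact Or.inr h
  by_cases h01 : c0 = c1
  · subst h01
    apply two_eq (c := c0) (d := c2) hq h0 (by linear_combination h3) (by linear_combination e0)
    rcases d02 with h | h
    · exact Or.inl h
    · exact Or.inr (by linear_combination h)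
  · have D01 := d01.resolve_left h01
    by_cases h12 : c1 = c2
    · subst h12
      apply two_eq (c := c1) (d := c0) hq h1 (by linear_combination h3) (by linear_combination e1)
      exact Or.inr (by linear_combination D01)
    · have D12 := d12.resolve_left h12
      have : 12 * q * (c0 - c2) = 0 := by linear_combination D01 - D12
      have h02 : c0 = c2 :=
        sub_eq_zero.mp ((mul_eq_zero.mp this).resolve_left (mul_ne_zero (by norm_num) hq))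
      subst h02
      apply two_eq (c := c0) (d := c1) hq h0 (by linear_combination h3) (by linear_combination e0)
      exact Or.inr (by linear_combination D01)

/-- one vanishing coordinate, cyclic form -/
theorem one_zero {a0 a1 a2 R1 R2 : ℂ}
    (H0 : R1 * R2 = 0)
    (H1 : 6 * a1 * R1 + 2 * R1 ^ 2 = 0) (H2 : 6 * a2 * R2 + 2 * R2 ^ 2 = 0)
    (K1 : 48 * a1 ^ 2 + 64 * a1 * R1 + 12 * R1 ^ 2 + 16 * (a0 * R2) = 0)
    (K2 : 48 * a2 ^ 2 + 64 * a2 * R2 + 12 * R2 ^ 2 + 16 * (a0 * R1) = 0) : R1 = 0 ∧ R2 = 0 := by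
  have key : ∀ a R : ℂ, 6 * a * R + 2 * R ^ 2 = 0 → 48 * a ^ 2 + 64 * a * R + 12 * R ^ 2 = 0 → R = 0 := by
    intro a R h k
    have : 12 * R ^ 4 = 0 := by
      linear_combination (-3 * R ^ 2) * k + (24 * a * R + 24 * R ^ 2) * h
    have := (mul_eq_zero.mp this).resolve_left (by norm_num)
    exact pow_eq_zero_iff (by norm_num) |>.mp this
  rcases mul_eq_zero.mp H0 with h | h
  · subst h
    exact ⟨rfl, key a2 R2 H2 (by linear_combination K2)⟩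
  · subst h
    exact ⟨key a1 R1 H1 (by linear_combination K1), rfl⟩

theorem hat_zero {a0 a1 a2 R0 R1 R2 : ℂ}
    (H0 : 6 * a0 * R0 + 2 * R0 ^ 2 + R1 * R2 = 0)
    (H1 : 6 * a1 * R1 + 2 * R1 ^ 2 + R2 * R0 = 0)
    (H2 : 6 * a2 * R2 + 2 * R2 ^ 2 + R0 * R1 = 0)
    (K0 : 48 * a0 ^ 2 + 64 * a0 * R0 + 12 * R0 ^ 2 + 16 * (a1 * R2 + a2 * R1) + 15 * (R1 * R2) = 0)
    (K1 : 48 * a1 ^ 2 + 64 * a1 * R1 + 12 * R1 ^ 2 + 16 * (a2 * R0 + a0 * R2) + 15 * (R2 * R0) = 0)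
    (K2 : 48 * a2 ^ 2 + 64 * a2 * R2 + 12 * R2 ^ 2 + 16 * (a0 * R1 + a1 * R0) + 15 * (R0 * R1) = 0) :
    (a0 = 0 ∧ a1 = 0 ∧ a2 = 0) ∧ (R0 = 0 ∧ R1 = 0 ∧ R2 = 0) := by
  have sq : ∀ a : ℂ, 48 * a ^ 2 = 0 → a = 0 := by
    intro a h
    have := (mul_eq_zero.mp h).resolve_left (by norm_num)
    exact pow_eq_zero_iff (two_ne_zero) |>.mp this
  have fin : R0 = 0 → R1 = 0 → R2 = 0 → (a0 = 0 ∧ a1 = 0 ∧ a2 = 0) ∧ (R0 = 0 ∧ R1 = 0 ∧ R2 = 0) := by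
    intro h0 h1 h2
    subst h0; subst h1; subst h2
    exact ⟨⟨sq _ (by linear_combination K0), sq _ (by linear_combination K1), sq _ (by linear_combination K2)⟩,
      rfl, rfl, rfl⟩
  by_cases r0 : R0 = 0
  · subst r0
    obtain ⟨h1, h2⟩ := one_zero (a0 := a0) (a1 := a1) (a2 := a2) (R1 := R1) (R2 := R2)
      (by linear_combination H0) (by linear_combination H1) (by linear_combination H2)
      (by linear_combination K1) (by linear_combination K2)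
    exact fin rfl h1 h2
  by_cases r1 : R1 = 0
  · subst r1
    obtain ⟨h1, h2⟩ := one_zero (a0 := a1) (a1 := a2) (a2 := a0) (R1 := R2) (R2 := R0)
      (by linear_combination H1) (by linear_combination H2) (by linear_combination H0)
      (by linear_combination K2) (by linear_combination K0)
    exact fin h2 rfl h1
  by_cases r2 : R2 = 0
  · subst r2
    obtain ⟨h1, h2⟩ := one_zero (a0 := a2) (a1 := a0) (a2 := a1) (R1 := R0) (R2 := R1)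
      (by linear_combination H2) (by linear_combination H0) (by linear_combination H1)
      (by linear_combination K0) (by linear_combination K1)
    exact fin h1 h2 rfl
  exfalso
  have E : ∀ a b c P Q S : ℂ, P ≠ 0 → 6 * a * P + 2 * P ^ 2 + Q * S = 0 → 6 * b * Q + 2 * Q ^ 2 + S * P = 0 →
      6 * c * S + 2 * S ^ 2 + P * Q = 0 →
      48 * a ^ 2 + 64 * a * P + 12 * P ^ 2 + 16 * (b * S + c * Q) + 15 * (Q * S) = 0 →
      8 * (P ^ 3) ^ 2 * (Q ^ 3 + S ^ 3) + 12 * (P * Q * S) * (P ^ 3) ^ 2 + 3 * (P * Q * S) ^ 2 * P ^ 3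
        - 4 * (P * Q * S) ^ 3 = 0 := by
    intro a b c P Q S hP ha hb hc hk
    linear_combination (P ^ 3) * ((-3 * P ^ 2 * Q * S) * hk + (Q * S * (24 * a * P - 8 * P ^ 2 - 4 * Q * S + 32 * P ^ 2)) * ha
      + 8 * P ^ 2 * S ^ 2 * hb + 8 * P ^ 2 * Q ^ 2 * hc)
  apply core3 (c0 := R0 ^ 3) (c1 := R1 ^ 3) (c2 := R2 ^ 3) (q := R0 * R1 * R2)
    (mul_ne_zero (mul_ne_zero r0 r1) r2) (pow_ne_zero 3 r0) (pow_ne_zero 3 r1) (pow_ne_zero 3 r2) (by ring)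
  · linear_combination E a0 a1 a2 R0 R1 R2 r0 H0 H1 H2 K0
  · linear_combination E a1 a2 a0 R1 R2 R0 r1 H1 H2 H0 K1
  · linear_combination E a2 a0 a1 R2 R0 R1 r2 H2 H0 H1 K2

/-- smoothness of the special cubic, in the original coordinates -/
theorem base_smooth {x y : Fin 3 → ℂ}
    (A0 : 2 * x 0 * y 0 + y 0 ^ 2 + 2 * (x 1 * y 2 + x 2 * y 1) + y 1 * y 2 = 0)
    (A1 : 2 * x 1 * y 1 + y 1 ^ 2 + 2 * (x 2 * y 0 + x 0 * y 2) + y 2 * y 0 = 0)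
    (A2 : 2 * x 2 * y 2 + y 2 ^ 2 + 2 * (x 0 * y 1 + x 1 * y 0) + y 0 * y 1 = 0)
    (B0 : 16 * x 0 ^ 2 + 32 * x 0 * y 0 + 9 * y 0 ^ 2 + 32 * x 1 * x 2 + 16 * (x 1 * y 2 + x 2 * y 1) + 3 * (y 1 * y 2) = 0)
    (B1 : 16 * x 1 ^ 2 + 32 * x 1 * y 1 + 9 * y 1 ^ 2 + 32 * x 2 * x 0 + 16 * (x 2 * y 0 + x 0 * y 2) + 3 * (y 2 * y 0) = 0)
    (B2 : 16 * x 2 ^ 2 + 32 * x 2 * y 2 + 9 * y 2 ^ 2 + 32 * x 0 * x 1 + 16 * (x 0 * y 1 + x 1 * y 0) + 3 * (y 0 * y 1) = 0) :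
    x = 0 ∧ y = 0 := by
  obtain ⟨w, hw⟩ : ∃ w : ℂ, w ^ 2 + w + 1 = 0 := by
    obtain ⟨w, hw⟩ := IsAlgClosed.exists_root (Polynomial.X ^ 2 + Polynomial.X + 1 : Polynomial ℂ) (by
      have : (Polynomial.X ^ 2 + Polynomial.X + 1 : Polynomial ℂ) = Polynomial.C 1 * Polynomial.X ^ 2 + Polynomial.C 1 * Polynomial.X + Polynomial.C 1 := by simp
      rw [this, Polynomial.degree_quadratic one_ne_zero]; decide)
    exact ⟨w, by simpa [Polynomial.IsRoot] using hw⟩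
  have h3 : w ^ 3 = 1 := by linear_combination (w - 1) * hw
  have key := hat_zero (a0 := x 0 + x 1 + x 2) (a1 := x 0 + w * x 1 + w ^ 2 * x 2) (a2 := x 0 + w ^ 2 * x 1 + w * x 2)
    (R0 := y 0 + y 1 + y 2) (R1 := y 0 + w * y 1 + w ^ 2 * y 2) (R2 := y 0 + w ^ 2 * y 1 + w * y 2)
    ?_ ?_ ?_ ?_ ?_ ?_
  · obtain ⟨⟨p0, p1, p2⟩, q0, q1, q2⟩ := key
    have x0 : x 0 = 0 := by linear_combination (p0 + p1 + p2) / 3 - (x 1 + x 2) / 3 * hw
    have y0 : y 0 = 0 := by linear_combination (q0 + q1 + q2) / 3 - (y 1 + y 2) / 3 * hw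
    have x1 : x 1 = 0 := by
      linear_combination (p0 + w ^ 2 * p1 + w * p2) / 3 - (x 0 / 3) * hw - (2 * x 1 / 3 + (w * x 2) / 3 + x 2 / 3 * 0) * h3 - (x 2 / 3) * hw
    have x2 : x 2 = 0 := by
      linear_combination p0 - x0 - x1
    have y1 : y 1 = 0 := by
      linear_combination (q0 + w ^ 2 * q1 + w * q2) / 3 - (y 0 / 3) * hw - (2 * y 1 / 3 + (w * y 2) / 3) * h3 - (y 2 / 3) * hw
    have y2 : y 2 = 0 := by
      linear_combination q0 - y0 - y1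
    constructor
    · funext i; fin_cases i
      · exact x0
      · exact x1
      · exact x2
    · funext i; fin_cases i
      · exact y0
      · exact y1
      · exact y2
  · linear_combination 3 * (A0 + (1) * A1 + (1) * A2) + (-1 * w * y 1 * y 2 + 1 * w * y 1 ^ 2 + 1 * w * y 2 ^ 2 + 1 * w ^ 2 * y 1 * y 2 + 1 * y 0 * y 1 + 1 * y 0 * y 2 + 1 * y 1 * y 2 - 1 * y 1 ^ 2 - 1 * y 2 ^ 2) * hw
  · linear_combination 3 * (A0 + (w ^ 2) * A1 + (w) * A2) + (6 * w * x 1 * y 2 + 6 * w * x 2 * y 1 - 6 * w * x 2 * y 2 + 4 * w * y 1 * y 2 - 2 * w * y 2 ^ 2 + 6 * w ^ 2 * x 2 * y 2 + 2 * w ^ 2 * y 2 ^ 2 - 6 * x 1 * y 2 - 6 * x 2 * y 1 + 1 * y 0 * y 1 + 1 * y 0 * y 2 - 3 * y 1 * y 2) * hw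
  · linear_combination 3 * (A0 + (w) * A1 + (w ^ 2) * A2) + (-6 * w * x 1 * y 1 + 6 * w * x 1 * y 2 + 6 * w * x 2 * y 1 + 4 * w * y 1 * y 2 - 2 * w * y 1 ^ 2 + 6 * w ^ 2 * x 1 * y 1 + 2 * w ^ 2 * y 1 ^ 2 - 6 * x 1 * y 2 - 6 * x 2 * y 1 + 1 * y 0 * y 1 + 1 * y 0 * y 2 - 3 * y 1 * y 2) * hw
  · linear_combination 3 * (B0 + (1) * B1 + (1) * B2) + (32 * w * x 1 * y 1 - 16 * w * x 1 * y 2 - 16 * w * x 2 * y 1 + 32 * w * x 2 * y 2 - 15 * w * y 1 * y 2 + 15 * w * y 1 ^ 2 + 15 * w * y 2 ^ 2 + 16 * w ^ 2 * x 1 * y 2 + 16 * w ^ 2 * x 2 * y 1 + 15 * w ^ 2 * y 1 * y 2 + 16 * x 0 * y 1 + 16 * x 0 * y 2 + 16 * x 1 * y 0 - 32 * x 1 * y 1 + 16 * x 1 * y 2 + 16 * x 2 * y 0 + 16 * x 2 * y 1 - 32 * x 2 * y 2 + 15 * y 0 * y 1 + 15 * y 0 * y 2 + 15 * y 1 * y 2 - 15 * y 1 ^ 2 - 15 * y 2 ^ 2) * hw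
  · linear_combination 3 * (B0 + (w ^ 2) * B1 + (w) * B2) + (96 * w * x 1 * x 2 + 64 * w * x 1 * y 2 + 64 * w * x 2 * y 1 - 64 * w * x 2 * y 2 - 48 * w * x 2 ^ 2 + 24 * w * y 1 * y 2 - 12 * w * y 2 ^ 2 + 64 * w ^ 2 * x 2 * y 2 + 48 * w ^ 2 * x 2 ^ 2 + 12 * w ^ 2 * y 2 ^ 2 + 16 * x 0 * y 1 + 16 * x 0 * y 2 - 96 * x 1 * x 2 + 16 * x 1 * y 0 - 48 * x 1 * y 2 + 16 * x 2 * y 0 - 48 * x 2 * y 1 + 15 * y 0 * y 1 + 15 * y 0 * y 2 - 9 * y 1 * y 2) * hw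
  · linear_combination 3 * (B0 + (w) * B1 + (w ^ 2) * B2) + (96 * w * x 1 * x 2 - 64 * w * x 1 * y 1 + 64 * w * x 1 * y 2 - 48 * w * x 1 ^ 2 + 64 * w * x 2 * y 1 + 24 * w * y 1 * y 2 - 12 * w * y 1 ^ 2 + 64 * w ^ 2 * x 1 * y 1 + 48 * w ^ 2 * x 1 ^ 2 + 12 * w ^ 2 * y 1 ^ 2 + 16 * x 0 * y 1 + 16 * x 0 * y 2 - 96 * x 1 * x 2 + 16 * x 1 * y 0 - 48 * x 1 * y 2 + 16 * x 2 * y 0 - 48 * x 2 * y 1 + 15 * y 0 * y 1 + 15 * y 0 * y 2 - 9 * y 1 * y 2) * hw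

end Pool.Agent.ENR
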