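import Pool.Agent.ENR.Base
import Pool.Agent.ENR.Base2

/-! the base point -/

namespace Pool.Agent.ENR

open Matrix

section base
variable {R : Type*} [CommRing R]

/-- the ten cubics at `t = -1`, `n = 1` -/
def gb (x y : Fin 3 → R) : Fin 10 → R := ![
  -2 * x 0 ^ 2 * y 1 - x 0 * y 0 * y 1 + 2 * x 1 ^ 2 * y 2 + 4 * x 1 * x 2 * y 1 + x 1 * y 1 * y 2 + 2 * x 2 ^ 2 * y 0 + x 2 * y 1 ^ 2,
  -2 * x 0 ^ 2 * y 2 - x 0 * y 0 * y 2 + 2 * x 1 ^ 2 * y 0 + 4 * x 1 * x 2 * y 2 + x 1 * y 2 ^ 2 + 2 * x 2 ^ 2 * y 1 + x 2 * y 1 * y 2,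
  2 * x 0 ^ 2 * y 2 + 4 * x 0 * x 2 * y 0 + x 0 * y 0 * y 2 - 2 * x 1 ^ 2 * y 0 - x 1 * y 0 * y 1 + 2 * x 2 ^ 2 * y 1 + x 2 * y 0 ^ 2,
  2 * x 0 ^ 2 * y 1 + 4 * x 0 * x 2 * y 2 + x 0 * y 2 ^ 2 - 2 * x 1 ^ 2 * y 2 - x 1 * y 1 * y 2 + 2 * x 2 ^ 2 * y 0 + x 2 * y 0 * y 2,
  2 * x 0 ^ 2 * y 1 + 4 * x 0 * x 1 * y 0 + x 0 * y 0 * y 1 + 2 * x 1 ^ 2 * y 2 + x 1 * y 0 ^ 2 - 2 * x 2 ^ 2 * y 0 - x 2 * y 0 * y 2,
  2 * x 0 ^ 2 * y 2 + 4 * x 0 * x 1 * y 1 + x 0 * y 1 ^ 2 + 2 * x 1 ^ 2 * y 0 + x 1 * y 0 * y 1 - 2 * x 2 ^ 2 * y 1 - x 2 * y 1 * y 2,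
  -4 * x 0 ^ 2 * y 0 - 4 * x 0 * x 2 * y 1 - x 0 * y 0 ^ 2 - x 0 * y 1 * y 2 + 4 * x 1 ^ 2 * y 1 + 4 * x 1 * x 2 * y 0 + x 1 * y 0 * y 2 + x 1 * y 1 ^ 2,
  -4 * x 0 * x 1 * y 2 + 4 * x 0 * x 2 * y 1 - 4 * x 1 ^ 2 * y 1 - x 1 * y 0 * y 2 - x 1 * y 1 ^ 2 + 4 * x 2 ^ 2 * y 2 + x 2 * y 0 * y 1 + x 2 * y 2 ^ 2,
  8 * (16 * (x 0 ^ 2 * y 0 + x 1 ^ 2 * y 1 + x 2 ^ 2 * y 2) + 32 * (x 0 * x 1 * y 2 + x 0 * x 2 * y 1 + x 1 * x 2 * y 0)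
    + 16 * (x 0 * y 0 ^ 2 + x 1 * y 1 ^ 2 + x 2 * y 2 ^ 2) + 16 * (x 0 * y 1 * y 2 + x 1 * y 0 * y 2 + x 2 * y 0 * y 1)
    + 3 * (y 0 ^ 3 + y 1 ^ 3 + y 2 ^ 3) + 3 * (y 0 * y 1 * y 2)),
  48 * x 0 ^ 3 + 20 * x 0 ^ 2 * y 0 - 144 * x 0 * x 1 * x 2 - 32 * x 0 * x 1 * y 2 - 32 * x 0 * x 2 * y 1 + 2 * x 0 * y 0 ^ 2
    - 4 * x 0 * y 1 * y 2 + 48 * x 1 ^ 3 + 20 * x 1 ^ 2 * y 1 - 32 * x 1 * x 2 * y 0 - 4 * x 1 * y 0 * y 2 + 2 * x 1 * y 1 ^ 2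
    + 48 * x 2 ^ 3 + 20 * x 2 ^ 2 * y 2 - 4 * x 2 * y 0 * y 1 + 2 * x 2 * y 2 ^ 2]

theorem net_base (d : Fin 3 → R) : net (dg 1) d = !![d 0, d 2, d 1; d 2, d 1, d 0; d 1, d 0, d 2] := by
  ext i j
  fin_cases i <;> fin_cases j <;> simp [net, ofd, dg, sy]

/-- the matrix with entries linear in `x` -/
def h1 (x : Fin 3 → R) : Matrix (Fin 3) (Fin 3) R := !![x 0, x 2, x 1; x 2, x 1, x 0; x 1, x 0, x 2]

theorem krN_base (u : Fin 3 → R) (k j : Fin 3) :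
    krN (hes (-1) u) (Nn (dg 1)) k j = - 2 * h1 u k j := by
  fin_cases k <;> fin_cases j <;>
    simp [krN, axv, mm, hes, hv, sy, Nn, gv, ev, dg, h1, f01, f02, f11, f12, f21, f22] <;> ring

theorem de_base (u v : Fin 3 → R) (k : Fin 3) :
    de (-1) (dg 1) u v k = -2 * dt v (h1 u k) := by
  have : krN (hes (-1) u) (Nn (dg 1)) k = fun j => - 2 * h1 u k j := by
    funext j; exact krN_base u k j
  unfold de dlt'
  rw [this]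
  simp only [dt]
  ring

theorem Qm_base (u v : Fin 3 → R) : Qm (-1) (dg 1) u v =
    fun i j => h1 (fun k => -2 * dt v (h1 u k)) i j - v i * v j := by
  funext i j
  unfold Qm
  have : de (-1) (dg 1) u v = fun k => -2 * dt v (h1 u k) := by funext k; exact de_base u v k
  rw [this, net_base]
  rfl

theorem Gz_base0 (x y : Fin 3 → R) (j : Fin 10) (hj : j ≠ 8) (hj' : j ≠ 9) : Gf (-1) (dg 1) x y j = gb x y j := by
  unfold Gf gb Zm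
  rw [Qm_base]
  fin_cases j
  all_goals first
    | exact absurd rfl hj
    | exact absurd rfl hj'
    | (simp [mm, hes, hv, sy, h1, dt]; ring)

theorem kc_base (P : Matrix (Fin 3) (Fin 3) R) (k : Fin 3) :
    kc (-1) (dg 1) P k = - 2 * ((![P 0 0 + P 2 1 + P 1 2, P 2 0 + P 1 1 + P 0 2, P 1 0 + P 0 1 + P 2 2] : Fin 3 → R) k) := by
  unfold kc
  simp only [krN_base]
  fin_cases k <;> simp [h1, ev, Fin.sum_univ_three] <;> ring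

theorem trN_base (u : Fin 3 → R) (k : Fin 3) : tr3 (mm (hes (-1) u) (Nn (dg 1) k)) = - u k := by
  fin_cases k <;> simp [tr3, mm, hes, hv, sy, Nn, gv, ev, dg]

theorem Nn_base (k : Fin 3) : Nn (dg 1) k = h1 (ev k : Fin 3 → R) := by
  ext i j
  fin_cases k <;> fin_cases i <;> fin_cases j <;> simp [Nn, gv, sy, ev, dg, h1]

theorem jt_base (a b c : Fin 3 → R) : jt a b c (Nn (dg 1)) =
    jt a b c (fun k => h1 (ev k)) := by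
  congr 1
  funext k
  exact Nn_base k

theorem J3_base (a b c : Fin 3 → R) : J3 a b c (Nn (dg 1)) =
    6 * (a 0 * b 0 * c 0 + a 1 * b 1 * c 1 + a 2 * b 2 * c 2)
      - 3 * (a 0 * b 1 * c 2 + a 0 * b 2 * c 1 + a 1 * b 0 * c 2 + a 1 * b 2 * c 0 + a 2 * b 0 * c 1 + a 2 * b 1 * c 0) := by
  unfold J3
  simp only [jt_base]
  simp [jt, tr3, mm, crs, h1, ev]
  ring

theorem J3P_base (a : Fin 3 → R) (P : Matrix (Fin 3) (Fin 3) R) : J3P a P (Nn (dg 1)) =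
    6 * (a 0 * P 0 0 + a 1 * P 1 1 + a 2 * P 2 2)
      - 3 * (a 0 * P 1 2 + a 0 * P 2 1 + a 1 * P 0 2 + a 1 * P 2 0 + a 2 * P 0 1 + a 2 * P 1 0) := by
  unfold J3P
  simp only [J3_base]
  simp [ev, Fin.sum_univ_three]
  ring

theorem th_base : th (-1 : R) = 2 := by unfold th; ring

theorem pp_base (P : Matrix (Fin 3) (Fin 3) R) : pp (-1) P =
   sy ![P 1 2 - P 0 0, P 2 0 - P 1 1, P 0 1 - P 2 2,
    P 1 2 + P 0 0, P 2 0 + P 1 1, P 0 1 + P 2 2] := by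
  unfold pp
  congr 1
  simp

theorem G9_base (x y : Fin 3 → R) : G9 (-1) (dg 1) x y = gb x y 8 := by
  unfold G9
  rw [J3P_base, J3_base, th_base, kc_base, kc_base, kc_base, trN_base, trN_base, trN_base, pp_base, Qm_base]
  simp [gb, tr3, mm, hes, hv, sy, h1, dt]
  ring

theorem G10_base (x y : Fin 3 → R) : G10 (-1) (dg 1) x y = gb x y 9 := by
  unfold G10
  have hK : KM (hes (-1) x) (Nn (dg 1)) = fun i j => - 2 * h1 x i j := by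
    funext i j
    exact krN_base x i j
  have : de (-1) (dg 1) x y = fun k => -2 * dt y (h1 x k) := by funext k; exact de_base x y k
  rw [J3P_base, hK, this, net_base]
  simp [gb, tr3, mm, hes, hv, sy, h1, dt, det3, adj, mv]
  ring

theorem Gz_base (z : Fin 6 → R) (j : Fin 10) : Gz (-1) (dg 1) z j = gb (fx z) (fy z) j := by
  unfold Gz
  by_cases h8 : j = 8
  · subst h8
    exact G9_base _ _
  · by_cases h9 : j = 9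
    · subst h9
      exact G10_base _ _
    · exact Gz_base0 _ _ j h8 h9

end base

end Pool.Agent.ENR
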