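import Pool.Agent.ENR.Base3

/-! the base point: smoothness, plane -/

namespace Pool.Agent.ENR

open Matrix

/-- curve of parameters -/
noncomputable def aC (t : ℂ) : PS :=
  Sum.elim (fun _ => t) (Sum.elim (fun p => dg (t ^ 2) p.1 p.2) (Sum.elim (Pi.single 8 1)
    (fun p => (1 : Matrix (Fin 6) (Fin 6) ℂ) p.1 p.2)))

theorem pt_aC (t : ℂ) : pt (aC t) = t := rfl
theorem pn_aC (t : ℂ) : pn (aC t) = dg (t ^ 2) := rfl
theorem pc_aC (t : ℂ) : pc (aC t) = Pi.single 8 1 := rfl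
theorem pg_aC (t : ℂ) : pg (aC t) = 1 := rfl

theorem famP_aC (t : ℂ) (z : Fin 6 → ℂ) : famP (aC t) z = Gz t (dg (t ^ 2)) z 8 := by
  unfold famP
  rw [pt_aC, pn_aC, pc_aC, pg_aC, fam_single, Matrix.one_mulVec]

theorem famP_base (z : Fin 6 → ℂ) : famP (aC (-1)) z = gb (fx z) (fy z) 8 := by
  rw [famP_aC]
  have : ((-1 : ℂ)) ^ 2 = 1 := by norm_num
  rw [this, Gz_base]

open MvPolynomial in
theorem grad_base (z : Fin 6 → ℂ) (h : ∀ i, gradF (aC (-1)) z i = 0) : z = 0 := by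
  let P : MvPolynomial (Fin 6) ℂ := 8 * (16 * (X 0 ^ 2 * X 3 + X 1 ^ 2 * X 4 + X 2 ^ 2 * X 5)
    + 32 * (X 0 * X 1 * X 5 + X 0 * X 2 * X 4 + X 1 * X 2 * X 3)
    + 16 * (X 0 * X 3 ^ 2 + X 1 * X 4 ^ 2 + X 2 * X 5 ^ 2) + 16 * (X 0 * X 4 * X 5 + X 1 * X 3 * X 5 + X 2 * X 3 * X 4)
    + 3 * (X 3 ^ 3 + X 4 ^ 3 + X 5 ^ 3) + 3 * (X 3 * X 4 * X 5))
  obtain ⟨F, hF0⟩ := exists_fam (pt (aC (-1))) (pn (aC (-1))) (pc (aC (-1))) (pg (aC (-1)))
  have hF : ∀ z, val F z = famP (aC (-1)) z := by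
    intro z
    unfold famP
    exact hF0 z
  have hP : form F = P := by
    apply MvPolynomial.funext
    intro z
    have := hF z
    rw [val] at this
    rw [this, famP_base]
    simp [P, gb, fx, fy]
  have hg : ∀ i, eval z (pderiv i P) = 0 := by
    intro i
    rw [← hP, ← gradF_eq hF]
    exact h i
  have h0 := hg 0
  have h1 := hg 1
  have h2 := hg 2
  have h3 := hg 3
  have h4 := hg 4
  have h5 := hg 5
  simp only [P] at h0 h1 h2 h3 h4 h5
  have e16 : ∀ i, pderiv i (16 : MvPolynomial (Fin 6) ℂ) = 0 := fun i => by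
    have : (16 : MvPolynomial (Fin 6) ℂ) = C 16 := (map_ofNat C 16).symm
    rw [this, pderiv_C]
  have e32 : ∀ i, pderiv i (32 : MvPolynomial (Fin 6) ℂ) = 0 := fun i => by
    have : (32 : MvPolynomial (Fin 6) ℂ) = C 32 := (map_ofNat C 32).symm
    rw [this, pderiv_C]
  have e8 : ∀ i, pderiv i (8 : MvPolynomial (Fin 6) ℂ) = 0 := fun i => by
    have : (8 : MvPolynomial (Fin 6) ℂ) = C 8 := (map_ofNat C 8).symm
    rw [this, pderiv_C]
  have e3 : ∀ i, pderiv i (3 : MvPolynomial (Fin 6) ℂ) = 0 := fun i => by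
    have : (3 : MvPolynomial (Fin 6) ℂ) = C 3 := (map_ofNat C 3).symm
    rw [this, pderiv_C]
  simp [e16, e32, e8, e3, pderiv_X, Pi.single_apply, Derivation.leibniz, Derivation.leibniz_pow] at h0 h1 h2 h3 h4 h5
  have key := base_smooth (x := fx z) (y := fy z)
    (by simp [fx, fy]; linear_combination (1 / 16) * h0)
    (by simp [fx, fy]; linear_combination (1 / 16) * h1)
    (by simp [fx, fy]; linear_combination (1 / 16) * h2)
    (by simp [fx, fy]; linear_combination h3)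
    (by simp [fx, fy]; linear_combination h4)
    (by simp [fx, fy]; linear_combination h5)
  by_contra hz
  rcases (ne_zero_iff z).mp hz with h | h
  · exact h key.1
  · exact h key.2

/-! ### the plane -/

/-- the plane -/
def pl (s : Fin 3 → ℂ) : Fin 6 → ℂ := ![0, - s 1, s 0, 2 * s 2, 2 * s 1, 0]

/-- basis of the plane -/
def plb (m : Fin 3) : Fin 6 → ℂ := pl (fun i => if i = m then 1 else 0)

theorem pl_eq (s : Fin 3 → ℂ) : (fun i => ∑ m, s m * plb m i) = pl s := by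
  funext i
  fin_cases i <;> simp [plb, pl, Fin.sum_univ_three] <;> ring

/-- ten points of the plane -/
def pls : Fin 10 → Fin 3 → ℂ := ![![1, 0, 0], ![0, 1, 0], ![0, 0, 1], ![1, 1, 0], ![1, -1, 0], ![1, 0, 1], ![1, 0, -1],
  ![0, 1, 1], ![0, 1, -1], ![1, 1, 1]]

/-- the matrix of values -/
def plM (t : ℂ) (n : Fin 3 → Fin 3 → ℂ) : Matrix (Fin 10) (Fin 10) ℂ := fun i j => Gz t n (pl (pls i)) j

theorem plane_of_det {t : ℂ} {n : Fin 3 → Fin 3 → ℂ} (h : (plM t n).det ≠ 0) : Plane t n := by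
  refine ⟨plb, ?_⟩
  rw [Fintype.linearIndependent_iff]
  intro c hc
  have hv : (plM t n).mulVec c = 0 := by
    funext i
    have := congrFun hc (pls i)
    simp only [pl_eq, Finset.sum_apply, Pi.smul_apply, smul_eq_mul, Pi.zero_apply] at this
    simp only [Matrix.mulVec, dotProduct, plM, Pi.zero_apply]
    rw [← this]
    exact Finset.sum_congr rfl fun j _ => mul_comm _ _
  by_contra hne
  push Not at hne
  obtain ⟨j, hj⟩ := hne
  exact h (Matrix.exists_mulVec_eq_zero_iff.mp ⟨c, fun h0 => hj (by rw [h0]; rfl), hv⟩)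

theorem plM_base (i : Fin 10) (j : Fin 10) : plM (-1) (dg 1) i j =
    (let a := pls i 0; let b := pls i 1; let c := pls i 2;
     ![-4 * a * b ^ 2 + 4 * a ^ 2 * c, 4 * b ^ 2 * c + 4 * a ^ 2 * b, 4 * a * c ^ 2 + 4 * a ^ 2 * b, 4 * a ^ 2 * c,
      -4 * b * c ^ 2 - 4 * a ^ 2 * c, -4 * a ^ 2 * b, 4 * b ^ 3 - 8 * a * b * c, -4 * b ^ 3 + 4 * a * b * c,
      192 * c ^ 3 - 64 * b ^ 3, -16 * b ^ 3 + 48 * a * b * c + 48 * a ^ 3] : Fin 10 → ℂ) j := by
  unfold plM
  rw [Gz_base]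
  simp only [pl, fx, fy]
  generalize pls i 0 = a
  generalize pls i 1 = b
  generalize pls i 2 = c
  fin_cases j <;> simp [gb] <;> ring

theorem det_base : (plM (-1) (dg 1)).det ≠ 0 := by
  intro h
  obtain ⟨c, hc, hM⟩ := Matrix.exists_mulVec_eq_zero_iff.mpr h
  apply hc
  have e : ∀ i, ∑ j, plM (-1) (dg 1) i j * c j = 0 := fun i => congrFun hM i
  simp only [plM_base] at e
  have e0 := e 0
  have e1 := e 1
  have e2 := e 2
  have e3 := e 3
  have e4 := e 4
  have e5 := e 5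
  have e6 := e 6
  have e7 := e 7
  have e8 := e 8
  have e9 := e 9
  simp [Fin.sum_univ_succ, pls] at e0 e1 e2 e3 e4 e5 e6 e7 e8 e9
  have c0 : c 0 = 0 := by linear_combination (1/4) * 48 * e0 + (-1/8) * e3 + (-1/8) * e4
  have c1 : c 1 = 0 := by linear_combination (-1/4) * 192 * e2 + (1/8) * e7 + (-1/8) * e8
  have c2 : c 2 = 0 := by linear_combination (-1/4) * 48 * e0 + (1/8) * e5 + (1/8) * e6
  have c3 : c 3 = 0 := by linear_combination (-1/4) * 48 * e0 + (1/4) * e1 + (-1/4) * 192 * e2 + (1/8) * e3 + (1/8) * e4 + (1/8) * e5 + (-1/8) * e6 + (-1/8) * e7 + (-1/8) * e8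
  have c4 : c 4 = 0 := by linear_combination (1/4) * e1 + (-1/8) * e7 + (-1/8) * e8
  have c5 : c 5 = 0 := by linear_combination (-1/4) * 48 * e0 + (1/4) * e1 + (-1/4) * 192 * e2 + (-1/8) * e3 + (1/8) * e4 + (1/8) * e5 + (1/8) * e6 + (1/8) * e7 + (-1/8) * e8
  have c6 : c 6 = 0 := by linear_combination (-1/12) * 48 * e0 + (-1/2) * e1 + (-1/3) * 192 * e2 + (1/4) * e3 + (1/4) * e5 + (1/4) * e7 + (-1/4) * e9
  have c7 : c 7 = 0 := by linear_combination (-1/6) * 48 * e0 + (-3/4) * e1 + (-5/12) * 192 * e2 + (1/4) * e3 + (1/4) * e5 + (1/4) * e7 + (-1/4) * e9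
  have c8 : c 8 = 0 := by linear_combination (1/192) * 192 * e2
  have c9 : c 9 = 0 := by linear_combination (1/48) * 48 * e0
  funext j
  fin_cases j
  · exact c0
  · exact c1
  · exact c2
  · exact c3
  · exact c4
  · exact c5
  · exact c6
  · exact c7
  · exact c8
  · exact c9

end Pool.Agent.ENR
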