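import Pool.Agent.ENR.Base4

/-! the nonempty open set of good parameters -/

namespace Pool.Agent.ENR

open Matrix

/-- good parameters -/
def Ug : Set PS := {a | VGood (pt a) (pn a)} ∩ {a | ∀ z, z ≠ 0 → ∃ i, gradF a z i ≠ 0} ∩
  {a | (plM (pt a) (pn a)).det ≠ 0} ∩ {a | (pg a).det ≠ 0}

theorem cont_plM {X : Type*} [TopologicalSpace X] {T : X → ℂ} (hT : Continuous T) {N : Fin 3 → Fin 3 → X → ℂ}
    (hN : ∀ k j, Continuous (N k j)) : Continuous fun a => (plM (T a) (fun k j => N k j a)).det := by
  apply Continuous.matrix_det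
  apply continuous_matrix
  intro i j
  exact cont_Gz hT hN _ j

theorem isOpen_Ug : IsOpen Ug := by
  refine ((isOpen_vgood.inter isOpen_smooth).inter ?_).inter ?_
  · have : Continuous fun a : PS => (plM (pt a) (fun k j => pn a k j)).det :=
      cont_plM (X := PS) (T := fun a => pt a) (continuous_apply _) (N := fun k j a => pn a k j)
        (fun k j => continuous_apply _)
    exact isOpen_ne_fun this continuous_const
  · have : Continuous fun a : PS => (pg a).det := by
      apply Continuous.matrix_det
      apply continuous_matrix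
      intro i j
      exact continuous_apply _
    exact isOpen_ne_fun this continuous_const

theorem cont_aC : Continuous aC := by
  apply continuous_pi
  intro p
  rcases p with u | p | j | p
  · exact continuous_id
  · show Continuous fun t : ℂ => dg (t ^ 2) p.1 p.2
    unfold dg
    by_cases h : p.1 = p.2
    · simp only [h, if_true]; fun_prop
    · simp only [h, if_false]; exact continuous_const
  · exact continuous_const
  · exact continuous_const

theorem nonempty_Ug : Ug.Nonempty := by
  let V : Set ℂ := aC ⁻¹' ({a | ∀ z, z ≠ 0 → ∃ i, gradF a z i ≠ 0}) ∩ {t | (plM t (dg (t ^ 2))).det ≠ 0}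
  have hV : IsOpen V := by
    refine (isOpen_smooth.preimage cont_aC).inter ?_
    have : Continuous fun t : ℂ => (plM t (fun k j => dg (t ^ 2) k j)).det := by
      apply cont_plM (T := fun t => t) continuous_id (N := fun k j t => dg (t ^ 2) k j)
      intro k j
      unfold dg
      by_cases h : k = j
      · simp only [h, if_true]; fun_prop
      · simp only [h, if_false]; exact continuous_const
    exact isOpen_ne_fun this continuous_const
  have h1 : (-1 : ℂ) ∈ V := by
    constructor
    · intro z hz
      by_contra h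
      push Not at h
      exact hz (grad_base z h)
    · have : ((-1 : ℂ)) ^ 2 = 1 := by norm_num
      show (plM (-1) (dg ((-1) ^ 2))).det ≠ 0
      rw [this]
      exact det_base
  obtain ⟨ε, hε, hb⟩ := Metric.isOpen_iff.mp hV _ h1
  let t : ℂ := -(1 + (ε / 2 : ℝ) : ℝ)
  have ht : t ∈ V := by
    apply hb
    rw [Metric.mem_ball, dist_eq_norm]
    have : t - -1 = ((-(ε / 2) : ℝ) : ℂ) := by
      simp only [t]; push_cast; ring
    rw [this, Complex.norm_real, Real.norm_eq_abs, abs_neg, abs_of_pos (by positivity)]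
    linarith
  have hn : ‖t‖ = 1 + ε / 2 := by
    simp only [t]
    rw [norm_neg, Complex.norm_real, Real.norm_eq_abs, abs_of_pos (by positivity)]
  have t0 : t ≠ 0 := by
    intro h
    rw [h, norm_zero] at hn
    linarith
  have t6 : t ^ 6 ≠ 1 := by
    intro h
    have h2 : ‖t‖ ^ 6 = 1 := by rw [← norm_pow, h, norm_one]
    have h3 : ‖t‖ = 1 := by
      have := (pow_eq_one_iff_of_nonneg (norm_nonneg t) (by norm_num : (6:ℕ) ≠ 0)).mp h2
      exact this
    rw [hn] at h3
    linarith
  refine ⟨aC t, ⟨⟨?_, ht.1⟩, ht.2⟩, ?_⟩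
  · exact vgood_special t0 t6
  · show (1 : Matrix (Fin 6) (Fin 6) ℂ).det ≠ 0
    simp

theorem good_of_Ug {a : PS} (ha : a ∈ Ug) {F : Mon → ℂ} (hF : ∀ z, val F z = famP a z) :
    SmoothForm F ∧ ContainsEnriques F := by
  obtain ⟨⟨⟨h1, h2⟩, h3⟩, h4⟩ := ha
  constructor
  · intro z hz
    obtain ⟨i, hi⟩ := h2 z hz
    refine ⟨i, ?_⟩
    rwa [← gradF_eq hF]
  · have hu : IsUnit (pg a).det := isUnit_iff_ne_zero.mpr h4
    exact containsEnriques h1 (plane_of_det h3) (g := pg a) (h := (pg a)⁻¹) (Matrix.mul_nonsing_inv _ hu) (pc a) F hF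

end Pool.Agent.ENR
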