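import Pool.Agent.ENR.Defs

/-! coefficient vectors of cubic forms -/

namespace Pool.Agent.ENR

open MvPolynomial

theorem mon_prod (s : Mon) : ((s : Multiset (Fin 6)).map (X : Fin 6 → MvPolynomial (Fin 6) ℂ)).prod
    = monomial (Multiset.toFinsupp (s : Multiset (Fin 6))) 1 := by
  generalize (s : Multiset (Fin 6)) = m
  induction m using Multiset.induction_on with
  | empty => simp
  | cons a m ih =>
    rw [Multiset.map_cons, Multiset.prod_cons, ih]
    rw [X, monomial_mul, one_mul]
    congr 1
    rw [← Multiset.singleton_add, map_add, Multiset.toFinsupp_singleton]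

theorem form_eq (F : Mon → ℂ) : form F = ∑ s : Mon, monomial (Multiset.toFinsupp (s : Multiset (Fin 6))) (F s) := by
  unfold form
  refine Finset.sum_congr rfl fun s _ => ?_
  rw [mon_prod, C_mul_monomial, mul_one]

theorem coeff_form (F : Mon → ℂ) (s : Mon) : coeff (Multiset.toFinsupp (s : Multiset (Fin 6))) (form F) = F s := by
  rw [form_eq, coeff_sum]
  simp only [coeff_monomial]
  rw [Finset.sum_eq_single s]
  · simp
  · intro b _ hb
    rw [if_neg]
    intro h
    apply hb
    exact Subtype.ext (Multiset.toFinsupp.injective h)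
  · intro h; exact absurd (Finset.mem_univ s) h

theorem form_inj {F F' : Mon → ℂ} (h : form F = form F') : F = F' := by
  funext s
  rw [← coeff_form F s, ← coeff_form F' s, h]

theorem val_inj {F F' : Mon → ℂ} (h : ∀ z, val F z = val F' z) : F = F' :=
  form_inj (MvPolynomial.funext h)

theorem val_eq (F : Mon → ℂ) (z : Fin 6 → ℂ) :
    val F z = ∑ s : Mon, F s * ((s : Multiset (Fin 6)).map z).prod := by
  unfold val form
  rw [map_sum]
  refine Finset.sum_congr rfl fun s _ => ?_
  rw [map_mul, eval_C, map_multiset_prod, Multiset.map_map]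
  congr 2
  apply Multiset.map_congr rfl
  intro i _
  simp

theorem val_add (F F' : Mon → ℂ) (z : Fin 6 → ℂ) : val (F + F') z = val F z + val F' z := by
  simp only [val_eq, Pi.add_apply, add_mul, Finset.sum_add_distrib]

theorem val_smul (c : ℂ) (F : Mon → ℂ) (z : Fin 6 → ℂ) : val (c • F) z = c * val F z := by
  simp only [val_eq, Pi.smul_apply, smul_eq_mul, mul_assoc, Finset.mul_sum]

/-- evaluation at `z` as a linear functional -/
noncomputable def valL (z : Fin 6 → ℂ) : (Mon → ℂ) →ₗ[ℂ] ℂ where
  toFun F := val F z
  map_add' F F' := val_add F F' z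
  map_smul' c F := val_smul c F z

theorem valL_apply (z : Fin 6 → ℂ) (F : Mon → ℂ) : valL z F = val F z := by
  simp only [valL, LinearMap.coe_mk, AddHom.coe_mk]

theorem val_zero (z : Fin 6 → ℂ) : val (0 : Mon → ℂ) z = 0 := by
  rw [← valL_apply, map_zero]

theorem exists_form {P : MvPolynomial (Fin 6) ℂ} (hP : P.IsHomogeneous 3) : ∃ F, form F = P := by
  refine ⟨fun s => coeff (Multiset.toFinsupp (s : Multiset (Fin 6))) P, ?_⟩
  ext m
  by_cases hm : ∃ s : Mon, Multiset.toFinsupp (s : Multiset (Fin 6)) = m
  · obtain ⟨s, rfl⟩ := hm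
    rw [coeff_form]
  · rw [form_eq, coeff_sum]
    rw [Finset.sum_eq_zero]
    · by_contra hne
      apply hm
      have hd := hP (Ne.symm hne)
      refine ⟨⟨Finsupp.toMultiset m, ?_⟩, ?_⟩
      · rw [Finsupp.card_toMultiset]
        have : m.degree = 3 := by
          rw [Finsupp.degree_eq_weight_one]
          exact hd
        rw [← this]
        rfl
      · simp
    · intro s _
      rw [coeff_monomial, if_neg]
      intro h
      exact hm ⟨s, h⟩

/-- homogeneity of a cubic form -/
theorem form_hom (F : Mon → ℂ) : (form F).IsHomogeneous 3 := by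
  unfold form
  apply IsHomogeneous.sum
  intro s _
  rw [mon_prod, C_mul_monomial]
  apply isHomogeneous_monomial
  have : (Multiset.toFinsupp (s : Multiset (Fin 6))).degree = Multiset.card (s : Multiset (Fin 6)) := by
    have h := Finsupp.card_toMultiset (Multiset.toFinsupp (s : Multiset (Fin 6)))
    rw [Multiset.toFinsupp_toMultiset] at h
    rw [h]
    rfl
  rw [this]
  exact s.2

/-- a polynomial function which scales like a form of degree `d` is a form of degree `d` -/
theorem isHom_of_eval {σ : Type*} {P : MvPolynomial σ ℂ} {d : ℕ}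
    (h : ∀ (c : ℂ) (z : σ → ℂ), eval (fun i => c * z i) P = c ^ d * eval z P) : P.IsHomogeneous d := by
  classical
  have key : ∀ (m : ℕ) (Q : MvPolynomial σ ℂ), Q.IsHomogeneous m → ∀ (c : ℂ) (z : σ → ℂ),
      eval (fun i => c * z i) Q = c ^ m * eval z Q := by
    intro m Q hQ c z
    rw [eval_eq, eval_eq, Finset.mul_sum]
    refine Finset.sum_congr rfl fun s hs => ?_
    have hd : s.degree = m := by
      rw [Finsupp.degree_eq_weight_one]
      exact hQ (mem_support_iff.mp hs)
    have : ∏ i ∈ s.support, (c * z i) ^ s i = c ^ m * ∏ i ∈ s.support, z i ^ s i := by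
      rw [← hd]
      simp only [mul_pow, Finset.prod_mul_distrib, Finset.prod_pow_eq_pow_sum]
      rfl
    rw [this]
    ring
  have hz : ∀ m, m ≠ d → homogeneousComponent m P = 0 := by
    intro m hm
    apply MvPolynomial.funext
    intro z
    rw [map_zero]
    -- univariate polynomial identity in c
    let p : Polynomial ℂ := ∑ i ∈ Finset.range (P.totalDegree + 1), Polynomial.C (eval z (homogeneousComponent i P)) * Polynomial.X ^ i
    have hp : p = Polynomial.C (eval z P) * Polynomial.X ^ d := by
      apply Polynomial.funext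
      intro c
      have h1 := h c z
      have h2 : eval (fun i => c * z i) P = ∑ i ∈ Finset.range (P.totalDegree + 1), c ^ i * eval z (homogeneousComponent i P) := by
        conv_lhs => rw [← sum_homogeneousComponent P]
        rw [map_sum]
        refine Finset.sum_congr rfl fun i _ => ?_
        exact key i _ (homogeneousComponent_isHomogeneous i P) c z
      rw [h2] at h1
      simp only [p, Polynomial.eval_finsetSum, Polynomial.eval_mul, Polynomial.eval_C, Polynomial.eval_pow, Polynomial.eval_X]
      rw [mul_comm (eval z P), ← h1]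
      refine Finset.sum_congr rfl fun i _ => ?_
      ring
    have hc := congrArg (fun q => Polynomial.coeff q m) hp
    simp only [p, Polynomial.finsetSum_coeff, Polynomial.coeff_C_mul, Polynomial.coeff_X_pow, if_neg hm, mul_zero] at hc
    by_cases hmr : m ∈ Finset.range (P.totalDegree + 1)
    · rw [Finset.sum_eq_single m] at hc
      · simpa using hc
      · intro b _ hb
        simp [Ne.symm hb]
      · intro h; exact absurd hmr h
    · rw [homogeneousComponent_eq_zero _ _ (by simpa using hmr)]
      simp
  have hP : P = homogeneousComponent d P := by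
    conv_lhs => rw [← sum_homogeneousComponent P]
    by_cases hd : d ∈ Finset.range (P.totalDegree + 1)
    · rw [Finset.sum_eq_single d]
      · intro b _ hb
        exact hz b hb
      · intro h; exact absurd hd h
    · rw [homogeneousComponent_eq_zero _ _ (by simpa using hd)]
      apply Finset.sum_eq_zero
      intro i hi
      apply hz
      rintro rfl
      exact hd hi
  rw [hP]
  exact homogeneousComponent_isHomogeneous d P

/-- a polynomial function which scales like a cubic form is the value of a cubic form -/
theorem exists_val {P : MvPolynomial (Fin 6) ℂ}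
    (h : ∀ (c : ℂ) (z : Fin 6 → ℂ), eval (fun i => c * z i) P = c ^ 3 * eval z P) :
    ∃ F, ∀ z, val F z = eval z P := by
  obtain ⟨F, hF⟩ := exists_form (isHom_of_eval h)
  exact ⟨F, fun z => by rw [val, hF]⟩

/-- every coefficient is a linear combination of values -/
theorem coeff_values : ∃ (r : ℕ) (pt : Fin r → Fin 6 → ℂ) (lam : Mon → Fin r → ℂ),
    ∀ (F : Mon → ℂ) (s : Mon), F s = ∑ i, lam s i * val F (pt i) := by
  have hs : ∀ s : Mon, ∃ c : (Fin 6 → ℂ) →₀ ℂ, ∀ F : Mon → ℂ, F s = c.sum fun z a => a * val F z := by
    intro s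
    have hm : (LinearMap.proj s : (Mon → ℂ) →ₗ[ℂ] ℂ) ∈ Submodule.span ℂ (Set.range valL) := by
      apply FiniteDimensional.mem_span_of_iInf_ker_le_ker
      intro F hF
      have : F = 0 := by
        apply val_inj
        intro z
        have hz := (Submodule.mem_iInf _).mp hF z
        rw [LinearMap.mem_ker, valL_apply] at hz
        rw [hz, val_zero]
      rw [this]
      exact Submodule.zero_mem _
    obtain ⟨c, hc⟩ := Finsupp.mem_span_range_iff_exists_finsupp.mp hm
    refine ⟨c, fun F => ?_⟩
    have := congrArg (fun l : (Mon → ℂ) →ₗ[ℂ] ℂ => l F) hc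
    simp only [LinearMap.proj_apply] at this
    rw [← this]
    simp only [Finsupp.sum, LinearMap.sum_apply, LinearMap.smul_apply, smul_eq_mul, valL_apply]
  choose c hc using hs
  classical
  let S : Finset (Fin 6 → ℂ) := Finset.univ.biUnion fun s => (c s).support
  let e := S.equivFin
  refine ⟨S.card, fun i => (e.symm i : Fin 6 → ℂ), fun s i => c s (e.symm i), fun F s => ?_⟩
  rw [hc s F, Finsupp.sum]
  have hsub : (c s).support ⊆ S := Finset.subset_biUnion_of_mem (fun s => (c s).support) (Finset.mem_univ s)
  rw [Finset.sum_subset hsub]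
  · rw [← Finset.sum_coe_sort S]
    exact (Equiv.sum_comp e.symm (fun x : S => c s x * val F x)).symm
  · intro z _ hz
    rw [Finsupp.notMem_support_iff.mp hz, zero_mul]

end Pool.Agent.ENR
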