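import Mathlib

/-!
# Definitions used in the statement

Cubic forms in six variables, smooth cubic fourfolds, Enriques surfaces in cubic fourfolds,
the universal family over a set of cubic forms, unirationality.
-/

namespace Pool.Agent.ENR

open MvPolynomial

/-- The 56 monomials of degree 3 in `z_0, …, z_5`, as multisets of three indices. -/
abbrev Mon : Type := Sym (Fin 6) 3

/-- The cubic form in `z_0, …, z_5` with vector of coefficients `F`. -/
noncomputable def form (F : Mon → ℂ) : MvPolynomial (Fin 6) ℂ :=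
  ∑ s : Mon, C (F s) * ((s : Multiset (Fin 6)).map X).prod

/-- The value `F(z)` of the cubic form with vector of coefficients `F`. -/
noncomputable def val (F : Mon → ℂ) (z : Fin 6 → ℂ) : ℂ := eval z (form F)

/-- The cubic hypersurface `F = 0` in `P^5` is smooth: the gradient of `F` has no zero except `0`
(by Euler's formula a zero of the gradient is a zero of `F`). -/
def SmoothForm (F : Mon → ℂ) : Prop :=
  ∀ z : Fin 6 → ℂ, z ≠ 0 → ∃ i, eval z (pderiv i (form F)) ≠ 0

/-- The involution `(x, y) ↦ (x, -y)` of `C^3 × C^3`. -/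
def sg (z : Fin 6 → ℂ) : Fin 6 → ℂ := ![z 0, z 1, z 2, -z 3, -z 4, -z 5]

/-- `z` is a nonzero vector of the cone over the surface `T = {q_0 = q_1 = q_2 = 0}` in `P^5`. -/
def OnT (q : Fin 3 → MvPolynomial (Fin 6) ℂ) (z : Fin 6 → ℂ) : Prop :=
  z ≠ 0 ∧ ∀ k, eval z (q k) = 0

/-- `T = {q_0 = q_1 = q_2 = 0}` in `P^5` is a smooth complete intersection of three quadrics (a K3
surface), the quadrics are invariant under the involution `(x, y) ↦ (x, -y)`, and the involution has
no fixed point on `T`. So `T / ±` is an Enriques surface. -/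
structure EnriquesCover (q : Fin 3 → MvPolynomial (Fin 6) ℂ) : Prop where
  hom : ∀ k, (q k).IsHomogeneous 2
  even : ∀ k z, eval (sg z) (q k) = eval z (q k)
  free : ∀ z, OnT q z → ∀ c : ℂ, sg z ≠ c • z
  smooth : ∀ z, OnT q z → LinearIndependent ℂ (fun k : Fin 3 => fun i => eval z (pderiv i (q k)))

/-- The three sextuples `ψ_0, ψ_1, ψ_2` of cubic forms glue to a morphism `T → P^5` which is
invariant under the involution, and the induced morphism `T / ± → P^5` is injective on points and
on tangent vectors, i.e. it is a closed embedding of the Enriques surface `T / ±` in `P^5`. -/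
structure EnriquesEmbedding (q : Fin 3 → MvPolynomial (Fin 6) ℂ)
    (ψ : Fin 3 → Fin 6 → MvPolynomial (Fin 6) ℂ) : Prop where
  hom : ∀ k i, (ψ k i).IsHomogeneous 3
  even : ∀ k i z, eval (sg z) (ψ k i) = eval z (ψ k i)
  defined : ∀ z, OnT q z → ∃ k i, eval z (ψ k i) ≠ 0
  glue : ∀ z, OnT q z → ∀ k l i j,
    eval z (ψ k i) * eval z (ψ l j) = eval z (ψ k j) * eval z (ψ l i)
  inj : ∀ z w, OnT q z → OnT q w → ∀ (k l : Fin 3) (c : ℂ), c ≠ 0 → (∃ i, eval z (ψ k i) ≠ 0) →
    (∀ i, eval w (ψ l i) = c * eval z (ψ k i)) → ∃ a : ℂ, w = a • z ∨ w = a • sg z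
  imm : ∀ z, OnT q z → ∀ k, (∃ i, eval z (ψ k i) ≠ 0) → ∀ (ζ : Fin 6 → ℂ) (c : ℂ),
    (∀ l, ∑ i, ζ i * eval z (pderiv i (q l)) = 0) →
    (∀ j, ∑ i, ζ i * eval z (pderiv i (ψ k j)) = c * eval z (ψ k j)) → ∃ a : ℂ, ζ = a • z

/-- The cubic hypersurface `F = 0` contains an Enriques surface `S = T / ±`, embedded in `P^5`, and
`F` is a linear combination of ten cubic forms `G_j` which vanish on `S` and whose restrictions to
some plane `{∑ s_m p_m}` of `P^5` are linearly independent, hence a basis of the ternary cubic forms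
on this plane (so `S` does not meet the plane and has degree at most ten). -/
def ContainsEnriques (F : Mon → ℂ) : Prop :=
  ∃ (q : Fin 3 → MvPolynomial (Fin 6) ℂ) (ψ : Fin 3 → Fin 6 → MvPolynomial (Fin 6) ℂ),
    EnriquesCover q ∧ EnriquesEmbedding q ψ ∧
    ∃ G : Fin 10 → Mon → ℂ, F ∈ Submodule.span ℂ (Set.range G) ∧
      (∀ j k z, OnT q z → val (G j) (fun i => eval z (ψ k i)) = 0) ∧
      ∃ p : Fin 3 → Fin 6 → ℂ,
        LinearIndependent ℂ (fun j => fun s : Fin 3 → ℂ => val (G j) (fun i => ∑ m, s m * p m i))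

/-- The universal family over a set `D` of cubic forms: pairs `(F, z)` with `F ∈ D`, `F(z) = 0`
(`F` in the 56-dimensional space of cubic forms, `z` in `C^6`). -/
def univFamily (D : Set (Mon → ℂ)) : Set (Mon ⊕ Fin 6 → ℂ) :=
  {w | (fun s => w (Sum.inl s)) ∈ D ∧ val (fun s => w (Sum.inl s)) (fun i => w (Sum.inr i)) = 0}

/-- A subset `Y` of affine space is unirational: there is a polynomial map from an affine space to
`Y` whose image is Zariski dense in `Y`. -/
def Unirational {ι : Type*} (Y : Set (ι → ℂ)) : Prop :=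
  ∃ (m : ℕ) (Φ : ι → MvPolynomial (Fin m) ℂ), (∀ a : Fin m → ℂ, (fun i => eval a (Φ i)) ∈ Y) ∧
    ∀ P : MvPolynomial ι ℂ, (∀ a : Fin m → ℂ, eval (fun i => eval a (Φ i)) P = 0) →
      ∀ y ∈ Y, eval y P = 0

end Pool.Agent.ENR
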