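import Pool.Agent.ENR.Phi

/-! the 56 coefficients are algebraically dependent -/

namespace Pool.Agent.ENR

open Matrix

theorem card_Mon : Fintype.card Mon = 56 := by
  unfold Mon
  rw [Sym.card_sym_eq_choose]
  rfl

/-- the index of the normalised parameter -/
def c8 : Par := Sum.inr (Sum.inr (Sum.inl 8))

theorem card_Par' : Fintype.card {p : Par // p ≠ c8} = 55 := by
  rw [Fintype.card_subtype_compl, Fintype.card_subtype_eq]
  simp [Par]

theorem exists_dep : ∃ P : MvPolynomial Mon ℂ, P ≠ 0 ∧ MvPolynomial.aeval Phi P = 0 := by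
  classical
  let ρ : MvPolynomial Par ℂ →ₐ[ℂ] MvPolynomial {p : Par // p ≠ c8} ℂ :=
    MvPolynomial.aeval (fun p => if h : p ≠ c8 then MvPolynomial.X ⟨p, h⟩ else 1)
  have hdep : ¬ AlgebraicIndependent ℂ (fun s => ρ (Phi s)) := by
    intro h
    have h1 := h.cardinalMk_le_trdeg
    rw [MvPolynomial.trdeg_of_isDomain] at h1
    simp only [Cardinal.mk_fintype, card_Mon, card_Par'] at h1
    norm_num at h1
  rw [algebraicIndependent_iff] at hdep
  push Not at hdep
  obtain ⟨P, h0, hP⟩ := hdep
  refine ⟨P, hP, ?_⟩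
  have hU : IsOpen {a : PS | a c8 ≠ 0} := isOpen_ne_fun (continuous_apply _) continuous_const
  have hne : {a : PS | a c8 ≠ 0}.Nonempty := ⟨fun _ => 1, by simp⟩
  rw [aeval_iff hU hne]
  intro a ha
  -- normalise
  obtain ⟨μ, hμ⟩ : ∃ μ : ℂ, μ ^ 3 = a c8 := IsAlgClosed.exists_pow_nat_eq _ (by norm_num)
  let a' : PS := Sum.elim (fun _ => pt a) (Sum.elim (fun p => pn a p.1 p.2) (Sum.elim (fun j => pc a j / a c8)
    (fun p => μ * pg a p.1 p.2)))
  have ha' : a' c8 = 1 := by
    show pc a 8 / a c8 = 1
    have : pc a 8 = a c8 := rfl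
    rw [this, div_self ha]
  have hcf : cf a = cf a' := by
    apply val_inj
    intro z
    rw [val_cf, val_cf]
    unfold famP fam
    refine Finset.sum_congr rfl fun j _ => ?_
    have e1 : pt a' = pt a := rfl
    have e2 : pn a' = pn a := rfl
    have e3 : pc a' j = pc a j / a c8 := rfl
    have e4 : (pg a').mulVec z = fun i => μ * (pg a).mulVec z i := by
      funext i
      simp only [Matrix.mulVec, dotProduct, Finset.mul_sum]
      refine Finset.sum_congr rfl fun k _ => ?_
      have : pg a' i k = μ * pg a i k := rfl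
      rw [this, mul_assoc]
    have ha0 : a c8 ≠ 0 := ha
    rw [e1, e2, e3, e4, Gz_smul, hμ]
    field_simp
  rw [hcf]
  have h1 : ∀ Q : MvPolynomial Par ℂ, MvPolynomial.eval (fun p : {p : Par // p ≠ c8} => a' p) (ρ Q) = MvPolynomial.eval a' Q := by
    intro Q
    induction Q using MvPolynomial.induction_on with
    | C c => simp
    | add p q hp hq => rw [map_add, map_add, hp, hq, map_add]
    | mul_X p m hp =>
      rw [map_mul, map_mul, hp, map_mul]
      congr 1
      simp only [ρ, MvPolynomial.aeval_X]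
      by_cases hm : m ≠ c8
      · rw [dif_pos hm]; simp
      · rw [dif_neg hm]
        push Not at hm
        rw [hm, MvPolynomial.eval_X, ha', map_one]
  rw [← eval_aeval, ← h1]
  have h2 : ρ (MvPolynomial.aeval Phi P) = MvPolynomial.aeval (fun s => ρ (Phi s)) P := by
    rw [← MvPolynomial.comp_aeval_apply]
  rw [h2, h0, map_zero]

end Pool.Agent.ENR
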