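import Pool.Agent.ENR.Imm
import Pool.Agent.ENR.Cub

/-! members of the family contain Enriques surfaces -/

namespace Pool.Agent.ENR

open MvPolynomial

/-- first three coordinates -/
def fx {R : Type*} (z : Fin 6 → R) : Fin 3 → R := ![z 0, z 1, z 2]
/-- last three coordinates -/
def fy {R : Type*} (z : Fin 6 → R) : Fin 3 → R := ![z 3, z 4, z 5]

theorem map_fx {R S : Type*} (f : R → S) (z : Fin 6 → R) : (fun i => f (fx z i)) = fx (fun i => f (z i)) := by
  funext i; fin_cases i <;> rfl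
theorem map_fy {R S : Type*} (f : R → S) (z : Fin 6 → R) : (fun i => f (fy z i)) = fy (fun i => f (z i)) := by
  funext i; fin_cases i <;> rfl

/-- the three quadrics as polynomials -/
noncomputable def qP (t : ℂ) (n : Fin 3 → Fin 3 → ℂ) (j : Fin 3) : MvPolynomial (Fin 6) ℂ :=
  qT (C t) (fun k j => C (n k j)) (fx X) (fy X) j
/-- forms `delta_k` as polynomials -/
noncomputable def dlP (t : ℂ) (k : Fin 3) : MvPolynomial (Fin 6) ℂ := dl (C t) (fx X) (fy X) k
/-- forms `delta'_k` as polynomials -/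
noncomputable def deP (t : ℂ) (n : Fin 3 → Fin 3 → ℂ) (k : Fin 3) : MvPolynomial (Fin 6) ℂ :=
  de (C t) (fun k j => C (n k j)) (fx X) (fy X) k

section ev
variable {S : Type*} [CommRing S]

/-- evaluation homomorphism into any `ℂ`-algebra given by `c : ℂ →+* S` -/
noncomputable def E (c : ℂ →+* S) (w : Fin 6 → S) : MvPolynomial (Fin 6) ℂ →+* S := eval₂Hom c w

theorem E_X (c : ℂ →+* S) (w : Fin 6 → S) (i : Fin 6) : E c w (X i) = w i := by simp [E]
theorem E_C (c : ℂ →+* S) (w : Fin 6 → S) (a : ℂ) : E c w (C a) = c a := by simp [E]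

theorem E_qP (c : ℂ →+* S) (w : Fin 6 → S) (t : ℂ) (n : Fin 3 → Fin 3 → ℂ) (j : Fin 3) :
    E c w (qP t n j) = qT (c t) (fun k j => c (n k j)) (fx w) (fy w) j := by
  unfold qP
  rw [map_qT, map_fx (E c w), map_fy (E c w)]
  simp only [E_X, E_C]

theorem E_dlP (c : ℂ →+* S) (w : Fin 6 → S) (t : ℂ) (j : Fin 3) :
    E c w (dlP t j) = dl (c t) (fx w) (fy w) j := by
  unfold dlP
  rw [map_dl, map_fx (E c w), map_fy (E c w)]
  simp only [E_X, E_C]

theorem E_deP (c : ℂ →+* S) (w : Fin 6 → S) (t : ℂ) (n : Fin 3 → Fin 3 → ℂ) (j : Fin 3) :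
    E c w (deP t n j) = de (c t) (fun k j => c (n k j)) (fx w) (fy w) j := by
  unfold deP
  rw [map_de, map_fx (E c w), map_fy (E c w)]
  simp only [E_X, E_C]

end ev

theorem eval_E (w : Fin 6 → ℂ) (P : MvPolynomial (Fin 6) ℂ) : eval w P = E (RingHom.id ℂ) w P := rfl

theorem eval_qP (w : Fin 6 → ℂ) (t : ℂ) (n : Fin 3 → Fin 3 → ℂ) (j : Fin 3) :
    eval w (qP t n j) = qT t n (fx w) (fy w) j := by
  rw [eval_E, E_qP]; rfl
theorem eval_dlP (w : Fin 6 → ℂ) (t : ℂ) (j : Fin 3) :
    eval w (dlP t j) = dl t (fx w) (fy w) j := by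
  rw [eval_E, E_dlP]; rfl
theorem eval_deP (w : Fin 6 → ℂ) (t : ℂ) (n : Fin 3 → Fin 3 → ℂ) (j : Fin 3) :
    eval w (deP t n j) = de t n (fx w) (fy w) j := by
  rw [eval_E, E_deP]; rfl

/-- derivative via dual numbers -/
theorem E_dual (z ζ : Fin 6 → ℂ) (P : MvPolynomial (Fin 6) ℂ) :
    (E (ic ℂ) (fun i => ic ℂ (z i) + TrivSqZeroExt.inr (ζ i)) P).fst = eval z P ∧
    (E (ic ℂ) (fun i => ic ℂ (z i) + TrivSqZeroExt.inr (ζ i)) P).snd = ∑ i, ζ i * eval z (pderiv i P) := by
  induction P using MvPolynomial.induction_on with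
  | C a => simp [E_C]
  | add p q hp hq =>
    rw [map_add]
    constructor
    · rw [TrivSqZeroExt.fst_add, hp.1, hq.1, map_add]
    · rw [TrivSqZeroExt.snd_add, hp.2, hq.2, ← Finset.sum_add_distrib]
      refine Finset.sum_congr rfl fun i _ => ?_
      rw [map_add, map_add]; ring
  | mul_X p m hp =>
    rw [map_mul, E_X]
    constructor
    · rw [TrivSqZeroExt.fst_mul, hp.1, map_mul, eval_X]
      simp
    · rw [snd_mul', hp.1, hp.2]
      have : ∀ i, ζ i * eval z (pderiv i (p * X m)) = (ζ i * eval z (pderiv i p)) * z m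
          + eval z p * (if i = m then ζ m else 0) := by
        intro i
        rw [Derivation.leibniz, pderiv_X]
        simp only [smul_eq_mul, map_add, map_mul, eval_X]
        by_cases h : i = m
        · subst h; simp; ring
        · rw [if_neg h, Pi.single_apply, if_neg (fun e => h e.symm)]; simp; ring
      simp only [this, Finset.sum_add_distrib, ← Finset.sum_mul, ← Finset.mul_sum]
      simp
      ring

theorem fx_smul {R : Type*} [Mul R] (c : R) (z : Fin 6 → R) : fx (fun i => c * z i) = fun i => c * fx z i := by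
  funext i; fin_cases i <;> rfl
theorem fy_smul {R : Type*} [Mul R] (c : R) (z : Fin 6 → R) : fy (fun i => c * z i) = fun i => c * fy z i := by
  funext i; fin_cases i <;> rfl

theorem qT_smul {R : Type*} [CommRing R] (t c : R) (n : Fin 3 → Fin 3 → R) (x y : Fin 3 → R) (j : Fin 3) :
    qT t n (fun i => c * x i) (fun i => c * y i) j = c ^ 2 * qT t n x y j := by
  rw [qT_split, qT_sx, qT_sy, qT_split t n x y]; ring

theorem dl_smul {R : Type*} [CommRing R] (t c : R) (x y : Fin 3 → R) (k : Fin 3) :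
    dl t (fun i => c * x i) (fun i => c * y i) k = c ^ 2 * dl t x y k := by
  unfold dl; rw [hes_smul, adj_smul]; ring

theorem dl_neg {R : Type*} [CommRing R] (t : R) (x y : Fin 3 → R) (k : Fin 3) :
    dl t x (fun i => -y i) k = dl t x y k := by
  unfold dl; ring

theorem de_neg {R : Type*} [CommRing R] (t : R) (n : Fin 3 → Fin 3 → R) (x y : Fin 3 → R) (k : Fin 3) :
    de t n x (fun i => -y i) k = -de t n x y k := by
  have h := de_smul t n 1 (-1) x y k
  simp only [one_mul, neg_one_mul] at h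
  rw [h]

theorem fx_sg (z : Fin 6 → ℂ) : fx (sg z) = fx z := by
  funext i; fin_cases i <;> rfl
theorem fy_sg (z : Fin 6 → ℂ) : fy (sg z) = fun i => - fy z i := by
  funext i; fin_cases i <;> rfl

/-- the sextuples before the linear change of coordinates -/
noncomputable def ps0 (t : ℂ) (n : Fin 3 → Fin 3 → ℂ) (k : Fin 3) : Fin 6 → MvPolynomial (Fin 6) ℂ :=
  ![dlP t k * X 0, dlP t k * X 1, dlP t k * X 2, deP t n k * X 3, deP t n k * X 4, deP t n k * X 5]

/-- the value of the sextuple -/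
def pv {R : Type*} [CommRing R] (t : R) (n : Fin 3 → Fin 3 → R) (k : Fin 3) (z : Fin 6 → R) : Fin 6 → R :=
  ![dl t (fx z) (fy z) k * z 0, dl t (fx z) (fy z) k * z 1, dl t (fx z) (fy z) k * z 2,
    de t n (fx z) (fy z) k * z 3, de t n (fx z) (fy z) k * z 4, de t n (fx z) (fy z) k * z 5]

theorem E_ps0 {S : Type*} [CommRing S] (c : ℂ →+* S) (w : Fin 6 → S) (t : ℂ) (n : Fin 3 → Fin 3 → ℂ)
    (k : Fin 3) (i : Fin 6) : E c w (ps0 t n k i) = pv (c t) (fun k j => c (n k j)) k w i := by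
  fin_cases i <;> simp [ps0, pv, E_dlP, E_deP, E_X]

theorem eval_ps0 (w : Fin 6 → ℂ) (t : ℂ) (n : Fin 3 → Fin 3 → ℂ)
    (k : Fin 3) (i : Fin 6) : eval w (ps0 t n k i) = pv t n k w i := by
  rw [eval_E, E_ps0]; rfl

theorem fx_pv {R : Type*} [CommRing R] (t : R) (n : Fin 3 → Fin 3 → R) (k : Fin 3) (z : Fin 6 → R) :
    fx (pv t n k z) = fun i => dl t (fx z) (fy z) k * fx z i := by
  funext i; fin_cases i <;> rfl
theorem fy_pv {R : Type*} [CommRing R] (t : R) (n : Fin 3 → Fin 3 → R) (k : Fin 3) (z : Fin 6 → R) :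
    fy (pv t n k z) = fun i => de t n (fx z) (fy z) k * fy z i := by
  funext i; fin_cases i <;> rfl

theorem pv_smul {R : Type*} [CommRing R] (t : R) (n : Fin 3 → Fin 3 → R) (k : Fin 3) (c : R)
    (z : Fin 6 → R) (i : Fin 6) : pv t n k (fun i => c * z i) i = c ^ 3 * pv t n k z i := by
  unfold pv
  rw [fx_smul, fy_smul, dl_smul, de_smul]
  fin_cases i <;> simp <;> ring

theorem pv_sg (t : ℂ) (n : Fin 3 → Fin 3 → ℂ) (k : Fin 3) (z : Fin 6 → ℂ) (i : Fin 6) :
    pv t n k (sg z) i = pv t n k z i := by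
  unfold pv
  rw [fx_sg, fy_sg, dl_neg, de_neg]
  fin_cases i <;> simp [sg]

theorem ext6 {R : Type*} {z w : Fin 6 → R} (h1 : fx z = fx w) (h2 : fy z = fy w) : z = w := by
  funext i
  fin_cases i
  · exact congrFun h1 0
  · exact congrFun h1 1
  · exact congrFun h1 2
  · exact congrFun h2 0
  · exact congrFun h2 1
  · exact congrFun h2 2

end Pool.Agent.ENR
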