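import Pool.Agent.ENR.Enr

/-! members of the family contain Enriques surfaces -/

namespace Pool.Agent.ENR

open MvPolynomial

/-- polarisation of the quadrics -/
def qB {R : Type*} [CommRing R] (t : R) (n : Fin 3 → Fin 3 → R) (x y ξ η : Fin 3 → R) (j : Fin 3) : R :=
  qT t n (fun i => x i + ξ i) (fun i => y i + η i) j - qT t n x y j - qT t n ξ η j

theorem qT_line {R : Type*} [CommRing R] (t s : R) (n : Fin 3 → Fin 3 → R) (x y ξ η : Fin 3 → R) (j : Fin 3) :
    qT t n (fun i => x i + s * ξ i) (fun i => y i + s * η i) j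
      = qT t n x y j + s * qB t n x y ξ η j + s ^ 2 * qT t n ξ η j := by
  fin_cases j <;> simp [qB, qT, dl, ofd, adj, hes, hv, sy] <;> ring

/-- very good parameters: `T` is smooth. -/
structure VGood (t : ℂ) (n : Fin 3 → Fin 3 → ℂ) : Prop extends Good t n where
  c5 : ∀ x y, (x ≠ 0 ∨ y ≠ 0) → (∀ j, qT t n x y j = 0) → ∀ c : Fin 3 → ℂ,
    (∀ ξ η : Fin 3 → ℂ, ∑ j, c j * qB t n x y ξ η j = 0) → c = 0

variable {t : ℂ} {n : Fin 3 → Fin 3 → ℂ}

theorem OnT_iff (z : Fin 6 → ℂ) : OnT (qP t n) z ↔ z ≠ 0 ∧ ∀ j, qT t n (fx z) (fy z) j = 0 := by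
  unfold OnT
  simp only [eval_qP]

theorem ne_zero_iff (z : Fin 6 → ℂ) : z ≠ 0 ↔ fx z ≠ 0 ∨ fy z ≠ 0 := by
  constructor
  · intro h
    by_contra hcon
    push Not at hcon
    apply h
    apply ext6
    · rw [hcon.1]; funext i; fin_cases i <;> rfl
    · rw [hcon.2]; funext i; fin_cases i <;> rfl
  · rintro (h | h) rfl
    · apply h; funext i; fin_cases i <;> rfl
    · apply h; funext i; fin_cases i <;> rfl

theorem OnT_xy (g : Good t n) {z : Fin 6 → ℂ} (h : OnT (qP t n) z) : fx z ≠ 0 ∧ fy z ≠ 0 := by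
  rw [OnT_iff] at h
  exact g.xy h.2 ((ne_zero_iff z).mp h.1)

theorem dir_qP (z ζ : Fin 6 → ℂ) (j : Fin 3) :
    ∑ i, ζ i * eval z (pderiv i (qP t n j)) = qB t n (fx z) (fy z) (fx ζ) (fy ζ) j := by
  rw [← (E_dual z ζ (qP t n j)).2, E_qP]
  have h1 : fx (fun i => ic ℂ (z i) + TrivSqZeroExt.inr (ζ i)) = fun i => (ic ℂ (fx z i)) + TrivSqZeroExt.inr 1 * ic ℂ (fx ζ i) := by
    funext i; fin_cases i <;> apply TrivSqZeroExt.ext <;> simp [fx]
  have h2 : fy (fun i => ic ℂ (z i) + TrivSqZeroExt.inr (ζ i)) = fun i => (ic ℂ (fy z i)) + TrivSqZeroExt.inr 1 * ic ℂ (fy ζ i) := by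
    funext i; fin_cases i <;> apply TrivSqZeroExt.ext <;> simp [fy]
  rw [h1, h2, qT_line]
  have h3 : (TrivSqZeroExt.inr 1 : DN ℂ) ^ 2 = 0 := by
    rw [pow_two, TrivSqZeroExt.inr_mul_inr]
  have h4 : qB (ic ℂ t) (fun k j => ic ℂ (n k j)) (fun i => ic ℂ (fx z i)) (fun i => ic ℂ (fy z i))
      (fun i => ic ℂ (fx ζ i)) (fun i => ic ℂ (fy ζ i)) j = ic ℂ (qB t n (fx z) (fy z) (fx ζ) (fy ζ) j) := by
    unfold qB
    rw [map_sub, map_sub, map_qT, map_qT, map_qT]
    simp only [map_add]
  rw [h3, h4, ← map_qT (ic ℂ)]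
  simp

theorem enrCover (g : VGood t n) : EnriquesCover (qP t n) where
  hom k := by
    apply isHom_of_eval
    intro c z
    rw [eval_qP, eval_qP, fx_smul, fy_smul, qT_smul]
  even k z := by
    rw [eval_qP, eval_qP, fx_sg, fy_sg, qT_split, qT_split t n (fx z) (fy z)]
    congr 1
    have := qT_sy t (-1) n (fy z) k
    simp only [neg_one_mul] at this
    rw [this]; ring
  free z h c hc := by
    have hxy := OnT_xy g.toGood h
    obtain ⟨p, hp⟩ : ∃ p, fx z p ≠ 0 := Function.ne_iff.mp hxy.1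
    obtain ⟨q, hq⟩ : ∃ q, fy z q ≠ 0 := Function.ne_iff.mp hxy.2
    have e : c • z = fun i => c * z i := rfl
    have h1 := congrArg fx hc
    have h2 := congrArg fy hc
    rw [e, fx_sg, fx_smul] at h1
    rw [e, fy_sg, fy_smul] at h2
    have h1' := congrFun h1 p
    have h2' := congrFun h2 q
    have hc1 : c = 1 := by
      have : (c - 1) * fx z p = 0 := by linear_combination -h1'
      exact sub_eq_zero.mp ((mul_eq_zero.mp this).resolve_right hp)
    rw [hc1] at h2'
    apply hq
    linear_combination (-1 / 2) * h2'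
  smooth z h := by
    have h' := (OnT_iff z).mp h
    rw [Fintype.linearIndependent_iff]
    intro c hc
    have := g.c5 (fx z) (fy z) ((ne_zero_iff z).mp h'.1) h'.2 c ?_
    · intro i; rw [this]; rfl
    · intro ξ η
      let ζ : Fin 6 → ℂ := ![ξ 0, ξ 1, ξ 2, η 0, η 1, η 2]
      have hξ : fx ζ = ξ := by funext i; fin_cases i <;> rfl
      have hη : fy ζ = η := by funext i; fin_cases i <;> rfl
      have h3 : ∀ j, qB t n (fx z) (fy z) ξ η j = ∑ i, ζ i * eval z (pderiv i (qP t n j)) := by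
        intro j; rw [dir_qP, hξ, hη]
      simp only [h3, Finset.mul_sum]
      rw [Finset.sum_comm]
      apply Finset.sum_eq_zero
      intro i _
      have h4 := congrFun hc i
      simp only [Finset.sum_apply, Pi.smul_apply, smul_eq_mul, Pi.zero_apply] at h4
      have : ∑ j, c j * (ζ i * eval z (pderiv i (qP t n j))) = ζ i * ∑ j, c j * eval z (pderiv i (qP t n j)) := by
        rw [Finset.mul_sum]
        refine Finset.sum_congr rfl fun j _ => ?_
        ring
      rw [this, h4, mul_zero]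

/-- the sextuples after the linear change of coordinates `h` -/
noncomputable def psi (h : Matrix (Fin 6) (Fin 6) ℂ) (t : ℂ) (n : Fin 3 → Fin 3 → ℂ) (k : Fin 3) (i : Fin 6) :
    MvPolynomial (Fin 6) ℂ := ∑ j, C (h i j) * ps0 t n k j

theorem eval_psi (h : Matrix (Fin 6) (Fin 6) ℂ) (w : Fin 6 → ℂ) (k : Fin 3) :
    (fun i => eval w (psi h t n k i)) = h.mulVec (pv t n k w) := by
  funext i
  unfold psi
  rw [map_sum]
  simp only [map_mul, eval_C, eval_ps0]
  rfl

theorem eval_psi' (h : Matrix (Fin 6) (Fin 6) ℂ) (w : Fin 6 → ℂ) (k : Fin 3) (i : Fin 6) :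
    eval w (psi h t n k i) = ∑ j, h i j * pv t n k w j := by
  unfold psi
  rw [map_sum]
  simp only [map_mul, eval_C, eval_ps0]

theorem pv_ne (g : Good t n) {z : Fin 6 → ℂ} (h : OnT (qP t n) z) (k : Fin 3) :
    (∃ i, pv t n k z i ≠ 0) ↔ dl t (fx z) (fy z) k ≠ 0 ∨ de t n (fx z) (fy z) k ≠ 0 := by
  have hxy := OnT_xy g h
  obtain ⟨p, hp⟩ : ∃ p, fx z p ≠ 0 := Function.ne_iff.mp hxy.1
  obtain ⟨q, hq⟩ : ∃ q, fy z q ≠ 0 := Function.ne_iff.mp hxy.2
  have hfx := fx_pv t n k z
  have hfy := fy_pv t n k z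
  have hnz : (∃ i, pv t n k z i ≠ 0) ↔ pv t n k z ≠ 0 := by
    rw [Function.ne_iff]; rfl
  rw [hnz, ne_zero_iff]
  constructor
  · rintro (h1 | h1)
    · left; intro h0; apply h1; rw [hfx, h0]; funext i; simp
    · right; intro h0; apply h1; rw [hfy, h0]; funext i; simp
  · rintro (h1 | h1)
    · left; intro h0
      have := congrFun h0 p
      rw [hfx] at this
      exact mul_ne_zero h1 hp this
    · right; intro h0
      have := congrFun h0 q
      rw [hfy] at this
      exact mul_ne_zero h1 hq this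

theorem pv_glue {z : Fin 6 → ℂ} (h : OnT (qP t n) z) (k l : Fin 3) (i j : Fin 6) :
    pv t n k z i * pv t n l z j = pv t n k z j * pv t n l z i := by
  have hT := ((OnT_iff z).mp h).2
  have r := Trel hT k l
  fin_cases i <;> fin_cases j <;> simp [pv] <;>
    first
    | ring1
    | linear_combination (z 0 * z 3) * r
    | linear_combination (z 0 * z 4) * r
    | linear_combination (z 0 * z 5) * r
    | linear_combination (z 1 * z 3) * r
    | linear_combination (z 1 * z 4) * r
    | linear_combination (z 1 * z 5) * r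
    | linear_combination (z 2 * z 3) * r
    | linear_combination (z 2 * z 4) * r
    | linear_combination (z 2 * z 5) * r
    | linear_combination (-z 0 * z 3) * r
    | linear_combination (-z 0 * z 4) * r
    | linear_combination (-z 0 * z 5) * r
    | linear_combination (-z 1 * z 3) * r
    | linear_combination (-z 1 * z 4) * r
    | linear_combination (-z 1 * z 5) * r
    | linear_combination (-z 2 * z 3) * r
    | linear_combination (-z 2 * z 4) * r
    | linear_combination (-z 2 * z 5) * r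

end Pool.Agent.ENR
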