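import Pool.Agent.ENR.Enr2

/-! members of the family contain Enriques surfaces: conclusion -/

namespace Pool.Agent.ENR

open MvPolynomial

variable {t : ℂ} {n : Fin 3 → Fin 3 → ℂ}

theorem inv_mulVec {h g : Matrix (Fin 6) (Fin 6) ℂ} (hgh : g * h = 1) (v : Fin 6 → ℂ) :
    g.mulVec (h.mulVec v) = v := by
  rw [Matrix.mulVec_mulVec, hgh, Matrix.one_mulVec]

theorem psi_ne {h g : Matrix (Fin 6) (Fin 6) ℂ} (hgh : g * h = 1) (z : Fin 6 → ℂ) (k : Fin 3) :
    (∃ i, eval z (psi h t n k i) ≠ 0) ↔ ∃ i, pv t n k z i ≠ 0 := by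
  have h1 := eval_psi (t := t) (n := n) h z k
  have e1 : (∃ i, eval z (psi h t n k i) ≠ 0) ↔ h.mulVec (pv t n k z) ≠ 0 := by
    rw [← h1, Function.ne_iff]; rfl
  have e2 : (∃ i, pv t n k z i ≠ 0) ↔ pv t n k z ≠ 0 := by
    rw [Function.ne_iff]; rfl
  rw [e1, e2]
  constructor
  · intro h2 h3; apply h2; rw [h3, Matrix.mulVec_zero]
  · intro h2 h3; apply h2
    rw [← inv_mulVec hgh (pv t n k z), h3, Matrix.mulVec_zero]

theorem dual_psi (h : Matrix (Fin 6) (Fin 6) ℂ) (z ζ : Fin 6 → ℂ) (k : Fin 3) (j : Fin 6) :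
    (∑ i, ζ i * eval z (pderiv i (psi h t n k j)))
      = ∑ m, h j m * (pv (ic ℂ t) (fun k j => ic ℂ (n k j)) k (fun i => ic ℂ (z i) + TrivSqZeroExt.inr (ζ i)) m).snd := by
  rw [← (E_dual z ζ (psi h t n k j)).2]
  unfold psi
  rw [map_sum]
  simp only [map_mul, E_C, E_ps0]
  rw [TrivSqZeroExt.snd_sum]
  refine Finset.sum_congr rfl fun m _ => ?_
  rw [snd_mul', ic_fst, ic_snd]
  ring

theorem enrEmb (g : VGood t n) {h gm : Matrix (Fin 6) (Fin 6) ℂ} (hgh : gm * h = 1) :
    EnriquesEmbedding (qP t n) (psi h t n) where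
  hom k i := by
    apply isHom_of_eval
    intro c z
    rw [eval_psi', eval_psi', Finset.mul_sum]
    refine Finset.sum_congr rfl fun j _ => ?_
    rw [pv_smul]; ring
  even k i z := by
    rw [eval_psi', eval_psi']
    simp only [pv_sg]
  defined z hz := by
    have hz' := (OnT_iff z).mp hz
    obtain ⟨k, hk⟩ := g.toGood.base hz'.2 (OnT_xy g.toGood hz).1
    refine ⟨k, ?_⟩
    rw [psi_ne hgh, pv_ne g.toGood hz]
    exact hk
  glue z hz k l i j := by
    simp only [eval_psi', Finset.sum_mul_sum]
    rw [Finset.sum_comm]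
    refine Finset.sum_congr rfl fun a _ => Finset.sum_congr rfl fun b _ => ?_
    have := pv_glue hz k l b a
    linear_combination h i b * h j a * this
  inj z w hz hw k l c hc hne he := by
    have hz' := (OnT_iff z).mp hz
    have hw' := (OnT_iff w).mp hw
    have hzx := OnT_xy g.toGood hz
    have hwx := OnT_xy g.toGood hw
    rw [psi_ne hgh, pv_ne g.toGood hz] at hne
    have e0 : pv t n l w = c • pv t n k z := by
      have h1 : h.mulVec (pv t n l w) = c • h.mulVec (pv t n k z) := by
        rw [← eval_psi, ← eval_psi]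
        funext i
        exact he i
      rw [← inv_mulVec hgh (pv t n l w), h1, Matrix.mulVec_smul, inv_mulVec hgh]
    have e1 := congrArg fx e0
    have e2 := congrArg fy e0
    have ec : c • pv t n k z = fun i => c * pv t n k z i := rfl
    rw [ec, fx_smul, fx_pv, fx_pv] at e1
    rw [ec, fy_smul, fy_pv, fy_pv] at e2
    obtain ⟨a, ha1, ha2⟩ := g.toGood.inj hz'.2 hzx.1 hzx.2 hw'.2 hwx.1 hwx.2 hc hne
      (fun i => congrFun e1 i) (fun i => congrFun e2 i)
    refine ⟨a, ?_⟩
    rcases ha2 with ha2 | ha2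
    · left
      apply ext6
      · funext i; rw [ha1 i]; exact (congrFun (fx_smul a z) i).symm
      · funext i; rw [ha2 i]; exact (congrFun (fy_smul a z) i).symm
    · right
      apply ext6
      · funext i; rw [ha1 i]
        have := congrFun (fx_smul a (sg z)) i
        rw [fx_sg] at this
        exact this.symm
      · funext i; rw [ha2 i]
        have := congrFun (fy_smul a (sg z)) i
        rw [fy_sg] at this
        rw [show a • sg z = fun i => a * sg z i from rfl, this]
        ring
  imm z hz k hne ζ c hq he := by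
    have hz' := (OnT_iff z).mp hz
    have hzx := OnT_xy g.toGood hz
    rw [psi_ne hgh, pv_ne g.toGood hz] at hne
    set w : Fin 6 → DN ℂ := fun i => ic ℂ (z i) + TrivSqZeroExt.inr (ζ i) with hw
    have fw : ∀ i, (w i).fst = z i := by intro i; simp [hw]
    have sw : ∀ i, (w i).snd = ζ i := by intro i; simp [hw]
    have ffx : (fun i => (fx w i).fst) = fx z := by
      funext i; fin_cases i <;> simp [fx, fw]
    have ffy : (fun i => (fy w i).fst) = fy z := by
      funext i; fin_cases i <;> simp [fy, fw]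
    have hT : ∀ j, qT (ic ℂ t) (fun k j => ic ℂ (n k j)) (fx w) (fy w) j = 0 := by
      intro j
      rw [← E_qP]
      apply TrivSqZeroExt.ext
      · rw [(E_dual z ζ (qP t n j)).1, eval_qP, hz'.2 j]; rfl
      · rw [(E_dual z ζ (qP t n j)).2, hq j]; rfl
    -- derivative of the unchanged sextuple
    have hpv : ∀ m, (pv (ic ℂ t) (fun k j => ic ℂ (n k j)) k w m).snd = c * (pv (ic ℂ t) (fun k j => ic ℂ (n k j)) k w m).fst := by
      have h1 : h.mulVec (fun m => (pv (ic ℂ t) (fun k j => ic ℂ (n k j)) k w m).snd) = h.mulVec (c • pv t n k z) := by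
        funext j
        have := he j
        rw [dual_psi] at this
        rw [Matrix.mulVec_smul, ← eval_psi]
        exact this
      have h2 := congrArg gm.mulVec h1
      rw [inv_mulVec hgh, inv_mulVec hgh] at h2
      intro m
      have h3 := congrFun h2 m
      rw [h3]
      have h4 : (pv (ic ℂ t) (fun k j => ic ℂ (n k j)) k w m).fst = pv t n k z m := by
        rw [← E_ps0, (E_dual z ζ (ps0 t n k m)).1, eval_ps0]
      rw [h4]; rfl
    have e1 : ∀ i, (dl (ic ℂ t) (fx w) (fy w) k * fx w i).snd = c * (dl (ic ℂ t) (fx w) (fy w) k * fx w i).fst := by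
      intro i
      have h5 := congrFun (fx_pv (ic ℂ t) (fun k j => ic ℂ (n k j)) k w) i
      rw [← h5]
      fin_cases i
      · exact hpv 0
      · exact hpv 1
      · exact hpv 2
    have e2 : ∀ i, (de (ic ℂ t) (fun k j => ic ℂ (n k j)) (fx w) (fy w) k * fy w i).snd
        = c * (de (ic ℂ t) (fun k j => ic ℂ (n k j)) (fx w) (fy w) k * fy w i).fst := by
      intro i
      have h5 := congrFun (fy_pv (ic ℂ t) (fun k j => ic ℂ (n k j)) k w) i
      rw [← h5]
      fin_cases i
      · exact hpv 3
      · exact hpv 4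
      · exact hpv 5
    have hk' : (dl (ic ℂ t) (fx w) (fy w) k).fst ≠ 0 ∨
        (de (ic ℂ t) (fun k j => ic ℂ (n k j)) (fx w) (fy w) k).fst ≠ 0 := by
      rw [fst_dl, fst_de, ffx, ffy]
      exact hne
    obtain ⟨a, ha1, ha2⟩ := Good.imm two_ne_zero g.toGood hT (by rw [ffx]; exact hzx.1) (by rw [ffy]; exact hzx.2) hk' e1 e2
    refine ⟨a, ?_⟩
    apply ext6
    · funext i
      have := ha1 i
      fin_cases i
      · simpa [fx, sw, fw] using this
      · simpa [fx, sw, fw] using this
      · simpa [fx, sw, fw] using this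
    · funext i
      have := ha2 i
      fin_cases i
      · simpa [fy, sw, fw] using this
      · simpa [fy, sw, fw] using this
      · simpa [fy, sw, fw] using this

end Pool.Agent.ENR
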