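import Pool.Agent.ENR.Enr3

/-! members of the family contain Enriques surfaces: conclusion -/

namespace Pool.Agent.ENR

open MvPolynomial

section scaling
variable {R : Type*} [CommRing R]

theorem Qm_smul (t : R) (n : Fin 3 → Fin 3 → R) (c : R) (u v : Fin 3 → R) (i j : Fin 3) :
    Qm t n (fun i => c * u i) (fun i => c * v i) i j = c ^ 2 * Qm t n u v i j := by
  have h1 : net n (de t n (fun i => c * u i) (fun i => c * v i)) i j = c ^ 2 * net n (de t n u v) i j := by
    rw [← net_smul]
    congr 2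
    funext k
    rw [de_smul]; ring
  unfold Qm
  rw [h1]; ring

theorem Zm_smul (t : R) (n : Fin 3 → Fin 3 → R) (c : R) (u v : Fin 3 → R) (i j : Fin 3) :
    Zm t n (fun i => c * u i) (fun i => c * v i) i j = c ^ 3 * Zm t n u v i j := by
  unfold Zm
  rw [hes_smul]
  simp only [mm, Qm_smul]
  ring

theorem G9_smul (t : R) (n : Fin 3 → Fin 3 → R) (c : R) (u v : Fin 3 → R) :
    G9 t n (fun i => c * u i) (fun i => c * v i) = c ^ 3 * G9 t n u v := by
  have hq : Qm t n (fun i => c * u i) (fun i => c * v i) = fun i j => c ^ 2 * Qm t n u v i j := by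
    funext i j; exact Qm_smul t n c u v i j
  have hp : pp t (fun i j => c ^ 2 * Qm t n u v i j) = fun i j => c ^ 2 * pp t (Qm t n u v) i j := by
    funext i j; exact pp_smul t (c ^ 2) _ i j
  unfold G9
  rw [hq, hp, hes_smul, hes_smul, J3P_smul, J3_smul]
  simp only [kc_smul]
  simp only [tr3, mm]
  ring

theorem G10_smul (t : R) (n : Fin 3 → Fin 3 → R) (c : R) (u v : Fin 3 → R) :
    G10 t n (fun i => c * u i) (fun i => c * v i) = c ^ 3 * G10 t n u v := by
  have h1 : net n (de t n (fun i => c * u i) (fun i => c * v i)) = fun i j => c ^ 2 * net n (de t n u v) i j := by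
    funext i j
    rw [← net_smul]
    congr 2
    funext k
    rw [de_smul]; ring
  have h2 : KM (hes t (fun i => c * u i)) (Nn n) = fun k i => c * KM (hes t u) (Nn n) k i := by
    funext k i
    unfold KM
    rw [hes_smul, krN_smul]
  have h3 : adj (hes t (fun i => c * u i)) = fun i j => c ^ 2 * adj (hes t u) i j := by
    funext i j
    rw [hes_smul, adj_smul]
  unfold G10
  rw [h1, h2, h3, det3_smul, J3P_smul, hes_smul]
  simp only [tr3, mm, dt, mv]
  ring

theorem Gf_smul (t : R) (n : Fin 3 → Fin 3 → R) (c : R) (u v : Fin 3 → R) (i : Fin 10) :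
    Gf t n (fun i => c * u i) (fun i => c * v i) i = c ^ 3 * Gf t n u v i := by
  unfold Gf
  rw [G9_smul, G10_smul]
  fin_cases i <;> simp [Zm_smul] <;> ring

end scaling

variable {t : ℂ} {n : Fin 3 → Fin 3 → ℂ}

/-- `G_j` at a point of `C^6` -/
def Gz {R : Type*} [CommRing R] (t : R) (n : Fin 3 → Fin 3 → R) (z : Fin 6 → R) (j : Fin 10) : R :=
  Gf t n (fx z) (fy z) j

theorem Gz_smul {R : Type*} [CommRing R] (t : R) (n : Fin 3 → Fin 3 → R) (c : R) (z : Fin 6 → R) (j : Fin 10) :
    Gz t n (fun i => c * z i) j = c ^ 3 * Gz t n z j := by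
  unfold Gz
  rw [fx_smul, fy_smul, Gf_smul]

theorem map_Gz {R S : Type*} [CommRing R] [CommRing S] (f : R →+* S) (t : R) (n : Fin 3 → Fin 3 → R)
    (z : Fin 6 → R) (j : Fin 10) :
    f (Gz t n z j) = Gz (f t) (fun k j => f (n k j)) (fun i => f (z i)) j := by
  unfold Gz
  rw [map_Gf, map_fx f, map_fy f]

/-- the member of the family with parameters `(t, n, c, g)` -/
def fam {R : Type*} [CommRing R] (t : R) (n : Fin 3 → Fin 3 → R) (c : Fin 10 → R)
    (g : Matrix (Fin 6) (Fin 6) R) (z : Fin 6 → R) : R := ∑ j, c j * Gz t n (g.mulVec z) j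

theorem mulVec_smul' {R : Type*} [CommRing R] (g : Matrix (Fin 6) (Fin 6) R) (c : R) (z : Fin 6 → R) :
    g.mulVec (fun i => c * z i) = fun i => c * g.mulVec z i := by
  have : (fun i => c * z i) = c • z := rfl
  rw [this, Matrix.mulVec_smul]; rfl

theorem fam_smul {R : Type*} [CommRing R] (t : R) (n : Fin 3 → Fin 3 → R) (c : Fin 10 → R)
    (g : Matrix (Fin 6) (Fin 6) R) (s : R) (z : Fin 6 → R) :
    fam t n c g (fun i => s * z i) = s ^ 3 * fam t n c g z := by
  unfold fam
  rw [Finset.mul_sum]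
  refine Finset.sum_congr rfl fun j _ => ?_
  rw [mulVec_smul', Gz_smul]; ring

theorem map_fam {R S : Type*} [CommRing R] [CommRing S] (f : R →+* S) (t : R) (n : Fin 3 → Fin 3 → R)
    (c : Fin 10 → R) (g : Matrix (Fin 6) (Fin 6) R) (z : Fin 6 → R) :
    f (fam t n c g z) = fam (f t) (fun k j => f (n k j)) (fun j => f (c j)) (g.map f) (fun i => f (z i)) := by
  unfold fam
  rw [map_sum]
  refine Finset.sum_congr rfl fun j _ => ?_
  rw [map_mul, map_Gz]
  congr 2
  funext i
  simp [Matrix.mulVec, dotProduct]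

/-- the coefficient vector of a member of the family exists -/
theorem exists_fam (t : ℂ) (n : Fin 3 → Fin 3 → ℂ) (c : Fin 10 → ℂ) (g : Matrix (Fin 6) (Fin 6) ℂ) :
    ∃ F, ∀ z, val F z = fam t n c g z := by
  let P : MvPolynomial (Fin 6) ℂ := fam (C t) (fun k j => C (n k j)) (fun j => C (c j)) (g.map C) X
  have hP : ∀ z, eval z P = fam t n c g z := by
    intro z
    simp only [P]
    rw [map_fam]
    simp only [eval_C, eval_X]
    congr 1
    ext i j
    simp
  obtain ⟨F, hF⟩ := exists_val (P := P) (by intro s z; rw [hP, hP, fam_smul])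
  exact ⟨F, fun z => by rw [hF, hP]⟩

/-- the ten cubics are independent on some plane -/
def Plane (t : ℂ) (n : Fin 3 → Fin 3 → ℂ) : Prop :=
  ∃ p : Fin 3 → Fin 6 → ℂ, LinearIndependent ℂ
    (fun j : Fin 10 => fun s : Fin 3 → ℂ => Gz t n (fun i => ∑ m, s m * p m i) j)

theorem fam_single (t : ℂ) (n : Fin 3 → Fin 3 → ℂ) (j : Fin 10) (g : Matrix (Fin 6) (Fin 6) ℂ) (z : Fin 6 → ℂ) :
    fam t n (Pi.single j 1) g z = Gz t n (g.mulVec z) j := by
  unfold fam
  rw [Finset.sum_eq_single j]
  · simp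
  · intro b _ hb; rw [Pi.single_eq_of_ne hb, zero_mul]
  · intro h; exact absurd (Finset.mem_univ j) h

theorem containsEnriques (hg : VGood t n) (hp : Plane t n) {g h : Matrix (Fin 6) (Fin 6) ℂ}
    (hgh : g * h = 1) (c : Fin 10 → ℂ) (F : Mon → ℂ) (hF : ∀ z, val F z = fam t n c g z) :
    ContainsEnriques F := by
  choose G hG using fun j : Fin 10 => exists_fam t n (Pi.single j 1) g
  have hG' : ∀ j z, val (G j) z = Gz t n (g.mulVec z) j := by
    intro j z; rw [hG, fam_single]
  refine ⟨qP t n, psi h t n, enrCover hg, enrEmb hg hgh, G, ?_, ?_, ?_⟩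
  · have : F = ∑ j, c j • G j := by
      apply val_inj
      intro z
      rw [← valL_apply, ← valL_apply, map_sum, valL_apply, hF]
      unfold fam
      refine Finset.sum_congr rfl fun j _ => ?_
      rw [map_smul, valL_apply, hG', smul_eq_mul]
    rw [this]
    exact Submodule.sum_mem _ fun j _ => Submodule.smul_mem _ _ (Submodule.subset_span ⟨j, rfl⟩)
  · intro j k z hz
    rw [hG', eval_psi, inv_mulVec hgh]
    unfold Gz
    rw [fx_pv, fy_pv]
    have hT := ((OnT_iff z).mp hz).2
    apply Gvan hT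
    · intro l
      have := Trel hT k l
      linear_combination this
    · by_cases h0 : ∃ k, dl t (fx z) (fy z) k ≠ 0
      · exact Or.inl h0
      · push Not at h0
        exact Or.inr ⟨h0 k, h0⟩
  · obtain ⟨p, hp⟩ := hp
    refine ⟨fun m => h.mulVec (p m), ?_⟩
    convert hp using 3 with j s
    rw [hG']
    congr 1
    have : (fun i => ∑ m, s m * h.mulVec (p m) i) = h.mulVec (fun i => ∑ m, s m * p m i) := by
      funext i
      simp only [Matrix.mulVec, dotProduct, Finset.mul_sum]
      rw [Finset.sum_comm]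
      refine Finset.sum_congr rfl fun a _ => Finset.sum_congr rfl fun b _ => ?_
      ring
    rw [this, inv_mulVec hgh]

end Pool.Agent.ENR
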