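import Pool.Agent.ENR.Alg3

namespace Pool.Agent.ENR

open Matrix

variable {R : Type*} [CommRing R]

/-! ### more general identities -/

theorem krlin1 (A : Fin 6 → R) (N : Fin 3 → Fin 6 → R) (d : Fin 3 → R) (i : Fin 3) :
    krN (sy A) ![sy (fun m => d 0 * N 0 m + d 1 * N 1 m + d 2 * N 2 m), sy (N 1), sy (N 2)] 1 i
      = d 0 * krN (sy A) (fun k => sy (N k)) 1 i - d 1 * krN (sy A) (fun k => sy (N k)) 0 i := by
  fin_cases i <;>
  · simp [krN, axv, mm, sy, f01, f02, f11, f12]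
    ring

theorem krlin2 (A : Fin 6 → R) (N : Fin 3 → Fin 6 → R) (d : Fin 3 → R) (i : Fin 3) :
    krN (sy A) ![sy (fun m => d 0 * N 0 m + d 1 * N 1 m + d 2 * N 2 m), sy (N 1), sy (N 2)] 2 i
      = d 0 * krN (sy A) (fun k => sy (N k)) 2 i - d 2 * krN (sy A) (fun k => sy (N k)) 0 i := by
  fin_cases i <;>
  · simp [krN, axv, mm, sy, f01, f02, f21, f22]
    ring

theorem J3P_lin (y : Fin 3 → R) (P : Matrix (Fin 3) (Fin 3) R) (N : Fin 3 → Fin 6 → R) (d : Fin 3 → R) :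
    J3P y P ![sy (fun m => d 0 * N 0 m + d 1 * N 1 m + d 2 * N 2 m), sy (N 1), sy (N 2)]
      = d 0 * J3P y P (fun k => sy (N k)) := by
  simp [J3P, J3, jt, mm, tr3, crs, ev, sy, Fin.sum_univ_three]
  ring

theorem J3P_cyc (y : Fin 3 → R) (P : Matrix (Fin 3) (Fin 3) R) (N : Fin 3 → Fin 6 → R) :
    J3P y P (fun k => sy (N (k + 1))) = J3P y P (fun k => sy (N k)) := by
  simp [J3P, J3, jt, mm, tr3, crs, ev, sy, Fin.sum_univ_three, f01, f11, f21]
  ring

/-- the matrix `K`. -/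
def KM (A : Matrix (Fin 3) (Fin 3) R) (N : Fin 3 → Matrix (Fin 3) (Fin 3) R) :
    Matrix (Fin 3) (Fin 3) R := fun k => krN A N k

theorem det3_rows (a b c : Fin 3 → R) (d0 d1 d2 : R) :
    det3 (![a, fun i => d0 * b i - d1 * a i, fun i => d0 * c i - d2 * a i] : Matrix (Fin 3) (Fin 3) R)
      = d0 ^ 2 * det3 (![a, b, c] : Matrix (Fin 3) (Fin 3) R) := by
  simp [det3]
  ring

theorem det3_KM (A : Matrix (Fin 3) (Fin 3) R) (N : Fin 3 → Matrix (Fin 3) (Fin 3) R) :
    det3 (KM A N) = det3 (![krN A N 0, krN A N 1, krN A N 2] : Matrix (Fin 3) (Fin 3) R) := by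
  simp [det3, KM]

theorem g10_0 {A : Fin 6 → R} {y : Fin 3 → R} {N : Fin 3 → Fin 6 → R} {d : Fin 3 → R}
    (h : HT A y N d) :
    d 0 ^ 2 * (2 * det3 (KM (sy A) (fun k => sy (N k))))
      = dlt' (sy A) y (fun k => sy (N k)) 0 ^ 2 * (8 * det3 (sy A) + 2 * dt y (mv (sy A) y))
        + d 0 * dlt' (sy A) y (fun k => sy (N k)) 0 * J3P y (adj (sy A)) (fun k => sy (N k)) := by
  set e0 := krN (sy A) (fun k => sy (N k)) 0 with he0
  have k1 := kr1_D A (N 1) (N 2) y
  have k2 := kr2_D A (N 1) (N 2) y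
  rw [h] at k1 k2
  have k1' : (fun i => d 0 * krN (sy A) (fun k => sy (N k)) 1 i - d 1 * e0 i)
      = cr (mv (sy (N 2)) (mv (sy A) y)) y := by
    rw [← k1]; funext i; exact (krlin1 A N d i).symm
  have k2' : (fun i => d 0 * krN (sy A) (fun k => sy (N k)) 2 i - d 2 * e0 i)
      = cr y (mv (sy (N 1)) (mv (sy A) y)) := by
    rw [← k2]; funext i; exact (krlin2 A N d i).symm
  have hd := det3_rows e0 (krN (sy A) (fun k => sy (N k)) 1) (krN (sy A) (fun k => sy (N k)) 2)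
    (d 0) (d 1) (d 2)
  rw [k1', k2', det_cr] at hd
  have hc := g10_core A (N 1) (N 2) y
  rw [h, J3P_lin] at hc
  have he : dt y (axv (mm (mm (sy (N 1)) (sy A)) (sy (N 2)))) = dt y e0 := rfl
  rw [he] at hc
  have hk := det3_KM (sy A) (fun k => sy (N k))
  rw [hk]
  have hdl : dlt' (sy A) y (fun k => sy (N k)) 0 = dt y e0 := rfl
  rw [hdl]
  linear_combination (-2) * hd + dt y e0 * hc

theorem KM_cyc (A : Matrix (Fin 3) (Fin 3) R) (N : Fin 3 → Matrix (Fin 3) (Fin 3) R) :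
    det3 (KM A (fun k => N (k + 1))) = det3 (KM A N) := by
  have e0 : krN A (fun k => N (k + 1)) 0 = krN A N 1 := rfl
  have e1 : krN A (fun k => N (k + 1)) 1 = krN A N 2 := rfl
  have e2 : krN A (fun k => N (k + 1)) 2 = krN A N 0 := rfl
  rw [det3_KM, det3_KM, e0, e1, e2]
  simp [det3]
  ring

/-- **(G10)** identity, all slots. -/
theorem g10id {A : Fin 6 → R} {y : Fin 3 → R} {N : Fin 3 → Fin 6 → R} {d : Fin 3 → R}
    (h : HT A y N d) (k : Fin 3) :
    d k ^ 2 * (2 * det3 (KM (sy A) (fun k => sy (N k))))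
      = dlt' (sy A) y (fun k => sy (N k)) k ^ 2 * (8 * det3 (sy A) + 2 * dt y (mv (sy A) y))
        + d k * dlt' (sy A) y (fun k => sy (N k)) k * J3P y (adj (sy A)) (fun k => sy (N k)) := by
  have h0 := g10_0 h
  have h1 := g10_0 h.cyc
  have h2 := g10_0 h.cyc.cyc
  have e1 : dlt' (sy A) y (fun k => sy (N (k + 1))) 0 = dlt' (sy A) y (fun k => sy (N k)) 1 :=
    dlt'_cyc (sy A) y (fun k => sy (N k)) 0
  have e2 : dlt' (sy A) y (fun k => sy (N (k + 1 + 1))) 0 = dlt' (sy A) y (fun k => sy (N k)) 2 :=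
    (dlt'_cyc (sy A) y (fun k => sy (N (k + 1))) 0).trans (dlt'_cyc (sy A) y (fun k => sy (N k)) 1)
  rw [e1, J3P_cyc y _ N, KM_cyc (sy A) (fun k => sy (N k))] at h1
  rw [e2, J3P_cyc y _ (fun k => N (k + 1)), J3P_cyc y _ N, KM_cyc (sy A) (fun k => sy (N (k + 1))),
    KM_cyc (sy A) (fun k => sy (N k))] at h2
  generalize det3 (KM (sy A) (fun k => sy (N k))) = r at *
  generalize dlt' (sy A) y (fun k => sy (N k)) = e at *
  generalize J3P y (adj (sy A)) (fun k => sy (N k)) = j at *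
  fin_cases k
  · exact h0
  · exact h1
  · exact h2

/-! ### the family -/

/-- six entries of the Hesse matrix. -/
def hv (t : R) (x : Fin 3 → R) : Fin 6 → R := ![x 0, x 1, x 2, t * x 0, t * x 1, t * x 2]

/-- symmetric 3x3 matrix of linear forms: half the Hessian of the Hesse cubic. -/
def hes (t : R) (x : Fin 3 → R) : Matrix (Fin 3) (Fin 3) R := sy (hv t x)

/-- generators of the net. -/
def gv (n : Fin 3 → Fin 3 → R) (k : Fin 3) : Fin 6 → R :=
  ![ev k 0, ev k 1, ev k 2, n k 0, n k 1, n k 2]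

/-- generators of the net, as matrices. -/
def Nn (n : Fin 3 → Fin 3 → R) (k : Fin 3) : Matrix (Fin 3) (Fin 3) R := sy (gv n k)

/-- off-diagonal entry number `j` of the matrix of the net with diagonal `d`. -/
def ofd (n : Fin 3 → Fin 3 → R) (d : Fin 3 → R) (j : Fin 3) : R :=
  n 0 j * d 0 + n 1 j * d 1 + n 2 j * d 2

/-- the symmetric matrix with diagonal `d` in the net given by `n`. -/
def net (n : Fin 3 → Fin 3 → R) (d : Fin 3 → R) : Matrix (Fin 3) (Fin 3) R :=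
  sy ![d 0, d 1, d 2, ofd n d 0, ofd n d 1, ofd n d 2]

/-- the forms `delta_k`. -/
def dl (t : R) (x y : Fin 3 → R) (k : Fin 3) : R := adj (hes t x) k k + y k * y k

/-- the bilinear forms `delta'_k`. -/
def de (t : R) (n : Fin 3 → Fin 3 → R) (x y : Fin 3 → R) (k : Fin 3) : R :=
  dlt' (hes t x) y (Nn n) k

/-- the equations of `T`: `adj (hes t x) + y y^T` lies in the net. -/
def qT (t : R) (n : Fin 3 → Fin 3 → R) (x y : Fin 3 → R) (j : Fin 3) : R :=
  adj (hes t x) (j + 1) (j + 2) + y (j + 1) * y (j + 2) - ofd n (dl t x y) j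

theorem net_eq (n : Fin 3 → Fin 3 → R) (d : Fin 3 → R) :
    net n d = sy (fun m => d 0 * gv n 0 m + d 1 * gv n 1 m + d 2 * gv n 2 m) := by
  unfold net
  congr 1
  funext m
  fin_cases m <;> simp [gv, ev, ofd] <;> ring

theorem HT_of_qT {t : R} {n : Fin 3 → Fin 3 → R} {x y : Fin 3 → R} (h : ∀ j, qT t n x y j = 0) :
    HT (hv t x) y (gv n) (dl t x y) := by
  unfold HT
  rw [← net_eq]
  have h0 := h 0
  have h1 := h 1
  have h2 := h 2
  simp only [qT, f01, f02, f11, f12, f21, f22] at h0 h1 h2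
  unfold net
  ext i j
  fin_cases i <;> fin_cases j <;>
    simp [sy, out, adj, dl, hes, hv, Matrix.add_apply] at h0 h1 h2 ⊢ <;>
    first
    | linear_combination h0
    | linear_combination h1
    | linear_combination h2

theorem adj_hes_add (t : R) (n : Fin 3 → Fin 3 → R) (x y : Fin 3 → R) (h : ∀ j, qT t n x y j = 0) :
    adj (hes t x) + out y = net n (dl t x y) := by
  rw [net_eq]
  exact HT_of_qT h

theorem Trel {t : R} {n : Fin 3 → Fin 3 → R} {x y : Fin 3 → R} (h : ∀ j, qT t n x y j = 0)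
    (k l : Fin 3) : dl t x y k * de t n x y l = dl t x y l * de t n x y k :=
  rel (HT_of_qT h) k l

end Pool.Agent.ENR
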