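import Pool.Agent.ENR.Fam

namespace Pool.Agent.ENR

open Matrix

variable {R : Type*} [CommRing R]

/-- Aronhold invariant (up to a factor). -/
def th (t : R) : R := t ^ 4 - t

/-- the linear map with `pp t (adj (hes t u)) = th t * u u^T`. -/
def pp (t : R) (P : Matrix (Fin 3) (Fin 3) R) : Matrix (Fin 3) (Fin 3) R :=
  sy ![P 1 2 - t ^ 2 * P 0 0, P 2 0 - t ^ 2 * P 1 1, P 0 1 - t ^ 2 * P 2 2,
    t ^ 2 * P 1 2 - t * P 0 0, t ^ 2 * P 2 0 - t * P 1 1, t ^ 2 * P 0 1 - t * P 2 2]

theorem pp_adj (t : R) (u : Fin 3 → R) (i j : Fin 3) :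
    pp t (adj (hes t u)) i j = th t * (u i * u j) := by
  fin_cases i <;> fin_cases j <;> simp [pp, adj, hes, hv, sy, th] <;> ring

theorem pp_smul (t c : R) (P : Matrix (Fin 3) (Fin 3) R) (i j : Fin 3) :
    pp t (fun i j => c * P i j) i j = c * pp t P i j := by
  fin_cases i <;> fin_cases j <;> simp [pp, sy] <;> ring

/-- `Q = net (delta'(u,v)) - v v^T`. -/
def Qm (t : R) (n : Fin 3 → Fin 3 → R) (u v : Fin 3 → R) : Matrix (Fin 3) (Fin 3) R :=
  fun i j => net n (de t n u v) i j - v i * v j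

/-- `Z = A(u) Q`. -/
def Zm (t : R) (n : Fin 3 → Fin 3 → R) (u v : Fin 3 → R) : Matrix (Fin 3) (Fin 3) R :=
  mm (hes t u) (Qm t n u v)

/-- contraction of row k of K with a matrix. -/
def kc (t : R) (n : Fin 3 → Fin 3 → R) (P : Matrix (Fin 3) (Fin 3) R) (k : Fin 3) : R :=
  ∑ i, ∑ j, krN (hes t (ev i)) (Nn n) k j * P i j

/-- ninth cubic. -/
def G9 (t : R) (n : Fin 3 → Fin 3 → R) (u v : Fin 3 → R) : R :=
  8 * tr3 (mm (pp t (Qm t n u v)) (hes t v))
    - 8 * (tr3 (mm (hes t u) (Nn n 0)) * kc t n (pp t (Qm t n u v)) 0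
      + tr3 (mm (hes t u) (Nn n 1)) * kc t n (pp t (Qm t n u v)) 1
      + tr3 (mm (hes t u) (Nn n 2)) * kc t n (pp t (Qm t n u v)) 2)
    - 3 * th t * J3P u (Qm t n u v) (Nn n) + th t * J3 u v v (Nn n)

/-- tenth cubic. -/
def G10 (t : R) (n : Fin 3 → Fin 3 → R) (u v : Fin 3 → R) : R :=
  6 * det3 (KM (hes t u) (Nn n)) + 2 * dt v (mv (hes t u) v)
    - 8 * tr3 (mm (hes t u) (net n (de t n u v))) - 3 * J3P v (adj (hes t u)) (Nn n)

/-- the ten cubics. -/
def Gf (t : R) (n : Fin 3 → Fin 3 → R) (u v : Fin 3 → R) : Fin 10 → R :=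
  ![Zm t n u v 0 1, Zm t n u v 0 2, Zm t n u v 1 0, Zm t n u v 1 2, Zm t n u v 2 0, Zm t n u v 2 1,
    Zm t n u v 0 0 - Zm t n u v 1 1, Zm t n u v 1 1 - Zm t n u v 2 2, G9 t n u v, G10 t n u v]

theorem hes_smul (t c : R) (x : Fin 3 → R) : hes t (fun i => c * x i) = fun i j => c * hes t x i j := by
  ext i j
  fin_cases i <;> fin_cases j <;> simp [hes, hv, sy] <;> ring

theorem krN_smul (c : R) (A : Matrix (Fin 3) (Fin 3) R) (N : Fin 3 → Matrix (Fin 3) (Fin 3) R)
    (k i : Fin 3) : krN (fun i j => c * A i j) N k i = c * krN A N k i := by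
  fin_cases i <;> simp [krN, axv, mm] <;> ring

theorem de_smul (t : R) (n : Fin 3 → Fin 3 → R) (c d : R) (x y : Fin 3 → R) (k : Fin 3) :
    de t n (fun i => c * x i) (fun i => d * y i) k = c * d * de t n x y k := by
  unfold de dlt'
  rw [hes_smul]
  simp only [dt, krN_smul]
  ring

theorem net_smul (n : Fin 3 → Fin 3 → R) (c : R) (d : Fin 3 → R) (i j : Fin 3) :
    net n (fun k => c * d k) i j = c * net n d i j := by
  fin_cases i <;> fin_cases j <;> simp [net, sy, ofd] <;> ring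

theorem mul_adj (t : R) (x : Fin 3 → R) (i j : Fin 3) :
    mm (hes t x) (adj (hes t x)) i j = if i = j then det3 (hes t x) else 0 := by
  fin_cases i <;> fin_cases j <;> simp [mm, hes, hv, sy, adj, det3] <;> ring

section val

variable {t : R} {n : Fin 3 → Fin 3 → R} {x y : Fin 3 → R} {m v : R}

theorem Qval (h : ∀ j, qT t n x y j = 0) (hm : ∀ k, m * de t n x y k = v * dl t x y k) (i j : Fin 3) :
    Qm t n (fun i => m * x i) (fun i => v * y i) i j = v ^ 2 * adj (hes t x) i j := by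
  have h1 : net n (de t n (fun i => m * x i) (fun i => v * y i)) i j = v ^ 2 * net n (dl t x y) i j := by
    rw [← net_smul]
    congr 2
    funext k
    rw [de_smul]
    linear_combination v * hm k
  unfold Qm
  rw [h1, ← adj_hes_add t n x y h, Matrix.add_apply]
  simp only [out]
  ring

theorem Zval (h : ∀ j, qT t n x y j = 0) (hm : ∀ k, m * de t n x y k = v * dl t x y k) (i j : Fin 3) :
    Zm t n (fun i => m * x i) (fun i => v * y i) i j
      = if i = j then m * v ^ 2 * det3 (hes t x) else 0 := by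
  have hq : Qm t n (fun i => m * x i) (fun i => v * y i) = fun i j => v ^ 2 * adj (hes t x) i j := by
    funext i j; exact Qval h hm i j
  have h1 : Zm t n (fun i => m * x i) (fun i => v * y i) i j
      = m * v ^ 2 * mm (hes t x) (adj (hes t x)) i j := by
    unfold Zm
    rw [hq, hes_smul]
    simp only [mm]
    ring
  rw [h1, mul_adj]
  split_ifs <;> ring

theorem tr3_adj (h : ∀ j, qT t n x y j = 0) :
    tr3 (mm (hes t x) (net n (dl t x y))) = 3 * det3 (hes t x) + dt y (mv (hes t x) y) := by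
  rw [← adj_hes_add t n x y h]
  simp [tr3, mm, out, Matrix.add_apply, hes, hv, sy, adj, det3, dt, mv]
  ring

theorem J3P_smul (c e : R) (a : Fin 3 → R) (P : Matrix (Fin 3) (Fin 3) R)
    (N : Fin 3 → Matrix (Fin 3) (Fin 3) R) :
    J3P (fun i => c * a i) (fun i j => e * P i j) N = c * e * J3P a P N := by
  simp only [J3P, J3, Fin.sum_univ_three, mul_add]
  have key : ∀ (b b' : Fin 3 → R), jt (fun i => c * a i) b b' N = c * jt a b b' N := by
    intro b b'; simp [jt, tr3, mm, crs]; ring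
  have key2 : ∀ (b b' : Fin 3 → R), jt b (fun i => c * a i) b' N = c * jt b a b' N := by
    intro b b'; simp [jt, tr3, mm, crs]; ring
  have key3 : ∀ (b b' : Fin 3 → R), jt b b' (fun i => c * a i) N = c * jt b b' a N := by
    intro b b'; simp [jt, tr3, mm, crs]; ring
  simp only [key, key2, key3]
  ring

end val

end Pool.Agent.ENR
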