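import Pool.Agent.ENR.Fam2

namespace Pool.Agent.ENR

open Matrix

variable {R : Type*} [CommRing R]

theorem jt_smul1 (c : R) (a b b' : Fin 3 → R) (N : Fin 3 → Matrix (Fin 3) (Fin 3) R) :
    jt (fun i => c * a i) b b' N = c * jt a b b' N := by
  simp [jt, tr3, mm, crs]; ring
theorem jt_smul2 (c : R) (a b b' : Fin 3 → R) (N : Fin 3 → Matrix (Fin 3) (Fin 3) R) :
    jt b (fun i => c * a i) b' N = c * jt b a b' N := by
  simp [jt, tr3, mm, crs]; ring
theorem jt_smul3 (c : R) (a b b' : Fin 3 → R) (N : Fin 3 → Matrix (Fin 3) (Fin 3) R) :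
    jt b b' (fun i => c * a i) N = c * jt b b' a N := by
  simp [jt, tr3, mm, crs]; ring

theorem J3_smul (c d : R) (u v : Fin 3 → R) (N : Fin 3 → Matrix (Fin 3) (Fin 3) R) :
    J3 (fun i => c * u i) (fun i => d * v i) (fun i => d * v i) N = c * d ^ 2 * J3 u v v N := by
  simp only [J3, jt_smul1, jt_smul2, jt_smul3]
  ring

theorem det3_smul (c : R) (A : Matrix (Fin 3) (Fin 3) R) :
    det3 (fun i j => c * A i j) = c ^ 3 * det3 A := by
  simp only [det3]; ring

theorem adj_smul (c : R) (A : Matrix (Fin 3) (Fin 3) R) (i j : Fin 3) :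
    adj (fun i j => c * A i j) i j = c ^ 2 * adj A i j := by
  fin_cases i <;> fin_cases j <;> simp [adj] <;> ring

variable {t : R} {n : Fin 3 → Fin 3 → R} {x y : Fin 3 → R} {m v : R}

theorem G10val (h : ∀ j, qT t n x y j = 0) (hm : ∀ k, m * de t n x y k = v * dl t x y k) :
    G10 t n (fun i => m * x i) (fun i => v * y i)
      = 3 * m * (m ^ 2 * (2 * det3 (KM (hes t x) (Nn n))) - v ^ 2 * (8 * det3 (hes t x)
          + 2 * dt y (mv (hes t x) y)) - m * v * J3P y (adj (hes t x)) (Nn n)) := by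
  have h1 : net n (de t n (fun i => m * x i) (fun i => v * y i)) = fun i j => v ^ 2 * net n (dl t x y) i j := by
    funext i j
    rw [← net_smul]
    congr 2
    funext k
    rw [de_smul]
    linear_combination v * hm k
  have h2 : KM (hes t (fun i => m * x i)) (Nn n) = fun k i => m * KM (hes t x) (Nn n) k i := by
    funext k i
    unfold KM
    rw [hes_smul, krN_smul]
  have h3 : adj (hes t (fun i => m * x i)) = fun i j => m ^ 2 * adj (hes t x) i j := by
    funext i j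
    rw [hes_smul, adj_smul]
  have h4 : dt (fun i => v * y i) (mv (hes t (fun i => m * x i)) (fun i => v * y i))
      = m * v ^ 2 * dt y (mv (hes t x) y) := by
    rw [hes_smul]
    simp only [dt, mv]
    ring
  have h5 : tr3 (mm (hes t (fun i => m * x i)) (fun i j => v ^ 2 * net n (dl t x y) i j))
      = m * v ^ 2 * tr3 (mm (hes t x) (net n (dl t x y))) := by
    rw [hes_smul]
    simp only [tr3, mm]
    ring
  unfold G10
  rw [h1, h2, h3, h4, h5, det3_smul, J3P_smul, tr3_adj h]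
  ring

theorem kc_smul (c : R) (P : Matrix (Fin 3) (Fin 3) R) (k : Fin 3) :
    kc t n (fun i j => c * P i j) k = c * kc t n P k := by
  simp only [kc, Fin.sum_univ_three]
  ring

theorem krN_hes (k j : Fin 3) : krN (hes t (ev 0)) (Nn n) k j * x 0 + krN (hes t (ev 1)) (Nn n) k j * x 1
    + krN (hes t (ev 2)) (Nn n) k j * x 2 = krN (hes t x) (Nn n) k j := by
  have e : hes t x = fun i j => x 0 * hes t (ev 0) i j + x 1 * hes t (ev 1) i j + x 2 * hes t (ev 2) i j := by
    funext i j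
    fin_cases i <;> fin_cases j <;> simp [hes, hv, sy, ev, mul_comm]
  rw [e]
  generalize hes t (ev 0) = A
  generalize hes t (ev 1) = B
  generalize hes t (ev 2) = C
  fin_cases j <;> simp [krN, axv, mm] <;> ring

theorem kc_out (k : Fin 3) : kc t n (fun i j => x i * x j) k = dt x (krN (hes t x) (Nn n) k) := by
  have h := fun j => krN_hes (t := t) (n := n) (x := x) k j
  simp only [kc, Fin.sum_univ_three, dt, ← h]
  ring

theorem J3_ev (a y : Fin 3 → R) (N : Fin 3 → Matrix (Fin 3) (Fin 3) R) :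
    J3 a y y N = a 0 * J3 (ev 0) y y N + a 1 * J3 (ev 1) y y N + a 2 * J3 (ev 2) y y N := by
  simp [J3, jt, tr3, mm, crs, ev]
  ring

theorem jt_ev1 (a b c : Fin 3 → R) (N : Fin 3 → Matrix (Fin 3) (Fin 3) R) :
    jt a b c N = a 0 * jt (ev 0) b c N + a 1 * jt (ev 1) b c N + a 2 * jt (ev 2) b c N := by
  simp [jt, tr3, mm, crs, ev]
  ring
theorem jt_ev2 (a b c : Fin 3 → R) (N : Fin 3 → Matrix (Fin 3) (Fin 3) R) :
    jt b a c N = a 0 * jt b (ev 0) c N + a 1 * jt b (ev 1) c N + a 2 * jt b (ev 2) c N := by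
  simp [jt, tr3, mm, crs, ev]
  ring
theorem jt_ev3 (a b c : Fin 3 → R) (N : Fin 3 → Matrix (Fin 3) (Fin 3) R) :
    jt b c a N = a 0 * jt b c (ev 0) N + a 1 * jt b c (ev 1) N + a 2 * jt b c (ev 2) N := by
  simp [jt, tr3, mm, crs, ev]
  ring

theorem J3_ev' (a b c : Fin 3 → R) (N : Fin 3 → Matrix (Fin 3) (Fin 3) R) :
    J3 a b c N = a 0 * J3 (ev 0) b c N + a 1 * J3 (ev 1) b c N + a 2 * J3 (ev 2) b c N := by
  simp only [J3]
  rw [jt_ev1 a b c, jt_ev1 a c b, jt_ev2 a b c, jt_ev3 a b c, jt_ev2 a c b, jt_ev3 a c b]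
  ring

theorem J3P_ev (a : Fin 3 → R) (P : Matrix (Fin 3) (Fin 3) R) (N : Fin 3 → Matrix (Fin 3) (Fin 3) R) :
    J3P a P N = a 0 * J3P (ev 0) P N + a 1 * J3P (ev 1) P N + a 2 * J3P (ev 2) P N := by
  simp only [J3P, Fin.sum_univ_three]
  rw [J3_ev' a (ev 0) (ev 0), J3_ev' a (ev 0) (ev 1), J3_ev' a (ev 0) (ev 2), J3_ev' a (ev 1) (ev 0),
    J3_ev' a (ev 1) (ev 1), J3_ev' a (ev 1) (ev 2), J3_ev' a (ev 2) (ev 0), J3_ev' a (ev 2) (ev 1),
    J3_ev' a (ev 2) (ev 2)]
  ring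

theorem rho_dot (A : Matrix (Fin 3) (Fin 3) R) (N : Fin 3 → Matrix (Fin 3) (Fin 3) R) :
    x 0 * rho A y N 0 + x 1 * rho A y N 1 + x 2 * rho A y N 2
      = 8 * (tr3 (mm A (N 0)) * dt x (krN A N 0) + tr3 (mm A (N 1)) * dt x (krN A N 1)
        + tr3 (mm A (N 2)) * dt x (krN A N 2)) + 3 * J3P x (adj A) N - J3 x y y N := by
  rw [J3P_ev x, J3_ev' x]
  simp only [rho, dt]
  ring

theorem G9val (h : ∀ j, qT t n x y j = 0) (hm : ∀ k, m * de t n x y k = v * dl t x y k) :
    G9 t n (fun i => m * x i) (fun i => v * y i)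
      = th t * v ^ 2 * (8 * v * dt x (mv (hes t x) y) - m * (x 0 * rho (hes t x) y (Nn n) 0
        + x 1 * rho (hes t x) y (Nn n) 1 + x 2 * rho (hes t x) y (Nn n) 2)) := by
  have hq : Qm t n (fun i => m * x i) (fun i => v * y i) = fun i j => v ^ 2 * adj (hes t x) i j := by
    funext i j; exact Qval h hm i j
  have hp : pp t (fun i j => v ^ 2 * adj (hes t x) i j) = fun i j => (v ^ 2 * th t) * (x i * x j) := by
    funext i j
    rw [pp_smul, pp_adj]
    ring
  have h1 : tr3 (mm (fun i j => (v ^ 2 * th t) * (x i * x j)) (hes t (fun i => v * y i)))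
      = v ^ 3 * th t * dt x (mv (hes t x) y) := by
    simp [tr3, mm, dt, mv, hes, hv, sy]
    ring
  have h2 : ∀ k, tr3 (mm (hes t (fun i => m * x i)) (Nn n k)) = m * tr3 (mm (hes t x) (Nn n k)) := by
    intro k
    rw [hes_smul]
    simp only [tr3, mm]
    ring
  unfold G9
  rw [hq, hp, h1]
  simp only [kc_smul, kc_out, h2]
  rw [J3P_smul, J3_smul, rho_dot]
  ring

theorem dt_rho (h : ∀ j, qT t n x y j = 0) (k : Fin 3) :
    dl t x y k * (x 0 * rho (hes t x) y (Nn n) 0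
        + x 1 * rho (hes t x) y (Nn n) 1 + x 2 * rho (hes t x) y (Nn n) 2)
      = 8 * dt x (mv (hes t x) y) * de t n x y k := by
  have h0 := s3 (HT_of_qT h) k 0
  have h1 := s3 (HT_of_qT h) k 1
  have h2 := s3 (HT_of_qT h) k 2
  have e : (fun k => sy (gv n k)) = Nn n := rfl
  have e' : sy (hv t x) = hes t x := rfl
  rw [e, e'] at h0 h1 h2
  have e2 : dlt' (hes t x) y (Nn n) k = de t n x y k := rfl
  rw [e2] at h0 h1 h2
  simp only [dt]
  linear_combination x 0 * h0 + x 1 * h1 + x 2 * h2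

end Pool.Agent.ENR
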