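import Mathlib

/-! a nonzero prime ideal of `B[X]` which meets `B` in zero is principal (`B` factorial) -/

namespace Pool.Agent.ENR

open Polynomial nonZeroDivisors

theorem principal_of_prime {B : Type*} [CommRing B] [IsDomain B] [UniqueFactorizationMonoid B] (I : Ideal B[X])
    (hI : I.IsPrime) (h0 : ∀ b : B, C b ∈ I → b = 0) (hne : I ≠ ⊥) :
    ∃ f : B[X], Irreducible f ∧ I = Ideal.span {f} := by
  classical
  obtain ⟨f, hfI, hfp⟩ := hI.exists_mem_prime_of_ne_bot hne
  have hfi : Irreducible f := hfp.irreducible
  have hdeg : f.natDegree ≠ 0 := by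
    intro hd
    rw [Polynomial.eq_C_of_natDegree_eq_zero hd] at hfI
    have := h0 _ hfI
    rw [Polynomial.eq_C_of_natDegree_eq_zero hd, this, C_0] at hfp
    exact hfp.ne_zero rfl
  have hprim : f.IsPrimitive := hfi.isPrimitive hdeg
  refine ⟨f, hfi, ?_⟩
  apply le_antisymm
  · intro g hg
    rw [Ideal.mem_span_singleton]
    let K := FractionRing B
    have hfK : Irreducible (f.map (algebraMap B K)) :=
      (hprim.irreducible_iff_irreducible_map_fraction_map).mp hfi
    by_cases hd : f.map (algebraMap B K) ∣ g.map (algebraMap B K)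
    · obtain ⟨q, hq⟩ := hd
      have : q ∈ lifts (algebraMap B K) := by
        rw [← hprim.map_mul_mem_lifts_iff, ← hq]
        exact ⟨g, rfl⟩
      obtain ⟨q', hq'⟩ := this
      refine ⟨q', ?_⟩
      apply Polynomial.map_injective _ (IsFractionRing.injective B K)
      rw [hq, ← hq', Polynomial.map_mul]
      rfl
    · exfalso
      obtain ⟨u, v, huv⟩ := (hfK.coprime_iff_not_dvd).mpr hd
      obtain ⟨b, hb, hu⟩ := IsLocalization.integerNormalization_spec B⁰ u
      obtain ⟨c, hc, hv⟩ := IsLocalization.integerNormalization_spec B⁰ v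
      have key : C c * IsLocalization.integerNormalization B⁰ u * f
          + C b * IsLocalization.integerNormalization B⁰ v * g = C (b * c) := by
        apply Polynomial.map_injective _ (IsFractionRing.injective B K)
        simp only [Polynomial.map_add, Polynomial.map_mul, hu, hv, Polynomial.map_C, map_mul]
        have e1 : ∀ (r : B) (p : K[X]), r • p = C (algebraMap B K r) * p := by
          intro r p
          rw [← smul_eq_C_mul, algebraMap_smul]
        rw [e1, e1]
        linear_combination (C ((algebraMap B K) b) * C ((algebraMap B K) c)) * huv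
      have hm : C (b * c) ∈ I := by
        rw [← key]
        exact I.add_mem (I.mul_mem_left _ hfI) (I.mul_mem_left _ hg)
      have := h0 _ hm
      exact mul_ne_zero (nonZeroDivisors.ne_zero hb) (nonZeroDivisors.ne_zero hc) this
  · rw [Ideal.span_singleton_le_iff_mem]
    exact hfI

end Pool.Agent.ENR
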