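import Pool.Agent.ENR.Gauss

namespace Pool.Agent.ENR

open MvPolynomial

theorem principal_ker {σ : Type} [Fintype σ] [DecidableEq σ] {A : Type} [CommRing A] [IsDomain A] [Algebra ℂ A]
    (Φ : σ → A) (s₀ : σ) (hind : AlgebraicIndependent ℂ (fun s : {s // s ≠ s₀} => Φ s))
    (hne : ∃ P : MvPolynomial σ ℂ, P ≠ 0 ∧ aeval Φ P = 0) :
    ∃ Ψ : MvPolynomial σ ℂ, Irreducible Ψ ∧ ∀ P, aeval Φ P = 0 ↔ Ψ ∣ P := by
  classical
  let e : MvPolynomial σ ℂ ≃ₐ[ℂ] Polynomial (MvPolynomial {s // s ≠ s₀} ℂ) :=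
    (renameEquiv ℂ (Equiv.optionSubtypeNe s₀).symm).trans (optionEquivLeft ℂ {s // s ≠ s₀})
  let φ : Polynomial (MvPolynomial {s // s ≠ s₀} ℂ) →ₐ[ℂ] A := (aeval Φ).comp e.symm.toAlgHom
  have hφ : ∀ P, φ (e P) = aeval Φ P := by
    intro P
    show aeval Φ (e.symm (e P)) = _
    rw [AlgEquiv.symm_apply_apply]
  have hC : ∀ b : MvPolynomial {s // s ≠ s₀} ℂ, φ (Polynomial.C b) = aeval (fun s : {s // s ≠ s₀} => Φ s) b := by
    intro b
    have h1 : e (rename (fun s : {s // s ≠ s₀} => (s : σ)) b) = Polynomial.C b := by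
      show optionEquivLeft ℂ {s // s ≠ s₀} (renameEquiv ℂ (Equiv.optionSubtypeNe s₀).symm _) = _
      rw [renameEquiv_apply, rename_rename]
      have : ((Equiv.optionSubtypeNe s₀).symm ∘ fun s : {s // s ≠ s₀} => (s : σ)) = some := by
        funext s
        simp [s.2]
      rw [this]
      induction b using MvPolynomial.induction_on with
      | C a => rw [rename_C, optionEquivLeft_C]
      | add p q hp hq => rw [map_add, map_add, hp, hq, map_add]
      | mul_X p m hp => rw [map_mul, map_mul, hp, rename_X, optionEquivLeft_X_some, map_mul]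
    rw [← h1, hφ, aeval_rename]
    rfl
  have hp : (RingHom.ker φ.toRingHom).IsPrime := RingHom.ker_isPrime _
  obtain ⟨f, hf, hker⟩ := principal_of_prime (RingHom.ker φ.toRingHom) hp
    (by
      intro b hb
      rw [RingHom.mem_ker] at hb
      have : φ (Polynomial.C b) = 0 := hb
      rw [hC] at this
      exact (algebraicIndependent_iff.mp hind) b this)
    (by
      intro hbot
      obtain ⟨P, hP, h0⟩ := hne
      have : e P ∈ RingHom.ker φ.toRingHom := by
        rw [RingHom.mem_ker]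
        show φ (e P) = 0
        rw [hφ, h0]
      rw [hbot, Ideal.mem_bot] at this
      exact hP (by rw [← e.symm_apply_apply P, this, map_zero]))
  refine ⟨e.symm f, ?_, ?_⟩
  · exact (MulEquiv.irreducible_iff e.symm).mpr hf
  · intro P
    have h1 : aeval Φ P = 0 ↔ e P ∈ RingHom.ker φ.toRingHom := by
      rw [RingHom.mem_ker, ← hφ]
      rfl
    rw [h1, hker, Ideal.mem_span_singleton]
    constructor
    · rintro ⟨q, hq⟩
      refine ⟨e.symm q, ?_⟩
      rw [← map_mul, ← hq, e.symm_apply_apply]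
    · rintro ⟨q, hq⟩
      refine ⟨e q, ?_⟩
      rw [hq, map_mul, e.apply_symm_apply]

end Pool.Agent.ENR
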