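import Pool.Agent.ENR.Nat

/-! geometry of the morphism `T → P^5` at a good parameter -/

namespace Pool.Agent.ENR

open Matrix

section split
variable {R : Type*} [CommRing R]

theorem qT_split (t : R) (n : Fin 3 → Fin 3 → R) (x y : Fin 3 → R) (j : Fin 3) :
    qT t n x y j = qT t n x 0 j + qT t n 0 y j := by
  fin_cases j <;> simp [qT, dl, ofd, adj, hes, hv, sy] <;> ring

theorem qT_sx (t c : R) (n : Fin 3 → Fin 3 → R) (x : Fin 3 → R) (j : Fin 3) :
    qT t n (fun i => c * x i) 0 j = c ^ 2 * qT t n x 0 j := by
  fin_cases j <;> simp [qT, dl, ofd, adj, hes, hv, sy] <;> ring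

theorem qT_sy (t c : R) (n : Fin 3 → Fin 3 → R) (y : Fin 3 → R) (j : Fin 3) :
    qT t n 0 (fun i => c * y i) j = c ^ 2 * qT t n 0 y j := by
  fin_cases j <;> simp [qT, dl, ofd, adj, hes, hv, sy] <;> ring

theorem de_eq (t : R) (n : Fin 3 → Fin 3 → R) (x y : Fin 3 → R) (k : Fin 3) :
    de t n x y k = mv (KM (hes t x) (Nn n)) y k := by
  simp [de, dlt', mv, dt, KM, mul_comm]

theorem D_of_dl {t : R} {n : Fin 3 → Fin 3 → R} {x y : Fin 3 → R} (h : ∀ j, qT t n x y j = 0)
    (h0 : ∀ k, dl t x y k = 0) (i j : Fin 3) : adj (hes t x) i j + y i * y j = 0 := by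
  have e := congrFun (congrFun (adj_hes_add t n x y h) i) j
  rw [Matrix.add_apply] at e
  have e0 : net n (dl t x y) i j = 0 := by
    have : dl t x y = fun k => 0 * dl t x y k := by
      funext k; rw [h0 k, mul_zero]
    rw [this, net_smul, zero_mul]
  rw [e0] at e
  exact e

end split

variable {K : Type*} [Field K]

/-- a 3x3 matrix of rank at least two has at most one-dimensional kernel -/
theorem ker_line {M : Matrix (Fin 3) (Fin 3) K} {y z : Fin 3 → K} (hM : ∃ i j, adj M i j ≠ 0)
    (hy : y ≠ 0) (h1 : ∀ i, mv M y i = 0) (h2 : ∀ i, mv M z i = 0) : ∃ b, ∀ i, z i = b * y i := by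
  obtain ⟨p, hp⟩ : ∃ p, y p ≠ 0 := Function.ne_iff.mp hy
  by_cases hc : ∀ i, cr y z i = 0
  · refine ⟨z p / y p, fun i => ?_⟩
    have c0 := hc 0
    have c1 := hc 1
    have c2 := hc 2
    simp only [cr, Matrix.cons_val] at c0 c1 c2
    rw [div_mul_eq_mul_div, eq_div_iff hp]
    fin_cases p <;> fin_cases i <;> simp only [Fin.zero_eta, Fin.mk_one, Fin.reduceFinMk] at hp ⊢ <;>
      first
      | ring1
      | linear_combination c0
      | linear_combination c1
      | linear_combination c2
      | linear_combination -c0
      | linear_combination -c1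
      | linear_combination -c2
  · push Not at hc
    obtain ⟨m, hm⟩ := hc
    exfalso
    -- every row is proportional to the cross product
    have row : ∀ a i j, M a i * cr y z j = M a j * cr y z i := by
      intro a i j
      have e1 := h1 a
      have e2 := h2 a
      simp only [mv, dt] at e1 e2
      fin_cases i <;> fin_cases j <;> simp [cr] <;>
        first
        | ring1
        | linear_combination y 2 * e2 - z 2 * e1
        | linear_combination -(y 2 * e2 - z 2 * e1)
        | linear_combination y 1 * e2 - z 1 * e1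
        | linear_combination -(y 1 * e2 - z 1 * e1)
        | linear_combination y 0 * e2 - z 0 * e1
        | linear_combination -(y 0 * e2 - z 0 * e1)
    have min : ∀ a b i j, M a i * M b j - M a j * M b i = 0 := by
      intro a b i j
      have r1 := row a i m
      have r2 := row b j m
      have r3 := row a j m
      have r4 := row b i m
      have : cr y z m * (cr y z m * (M a i * M b j - M a j * M b i)) = 0 := by
        linear_combination M b j * cr y z m * r1 + M a m * cr y z i * r2 - M b i * cr y z m * r3 - M a m * cr y z j * r4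
      rcases mul_eq_zero.mp this with h | h
      · exact absurd h hm
      · exact (mul_eq_zero.mp h).resolve_left hm
    obtain ⟨i, j, hij⟩ := hM
    apply hij
    fin_cases i <;> fin_cases j <;> simp only [adj, Fin.zero_eta, Fin.mk_one, Fin.reduceFinMk, Matrix.of_apply, Matrix.cons_val', Matrix.cons_val] <;>
      first
      | exact min 1 2 1 2
      | exact min 0 1 1 2
      | linear_combination min 1 2 1 2
      | linear_combination min 1 2 0 1
      | linear_combination min 1 2 0 2
      | linear_combination min 0 1 1 2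
      | linear_combination min 0 1 0 1
      | linear_combination min 0 1 0 2
      | linear_combination min 0 2 1 2
      | linear_combination min 0 2 0 1
      | linear_combination min 0 2 0 2
      | linear_combination -min 1 2 1 2
      | linear_combination -min 1 2 0 1
      | linear_combination -min 1 2 0 2
      | linear_combination -min 0 1 1 2
      | linear_combination -min 0 1 0 1
      | linear_combination -min 0 1 0 2
      | linear_combination -min 0 2 1 2
      | linear_combination -min 0 2 0 1
      | linear_combination -min 0 2 0 2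

/-- good parameters (without smoothness of `T`) -/
structure Good (t : K) (n : Fin 3 → Fin 3 → K) : Prop where
  hth : th t ≠ 0
  c2 : ∀ y, y ≠ 0 → ∃ j, qT t n 0 y j ≠ 0
  c6 : ∀ x, x ≠ 0 → ∃ j, qT t n x 0 j ≠ 0
  c3 : ∀ x, x ≠ 0 → ∃ i j, adj (KM (hes t x) (Nn n)) i j ≠ 0
  c4 : ∀ x y, x ≠ 0 → (∀ i j, adj (hes t x) i j + y i * y j = 0) → ∃ k, de t n x y k ≠ 0

variable {t : K} {n : Fin 3 → Fin 3 → K}

theorem Good.xy (g : Good t n) {x y : Fin 3 → K} (h : ∀ j, qT t n x y j = 0) (h0 : x ≠ 0 ∨ y ≠ 0) :
    x ≠ 0 ∧ y ≠ 0 := by
  have h0' : ∀ j, qT t n (0 : Fin 3 → K) (0 : Fin 3 → K) j = 0 := by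
    intro j; fin_cases j <;> simp [qT, dl, ofd, adj, hes, hv, sy]
  constructor
  · rintro rfl
    obtain ⟨j, hj⟩ := g.c2 y (by simpa using h0)
    exact hj (h j)
  · rintro rfl
    obtain ⟨j, hj⟩ := g.c6 x (by simpa using h0)
    exact hj (h j)

theorem Good.base (g : Good t n) {x y : Fin 3 → K} (h : ∀ j, qT t n x y j = 0) (hx : x ≠ 0) :
    ∃ k, dl t x y k ≠ 0 ∨ de t n x y k ≠ 0 := by
  by_contra hcon
  push Not at hcon
  obtain ⟨k, hk⟩ := g.c4 x y hx (D_of_dl h (fun k => (hcon k).1))
  exact hk (hcon k).2

/-- `(α x, β y)` and `(x, y)` both on `T` forces `β² = α²`. -/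
theorem Good.scal (g : Good t n) {x y : Fin 3 → K} {a b : K} (hy : y ≠ 0)
    (h : ∀ j, qT t n x y j = 0)
    (h' : ∀ j, qT t n (fun i => a * x i) (fun i => b * y i) j = 0) : b ^ 2 = a ^ 2 := by
  obtain ⟨j, hj⟩ := g.c2 y hy
  have e1 := h j
  have e2 := h' j
  rw [qT_split] at e1 e2
  rw [qT_sx, qT_sy] at e2
  have : (b ^ 2 - a ^ 2) * qT t n 0 y j = 0 := by linear_combination e2 - a ^ 2 * e1
  exact sub_eq_zero.mp ((mul_eq_zero.mp this).resolve_right hj)

/-- injectivity of `T/σ → P^5`. -/
theorem Good.inj (g : Good t n) {x y x' y' : Fin 3 → K} {k l : Fin 3} {c : K}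
    (h : ∀ j, qT t n x y j = 0) (hx : x ≠ 0) (hy : y ≠ 0)
    (h' : ∀ j, qT t n x' y' j = 0) (hx' : x' ≠ 0) (hy' : y' ≠ 0) (hc : c ≠ 0)
    (hk : dl t x y k ≠ 0 ∨ de t n x y k ≠ 0)
    (e1 : ∀ i, dl t x' y' l * x' i = c * (dl t x y k * x i))
    (e2 : ∀ i, de t n x' y' l * y' i = c * (de t n x y k * y i)) :
    ∃ a : K, (∀ i, x' i = a * x i) ∧ ((∀ i, y' i = a * y i) ∨ ∀ i, y' i = -(a * y i)) := by
  obtain ⟨p, hp⟩ : ∃ p, x p ≠ 0 := Function.ne_iff.mp hx
  obtain ⟨q, hq⟩ : ∃ q, y q ≠ 0 := Function.ne_iff.mp hy
  obtain ⟨p', hp'⟩ : ∃ p, x' p ≠ 0 := Function.ne_iff.mp hx'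
  obtain ⟨q', hq'⟩ : ∃ q, y' q ≠ 0 := Function.ne_iff.mp hy'
  -- reduction to proportionality of both parts
  have fin : ∀ a b : K, (∀ i, x' i = a * x i) → (∀ i, y' i = b * y i) →
      ∃ a : K, (∀ i, x' i = a * x i) ∧ ((∀ i, y' i = a * y i) ∨ ∀ i, y' i = -(a * y i)) := by
    intro a b ha hb
    refine ⟨a, ha, ?_⟩
    have h'' : ∀ j, qT t n (fun i => a * x i) (fun i => b * y i) j = 0 := by
      intro j
      have hx2 : x' = fun i => a * x i := funext ha
      have hy2 : y' = fun i => b * y i := funext hb
      rw [← hx2, ← hy2]; exact h' j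
    have hs := g.scal hy h h''
    rcases sq_eq_sq_iff_eq_or_eq_neg.mp hs with hab | hab
    · left; intro i; rw [hb i, hab]
    · right; intro i; rw [hb i, hab]; ring
  by_cases hdl : dl t x y k = 0
  · -- both points lie on the first elliptic curve
    have hde : de t n x y k ≠ 0 := hk.resolve_left (fun h => h hdl)
    have hdl0 : ∀ j, dl t x y j = 0 := by
      intro j
      have := Trel h k j
      rw [hdl, zero_mul] at this
      exact (mul_eq_zero.mp this.symm).resolve_right hde
    have hdl' : dl t x' y' l = 0 := by
      have := e1 p'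
      rw [hdl] at this
      simp only [zero_mul, mul_zero] at this
      exact (mul_eq_zero.mp this).resolve_right hp'
    have hde' : de t n x' y' l ≠ 0 := by
      intro h0
      have := e2 q
      rw [h0, zero_mul] at this
      exact mul_ne_zero hc (mul_ne_zero hde hq) this.symm
    have hdl0' : ∀ j, dl t x' y' j = 0 := by
      intro j
      have := Trel h' l j
      rw [hdl', zero_mul] at this
      exact (mul_eq_zero.mp this.symm).resolve_right hde'
    have hyb : ∀ i, y' i = (c * de t n x y k / de t n x' y' l) * y i := by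
      intro i
      have := e2 i
      field_simp
      linear_combination this
    set b := c * de t n x y k / de t n x' y' l with hb
    have hbne : b ≠ 0 := div_ne_zero (mul_ne_zero hc hde) hde'
    have D := D_of_dl h hdl0
    have D' := D_of_dl h' hdl0'
    have hA : adj (hes t x') = fun i j => b ^ 2 * adj (hes t x) i j := by
      funext i j
      have d1 := D i j
      have d2 := D' i j
      rw [hyb i, hyb j] at d2
      linear_combination d2 - b ^ 2 * d1
    have hxx : ∀ i j, x' i * x' j = b ^ 2 * (x i * x j) := by
      intro i j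
      have e3 := pp_adj t x' i j
      rw [hA, pp_smul, pp_adj] at e3
      have : th t * (x' i * x' j - b ^ 2 * (x i * x j)) = 0 := by linear_combination -e3
      exact sub_eq_zero.mp ((mul_eq_zero.mp this).resolve_left g.hth)
    have hpp := hxx p p
    have : x' p = b * x p ∨ x' p = -(b * x p) := by
      apply sq_eq_sq_iff_eq_or_eq_neg.mp
      linear_combination hpp
    rcases this with hs | hs
    · refine fin b b (fun j => ?_) hyb
      have := hxx j p
      rw [hs] at this
      have h3 : b * x p * (x' j - b * x j) = 0 := by linear_combination this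
      exact sub_eq_zero.mp ((mul_eq_zero.mp h3).resolve_left (mul_ne_zero hbne hp))
    · refine fin (-b) b (fun j => ?_) hyb
      have := hxx j p
      rw [hs] at this
      have h3 : b * x p * (x' j + b * x j) = 0 := by linear_combination -this
      have h4 := (mul_eq_zero.mp h3).resolve_left (mul_ne_zero hbne hp)
      linear_combination h4
  · have hdl' : dl t x' y' l ≠ 0 := by
      intro h0
      have := e1 p
      rw [h0, zero_mul] at this
      exact mul_ne_zero hc (mul_ne_zero hdl hp) this.symm
    have hxa : ∀ i, x' i = (c * dl t x y k / dl t x' y' l) * x i := by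
      intro i
      have := e1 i
      field_simp
      linear_combination this
    by_cases hde : de t n x y k = 0
    · have hde0 : ∀ j, de t n x y j = 0 := by
        intro j
        have := Trel h k j
        rw [hde, mul_zero] at this
        exact (mul_eq_zero.mp this).resolve_left hdl
      have hde' : de t n x' y' l = 0 := by
        have := e2 q'
        rw [hde] at this
        simp only [zero_mul, mul_zero] at this
        exact (mul_eq_zero.mp this).resolve_right hq'
      have hde0' : ∀ j, de t n x' y' j = 0 := by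
        intro j
        have := Trel h' l j
        rw [hde', mul_zero] at this
        exact (mul_eq_zero.mp this).resolve_left hdl'
      set a := c * dl t x y k / dl t x' y' l with ha
      have hane : a ≠ 0 := div_ne_zero (mul_ne_zero hc hdl) hdl'
      have hK : ∀ i, mv (KM (hes t x) (Nn n)) y i = 0 := by
        intro i; rw [← de_eq]; exact hde0 i
      have hK' : ∀ i, mv (KM (hes t x) (Nn n)) y' i = 0 := by
        intro i
        have h1 := hde0' i
        have hx2 : x' = fun i => a * x i := funext hxa
        have hy2 : y' = fun i => 1 * y' i := by funext i; ring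
        rw [hx2, hy2, de_smul, de_eq] at h1
        have : a * 1 ≠ 0 := by rw [mul_one]; exact hane
        exact (mul_eq_zero.mp h1).resolve_left this
      obtain ⟨b, hb⟩ := ker_line (g.c3 x hx) hy hK hK'
      exact fin a b hxa hb
    · have hde' : de t n x' y' l ≠ 0 := by
        intro h0
        have := e2 q
        rw [h0, zero_mul] at this
        exact mul_ne_zero hc (mul_ne_zero hde hq) this.symm
      refine fin _ (c * de t n x y k / de t n x' y' l) hxa (fun i => ?_)
      have := e2 i
      field_simp
      linear_combination this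

end Pool.Agent.ENR
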