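import Pool.Agent.ENR.Geo

/-! the morphism `T/σ → P^5` is an immersion: computation with dual numbers -/

namespace Pool.Agent.ENR

open Matrix

variable {K : Type*} [Field K]

/-- dual numbers -/
abbrev DN (K : Type*) [Field K] := TrivSqZeroExt K K

/-- inclusion of the constants -/
abbrev ic (K : Type*) [Field K] : K →+* DN K := TrivSqZeroExt.inlHom K K
/-- reduction modulo epsilon -/
abbrev rd (K : Type*) [Field K] : DN K →+* K := (TrivSqZeroExt.fstHom K K K).toRingHom

theorem rd_apply (a : DN K) : rd K a = a.fst := rfl
theorem ic_fst (a : K) : (ic K a).fst = a := rfl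
theorem ic_snd (a : K) : (ic K a).snd = 0 := rfl

variable {t : K} {n : Fin 3 → Fin 3 → K}

theorem fst_qT (x y : Fin 3 → DN K) (j : Fin 3) :
    (qT (ic K t) (fun k j => ic K (n k j)) x y j).fst = qT t n (fun i => (x i).fst) (fun i => (y i).fst) j :=
  map_qT (rd K) (ic K t) (fun k j => ic K (n k j)) x y j

theorem fst_dl (x y : Fin 3 → DN K) (j : Fin 3) :
    (dl (ic K t) x y j).fst = dl t (fun i => (x i).fst) (fun i => (y i).fst) j :=
  map_dl (rd K) (ic K t) x y j

theorem fst_de (x y : Fin 3 → DN K) (j : Fin 3) :
    (de (ic K t) (fun k j => ic K (n k j)) x y j).fst = de t n (fun i => (x i).fst) (fun i => (y i).fst) j :=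
  map_de (rd K) (ic K t) (fun k j => ic K (n k j)) x y j

/-- a dual number with non-zero reduction is regular -/
theorem DN_cancel {a b : DN K} (ha : a.fst ≠ 0) (h : b * a = 0) : b = 0 := by
  have h1 := congrArg TrivSqZeroExt.fst h
  have h2 := congrArg TrivSqZeroExt.snd h
  rw [TrivSqZeroExt.fst_mul] at h1
  rw [TrivSqZeroExt.snd_mul] at h2
  simp only [TrivSqZeroExt.fst_zero, TrivSqZeroExt.snd_zero, smul_eq_mul, MulOpposite.smul_eq_mul_unop, MulOpposite.unop_op] at h1 h2
  have hb : b.fst = 0 := (mul_eq_zero.mp h1).resolve_right ha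
  rw [hb, zero_mul, zero_add] at h2
  have hb2 : b.snd = 0 := (mul_eq_zero.mp h2).resolve_right ha
  exact TrivSqZeroExt.ext hb hb2

theorem snd_mul' (a b : DN K) : (a * b).snd = a.fst * b.snd + b.fst * a.snd := by
  rw [TrivSqZeroExt.snd_mul]
  simp [mul_comm]

/-- immersion -/
theorem Good.imm (h2 : (2 : K) ≠ 0) (g : Good t n) {x y : Fin 3 → DN K} {k : Fin 3} {c : K}
    (h : ∀ j, qT (ic K t) (fun k j => ic K (n k j)) x y j = 0)
    (hx : (fun i => (x i).fst) ≠ 0) (hy : (fun i => (y i).fst) ≠ 0)
    (hk : (dl (ic K t) x y k).fst ≠ 0 ∨ (de (ic K t) (fun k j => ic K (n k j)) x y k).fst ≠ 0)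
    (e1 : ∀ i, (dl (ic K t) x y k * x i).snd = c * (dl (ic K t) x y k * x i).fst)
    (e2 : ∀ i, (de (ic K t) (fun k j => ic K (n k j)) x y k * y i).snd
      = c * (de (ic K t) (fun k j => ic K (n k j)) x y k * y i).fst) :
    ∃ a : K, (∀ i, (x i).snd = a * (x i).fst) ∧ ∀ i, (y i).snd = a * (y i).fst := by
  obtain ⟨p, hp⟩ : ∃ p, (x p).fst ≠ 0 := Function.ne_iff.mp hx
  obtain ⟨q, hq⟩ : ∃ q, (y q).fst ≠ 0 := Function.ne_iff.mp hy
  set N : Fin 3 → Fin 3 → DN K := fun k j => ic K (n k j) with hN
  have h00 : ∀ j, qT t n (fun i => (x i).fst) (fun i => (y i).fst) j = 0 := by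
    intro j
    rw [← fst_qT, ← hN, h j]; rfl
  simp only [snd_mul', TrivSqZeroExt.fst_mul] at e1 e2
  -- reduction: once both derivative parts are proportional we are done
  have fin : ∀ a b : K, (∀ i, (x i).snd = a * (x i).fst) → (∀ i, (y i).snd = b * (y i).fst) →
      ∃ a : K, (∀ i, (x i).snd = a * (x i).fst) ∧ ∀ i, (y i).snd = a * (y i).fst := by
    intro a b ha hb
    refine ⟨a, ha, ?_⟩
    obtain ⟨j, hj⟩ := g.c2 _ hy
    have e := h j
    rw [qT_split] at e
    have hx2 : x = fun i => (1 + TrivSqZeroExt.inr a) * ic K (x i).fst := by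
      funext i
      apply TrivSqZeroExt.ext
      · simp
      · rw [snd_mul', ha i]; simp; ring
    have hy2 : y = fun i => (1 + TrivSqZeroExt.inr b) * ic K (y i).fst := by
      funext i
      apply TrivSqZeroExt.ext
      · simp
      · rw [snd_mul', hb i]; simp; ring
    have e3 : qT (ic K t) N x 0 j = (1 + TrivSqZeroExt.inr a) ^ 2 * ic K (qT t n (fun i => (x i).fst) 0 j) := by
      conv_lhs => rw [hx2]
      rw [qT_sx]
      congr 1
      rw [map_qT]
      congr 1
    have e4 : qT (ic K t) N 0 y j = (1 + TrivSqZeroExt.inr b) ^ 2 * ic K (qT t n 0 (fun i => (y i).fst) j) := by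
      conv_lhs => rw [hy2]
      rw [qT_sy]
      congr 1
      rw [map_qT]
      congr 1
    rw [e3, e4] at e
    have e5 := congrArg TrivSqZeroExt.snd e
    have e6 := h00 j
    rw [qT_split] at e6
    generalize qT t n (fun i => (x i).fst) 0 j = A at *
    generalize qT t n 0 (fun i => (y i).fst) j = B at *
    have sq : ∀ s : K, ((1 + TrivSqZeroExt.inr s : DN K) ^ 2).snd = 2 * s := by
      intro s
      rw [pow_two, snd_mul']; simp; ring
    have sq1 : ∀ s : K, ((1 + TrivSqZeroExt.inr s : DN K) ^ 2).fst = 1 := by
      intro s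
      rw [pow_two, TrivSqZeroExt.fst_mul]; simp
    rw [TrivSqZeroExt.snd_add, snd_mul', snd_mul', sq, sq, ic_fst, ic_fst, ic_snd, ic_snd, TrivSqZeroExt.snd_zero] at e5
    have : B * (2 * (b - a)) = 0 := by linear_combination e5 - 2 * a * e6
    have hba : b = a := by
      have := (mul_eq_zero.mp this).resolve_left hj
      exact sub_eq_zero.mp ((mul_eq_zero.mp this).resolve_left h2)
    intro i
    rw [hb i, hba]
  by_cases hdl : (dl (ic K t) x y k).fst = 0
  · have hde : (de (ic K t) N x y k).fst ≠ 0 := hk.resolve_left (fun h => h hdl)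
    have hdlk : dl (ic K t) x y k = 0 := by
      have := e1 p
      rw [hdl] at this
      simp only [zero_mul, mul_zero, zero_add] at this
      exact TrivSqZeroExt.ext hdl ((mul_eq_zero.mp this).resolve_left hp)
    have hdl0 : ∀ j, dl (ic K t) x y j = 0 := by
      intro j
      have := Trel h k j
      rw [hdlk, zero_mul] at this
      exact DN_cancel hde this.symm
    have D := D_of_dl h hdl0
    set b := (c * (de (ic K t) N x y k).fst - (de (ic K t) N x y k).snd) / (de (ic K t) N x y k).fst with hb
    have hyb : ∀ i, (y i).snd = b * (y i).fst := by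
      intro i
      have := e2 i
      rw [hb]
      field_simp
      linear_combination this
    have hy2 : ∀ i, y i = (1 + TrivSqZeroExt.inr b) * ic K (y i).fst := by
      intro i
      apply TrivSqZeroExt.ext
      · simp
      · rw [snd_mul', hyb i]; simp; ring
    have D0 : ∀ i j, adj (hes t (fun i => (x i).fst)) i j + (y i).fst * (y j).fst = 0 := by
      intro i j
      have := congrArg TrivSqZeroExt.fst (D i j)
      rw [TrivSqZeroExt.fst_add, TrivSqZeroExt.fst_mul] at this
      have e : (adj (hes (ic K t) x) i j).fst = adj (hes t (fun i => (x i).fst)) i j := by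
        have h1 := map_adj (rd K) (hes (ic K t) x) i j
        rw [rd_apply] at h1
        rw [h1]
        congr 1
        funext i j
        rw [map_hes]
        rfl
      rw [e] at this
      exact this
    have hA : adj (hes (ic K t) x) = fun i j => (1 + TrivSqZeroExt.inr b) ^ 2 * ic K (adj (hes t (fun i => (x i).fst)) i j) := by
      funext i j
      have d1 := D i j
      have d2 := congrArg (ic K) (D0 i j)
      rw [map_add, map_mul, map_zero] at d2
      rw [hy2 i, hy2 j] at d1
      linear_combination d1 - (1 + TrivSqZeroExt.inr b) ^ 2 * d2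
    have hxx : ∀ i j, (x i).fst * (x j).snd + (x j).fst * (x i).snd = 2 * b * ((x i).fst * (x j).fst) := by
      intro i j
      have e3 := pp_adj (ic K t) x i j
      rw [hA, pp_smul] at e3
      have e4 : pp (ic K t) (fun i j => ic K (adj (hes t (fun i => (x i).fst)) i j)) i j
          = ic K (th t * ((x i).fst * (x j).fst)) := by
        have h5 := pp_adj t (fun i => (x i).fst) i j
        rw [← h5, map_pp]
      rw [e4] at e3
      have e5 := congrArg TrivSqZeroExt.snd e3
      have sq : ((1 + TrivSqZeroExt.inr b : DN K) ^ 2).snd = 2 * b := by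
        rw [pow_two, snd_mul']; simp; ring
      have hth : th (ic K t) = ic K (th t) := (map_th (ic K) t).symm
      rw [hth, snd_mul', snd_mul', snd_mul', sq, ic_fst, ic_snd, ic_fst, ic_snd] at e5
      have : th t * ((x i).fst * (x j).snd + (x j).fst * (x i).snd - 2 * b * ((x i).fst * (x j).fst)) = 0 := by
        linear_combination -e5
      exact sub_eq_zero.mp ((mul_eq_zero.mp this).resolve_left g.hth)
    have hxp : (x p).snd = b * (x p).fst := by
      have := hxx p p
      have h3 : 2 * ((x p).fst * ((x p).snd - b * (x p).fst)) = 0 := by linear_combination this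
      have h4 := (mul_eq_zero.mp h3).resolve_left h2
      exact sub_eq_zero.mp ((mul_eq_zero.mp h4).resolve_left hp)
    refine fin b b (fun j => ?_) hyb
    have := hxx p j
    rw [hxp] at this
    have h3 : (x p).fst * ((x j).snd - b * (x j).fst) = 0 := by linear_combination this
    exact sub_eq_zero.mp ((mul_eq_zero.mp h3).resolve_left hp)
  · set a := (c * (dl (ic K t) x y k).fst - (dl (ic K t) x y k).snd) / (dl (ic K t) x y k).fst with ha
    have hxa : ∀ i, (x i).snd = a * (x i).fst := by
      intro i
      have := e1 i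
      rw [ha]
      field_simp
      linear_combination this
    by_cases hde : (de (ic K t) N x y k).fst = 0
    · have hdek : de (ic K t) N x y k = 0 := by
        have := e2 q
        rw [hde] at this
        simp only [zero_mul, mul_zero, zero_add] at this
        exact TrivSqZeroExt.ext hde ((mul_eq_zero.mp this).resolve_left hq)
      have hde0 : ∀ j, de (ic K t) N x y j = 0 := by
        intro j
        have := Trel h k j
        rw [hdek, mul_zero, mul_comm] at this
        exact DN_cancel hdl this
      have hx2 : x = fun i => (1 + TrivSqZeroExt.inr a) * ic K (x i).fst := by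
        funext i
        apply TrivSqZeroExt.ext
        · simp
        · rw [snd_mul', hxa i]; simp; ring
      have hu : ∀ j, de (ic K t) N (fun i => ic K (x i).fst) y j = 0 := by
        intro j
        have h1 := hde0 j
        rw [hx2] at h1
        have hy1 : y = fun i => 1 * y i := by funext i; ring
        conv at h1 => lhs; rw [hy1]
        rw [de_smul, mul_one, mul_comm] at h1
        refine DN_cancel ?_ h1
        simp
      have hK : ∀ i, mv (KM (hes t (fun i => (x i).fst)) (Nn n)) (fun i => (y i).fst) i = 0 := by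
        intro i
        rw [← de_eq, ← fst_de, ← hN, hde0 i]; rfl
      have hK' : ∀ i, mv (KM (hes t (fun i => (x i).fst)) (Nn n)) (fun i => (y i).snd) i = 0 := by
        intro i
        have h1 := congrArg TrivSqZeroExt.snd (hu i)
        rw [de_eq] at h1
        have hKM : ∀ j, KM (hes (ic K t) fun i => ic K (x i).fst) (Nn N) i j
            = ic K (KM (hes t (fun i => (x i).fst)) (Nn n) i j) := by
          intro j
          rw [map_KM]
          congr 1
          · funext i j; rw [map_hes]
          · funext k i j; rw [map_Nn]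
        simp only [mv, dt, hKM, TrivSqZeroExt.snd_add, snd_mul', ic_fst, ic_snd, TrivSqZeroExt.snd_zero] at h1
        simp only [mv, dt]
        linear_combination h1
      obtain ⟨b, hb⟩ := ker_line (g.c3 _ hx) hy hK hK'
      exact fin a b hxa hb
    · refine fin a ((c * (de (ic K t) N x y k).fst - (de (ic K t) N x y k).snd) / (de (ic K t) N x y k).fst) hxa (fun i => ?_)
      have := e2 i
      field_simp
      linear_combination this

end Pool.Agent.ENR
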