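import Pool.Agent.ENR.Cub

/-! smooth cubic forms are irreducible -/

namespace Pool.Agent.ENR

open MvPolynomial

/-- scaling of homogeneous polynomials -/
theorem eval_hom' {σ : Type*} {P : MvPolynomial σ ℂ} {d : ℕ} (h : P.IsHomogeneous d) (s : ℂ) (z : σ → ℂ) :
    eval (fun b => s * z b) P = s ^ d * eval z P := by
  classical
  rw [eval_eq, eval_eq, Finset.mul_sum]
  refine Finset.sum_congr rfl fun m hm => ?_
  have hd : m.degree = d := by
    rw [Finsupp.degree_eq_weight_one]
    exact h (mem_support_iff.mp hm)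
  have : ∏ i ∈ m.support, (s * z i) ^ m i = s ^ d * ∏ i ∈ m.support, z i ^ m i := by
    rw [← hd]
    simp only [mul_pow, Finset.prod_mul_distrib, Finset.prod_pow_eq_pow_sum]
    rfl
  rw [this]
  ring

/-- restriction of a polynomial to a line -/
noncomputable def lineP {σ : Type*} (u v : σ → ℂ) (P : MvPolynomial σ ℂ) : Polynomial ℂ :=
  aeval (fun i => Polynomial.C (u i) + Polynomial.C (v i) * Polynomial.X) P

theorem eval_lineP {σ : Type*} (u v : σ → ℂ) (P : MvPolynomial σ ℂ) (s : ℂ) :
    (lineP u v P).eval s = eval (fun i => u i + v i * s) P := by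
  unfold lineP
  induction P using MvPolynomial.induction_on with
  | C a => simp
  | add p q hp hq => rw [map_add, Polynomial.eval_add, hp, hq, map_add]
  | mul_X p m hp => rw [map_mul, Polynomial.eval_mul, hp, map_mul]; simp

/-- a form has a zero on every line -/
theorem exists_zero_pencil {σ : Type*} {B : MvPolynomial σ ℂ} {d : ℕ} (hB : B.IsHomogeneous d) (hd : d ≠ 0)
    (u v : σ → ℂ) : (∃ s : ℂ, eval (fun i => u i + v i * s) B = 0) ∨ eval v B = 0 := by
  by_cases hdeg : (lineP u v B).degree = 0
  · right
    obtain ⟨c, hc⟩ : ∃ c, lineP u v B = Polynomial.C c := ⟨_, Polynomial.eq_C_of_degree_eq_zero hdeg⟩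
    have h1 : lineP v u B = Polynomial.C c * Polynomial.X ^ d := by
      apply Polynomial.eq_of_infinite_eval_eq
      apply Set.infinite_of_finite_compl
      refine (Set.finite_singleton (0 : ℂ)).subset ?_
      intro r hr
      by_contra hr0
      apply hr
      have hr0' : r ≠ 0 := hr0
      simp only [Set.mem_ofPred_eq, Polynomial.eval_mul, Polynomial.eval_C, Polynomial.eval_pow, Polynomial.eval_X]
      rw [eval_lineP]
      have h2 : (fun i => v i + u i * r) = fun i => r * (u i + v i * r⁻¹) := by
        funext i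
        field_simp
        ring
      rw [h2, eval_hom' hB, ← eval_lineP, hc, Polynomial.eval_C, mul_comm]
    have h2 := congrArg (Polynomial.eval 0) h1
    rw [eval_lineP] at h2
    simp [hd] at h2
    exact h2
  · left
    obtain ⟨s, hs⟩ := IsAlgClosed.exists_root (lineP u v B) hdeg
    exact ⟨s, by rw [← eval_lineP]; exact hs⟩

theorem line_degree {σ : Type*} (z : σ → ℂ) (P : MvPolynomial σ ℂ) :
    (lineP 0 z P) = ∑ i ∈ Finset.range (P.totalDegree + 1), Polynomial.C (eval z (homogeneousComponent i P)) * Polynomial.X ^ i := by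
  apply Polynomial.funext
  intro c
  rw [eval_lineP]
  have h0 : (fun i => (0 : σ → ℂ) i + z i * c) = fun i => c * z i := by
    funext i; simp [mul_comm]
  rw [h0]
  conv_lhs => rw [← sum_homogeneousComponent P]
  rw [map_sum, Polynomial.eval_finsetSum]
  refine Finset.sum_congr rfl fun i _ => ?_
  rw [eval_hom' (homogeneousComponent_isHomogeneous i P), Polynomial.eval_mul, Polynomial.eval_C,
    Polynomial.eval_pow, Polynomial.eval_X, mul_comm]

/-- product of the leading homogeneous components -/
theorem lead_mul {σ : Type*} {A B F : MvPolynomial σ ℂ} {d : ℕ} (hF : F.IsHomogeneous d) (h : F = A * B)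
    (hd : A.totalDegree + B.totalDegree = d) :
    F = homogeneousComponent A.totalDegree A * homogeneousComponent B.totalDegree B := by
  apply MvPolynomial.funext
  intro z
  have h1 : lineP 0 z F = lineP 0 z A * lineP 0 z B := by
    rw [h]; unfold lineP; rw [map_mul]
  have h2 : (lineP 0 z F).coeff d = (lineP 0 z A * lineP 0 z B).coeff d := by rw [h1]
  have co : ∀ P : MvPolynomial σ ℂ, (lineP 0 z P).coeff P.totalDegree = eval z (homogeneousComponent P.totalDegree P) := by
    intro P
    rw [line_degree, Polynomial.finsetSum_coeff]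
    rw [Finset.sum_eq_single P.totalDegree]
    · simp
    · intro b _ hb
      simp [Polynomial.coeff_X_pow, Ne.symm hb]
    · intro hn; simp at hn
  have nd : ∀ P : MvPolynomial σ ℂ, (lineP 0 z P).natDegree ≤ P.totalDegree := by
    intro P
    rw [line_degree]
    apply Polynomial.natDegree_sum_le_of_forall_le
    intro i hi
    refine (Polynomial.natDegree_C_mul_X_pow_le _ _).trans ?_
    simpa [Nat.lt_succ_iff] using hi
  rw [← hd, Polynomial.coeff_mul_add_eq_of_natDegree_le (nd A) (nd B), co, co, hd] at h2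
  have h3 : (lineP 0 z F).coeff d = eval z F := by
    have : lineP 0 z F = Polynomial.C (eval z F) * Polynomial.X ^ d := by
      apply Polynomial.funext
      intro c
      rw [eval_lineP]
      have h0 : (fun i => (0 : σ → ℂ) i + z i * c) = fun i => c * z i := by
        funext i; simp [mul_comm]
      rw [h0, eval_hom' hF, Polynomial.eval_mul, Polynomial.eval_C, Polynomial.eval_pow, Polynomial.eval_X, mul_comm]
    rw [this]; simp
  rw [← h3, h2, map_mul]

/-- two forms of positive degree, one of them linear, have a common zero -/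
theorem common_zero {A B : MvPolynomial (Fin 6) ℂ} {d : ℕ} (hA : A.IsHomogeneous 1) (hB : B.IsHomogeneous d)
    (hd : d ≠ 0) : ∃ z : Fin 6 → ℂ, z ≠ 0 ∧ eval z A = 0 ∧ eval z B = 0 := by
  -- the linear form as a linear map
  obtain ⟨c, hc⟩ : ∃ c : Fin 6 → ℂ, ∀ z, eval z A = ∑ i, c i * z i := by
    have : A ∈ homogeneousSubmodule (Fin 6) ℂ 1 := hA
    rw [homogeneousSubmodule_one_eq_span_X, Submodule.mem_span_range_iff_exists_fun] at this
    obtain ⟨c, hc⟩ := this
    refine ⟨c, fun z => ?_⟩
    rw [← hc, map_sum]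
    refine Finset.sum_congr rfl fun i _ => ?_
    rw [smul_eval, eval_X]
  -- two independent vectors in the kernel
  obtain ⟨u, v, hu, hv, huv⟩ : ∃ u v : Fin 6 → ℂ, (∑ i, c i * u i = 0) ∧ (∑ i, c i * v i = 0) ∧
      (v ≠ 0 ∧ ∀ s : ℂ, (fun i => u i + v i * s) ≠ 0) := by
    by_cases h0 : c 0 = 0
    · by_cases h1 : c 1 = 0
      · refine ⟨![1, 0, 0, 0, 0, 0], ![0, 1, 0, 0, 0, 0], ?_, ?_, ?_, ?_⟩
        · simp [Fin.sum_univ_succ, h0]
        · simp [Fin.sum_univ_succ, h1]
        · intro h; simpa using congrFun h 1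
        · intro s h; simpa using congrFun h 0
      · refine ⟨![1, 0, 0, 0, 0, 0], ![0, c 2, - c 1, 0, 0, 0], ?_, ?_, ?_, ?_⟩
        · simp [Fin.sum_univ_succ, h0]
        · simp [Fin.sum_univ_succ]; ring
        · intro h; apply h1; simpa using congrFun h 2
        · intro s h; simpa using congrFun h 0
    · refine ⟨![c 1, - c 0, 0, 0, 0, 0], ![c 2, 0, - c 0, 0, 0, 0], ?_, ?_, ?_, ?_⟩
      · simp [Fin.sum_univ_succ]; ring
      · simp [Fin.sum_univ_succ]; ring
      · intro h; apply h0; simpa using congrFun h 2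
      · intro s h; apply h0; simpa using congrFun h 1
  rcases exists_zero_pencil hB hd u v with ⟨s, hs⟩ | h
  · refine ⟨_, huv.2 s, ?_, hs⟩
    rw [hc]
    have : ∑ i, c i * (u i + v i * s) = ∑ i, c i * u i + s * ∑ i, c i * v i := by
      rw [Finset.mul_sum, ← Finset.sum_add_distrib]
      exact Finset.sum_congr rfl fun i _ => by ring
    rw [this, hu, hv]; ring
  · exact ⟨v, huv.1, by rw [hc, hv], h⟩

theorem form_ne_zero {F : Mon → ℂ} (h : SmoothForm F) : form F ≠ 0 := by
  intro h0
  obtain ⟨i, hi⟩ := h (fun _ => 1) (by intro e; simpa using congrFun e 0)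
  rw [h0] at hi
  simp at hi

theorem no_factor {F : Mon → ℂ} (h : SmoothForm F) {A B : MvPolynomial (Fin 6) ℂ} {d : ℕ} (hd : d ≠ 0)
    (hA : A.IsHomogeneous 1) (hB : B.IsHomogeneous d) (hF : form F = A * B) : False := by
  obtain ⟨z, hz, h1, h2⟩ := common_zero hA hB hd
  obtain ⟨i, hi⟩ := h z hz
  apply hi
  rw [hF, pderiv_mul, map_add, map_mul, map_mul, h1, h2]
  ring

theorem irr_of_smooth {F : Mon → ℂ} (h : SmoothForm F) : Irreducible (form F) := by
  have hne := form_ne_zero h
  have htd : (form F).totalDegree = 3 := (form_hom F).totalDegree hne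
  constructor
  · intro hu
    rw [isUnit_iff_totalDegree_of_isReduced] at hu
    rw [htd] at hu
    exact absurd hu.2 (by norm_num)
  · intro A B hAB
    have hA0 : A ≠ 0 := by rintro rfl; rw [zero_mul] at hAB; exact hne hAB
    have hB0 : B ≠ 0 := by rintro rfl; rw [mul_zero] at hAB; exact hne hAB
    have hd : A.totalDegree + B.totalDegree = 3 := by
      rw [← htd, hAB, totalDegree_mul_of_isDomain hA0 hB0]
    have hl := lead_mul (form_hom F) hAB hd
    have unit : ∀ P : MvPolynomial (Fin 6) ℂ, P ≠ 0 → P.totalDegree = 0 → IsUnit P := by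
      intro P hP h0
      rw [totalDegree_eq_zero_iff_eq_C] at h0
      rw [h0]
      apply IsUnit.map
      rw [isUnit_iff_ne_zero]
      intro hc
      rw [hc, C_0] at h0
      exact hP h0
    have ha := homogeneousComponent_isHomogeneous A.totalDegree A
    have hb := homogeneousComponent_isHomogeneous B.totalDegree B
    obtain h0 | h1 | h2 | h3 : A.totalDegree = 0 ∨ A.totalDegree = 1 ∨ A.totalDegree = 2 ∨ A.totalDegree = 3 := by omega
    · exact Or.inl (unit A hA0 h0)
    · exfalso
      have hb2 : B.totalDegree = 2 := by omega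
      rw [h1, hb2] at hl
      rw [h1] at ha
      rw [hb2] at hb
      exact no_factor h two_ne_zero ha hb hl
    · exfalso
      have hb1 : B.totalDegree = 1 := by omega
      rw [h2, hb1] at hl
      rw [h2] at ha
      rw [hb1] at hb
      exact no_factor h two_ne_zero hb ha (by rw [hl, mul_comm])
    · exact Or.inr (unit B hB0 (by omega))

end Pool.Agent.ENR
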