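import Mathlib

/-! Jacobian criterion for algebraic independence -/

namespace Pool.Agent.ENR

open MvPolynomial

theorem aeval_chain {σ τ : Type*} [Fintype τ] (f : τ → MvPolynomial σ ℂ) (p : σ) (Q : MvPolynomial τ ℂ) :
    pderiv p (aeval f Q) = ∑ j, aeval f (pderiv j Q) * pderiv p (f j) := by
  classical
  induction Q using MvPolynomial.induction_on with
  | C a => simp
  | add P Q hP hQ =>
    simp only [map_add, add_mul, Finset.sum_add_distrib, hP, hQ]
  | mul_X P m hP =>
    rw [map_mul, aeval_X, pderiv_mul, hP]
    have : ∀ j, aeval f (pderiv j (P * X m)) * pderiv p (f j)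
        = aeval f (pderiv j P) * pderiv p (f j) * f m + (if j = m then aeval f P * pderiv p (f j) else 0) := by
      intro j
      rw [pderiv_mul, pderiv_X]
      by_cases h : m = j
      · subst h
        simp
        ring
      · rw [Pi.single_eq_of_ne h, if_neg (fun h' => h h'.symm)]
        simp
        ring
    simp only [this, Finset.sum_add_distrib, ← Finset.sum_mul]
    simp

theorem eq_C_of_pderiv {τ : Type*} {Q : MvPolynomial τ ℂ} (h : ∀ j, pderiv j Q = 0) : Q = C (coeff 0 Q) := by
  classical
  ext m
  rw [coeff_C]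
  by_cases hm : (0 : τ →₀ ℕ) = m
  · rw [if_pos hm, ← hm]
  · rw [if_neg hm]
    have : ∃ i, m i ≠ 0 := by
      by_contra hne
      push Not at hne
      exact hm (Finsupp.ext fun i => by rw [hne i]; rfl)
    obtain ⟨i, hi⟩ := this
    have hc := congrArg (coeff (m - Finsupp.single i 1)) (h i)
    rw [coeff_pderiv, coeff_zero] at hc
    have e : m - Finsupp.single i 1 + Finsupp.single i 1 = m := by
      apply tsub_add_cancel_of_le
      rw [Finsupp.single_le_iff]
      omega
    rw [e] at hc
    rcases mul_eq_zero.mp hc with h0 | h0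
    · exact h0
    · exfalso
      generalize (m - Finsupp.single i 1 : τ →₀ ℕ) i = k at h0
      exact Nat.cast_add_one_ne_zero k h0

theorem totalDegree_pderiv_lt {τ : Type*} {Q : MvPolynomial τ ℂ} {n : ℕ} (h : Q.totalDegree ≤ n + 1) (j : τ) :
    (pderiv j Q).totalDegree ≤ n := by
  classical
  rw [totalDegree]
  apply Finset.sup_le
  intro m hm
  rw [mem_support_iff, coeff_pderiv] at hm
  have h1 : m + Finsupp.single j 1 ∈ Q.support := by
    rw [mem_support_iff]
    intro h0
    rw [h0, zero_mul] at hm
    exact hm rfl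
  have h2 := (le_totalDegree h1).trans h
  rw [Finsupp.sum_add_index' (by simp) (by simp)] at h2
  rw [Finsupp.sum_single_index rfl] at h2
  omega

theorem algInd_of_jac {σ τ : Type*} [Fintype τ] [Fintype σ] (f : τ → MvPolynomial σ ℂ) (a : σ → ℂ)
    (h : ∀ l : τ → ℂ, (∀ p : σ, ∑ j, l j * eval a (pderiv p (f j)) = 0) → l = 0) :
    AlgebraicIndependent ℂ f := by
  classical
  -- left inverse
  let J : Matrix σ τ ℂ := fun p j => eval a (pderiv p (f j))
  have hJ : Function.Injective (Matrix.toLin' J) := by
    rw [← LinearMap.ker_eq_bot, LinearMap.ker_eq_bot']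
    intro l hl
    apply h
    intro p
    have := congrFun hl p
    simp only [Matrix.toLin'_apply, Matrix.mulVec, dotProduct, Pi.zero_apply] at this
    rw [← this]
    exact Finset.sum_congr rfl fun j _ => mul_comm _ _
  obtain ⟨g, hg⟩ := LinearMap.exists_leftInverse_of_injective (Matrix.toLin' J) (LinearMap.ker_eq_bot.mpr hJ)
  let W : Matrix τ σ ℂ := LinearMap.toMatrix' g
  have hW : W * J = 1 := by
    have h1 := congrArg LinearMap.toMatrix' hg
    rw [LinearMap.toMatrix'_comp, LinearMap.toMatrix'_toLin', LinearMap.toMatrix'_id] at h1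
    exact h1
  let JA : Matrix σ τ (MvPolynomial σ ℂ) := fun p j => pderiv p (f j)
  let WA : Matrix τ σ (MvPolynomial σ ℂ) := fun i p => C (W i p)
  let N : Matrix τ τ (MvPolynomial σ ℂ) := WA * JA
  have hN : N.det ≠ 0 := by
    intro h0
    have h1 : (eval a).mapMatrix N = 1 := by
      rw [← hW]
      ext i j
      have e : N i j = ∑ p, C (W i p) * pderiv p (f j) := rfl
      rw [RingHom.mapMatrix_apply, Matrix.map_apply, e, map_sum, Matrix.mul_apply]
      refine Finset.sum_congr rfl fun p _ => ?_
      rw [map_mul, eval_C]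
    have h2 := RingHom.map_det (eval a) N
    rw [h1, h0] at h2
    simp at h2
  rw [algebraicIndependent_iff]
  have key : ∀ n : ℕ, ∀ Q : MvPolynomial τ ℂ, Q.totalDegree ≤ n → aeval f Q = 0 → Q = 0 := by
    intro n
    have const : ∀ Q : MvPolynomial τ ℂ, (∀ j, pderiv j Q = 0) → aeval f Q = 0 → Q = 0 := by
      intro Q h1 h2
      rw [eq_C_of_pderiv h1] at h2 ⊢
      rw [aeval_C] at h2
      have : coeff 0 Q = 0 := by
        have := (map_eq_zero_iff (algebraMap ℂ (MvPolynomial σ ℂ)) (C_injective σ ℂ)).mp h2
        exact this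
      rw [this, C_0]
    induction n with
    | zero =>
      intro Q hQ h0
      have : Q = C (coeff 0 Q) := totalDegree_eq_zero_iff_eq_C.mp (Nat.le_zero.mp hQ)
      apply const Q _ h0
      intro j
      rw [this, pderiv_C]
    | succ n ih =>
      intro Q hQ h0
      apply const Q _ h0
      have hv : N.mulVec (fun j => aeval f (pderiv j Q)) = 0 := by
        have h1 : JA.mulVec (fun j => aeval f (pderiv j Q)) = 0 := by
          funext p
          simp only [Matrix.mulVec, dotProduct, JA, Pi.zero_apply]
          have h2 := aeval_chain f p Q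
          rw [h0, map_zero] at h2
          rw [h2]
          exact Finset.sum_congr rfl fun j _ => mul_comm _ _
        have e2 : N = WA * JA := rfl
        rw [e2, ← Matrix.mulVec_mulVec, h1, Matrix.mulVec_zero]
      have hz := Matrix.eq_zero_of_mulVec_eq_zero hN hv
      intro j
      exact ih _ (totalDegree_pderiv_lt hQ j) (congrFun hz j)
  intro Q hQ
  exact key _ Q le_rfl hQ

end Pool.Agent.ENR
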