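import Pool.Agent.ENR.Uni4

/-! the main theorem -/

namespace Pool.Agent.ENR

open MvPolynomial

/-- parameters after a linear change of coordinates -/
noncomputable def mulg (a : PS) (g : Matrix (Fin 6) (Fin 6) ℂ) : PS :=
  Sum.elim (fun _ => pt a) (Sum.elim (fun x => pn a x.1 x.2) (Sum.elim (pc a) (fun x => (pg a * g) x.1 x.2)))

theorem famP_mulg (a : PS) (g : Matrix (Fin 6) (Fin 6) ℂ) (z : Fin 6 → ℂ) :
    famP (mulg a g) z = famP a (g.mulVec z) := by
  have h : famP (mulg a g) z = fam (pt a) (pn a) (pc a) (pg a * g) z := rfl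
  rw [h]
  unfold famP fam
  rw [Matrix.mulVec_mulVec]

theorem gl_inv {Ψ : MvPolynomial Mon ℂ} (hΨ : ∀ P, aeval Phi P = 0 ↔ Ψ ∣ P) (g : Matrix (Fin 6) (Fin 6) ℂ)
    {F F' : Mon → ℂ} (h : ∀ z, val F' z = val F (g.mulVec z)) (hF : eval F Ψ = 0) : eval F' Ψ = 0 := by
  obtain ⟨r, pt', lam, hc⟩ := coeff_values
  let P : MvPolynomial Mon ℂ := aeval (fun s => ∑ i, C (lam s i) *
    valR (fun s => (X s : MvPolynomial Mon ℂ)) (fun b => C (g.mulVec (pt' i) b))) Ψ
  have key : ∀ F F' : Mon → ℂ, (∀ z, val F' z = val F (g.mulVec z)) → eval F P = eval F' Ψ := by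
    intro F F' h
    have h1 : ∀ s, eval F (∑ i, C (lam s i) *
        valR (fun s => (X s : MvPolynomial Mon ℂ)) (fun b => C (g.mulVec (pt' i) b))) = F' s := by
      intro s
      rw [hc F' s, map_sum]
      refine Finset.sum_congr rfl fun i _ => ?_
      rw [map_mul, eval_C, map_valR]
      simp only [eval_X, eval_C]
      rw [valR_eq, h]
    simp only [P]
    generalize Ψ = Q
    induction Q using MvPolynomial.induction_on with
    | C a => simp
    | add p q hp hq => rw [map_add, map_add, hp, hq, map_add]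
    | mul_X p m hp =>
      rw [map_mul, map_mul, hp, map_mul, aeval_X, h1, eval_X]
  have hP : aeval Phi P = 0 := by
    rw [aeval_iff isOpen_Ug nonempty_Ug]
    intro a _
    rw [key (cf a) (cf (mulg a g)) (by intro z; rw [val_cf, val_cf, famP_mulg])]
    rw [← eval_aeval, (hΨ Ψ).mpr dvd_rfl, map_zero]
  obtain ⟨Q, hQ⟩ := (hΨ P).mp hP
  rw [← key F F' h, hQ, map_mul, hF, zero_mul]

theorem main : ∃ Ψ : MvPolynomial Mon ℂ, Irreducible Ψ ∧
    (∀ P : MvPolynomial Mon ℂ,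
      (∀ F, eval F Ψ = 0 → SmoothForm F → ContainsEnriques F → eval F P = 0) →
        ∀ F, eval F Ψ = 0 → eval F P = 0) ∧
    Unirational (univFamily {F | eval F Ψ = 0}) ∧
    (∀ (g : Matrix (Fin 6) (Fin 6) ℂ) (F F' : Mon → ℂ), (∀ z, val F' z = val F (g.mulVec z)) →
      eval F Ψ = 0 → eval F' Ψ = 0) ∧
    (∀ Ψ' : MvPolynomial Mon ℂ, Irreducible Ψ' →
      (∀ F, SmoothForm F → ContainsEnriques F → eval F Ψ' = 0) →
        {F | eval F Ψ' = 0} = {F | eval F Ψ = 0}) := by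
  obtain ⟨Ψ, hirr, hΨ⟩ := exists_Psi
  have hmem : ∀ a : PS, eval (cf a) Ψ = 0 := by
    intro a
    rw [← eval_aeval, (hΨ Ψ).mpr dvd_rfl, map_zero]
  refine ⟨Ψ, hirr, ?_, uni hΨ, fun g F F' h hF => gl_inv hΨ g h hF, ?_⟩
  · intro P hP F hF
    have h1 : aeval Phi P = 0 := by
      rw [aeval_iff isOpen_Ug nonempty_Ug]
      intro a ha
      obtain ⟨h2, h3⟩ := good_of_Ug ha (val_cf a)
      exact hP _ (hmem a) h2 h3
    obtain ⟨Q, hQ⟩ := (hΨ P).mp h1
    rw [hQ, map_mul, hF, zero_mul]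
  · intro Ψ' hirr' h
    have h1 : aeval Phi Ψ' = 0 := by
      rw [aeval_iff isOpen_Ug nonempty_Ug]
      intro a ha
      obtain ⟨h2, h3⟩ := good_of_Ug ha (val_cf a)
      exact h _ h2 h3
    have h4 := (hΨ Ψ').mp h1
    have h5 : Associated Ψ Ψ' := hirr.associated_of_dvd hirr' h4
    obtain ⟨u, hu⟩ := h5
    ext F
    simp only [Set.mem_ofPred_eq]
    constructor
    · intro h6
      have : eval F Ψ = eval F Ψ' * eval F (u⁻¹ : (MvPolynomial Mon ℂ)ˣ) := by
        rw [← map_mul, ← hu, mul_assoc, Units.mul_inv, mul_one]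
      rw [this, h6, zero_mul]
    · intro h6
      rw [← hu, map_mul, h6, zero_mul]

end Pool.Agent.ENR
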