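import Pool.Agent.ENR.Van

/-! naturality of all constructions under ring homomorphisms -/

namespace Pool.Agent.ENR

open Matrix

variable {R S : Type*} [CommRing R] [CommRing S]

theorem map_sy (f : R →+* S) (a : Fin 6 → R) (i j : Fin 3) : f (sy a i j) = sy (fun m => f (a m)) i j := by
  fin_cases i <;> fin_cases j <;> simp [sy]

theorem map_hv (f : R →+* S) (t : R) (x : Fin 3 → R) :
    (fun m => f (hv t x m)) = hv (f t) (fun i => f (x i)) := by
  funext m; fin_cases m <;> simp [hv]

theorem map_hes (f : R →+* S) (t : R) (x : Fin 3 → R) (i j : Fin 3) :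
    f (hes t x i j) = hes (f t) (fun i => f (x i)) i j := by
  unfold hes; rw [map_sy, map_hv]

theorem map_adj (f : R →+* S) (A : Matrix (Fin 3) (Fin 3) R) (i j : Fin 3) :
    f (adj A i j) = adj (fun i j => f (A i j)) i j := by
  fin_cases i <;> fin_cases j <;> simp [adj]

theorem map_ev (f : R →+* S) (k : Fin 3) : (fun i => f ((ev k : Fin 3 → R) i)) = ev k := by
  funext i; simp [ev]

theorem map_gv (f : R →+* S) (n : Fin 3 → Fin 3 → R) (k : Fin 3) :
    (fun m => f (gv n k m)) = gv (fun k j => f (n k j)) k := by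
  have h := fun i => congrFun (map_ev f k) i
  funext m
  fin_cases m
  · exact h 0
  · exact h 1
  · exact h 2
  all_goals rfl

theorem map_Nn (f : R →+* S) (n : Fin 3 → Fin 3 → R) (k i j : Fin 3) :
    f (Nn n k i j) = Nn (fun k j => f (n k j)) k i j := by
  unfold Nn; rw [map_sy, map_gv]

theorem map_ofd (f : R →+* S) (n : Fin 3 → Fin 3 → R) (d : Fin 3 → R) (j : Fin 3) :
    f (ofd n d j) = ofd (fun k j => f (n k j)) (fun k => f (d k)) j := by
  simp [ofd]

theorem map_net (f : R →+* S) (n : Fin 3 → Fin 3 → R) (d : Fin 3 → R) (i j : Fin 3) :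
    f (net n d i j) = net (fun k j => f (n k j)) (fun k => f (d k)) i j := by
  fin_cases i <;> fin_cases j <;> simp [net, sy, ofd]

theorem map_mm (f : R →+* S) (A B : Matrix (Fin 3) (Fin 3) R) (i j : Fin 3) :
    f (mm A B i j) = mm (fun i j => f (A i j)) (fun i j => f (B i j)) i j := by
  simp [mm]

theorem map_axv (f : R →+* S) (A : Matrix (Fin 3) (Fin 3) R) (i : Fin 3) :
    f (axv A i) = axv (fun i j => f (A i j)) i := by
  fin_cases i <;> simp [axv]

theorem map_krN (f : R →+* S) (A : Matrix (Fin 3) (Fin 3) R) (N : Fin 3 → Matrix (Fin 3) (Fin 3) R)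
    (k i : Fin 3) : f (krN A N k i) = krN (fun i j => f (A i j)) (fun k i j => f (N k i j)) k i := by
  unfold krN
  rw [map_axv]
  congr 1
  funext i j
  rw [map_mm]
  congr 1
  funext i j
  rw [map_mm]

theorem map_dt (f : R →+* S) (a b : Fin 3 → R) : f (dt a b) = dt (fun i => f (a i)) (fun i => f (b i)) := by
  simp [dt]

theorem map_tr3 (f : R →+* S) (A : Matrix (Fin 3) (Fin 3) R) : f (tr3 A) = tr3 (fun i j => f (A i j)) := by
  simp [tr3]

theorem map_det3 (f : R →+* S) (A : Matrix (Fin 3) (Fin 3) R) : f (det3 A) = det3 (fun i j => f (A i j)) := by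
  simp [det3]

theorem map_jt (f : R →+* S) (a b c : Fin 3 → R) (N : Fin 3 → Matrix (Fin 3) (Fin 3) R) :
    f (jt a b c N) = jt (fun i => f (a i)) (fun i => f (b i)) (fun i => f (c i)) (fun k i j => f (N k i j)) := by
  simp [jt, tr3, mm, crs]

theorem map_J3 (f : R →+* S) (a b c : Fin 3 → R) (N : Fin 3 → Matrix (Fin 3) (Fin 3) R) :
    f (J3 a b c N) = J3 (fun i => f (a i)) (fun i => f (b i)) (fun i => f (c i)) (fun k i j => f (N k i j)) := by
  simp only [J3, map_add, map_jt]

theorem map_J3P (f : R →+* S) (a : Fin 3 → R) (P : Matrix (Fin 3) (Fin 3) R)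
    (N : Fin 3 → Matrix (Fin 3) (Fin 3) R) :
    f (J3P a P N) = J3P (fun i => f (a i)) (fun i j => f (P i j)) (fun k i j => f (N k i j)) := by
  simp only [J3P, map_sum, map_mul, map_J3, map_ev]

theorem map_dl (f : R →+* S) (t : R) (x y : Fin 3 → R) (k : Fin 3) :
    f (dl t x y k) = dl (f t) (fun i => f (x i)) (fun i => f (y i)) k := by
  simp only [dl, map_add, map_mul, map_adj, map_hes]

theorem map_de (f : R →+* S) (t : R) (n : Fin 3 → Fin 3 → R) (x y : Fin 3 → R) (k : Fin 3) :
    f (de t n x y k) = de (f t) (fun k j => f (n k j)) (fun i => f (x i)) (fun i => f (y i)) k := by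
  simp only [de, dlt', map_dt, map_krN, map_hes, map_Nn]

theorem map_qT (f : R →+* S) (t : R) (n : Fin 3 → Fin 3 → R) (x y : Fin 3 → R) (k : Fin 3) :
    f (qT t n x y k) = qT (f t) (fun k j => f (n k j)) (fun i => f (x i)) (fun i => f (y i)) k := by
  simp only [qT, map_sub, map_add, map_mul, map_adj, map_hes, map_ofd, map_dl]

theorem map_pp (f : R →+* S) (t : R) (P : Matrix (Fin 3) (Fin 3) R) (i j : Fin 3) :
    f (pp t P i j) = pp (f t) (fun i j => f (P i j)) i j := by
  fin_cases i <;> fin_cases j <;> simp [pp, sy]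

theorem map_Qm (f : R →+* S) (t : R) (n : Fin 3 → Fin 3 → R) (u v : Fin 3 → R) (i j : Fin 3) :
    f (Qm t n u v i j) = Qm (f t) (fun k j => f (n k j)) (fun i => f (u i)) (fun i => f (v i)) i j := by
  simp only [Qm, map_sub, map_mul, map_net, map_de]

theorem map_Zm (f : R →+* S) (t : R) (n : Fin 3 → Fin 3 → R) (u v : Fin 3 → R) (i j : Fin 3) :
    f (Zm t n u v i j) = Zm (f t) (fun k j => f (n k j)) (fun i => f (u i)) (fun i => f (v i)) i j := by
  simp only [Zm, map_mm, map_Qm, map_hes]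

theorem map_kc (f : R →+* S) (t : R) (n : Fin 3 → Fin 3 → R) (P : Matrix (Fin 3) (Fin 3) R) (k : Fin 3) :
    f (kc t n P k) = kc (f t) (fun k j => f (n k j)) (fun i j => f (P i j)) k := by
  simp only [kc, map_sum, map_mul, map_krN, map_hes, map_ev, map_Nn]

theorem map_th (f : R →+* S) (t : R) : f (th t) = th (f t) := by simp [th]

theorem map_KM (f : R →+* S) (A : Matrix (Fin 3) (Fin 3) R) (N : Fin 3 → Matrix (Fin 3) (Fin 3) R)
    (i j : Fin 3) : f (KM A N i j) = KM (fun i j => f (A i j)) (fun k i j => f (N k i j)) i j :=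
  map_krN f A N i j

theorem map_mv (f : R →+* S) (A : Matrix (Fin 3) (Fin 3) R) (v : Fin 3 → R) (i : Fin 3) :
    f (mv A v i) = mv (fun i j => f (A i j)) (fun i => f (v i)) i := by
  simp [mv, dt]

theorem map_G9 (f : R →+* S) (t : R) (n : Fin 3 → Fin 3 → R) (u v : Fin 3 → R) :
    f (G9 t n u v) = G9 (f t) (fun k j => f (n k j)) (fun i => f (u i)) (fun i => f (v i)) := by
  simp only [G9, map_sub, map_add, map_mul, map_tr3, map_mm, map_pp, map_Qm, map_hes, map_Nn, map_kc,
    map_th, map_J3P, map_J3, map_ofNat]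

theorem map_G10 (f : R →+* S) (t : R) (n : Fin 3 → Fin 3 → R) (u v : Fin 3 → R) :
    f (G10 t n u v) = G10 (f t) (fun k j => f (n k j)) (fun i => f (u i)) (fun i => f (v i)) := by
  simp only [G10, map_sub, map_add, map_mul, map_tr3, map_mm, map_hes, map_Nn, map_det3, map_KM,
    map_dt, map_mv, map_net, map_de, map_adj, map_J3P, map_ofNat]

theorem map_Gf (f : R →+* S) (t : R) (n : Fin 3 → Fin 3 → R) (u v : Fin 3 → R) (i : Fin 10) :
    f (Gf t n u v i) = Gf (f t) (fun k j => f (n k j)) (fun i => f (u i)) (fun i => f (v i)) i := by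
  fin_cases i <;> simp only [Gf] <;>
    first
    | exact map_Zm f t n u v _ _
    | exact map_G9 f t n u v
    | exact map_G10 f t n u v
    | (show f (Zm t n u v 0 0 - Zm t n u v 1 1) = _; rw [map_sub, map_Zm, map_Zm]; rfl)
    | (show f (Zm t n u v 1 1 - Zm t n u v 2 2) = _; rw [map_sub, map_Zm, map_Zm]; rfl)

end Pool.Agent.ENR
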