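import Pool.Agent.ENR.Enr4

/-! openness of the good conditions -/

namespace Pool.Agent.ENR

open Matrix

/-- parameters: `t`, `n`, `c`, `g` -/
abbrev Par : Type := Unit ⊕ (Fin 3 × Fin 3) ⊕ Fin 10 ⊕ (Fin 6 × Fin 6)

section acc
variable {R : Type*}
/-- parameter `t` -/
def pt (a : Par → R) : R := a (Sum.inl ())
/-- parameter `n` -/
def pn (a : Par → R) (k j : Fin 3) : R := a (Sum.inr (Sum.inl (k, j)))
/-- parameter `c` -/
def pc (a : Par → R) (j : Fin 10) : R := a (Sum.inr (Sum.inr (Sum.inl j)))
/-- parameter `g` -/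
def pg (a : Par → R) : Matrix (Fin 6) (Fin 6) R := fun i j => a (Sum.inr (Sum.inr (Sum.inr (i, j))))

/-- member of the family as a function of the parameter vector -/
def famP [CommRing R] (a : Par → R) (z : Fin 6 → R) : R := fam (pt a) (pn a) (pc a) (pg a) z
end acc

/-- derivative of the member of the family in direction `e_i` -/
noncomputable def gradF {R : Type*} [CommRing R] (a : Par → R) (z : Fin 6 → R) (i : Fin 6) : R :=
  (famP (fun p => Polynomial.C (a p)) (fun b => Polynomial.C (z b) + (if b = i then Polynomial.X else 0)) :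
    Polynomial R).coeff 1

theorem map_famP {R S : Type*} [CommRing R] [CommRing S] (f : R →+* S) (a : Par → R) (z : Fin 6 → R) :
    f (famP a z) = famP (fun p => f (a p)) (fun i => f (z i)) := by
  unfold famP
  rw [map_fam]
  rfl

theorem map_gradF {R S : Type*} [CommRing R] [CommRing S] (f : R →+* S) (a : Par → R) (z : Fin 6 → R)
    (i : Fin 6) : f (gradF a z i) = gradF (fun p => f (a p)) (fun i => f (z i)) i := by
  unfold gradF
  rw [← Polynomial.coeff_map, ← Polynomial.coe_mapRingHom, map_famP]
  congr 2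
  · funext p; simp
  · funext b
    rw [map_add]
    congr 1
    · simp
    · split_ifs <;> simp

/-- derivative of a polynomial along a line -/
theorem E_line (z : Fin 6 → ℂ) (i : Fin 6) (P : MvPolynomial (Fin 6) ℂ) :
    (E Polynomial.C (fun b => Polynomial.C (z b) + (if b = i then Polynomial.X else 0)) P).coeff 0 = MvPolynomial.eval z P ∧
    (E Polynomial.C (fun b => Polynomial.C (z b) + (if b = i then Polynomial.X else 0)) P).coeff 1
      = MvPolynomial.eval z (MvPolynomial.pderiv i P) := by
  induction P using MvPolynomial.induction_on with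
  | C a => simp [E_C, Polynomial.coeff_C]
  | add p q hp hq =>
    rw [map_add, Polynomial.coeff_add, Polynomial.coeff_add, hp.1, hp.2, hq.1, hq.2]
    simp
  | mul_X p m hp =>
    rw [map_mul, E_X, Polynomial.mul_coeff_zero, Polynomial.mul_coeff_one, hp.1, hp.2]
    constructor
    · by_cases h : m = i <;> simp [h, MvPolynomial.eval_X]
    · rw [Derivation.leibniz, MvPolynomial.pderiv_X]
      by_cases h : m = i
      · subst h; simp [Polynomial.coeff_C]; ring
      · simp [h, Polynomial.coeff_C, Pi.single_apply]; ring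

theorem eval_famP_line (a : Par → ℂ) (z : Fin 6 → ℂ) (i : Fin 6) (s : ℂ) :
    (famP (fun p => Polynomial.C (a p)) (fun b => Polynomial.C (z b) + (if b = i then Polynomial.X else 0)) :
    Polynomial ℂ).eval s = famP a (fun b => z b + if b = i then s else 0) := by
  have := map_famP (Polynomial.evalRingHom s) (fun p => Polynomial.C (a p))
    (fun b => Polynomial.C (z b) + (if b = i then Polynomial.X else 0))
  rw [Polynomial.coe_evalRingHom] at this
  rw [this]
  congr 1
  · funext p; simp
  · funext b; split_ifs <;> simp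

theorem gradF_eq {a : Par → ℂ} {F : Mon → ℂ} (hF : ∀ z, val F z = famP a z) (z : Fin 6 → ℂ) (i : Fin 6) :
    gradF a z i = MvPolynomial.eval z (MvPolynomial.pderiv i (form F)) := by
  have h1 : ∀ (s : ℂ) (P : MvPolynomial (Fin 6) ℂ),
      (E Polynomial.C (fun b => Polynomial.C (z b) + (if b = i then Polynomial.X else 0)) P).eval s
      = MvPolynomial.eval (fun b => z b + if b = i then s else 0) P := by
    intro s P
    induction P using MvPolynomial.induction_on with
    | C a => simp [E_C]
    | add p q hp hq => rw [map_add, Polynomial.eval_add, hp, hq, map_add]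
    | mul_X p m hp =>
      rw [map_mul, E_X, Polynomial.eval_mul, hp, map_mul, MvPolynomial.eval_X]
      congr 1
      split_ifs <;> simp
  have key : (famP (fun p => Polynomial.C (a p)) (fun b => Polynomial.C (z b) + (if b = i then Polynomial.X else 0)) :
    Polynomial ℂ) = E Polynomial.C (fun b => Polynomial.C (z b) + (if b = i then Polynomial.X else 0)) (form F) := by
    apply Polynomial.funext
    intro s
    rw [eval_famP_line, ← hF, h1, val]
  have h2 := (E_line z i (form F)).2
  rw [← key] at h2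
  exact h2

/-! ### continuity -/

section cont
variable {X : Type*} [TopologicalSpace X]

/-- evaluation of continuous functions -/
noncomputable def evc (a : X) : C(X, ℂ) →+* ℂ := (ContinuousMap.evalAlgHom ℂ ℂ a).toRingHom

theorem evc_apply (a : X) (f : C(X, ℂ)) : evc a f = f a := rfl

theorem cont_of (F : C(X, ℂ)) (f : X → ℂ) (h : ∀ a, evc a F = f a) : Continuous f := by
  have : f = ⇑F := by funext a; rw [← h a]; rfl
  rw [this]
  exact F.continuous

theorem cont_qT {T : X → ℂ} (hT : Continuous T) {N : Fin 3 → Fin 3 → X → ℂ} (hN : ∀ k j, Continuous (N k j))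
    {x y : Fin 3 → X → ℂ} (hx : ∀ i, Continuous (x i)) (hy : ∀ i, Continuous (y i)) (j : Fin 3) :
    Continuous fun a => qT (T a) (fun k j => N k j a) (fun i => x i a) (fun i => y i a) j :=
  cont_of (qT (⟨T, hT⟩ : C(X, ℂ)) (fun k j => ⟨N k j, hN k j⟩) (fun i => ⟨x i, hx i⟩) (fun i => ⟨y i, hy i⟩) j) _
    (fun a => map_qT (evc a) _ _ _ _ j)

theorem cont_de {T : X → ℂ} (hT : Continuous T) {N : Fin 3 → Fin 3 → X → ℂ} (hN : ∀ k j, Continuous (N k j))
    {x y : Fin 3 → X → ℂ} (hx : ∀ i, Continuous (x i)) (hy : ∀ i, Continuous (y i)) (j : Fin 3) :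
    Continuous fun a => de (T a) (fun k j => N k j a) (fun i => x i a) (fun i => y i a) j :=
  cont_of (de (⟨T, hT⟩ : C(X, ℂ)) (fun k j => ⟨N k j, hN k j⟩) (fun i => ⟨x i, hx i⟩) (fun i => ⟨y i, hy i⟩) j) _
    (fun a => map_de (evc a) _ _ _ _ j)

theorem cont_qB {T : X → ℂ} (hT : Continuous T) {N : Fin 3 → Fin 3 → X → ℂ} (hN : ∀ k j, Continuous (N k j))
    {x y : Fin 3 → X → ℂ} (hx : ∀ i, Continuous (x i)) (hy : ∀ i, Continuous (y i)) (ξ η : Fin 3 → ℂ) (j : Fin 3) :
    Continuous fun a => qB (T a) (fun k j => N k j a) (fun i => x i a) (fun i => y i a) ξ η j := by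
  unfold qB
  exact ((cont_qT hT hN (x := fun i a => x i a + ξ i) (y := fun i a => y i a + η i)
    (fun i => (hx i).add continuous_const) (fun i => (hy i).add continuous_const) j).sub
    (cont_qT hT hN hx hy j)).sub (cont_qT hT hN (x := fun i _ => ξ i) (y := fun i _ => η i)
    (fun i => continuous_const) (fun i => continuous_const) j)

theorem cont_adjhes {T : X → ℂ} (hT : Continuous T) {x : Fin 3 → X → ℂ} (hx : ∀ i, Continuous (x i)) (i j : Fin 3) :
    Continuous fun a => adj (hes (T a) (fun i => x i a)) i j :=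
  cont_of (adj (hes (⟨T, hT⟩ : C(X, ℂ)) (fun i => ⟨x i, hx i⟩)) i j) _
    (fun a => by
      rw [map_adj]
      congr 1
      funext i j
      rw [map_hes]
      rfl)

theorem cont_adjKM {T : X → ℂ} (hT : Continuous T) {N : Fin 3 → Fin 3 → X → ℂ} (hN : ∀ k j, Continuous (N k j))
    {x : Fin 3 → X → ℂ} (hx : ∀ i, Continuous (x i)) (i j : Fin 3) :
    Continuous fun a => adj (KM (hes (T a) (fun i => x i a)) (Nn (fun k j => N k j a))) i j :=
  cont_of (adj (KM (hes (⟨T, hT⟩ : C(X, ℂ)) (fun i => ⟨x i, hx i⟩)) (Nn (fun k j => ⟨N k j, hN k j⟩))) i j) _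
    (fun a => by
      rw [map_adj]
      congr 1
      funext i j
      rw [map_KM]
      congr 1
      · funext i j; rw [map_hes]; rfl
      · funext k i j; rw [map_Nn]; rfl)

theorem cont_gradF {A : Par → X → ℂ} (hA : ∀ p, Continuous (A p)) {z : Fin 6 → X → ℂ}
    (hz : ∀ i, Continuous (z i)) (i : Fin 6) :
    Continuous fun a => gradF (fun p => A p a) (fun b => z b a) i :=
  cont_of (gradF (fun p => (⟨A p, hA p⟩ : C(X, ℂ))) (fun b => ⟨z b, hz b⟩) i) _
    (fun a => map_gradF (evc a) _ _ i)

theorem cont_Gz {T : X → ℂ} (hT : Continuous T) {N : Fin 3 → Fin 3 → X → ℂ} (hN : ∀ k j, Continuous (N k j))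
    (z : Fin 6 → ℂ) (j : Fin 10) :
    Continuous fun a => Gz (T a) (fun k j => N k j a) z j :=
  cont_of (Gz (⟨T, hT⟩ : C(X, ℂ)) (fun k j => ⟨N k j, hN k j⟩) (fun i => ContinuousMap.const X (z i)) j) _
    (fun a => map_Gz (evc a) _ _ _ j)

end cont

/-- compactness argument -/
theorem isOpen_forall {X K : Type*} [TopologicalSpace X] [TopologicalSpace K] [CompactSpace K] {ι : Type*}
    (f : ι → X × K → ℂ) (hf : ∀ i, Continuous (f i)) : IsOpen {x | ∀ k, ∃ i, f i (x, k) ≠ 0} := by
  have : {x | ∀ k, ∃ i, f i (x, k) ≠ 0}ᶜ = Prod.fst '' (⋂ i, (f i) ⁻¹' {0}) := by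
    ext x
    simp only [Set.mem_compl_iff, Set.mem_ofPred_eq, Set.mem_image, Set.mem_iInter, Set.mem_preimage,
      Set.mem_singleton_iff, Prod.exists, exists_and_right, exists_eq_right]
    push Not
    rfl
  rw [← isClosed_compl_iff, this]
  exact isClosedMap_fst_of_compactSpace _ (isClosed_iInter fun i => isClosed_singleton.preimage (hf i))

end Pool.Agent.ENR
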