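import Pool.Agent.ENR.Open

/-! openness of the good conditions: the sets -/

namespace Pool.Agent.ENR

open Matrix

/-- unit sphere -/
abbrev Sph (n : ℕ) := Metric.sphere (0 : Fin n → ℂ) 1

theorem exists_sph {n : ℕ} {v : Fin n → ℂ} (hv : v ≠ 0) : ∃ (c : ℂ) (k : Sph n), c ≠ 0 ∧ ∀ i, (k : Fin n → ℂ) i = c * v i := by
  have hn : ‖v‖ ≠ 0 := norm_ne_zero_iff.mpr hv
  refine ⟨((‖v‖⁻¹ : ℝ) : ℂ), ⟨((‖v‖⁻¹ : ℝ) : ℂ) • v, ?_⟩, ?_, fun i => rfl⟩
  · rw [mem_sphere_zero_iff_norm, norm_smul]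
    simp [hn]
  · simp [hn]

theorem sph_ne {n : ℕ} (k : Sph n) : (k : Fin n → ℂ) ≠ 0 := by
  intro h
  have := k.2
  rw [mem_sphere_zero_iff_norm, h, norm_zero] at this
  exact zero_ne_one this

/-- the pair of vectors of a vector in `C^6` -/
theorem fxfy (x y : Fin 3 → ℂ) : fx ![x 0, x 1, x 2, y 0, y 1, y 2] = x ∧ fy ![x 0, x 1, x 2, y 0, y 1, y 2] = y := by
  constructor <;> (funext i; fin_cases i <;> rfl)

theorem cc {n : ℕ} {X : Type*} [TopologicalSpace X] (i : Fin n) :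
    Continuous fun q : X × Sph n => (q.2 : Fin n → ℂ) i :=
  (continuous_apply i).comp (continuous_subtype_val.comp continuous_snd)

/-- the reformulated conditions -/
theorem c2_iff (t : ℂ) (n : Fin 3 → Fin 3 → ℂ) : (∀ y, y ≠ 0 → ∃ j, qT t n 0 y j ≠ 0) ↔
    ∀ k : Sph 3, ∃ j, qT t n 0 (k : Fin 3 → ℂ) j ≠ 0 := by
  constructor
  · intro h k; exact h _ (sph_ne k)
  · intro h y hy
    obtain ⟨c, k, hc, hk⟩ := exists_sph hy
    obtain ⟨j, hj⟩ := h k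
    refine ⟨j, fun h0 => hj ?_⟩
    rw [funext hk, qT_sy, h0, mul_zero]

theorem c6_iff (t : ℂ) (n : Fin 3 → Fin 3 → ℂ) : (∀ x, x ≠ 0 → ∃ j, qT t n x 0 j ≠ 0) ↔
    ∀ k : Sph 3, ∃ j, qT t n (k : Fin 3 → ℂ) 0 j ≠ 0 := by
  constructor
  · intro h k; exact h _ (sph_ne k)
  · intro h y hy
    obtain ⟨c, k, hc, hk⟩ := exists_sph hy
    obtain ⟨j, hj⟩ := h k
    refine ⟨j, fun h0 => hj ?_⟩
    rw [funext hk, qT_sx, h0, mul_zero]

theorem adjKM_smul (t c : ℂ) (n : Fin 3 → Fin 3 → ℂ) (x : Fin 3 → ℂ) (i j : Fin 3) :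
    adj (KM (hes t (fun i => c * x i)) (Nn n)) i j = c ^ 2 * adj (KM (hes t x) (Nn n)) i j := by
  have h2 : KM (hes t (fun i => c * x i)) (Nn n) = fun k i => c * KM (hes t x) (Nn n) k i := by
    funext k i
    unfold KM
    rw [hes_smul, krN_smul]
  rw [h2, adj_smul]

theorem c3_iff (t : ℂ) (n : Fin 3 → Fin 3 → ℂ) :
    (∀ x, x ≠ 0 → ∃ i j, adj (KM (hes t x) (Nn n)) i j ≠ 0) ↔
    ∀ k : Sph 3, ∃ p : Fin 3 × Fin 3, adj (KM (hes t (k : Fin 3 → ℂ)) (Nn n)) p.1 p.2 ≠ 0 := by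
  constructor
  · intro h k
    obtain ⟨i, j, hij⟩ := h _ (sph_ne k)
    exact ⟨(i, j), hij⟩
  · intro h y hy
    obtain ⟨c, k, hc, hk⟩ := exists_sph hy
    obtain ⟨p, hj⟩ := h k
    refine ⟨p.1, p.2, fun h0 => hj ?_⟩
    rw [funext hk, adjKM_smul, h0, mul_zero]

/-- functions for condition c4 -/
noncomputable def f4 (t : ℂ) (n : Fin 3 → Fin 3 → ℂ) (x y : Fin 3 → ℂ) : (Fin 3 × Fin 3) ⊕ Fin 3 → ℂ
  | Sum.inl p => adj (hes t x) p.1 p.2 + y p.1 * y p.2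
  | Sum.inr k => de t n x y k

theorem c4_iff (t : ℂ) (n : Fin 3 → Fin 3 → ℂ) :
    (∀ x y, x ≠ 0 → (∀ i j, adj (hes t x) i j + y i * y j = 0) → ∃ k, de t n x y k ≠ 0) ↔
    ∀ k : Sph 6, ∃ i, f4 t n (fx (k : Fin 6 → ℂ)) (fy (k : Fin 6 → ℂ)) i ≠ 0 := by
  constructor
  · intro h k
    by_contra hcon
    push Not at hcon
    have hD : ∀ i j, adj (hes t (fx (k : Fin 6 → ℂ))) i j + fy (k : Fin 6 → ℂ) i * fy (k : Fin 6 → ℂ) j = 0 :=
      fun i j => hcon (Sum.inl (i, j))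
    by_cases hx : fx (k : Fin 6 → ℂ) = 0
    · have hy : fy (k : Fin 6 → ℂ) = 0 := by
        funext i
        have := hD i i
        rw [hx] at this
        have h0 : adj (hes t (0 : Fin 3 → ℂ)) i i = 0 := by
          fin_cases i <;> simp [adj, hes, hv, sy]
        rw [h0, zero_add] at this
        exact mul_self_eq_zero.mp this
      have := (ne_zero_iff (k : Fin 6 → ℂ)).mp (sph_ne k)
      rw [hx, hy] at this
      simp at this
    · obtain ⟨j, hj⟩ := h _ _ hx hD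
      exact hj (hcon (Sum.inr j))
  · intro h x y hx hD
    by_contra hcon
    push Not at hcon
    have hv : (![x 0, x 1, x 2, y 0, y 1, y 2] : Fin 6 → ℂ) ≠ 0 := by
      rw [ne_zero_iff, (fxfy x y).1]; exact Or.inl hx
    obtain ⟨c, k, hc, hk⟩ := exists_sph hv
    obtain ⟨i, hi⟩ := h k
    have hk' : (k : Fin 6 → ℂ) = fun i => c * (![x 0, x 1, x 2, y 0, y 1, y 2] : Fin 6 → ℂ) i := funext hk
    rw [hk', fx_smul, fy_smul, (fxfy x y).1, (fxfy x y).2] at hi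
    apply hi
    rcases i with p | j
    · simp only [f4]
      rw [hes_smul, adj_smul]
      linear_combination c ^ 2 * hD p.1 p.2
    · simp only [f4]
      rw [de_smul, hcon j, mul_zero]

/-- functions for condition c5 -/
noncomputable def f5 (t : ℂ) (n : Fin 3 → Fin 3 → ℂ) (x y c : Fin 3 → ℂ) : Fin 3 ⊕ (Fin 3 ⊕ Fin 3) → ℂ
  | Sum.inl j => qT t n x y j
  | Sum.inr (Sum.inl i) => ∑ j, c j * qB t n x y (ev i) 0 j
  | Sum.inr (Sum.inr i) => ∑ j, c j * qB t n x y 0 (ev i) j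

theorem qB_lin (t : ℂ) (n : Fin 3 → Fin 3 → ℂ) (x y ξ η : Fin 3 → ℂ) (j : Fin 3) :
    qB t n x y ξ η j = ξ 0 * qB t n x y (ev 0) 0 j + ξ 1 * qB t n x y (ev 1) 0 j + ξ 2 * qB t n x y (ev 2) 0 j
      + (η 0 * qB t n x y 0 (ev 0) j + η 1 * qB t n x y 0 (ev 1) j + η 2 * qB t n x y 0 (ev 2) j) := by
  fin_cases j <;> simp [qB, qT, dl, ofd, adj, hes, hv, sy, ev] <;> ring

theorem qB_smul (t s : ℂ) (n : Fin 3 → Fin 3 → ℂ) (x y ξ η : Fin 3 → ℂ) (j : Fin 3) :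
    qB t n (fun i => s * x i) (fun i => s * y i) ξ η j = s * qB t n x y ξ η j := by
  fin_cases j <;> simp [qB, qT, dl, ofd, adj, hes, hv, sy] <;> ring

theorem c5_iff (t : ℂ) (n : Fin 3 → Fin 3 → ℂ) :
    (∀ x y, (x ≠ 0 ∨ y ≠ 0) → (∀ j, qT t n x y j = 0) → ∀ c : Fin 3 → ℂ,
      (∀ ξ η : Fin 3 → ℂ, ∑ j, c j * qB t n x y ξ η j = 0) → c = 0) ↔
    ∀ k : Sph 6 × Sph 3, ∃ i, f5 t n (fx (k.1 : Fin 6 → ℂ)) (fy (k.1 : Fin 6 → ℂ)) (k.2 : Fin 3 → ℂ) i ≠ 0 := by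
  constructor
  · intro h k
    by_contra hcon
    push Not at hcon
    apply sph_ne k.2
    apply h _ _ ((ne_zero_iff _).mp (sph_ne k.1)) (fun j => hcon (Sum.inl j))
    intro ξ η
    have e1 := fun i => hcon (Sum.inr (Sum.inl i))
    have e2 := fun i => hcon (Sum.inr (Sum.inr i))
    simp only [f5, Fin.sum_univ_three] at e1 e2
    simp only [Fin.sum_univ_three]
    rw [qB_lin _ _ _ _ ξ η 0, qB_lin _ _ _ _ ξ η 1, qB_lin _ _ _ _ ξ η 2]
    linear_combination ξ 0 * e1 0 + ξ 1 * e1 1 + ξ 2 * e1 2 + η 0 * e2 0 + η 1 * e2 1 + η 2 * e2 2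
  · intro h x y hxy hT c hc
    by_contra hc0
    have hv : (![x 0, x 1, x 2, y 0, y 1, y 2] : Fin 6 → ℂ) ≠ 0 := by
      rw [ne_zero_iff, (fxfy x y).1, (fxfy x y).2]; exact hxy
    obtain ⟨s, k, hs, hk⟩ := exists_sph hv
    obtain ⟨r, l, hr, hl⟩ := exists_sph hc0
    obtain ⟨i, hi⟩ := h (k, l)
    have hk' : (k : Fin 6 → ℂ) = fun i => s * (![x 0, x 1, x 2, y 0, y 1, y 2] : Fin 6 → ℂ) i := funext hk
    simp only at hi
    rw [hk', fx_smul, fy_smul, (fxfy x y).1, (fxfy x y).2, funext hl] at hi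
    apply hi
    rcases i with j | i | i
    · simp only [f5]
      rw [qT_smul, hT j, mul_zero]
    · simp only [f5, qB_smul]
      have := hc (ev i) 0
      simp only [Fin.sum_univ_three] at this ⊢
      linear_combination r * s * this
    · simp only [f5, qB_smul]
      have := hc 0 (ev i)
      simp only [Fin.sum_univ_three] at this ⊢
      linear_combination r * s * this

end Pool.Agent.ENR
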