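import Pool.Agent.ENR.Open2

/-! the set of good parameters is open -/

namespace Pool.Agent.ENR

open Matrix

theorem vgood_iff (t : ℂ) (n : Fin 3 → Fin 3 → ℂ) : VGood t n ↔ th t ≠ 0 ∧
    (∀ k : Sph 3, ∃ j, qT t n 0 (k : Fin 3 → ℂ) j ≠ 0) ∧
    (∀ k : Sph 3, ∃ j, qT t n (k : Fin 3 → ℂ) 0 j ≠ 0) ∧
    (∀ k : Sph 3, ∃ p : Fin 3 × Fin 3, adj (KM (hes t (k : Fin 3 → ℂ)) (Nn n)) p.1 p.2 ≠ 0) ∧
    (∀ k : Sph 6, ∃ i, f4 t n (fx (k : Fin 6 → ℂ)) (fy (k : Fin 6 → ℂ)) i ≠ 0) ∧
    (∀ k : Sph 6 × Sph 3, ∃ i, f5 t n (fx (k.1 : Fin 6 → ℂ)) (fy (k.1 : Fin 6 → ℂ)) (k.2 : Fin 3 → ℂ) i ≠ 0) := by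
  rw [← c2_iff, ← c6_iff, ← c3_iff, ← c4_iff, ← c5_iff]
  constructor
  · intro h; exact ⟨h.hth, h.c2, h.c6, h.c3, h.c4, h.c5⟩
  · rintro ⟨h1, h2, h3, h4, h5, h6⟩
    exact { hth := h1, c2 := h2, c6 := h3, c3 := h4, c4 := h5, c5 := h6 }

/-- parameter space -/
abbrev PS : Type := Par → ℂ

theorem cpar {K : Type*} [TopologicalSpace K] (p : Par) : Continuous fun q : PS × K => q.1 p :=
  (continuous_apply p).comp continuous_fst

theorem cfx {X : Type*} [TopologicalSpace X] {z : X → Fin 6 → ℂ} (hz : Continuous z) (i : Fin 3) :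
    Continuous fun q => fx (z q) i := by
  fin_cases i
  · exact (show Continuous fun q => z q 0 from (continuous_apply 0).comp hz)
  · exact (show Continuous fun q => z q 1 from (continuous_apply 1).comp hz)
  · exact (show Continuous fun q => z q 2 from (continuous_apply 2).comp hz)

theorem cfy {X : Type*} [TopologicalSpace X] {z : X → Fin 6 → ℂ} (hz : Continuous z) (i : Fin 3) :
    Continuous fun q => fy (z q) i := by
  fin_cases i
  · exact (show Continuous fun q => z q 3 from (continuous_apply 3).comp hz)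
  · exact (show Continuous fun q => z q 4 from (continuous_apply 4).comp hz)
  · exact (show Continuous fun q => z q 5 from (continuous_apply 5).comp hz)

theorem isOpen_vgood : IsOpen {a : PS | VGood (pt a) (pn a)} := by
  simp only [vgood_iff]
  have hs3 : Continuous fun q : PS × Sph 3 => (q.2 : Fin 3 → ℂ) := continuous_subtype_val.comp continuous_snd
  have hs6 : Continuous fun q : PS × Sph 6 => (q.2 : Fin 6 → ℂ) := continuous_subtype_val.comp continuous_snd
  have o1 : IsOpen {a : PS | th (pt a) ≠ 0} := by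
    have : Continuous fun a : PS => th (pt a) := by
      unfold th pt
      fun_prop
    exact isOpen_ne_fun this continuous_const
  have o2 : IsOpen {a : PS | ∀ k : Sph 3, ∃ j, qT (pt a) (pn a) 0 (k : Fin 3 → ℂ) j ≠ 0} :=
    isOpen_forall (X := PS) (K := Sph 3) (fun j q => qT (pt q.1) (pn q.1) 0 (q.2 : Fin 3 → ℂ) j)
      (fun j => cont_qT (T := fun q : PS × Sph 3 => pt q.1) (cpar _) (N := fun k j q => pn q.1 k j)
        (fun k j => cpar _) (x := fun _ _ => 0) (y := fun i q => (q.2 : Fin 3 → ℂ) i)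
        (fun i => continuous_const) (fun i => (continuous_apply i).comp hs3) j)
  have o3 : IsOpen {a : PS | ∀ k : Sph 3, ∃ j, qT (pt a) (pn a) (k : Fin 3 → ℂ) 0 j ≠ 0} :=
    isOpen_forall (X := PS) (K := Sph 3) (fun j q => qT (pt q.1) (pn q.1) (q.2 : Fin 3 → ℂ) 0 j)
      (fun j => cont_qT (T := fun q : PS × Sph 3 => pt q.1) (cpar _) (N := fun k j q => pn q.1 k j)
        (fun k j => cpar _) (x := fun i q => (q.2 : Fin 3 → ℂ) i) (y := fun _ _ => 0)
        (fun i => (continuous_apply i).comp hs3) (fun i => continuous_const) j)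
  have o4 : IsOpen {a : PS | ∀ k : Sph 3, ∃ p : Fin 3 × Fin 3,
      adj (KM (hes (pt a) (k : Fin 3 → ℂ)) (Nn (pn a))) p.1 p.2 ≠ 0} :=
    isOpen_forall (X := PS) (K := Sph 3) (ι := Fin 3 × Fin 3)
      (fun p q => adj (KM (hes (pt q.1) (q.2 : Fin 3 → ℂ)) (Nn (pn q.1))) p.1 p.2)
      (fun p => cont_adjKM (T := fun q : PS × Sph 3 => pt q.1) (cpar _) (N := fun k j q => pn q.1 k j)
        (fun k j => cpar _) (x := fun i q => (q.2 : Fin 3 → ℂ) i)
        (fun i => (continuous_apply i).comp hs3) p.1 p.2)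
  have o5 : IsOpen {a : PS | ∀ k : Sph 6, ∃ i, f4 (pt a) (pn a) (fx (k : Fin 6 → ℂ)) (fy (k : Fin 6 → ℂ)) i ≠ 0} :=
    isOpen_forall (X := PS) (K := Sph 6) (ι := (Fin 3 × Fin 3) ⊕ Fin 3)
      (fun i q => f4 (pt q.1) (pn q.1) (fx (q.2 : Fin 6 → ℂ)) (fy (q.2 : Fin 6 → ℂ)) i)
      (fun i => by
        rcases i with p | j
        · exact (cont_adjhes (T := fun q : PS × Sph 6 => pt q.1) (cpar _)
            (x := fun i q => fx (q.2 : Fin 6 → ℂ) i) (fun i => cfx hs6 i) p.1 p.2).add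
            ((cfy hs6 p.1).mul (cfy hs6 p.2))
        · exact cont_de (T := fun q : PS × Sph 6 => pt q.1) (cpar _) (N := fun k j q => pn q.1 k j)
            (fun k j => cpar _) (x := fun i q => fx (q.2 : Fin 6 → ℂ) i)
            (y := fun i q => fy (q.2 : Fin 6 → ℂ) i) (fun i => cfx hs6 i) (fun i => cfy hs6 i) j)
  have hsA : Continuous fun q : PS × (Sph 6 × Sph 3) => (q.2.1 : Fin 6 → ℂ) :=
    continuous_subtype_val.comp (continuous_fst.comp continuous_snd)
  have hsB : Continuous fun q : PS × (Sph 6 × Sph 3) => (q.2.2 : Fin 3 → ℂ) :=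
    continuous_subtype_val.comp (continuous_snd.comp continuous_snd)
  have o6 : IsOpen {a : PS | ∀ k : Sph 6 × Sph 3, ∃ i, f5 (pt a) (pn a) (fx (k.1 : Fin 6 → ℂ)) (fy (k.1 : Fin 6 → ℂ))
      (k.2 : Fin 3 → ℂ) i ≠ 0} :=
    isOpen_forall (X := PS) (K := Sph 6 × Sph 3) (ι := Fin 3 ⊕ (Fin 3 ⊕ Fin 3))
      (fun i q => f5 (pt q.1) (pn q.1) (fx (q.2.1 : Fin 6 → ℂ)) (fy (q.2.1 : Fin 6 → ℂ)) (q.2.2 : Fin 3 → ℂ) i)
      (fun i => by
        rcases i with j | i | i
        · exact cont_qT (T := fun q : PS × (Sph 6 × Sph 3) => pt q.1) (cpar _) (N := fun k j q => pn q.1 k j)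
            (fun k j => cpar _) (x := fun i q => fx (q.2.1 : Fin 6 → ℂ) i)
            (y := fun i q => fy (q.2.1 : Fin 6 → ℂ) i) (fun i => cfx hsA i) (fun i => cfy hsA i) j
        · refine continuous_finsetSum _ fun j _ => ((continuous_apply j).comp hsB).mul ?_
          exact cont_qB (T := fun q : PS × (Sph 6 × Sph 3) => pt q.1) (cpar _) (N := fun k j q => pn q.1 k j)
            (fun k j => cpar _) (x := fun i q => fx (q.2.1 : Fin 6 → ℂ) i)
            (y := fun i q => fy (q.2.1 : Fin 6 → ℂ) i) (fun i => cfx hsA i) (fun i => cfy hsA i) (ev i) 0 j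
        · refine continuous_finsetSum _ fun j _ => ((continuous_apply j).comp hsB).mul ?_
          exact cont_qB (T := fun q : PS × (Sph 6 × Sph 3) => pt q.1) (cpar _) (N := fun k j q => pn q.1 k j)
            (fun k j => cpar _) (x := fun i q => fx (q.2.1 : Fin 6 → ℂ) i)
            (y := fun i q => fy (q.2.1 : Fin 6 → ℂ) i) (fun i => cfx hsA i) (fun i => cfy hsA i) 0 (ev i) j)
  exact o1.inter (o2.inter (o3.inter (o4.inter (o5.inter o6))))

theorem eval_hom {P : MvPolynomial (Fin 6) ℂ} {d : ℕ} (h : P.IsHomogeneous d) (s : ℂ) (z : Fin 6 → ℂ) :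
    MvPolynomial.eval (fun b => s * z b) P = s ^ d * MvPolynomial.eval z P := by
  classical
  rw [MvPolynomial.eval_eq, MvPolynomial.eval_eq, Finset.mul_sum]
  refine Finset.sum_congr rfl fun m hm => ?_
  have hd : m.degree = d := by
    rw [Finsupp.degree_eq_weight_one]
    exact h (MvPolynomial.mem_support_iff.mp hm)
  have : ∏ i ∈ m.support, (s * z i) ^ m i = s ^ d * ∏ i ∈ m.support, z i ^ m i := by
    rw [← hd]
    simp only [mul_pow, Finset.prod_mul_distrib, Finset.prod_pow_eq_pow_sum]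
    rfl
  rw [this]
  ring

theorem gradF_smul (a : PS) (s : ℂ) (z : Fin 6 → ℂ) (i : Fin 6) :
    gradF a (fun b => s * z b) i = s ^ 2 * gradF a z i := by
  obtain ⟨F, hF0⟩ := exists_fam (pt a) (pn a) (pc a) (pg a)
  have hF : ∀ z, val F z = famP a z := by
    intro z
    unfold famP
    exact hF0 z
  rw [gradF_eq (F := F) hF, gradF_eq (F := F) hF]
  exact eval_hom ((form_hom F).pderiv (i := i)) s z

theorem isOpen_smooth : IsOpen {a : PS | ∀ z, z ≠ 0 → ∃ i, gradF a z i ≠ 0} := by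
  have hs6 : Continuous fun q : PS × Sph 6 => (q.2 : Fin 6 → ℂ) := continuous_subtype_val.comp continuous_snd
  have : {a : PS | ∀ z, z ≠ 0 → ∃ i, gradF a z i ≠ 0} = {a : PS | ∀ k : Sph 6, ∃ i, gradF a (k : Fin 6 → ℂ) i ≠ 0} := by
    ext a
    simp only [Set.mem_ofPred_eq]
    constructor
    · intro h k; exact h _ (sph_ne k)
    · intro h z hz
      obtain ⟨c, k, hc, hk⟩ := exists_sph hz
      obtain ⟨i, hi⟩ := h k
      refine ⟨i, fun h0 => hi ?_⟩
      rw [funext hk, gradF_smul a c z i, h0, mul_zero]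
  rw [this]
  exact isOpen_forall (X := PS) (K := Sph 6) (fun i q => gradF q.1 (q.2 : Fin 6 → ℂ) i)
    (fun i => cont_gradF (X := PS × Sph 6) (A := fun p q => q.1 p) (fun p => cpar p)
      (z := fun b q => (q.2 : Fin 6 → ℂ) b) (fun b => (continuous_apply b).comp hs6) i)

end Pool.Agent.ENR
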