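import Pool.Agent.ENR.Base5

/-! the polynomial map to the space of cubic forms; density -/

namespace Pool.Agent.ENR

open Matrix

theorem dens {ι : Type} [Fintype ι] {U : Set (ι → ℂ)} (hU : IsOpen U) (hne : U.Nonempty) {P : MvPolynomial ι ℂ}
    (h : ∀ a ∈ U, MvPolynomial.eval a P = 0) : P = 0 := by
  obtain ⟨a, ha⟩ := hne
  obtain ⟨ε, hε, hb⟩ := Metric.isOpen_iff.mp hU a ha
  apply MvPolynomial.funext_set (fun i => Metric.ball (a i) ε)
  · intro i
    exact infinite_of_mem_nhds (a i) (Metric.ball_mem_nhds _ hε)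
  · intro x hx
    rw [map_zero]
    apply h
    apply hb
    rw [ball_pi a hε]
    exact hx

theorem exists_Phi : ∃ Φ : Mon → MvPolynomial Par ℂ, ∀ (a : PS) (z : Fin 6 → ℂ),
    val (fun s => MvPolynomial.eval a (Φ s)) z = famP a z := by
  obtain ⟨r, pt', lam, h⟩ := coeff_values
  refine ⟨fun s => ∑ i, MvPolynomial.C (lam s i) *
    famP (fun p => MvPolynomial.X p) (fun b => MvPolynomial.C (pt' i b)), fun a z => ?_⟩
  obtain ⟨F, hF⟩ := exists_fam (pt a) (pn a) (pc a) (pg a)
  have : (fun s => MvPolynomial.eval a (∑ i, MvPolynomial.C (lam s i) *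
    famP (fun p => MvPolynomial.X p) (fun b => MvPolynomial.C (pt' i b)))) = F := by
    funext s
    rw [h F s, map_sum]
    refine Finset.sum_congr rfl fun i _ => ?_
    rw [map_mul, MvPolynomial.eval_C, map_famP]
    simp only [MvPolynomial.eval_X, MvPolynomial.eval_C]
    rw [hF]
    rfl
  rw [this, hF]
  rfl

/-- the polynomial map -/
noncomputable def Phi : Mon → MvPolynomial Par ℂ := exists_Phi.choose

/-- coefficient vector of the member of the family with parameter `a` -/
noncomputable def cf (a : PS) : Mon → ℂ := fun s => MvPolynomial.eval a (Phi s)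

theorem val_cf (a : PS) (z : Fin 6 → ℂ) : val (cf a) z = famP a z := exists_Phi.choose_spec a z

theorem eval_aeval (a : PS) (P : MvPolynomial Mon ℂ) :
    MvPolynomial.eval a (MvPolynomial.aeval Phi P) = MvPolynomial.eval (cf a) P := by
  induction P using MvPolynomial.induction_on with
  | C c => simp
  | add p q hp hq => rw [map_add, map_add, hp, hq, map_add]
  | mul_X p m hp => rw [map_mul, map_mul, hp, map_mul]; simp [cf]

theorem aeval_iff {U : Set PS} (hU : IsOpen U) (hne : U.Nonempty) (P : MvPolynomial Mon ℂ) :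
    MvPolynomial.aeval Phi P = 0 ↔ ∀ a ∈ U, MvPolynomial.eval (cf a) P = 0 := by
  constructor
  · intro h a _
    rw [← eval_aeval, h, map_zero]
  · intro h
    apply dens hU hne
    intro a ha
    rw [eval_aeval]
    exact h a ha

end Pool.Agent.ENR
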