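import Pool.Agent.ENR.Base5

/-! first order expansions at `t = -1`, `n = 0` -/

namespace Pool.Agent.ENR

open Matrix

section
variable {R : Type*} [CommRing R]

/-- the cubic `G_9` at `t = -1`, `n = 0` -/
def g0 (x y : Fin 3 → R) : R := 8 * x 0 ^ 2 * y 0 + 32 * x 0 * y 0 ^ 2 + 8 * x 0 * y 1 * y 2 + 8 * x 1 ^ 2 * y 1 + 8 * x 1 * y 0 * y 2 + 32 * x 1 * y 1 ^ 2 + 8 * x 2 ^ 2 * y 2 + 8 * x 2 * y 0 * y 1 + 32 * x 2 * y 2 ^ 2 + 24 * y 0 ^ 3 + 24 * y 0 * y 1 * y 2 + 24 * y 1 ^ 3 + 24 * y 2 ^ 3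

/-- parameter with one non-zero entry -/
def nE (k j : Fin 3) (e : R) : Fin 3 → Fin 3 → R := fun a b => if a = k ∧ b = j then e else 0

theorem G9_t (e : R) (x y : Fin 3 → R) : G9 (-1 + e) (fun _ _ => 0) x y = g0 x y + e * (-32 * x 0 ^ 2 * y 0 - 96 * x 0 * y 0 ^ 2 - 32 * x 0 * y 1 * y 2 - 32 * x 1 ^ 2 * y 1 - 32 * x 1 * y 0 * y 2 - 96 * x 1 * y 1 ^ 2 - 32 * x 2 ^ 2 * y 2 - 32 * x 2 * y 0 * y 1 - 96 * x 2 * y 2 ^ 2 - 48 * y 0 ^ 3 - 144 * y 0 * y 1 * y 2 - 48 * y 1 ^ 3 - 48 * y 2 ^ 3)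
    + e ^ 2 * (8 * x 0 ^ 2 * y 0 * e ^ 2 - 32 * x 0 ^ 2 * y 0 * e + 48 * x 0 ^ 2 * y 0 - 32 * x 0 * y 0 ^ 2 * e + 96 * x 0 * y 0 ^ 2 + 8 * x 0 * y 1 * y 2 * e ^ 2 - 32 * x 0 * y 1 * y 2 * e + 48 * x 0 * y 1 * y 2 + 8 * x 1 ^ 2 * y 1 * e ^ 2 - 32 * x 1 ^ 2 * y 1 * e + 48 * x 1 ^ 2 * y 1 + 8 * x 1 * y 0 * y 2 * e ^ 2 - 32 * x 1 * y 0 * y 2 * e + 48 * x 1 * y 0 * y 2 - 32 * x 1 * y 1 ^ 2 * e + 96 * x 1 * y 1 ^ 2 + 8 * x 2 ^ 2 * y 2 * e ^ 2 - 32 * x 2 ^ 2 * y 2 * e + 48 * x 2 ^ 2 * y 2 + 8 * x 2 * y 0 * y 1 * e ^ 2 - 32 * x 2 * y 0 * y 1 * e + 48 * x 2 * y 0 * y 1 - 32 * x 2 * y 2 ^ 2 * e + 96 * x 2 * y 2 ^ 2 + 24 * y 0 ^ 3 - 48 * y 0 * y 1 * y 2 * e + 144 * y 0 * y 1 * y 2 + 24 * y 1 ^ 3 + 24 * y 2 ^ 3) := by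
  simp [g0, G9, J3P, J3, jt, tr3, mm, crs, pp, Qm, net, ofd, de, dlt', krN, axv, hes, hv, sy, Nn, gv, ev, th, dt, kc, Fin.sum_univ_three]
  ring

theorem G9_n00 (e : R) (x y : Fin 3 → R) : G9 (-1) (nE 0 0 e) x y = g0 x y + e * (24 * x 0 ^ 2 * y 0 + 40 * x 0 * y 0 ^ 2 + 16 * x 0 * y 1 * y 2 - 8 * x 1 ^ 2 * y 1 + 16 * x 1 * x 2 * y 0 + 16 * x 1 * y 0 * y 2 - 8 * x 1 * y 1 ^ 2 - 8 * x 2 ^ 2 * y 2 + 16 * x 2 * y 0 * y 1 - 8 * x 2 * y 2 ^ 2)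
    + e ^ 2 * (16 * x 0 ^ 2 * y 0 - 16 * x 1 * x 2 * y 0) := by
  simp [g0, nE, G9, J3P, J3, jt, tr3, mm, crs, pp, Qm, net, ofd, de, dlt', krN, axv, hes, hv, sy, Nn, gv, ev, th, dt, kc, Fin.sum_univ_three]
  ring

theorem G9_n01 (e : R) (x y : Fin 3 → R) : G9 (-1) (nE 0 1 e) x y = g0 x y + e * (-16 * x 0 * x 1 * y 0 + 8 * x 0 * x 2 * y 2 - 24 * x 0 * y 0 * y 1 + 24 * x 0 * y 2 ^ 2 - 8 * x 1 * x 2 * y 1 - 24 * x 1 * y 0 ^ 2 + 24 * x 1 * y 1 * y 2 - 8 * x 2 ^ 2 * y 0 - 24 * x 2 * y 0 * y 2 - 24 * x 2 * y 1 ^ 2)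
    + e ^ 2 * (0) := by
  simp [g0, nE, G9, J3P, J3, jt, tr3, mm, crs, pp, Qm, net, ofd, de, dlt', krN, axv, hes, hv, sy, Nn, gv, ev, th, dt, kc, Fin.sum_univ_three]
  ring

theorem G9_n02 (e : R) (x y : Fin 3 → R) : G9 (-1) (nE 0 2 e) x y = g0 x y + e * (8 * x 0 * x 1 * y 1 - 16 * x 0 * x 2 * y 0 - 24 * x 0 * y 0 * y 2 + 24 * x 0 * y 1 ^ 2 - 8 * x 1 ^ 2 * y 0 - 8 * x 1 * x 2 * y 2 - 24 * x 1 * y 0 * y 1 - 24 * x 1 * y 2 ^ 2 - 24 * x 2 * y 0 ^ 2 + 24 * x 2 * y 1 * y 2)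
    + e ^ 2 * (0) := by
  simp [g0, nE, G9, J3P, J3, jt, tr3, mm, crs, pp, Qm, net, ofd, de, dlt', krN, axv, hes, hv, sy, Nn, gv, ev, th, dt, kc, Fin.sum_univ_three]
  ring

theorem G9_n10 (e : R) (x y : Fin 3 → R) : G9 (-1) (nE 1 0 e) x y = g0 x y + e * (-16 * x 0 * x 1 * y 1 - 8 * x 0 * x 2 * y 0 + 24 * x 0 * y 0 * y 2 - 24 * x 0 * y 1 ^ 2 + 8 * x 1 * x 2 * y 2 - 24 * x 1 * y 0 * y 1 + 24 * x 1 * y 2 ^ 2 - 8 * x 2 ^ 2 * y 1 - 24 * x 2 * y 0 ^ 2 - 24 * x 2 * y 1 * y 2)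
    + e ^ 2 * (0) := by
  simp [g0, nE, G9, J3P, J3, jt, tr3, mm, crs, pp, Qm, net, ofd, de, dlt', krN, axv, hes, hv, sy, Nn, gv, ev, th, dt, kc, Fin.sum_univ_three]
  ring

theorem G9_n11 (e : R) (x y : Fin 3 → R) : G9 (-1) (nE 1 1 e) x y = g0 x y + e * (-8 * x 0 ^ 2 * y 0 + 16 * x 0 * x 2 * y 1 - 8 * x 0 * y 0 ^ 2 + 16 * x 0 * y 1 * y 2 + 24 * x 1 ^ 2 * y 1 + 16 * x 1 * y 0 * y 2 + 40 * x 1 * y 1 ^ 2 - 8 * x 2 ^ 2 * y 2 + 16 * x 2 * y 0 * y 1 - 8 * x 2 * y 2 ^ 2)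
    + e ^ 2 * (-16 * x 0 * x 2 * y 1 + 16 * x 1 ^ 2 * y 1) := by
  simp [g0, nE, G9, J3P, J3, jt, tr3, mm, crs, pp, Qm, net, ofd, de, dlt', krN, axv, hes, hv, sy, Nn, gv, ev, th, dt, kc, Fin.sum_univ_three]
  ring

theorem G9_n12 (e : R) (x y : Fin 3 → R) : G9 (-1) (nE 1 2 e) x y = g0 x y + e * (-8 * x 0 ^ 2 * y 1 + 8 * x 0 * x 1 * y 0 - 8 * x 0 * x 2 * y 2 - 24 * x 0 * y 0 * y 1 - 24 * x 0 * y 2 ^ 2 - 16 * x 1 * x 2 * y 1 + 24 * x 1 * y 0 ^ 2 - 24 * x 1 * y 1 * y 2 + 24 * x 2 * y 0 * y 2 - 24 * x 2 * y 1 ^ 2)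
    + e ^ 2 * (0) := by
  simp [g0, nE, G9, J3P, J3, jt, tr3, mm, crs, pp, Qm, net, ofd, de, dlt', krN, axv, hes, hv, sy, Nn, gv, ev, th, dt, kc, Fin.sum_univ_three]
  ring

theorem G9_n20 (e : R) (x y : Fin 3 → R) : G9 (-1) (nE 2 0 e) x y = g0 x y + e * (-8 * x 0 * x 1 * y 0 - 16 * x 0 * x 2 * y 2 + 24 * x 0 * y 0 * y 1 - 24 * x 0 * y 2 ^ 2 - 8 * x 1 ^ 2 * y 2 + 8 * x 1 * x 2 * y 1 - 24 * x 1 * y 0 ^ 2 - 24 * x 1 * y 1 * y 2 - 24 * x 2 * y 0 * y 2 + 24 * x 2 * y 1 ^ 2)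
    + e ^ 2 * (0) := by
  simp [g0, nE, G9, J3P, J3, jt, tr3, mm, crs, pp, Qm, net, ofd, de, dlt', krN, axv, hes, hv, sy, Nn, gv, ev, th, dt, kc, Fin.sum_univ_three]
  ring

theorem G9_n21 (e : R) (x y : Fin 3 → R) : G9 (-1) (nE 2 1 e) x y = g0 x y + e * (-8 * x 0 ^ 2 * y 2 - 8 * x 0 * x 1 * y 1 + 8 * x 0 * x 2 * y 0 - 24 * x 0 * y 0 * y 2 - 24 * x 0 * y 1 ^ 2 - 16 * x 1 * x 2 * y 2 + 24 * x 1 * y 0 * y 1 - 24 * x 1 * y 2 ^ 2 + 24 * x 2 * y 0 ^ 2 - 24 * x 2 * y 1 * y 2)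
    + e ^ 2 * (0) := by
  simp [g0, nE, G9, J3P, J3, jt, tr3, mm, crs, pp, Qm, net, ofd, de, dlt', krN, axv, hes, hv, sy, Nn, gv, ev, th, dt, kc, Fin.sum_univ_three]
  ring

theorem G9_n22 (e : R) (x y : Fin 3 → R) : G9 (-1) (nE 2 2 e) x y = g0 x y + e * (-8 * x 0 ^ 2 * y 0 + 16 * x 0 * x 1 * y 2 - 8 * x 0 * y 0 ^ 2 + 16 * x 0 * y 1 * y 2 - 8 * x 1 ^ 2 * y 1 + 16 * x 1 * y 0 * y 2 - 8 * x 1 * y 1 ^ 2 + 24 * x 2 ^ 2 * y 2 + 16 * x 2 * y 0 * y 1 + 40 * x 2 * y 2 ^ 2)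
    + e ^ 2 * (-16 * x 0 * x 1 * y 2 + 16 * x 2 ^ 2 * y 2) := by
  simp [g0, nE, G9, J3P, J3, jt, tr3, mm, crs, pp, Qm, net, ofd, de, dlt', krN, axv, hes, hv, sy, Nn, gv, ev, th, dt, kc, Fin.sum_univ_three]
  ring

end

end Pool.Agent.ENR
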