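import Pool.Agent.ENR.Rank1
import Pool.Agent.ENR.Phi

/-! directional derivatives of the family at the special parameter -/

namespace Pool.Agent.ENR

open Matrix

section
variable {R : Type*} [CommRing R]

/-- the ten cubics at `t = -1`, `n = 0` -/
def gn (x y : Fin 3 → R) : Fin 10 → R := ![-x 0 * y 0 * y 1 + x 1 * x 2 * y 1 + x 1 * y 1 * y 2 + x 2 * y 1 ^ 2,
  -x 0 * y 0 * y 2 + x 1 * x 2 * y 2 + x 1 * y 2 ^ 2 + x 2 * y 1 * y 2,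
  x 0 * x 2 * y 0 + x 0 * y 0 * y 2 - x 1 * y 0 * y 1 + x 2 * y 0 ^ 2,
  x 0 * x 2 * y 2 + x 0 * y 2 ^ 2 - x 1 * y 1 * y 2 + x 2 * y 0 * y 2,
  x 0 * x 1 * y 0 + x 0 * y 0 * y 1 + x 1 * y 0 ^ 2 - x 2 * y 0 * y 2,
  x 0 * x 1 * y 1 + x 0 * y 1 ^ 2 + x 1 * y 0 * y 1 - x 2 * y 1 * y 2,
  -x 0 ^ 2 * y 0 - x 0 * y 0 ^ 2 - x 0 * y 1 * y 2 + x 1 ^ 2 * y 1 + x 1 * y 0 * y 2 + x 1 * y 1 ^ 2,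
  -x 1 ^ 2 * y 1 - x 1 * y 0 * y 2 - x 1 * y 1 ^ 2 + x 2 ^ 2 * y 2 + x 2 * y 0 * y 1 + x 2 * y 2 ^ 2,
  8 * x 0 ^ 2 * y 0 + 32 * x 0 * y 0 ^ 2 + 8 * x 0 * y 1 * y 2 + 8 * x 1 ^ 2 * y 1 + 8 * x 1 * y 0 * y 2 + 32 * x 1 * y 1 ^ 2 + 8 * x 2 ^ 2 * y 2 + 8 * x 2 * y 0 * y 1 + 32 * x 2 * y 2 ^ 2 + 24 * y 0 ^ 3 + 24 * y 0 * y 1 * y 2 + 24 * y 1 ^ 3 + 24 * y 2 ^ 3,
  2 * x 0 ^ 2 * y 0 - 6 * x 0 * x 1 * x 2 - 6 * x 0 * x 1 * y 2 - 6 * x 0 * x 2 * y 1 + 2 * x 0 * y 0 ^ 2 - 4 * x 0 * y 1 * y 2 + 2 * x 1 ^ 2 * y 1 - 6 * x 1 * x 2 * y 0 - 4 * x 1 * y 0 * y 2 + 2 * x 1 * y 1 ^ 2 + 2 * x 2 ^ 2 * y 2 - 4 * x 2 * y 0 * y 1 + 2 * x 2 * y 2 ^ 2]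

theorem Gf_n0 (x y : Fin 3 → R) (j : Fin 10) : Gf (-1) (fun _ _ => 0) x y j = gn x y j := by
  unfold Gf gn
  fin_cases j <;>
  simp [Zm, G9, G10, det3, adj, KM, mv, J3P, J3, jt, tr3, mm, crs, pp, Qm, net, ofd, de, dlt', krN, axv, hes, hv, sy, Nn, gv, ev, th, dt, kc, Fin.sum_univ_three] <;>
  ring

end

end Pool.Agent.ENR
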