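import Pool.Agent.ENR.Rank2

/-! tangent vectors of the family at the special parameter -/

namespace Pool.Agent.ENR

open Matrix

/-- the special parameter -/
noncomputable def a1 : PS := Sum.elim (fun _ => -1) (Sum.elim (fun _ => 0) (Sum.elim (Pi.single 8 1)
    (fun p => (1 : Matrix (Fin 6) (Fin 6) ℂ) p.1 p.2)))

/-- epsilon -/
noncomputable def ep : DN ℂ := TrivSqZeroExt.inr 1

theorem ep_sq : ep * ep = 0 := by
  unfold ep; rw [TrivSqZeroExt.inr_mul_inr]

theorem ep_snd (A B : ℂ) : (ic ℂ A + ep * ic ℂ B).snd = B := by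
  unfold ep
  rw [TrivSqZeroExt.snd_add, snd_mul', ic_snd, ic_fst]
  simp

/-- first order deformation of the parameter in direction `p` -/
noncomputable def dA (a : PS) (p q : Par) : DN ℂ := ic ℂ (a q) + (if q = p then ep else 0)

theorem dual_pderiv (a : PS) (p : Par) (Q : MvPolynomial Par ℂ) :
    (MvPolynomial.eval₂Hom (ic ℂ) (dA a p) Q).fst = MvPolynomial.eval a Q ∧
    (MvPolynomial.eval₂Hom (ic ℂ) (dA a p) Q).snd = MvPolynomial.eval a (MvPolynomial.pderiv p Q) := by
  induction Q using MvPolynomial.induction_on with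
  | C c => simp
  | add P Q hP hQ =>
    rw [map_add, TrivSqZeroExt.fst_add, TrivSqZeroExt.snd_add, hP.1, hP.2, hQ.1, hQ.2]
    simp
  | mul_X P m hP =>
    rw [map_mul, TrivSqZeroExt.fst_mul, snd_mul', hP.1, hP.2, MvPolynomial.coe_eval₂Hom, MvPolynomial.eval₂_X]
    have h1 : (dA a p m).fst = a m := by
      unfold dA ep
      split_ifs <;> simp
    have h2 : (dA a p m).snd = if m = p then 1 else 0 := by
      unfold dA ep
      split_ifs <;> simp
    rw [h1, h2, MvPolynomial.pderiv_mul, MvPolynomial.pderiv_X]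
    constructor
    · simp
    · by_cases h : m = p
      · subst h; simp; ring
      · rw [if_neg h, Pi.single_eq_of_ne h]; simp; ring

theorem sum_Phi (z : Fin 6 → ℂ) : ∑ s : Mon, Phi s * MvPolynomial.C ((s : Multiset (Fin 6)).map z).prod
    = famP (fun p => (MvPolynomial.X p : MvPolynomial Par ℂ)) (fun b => MvPolynomial.C (z b)) := by
  apply MvPolynomial.funext
  intro a
  rw [map_famP, map_sum]
  simp only [MvPolynomial.eval_X, MvPolynomial.eval_C, map_mul]
  have := val_cf a z
  rw [val_eq] at this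
  exact this

/-- tangent vector -/
noncomputable def Tp (a : PS) (p : Par) : Mon → ℂ := fun s => MvPolynomial.eval a (MvPolynomial.pderiv p (Phi s))

theorem val_Tp (a : PS) (p : Par) (z : Fin 6 → ℂ) {A B : ℂ}
    (h : famP (dA a p) (fun b => ic ℂ (z b)) = ic ℂ A + ep * ic ℂ B) : val (Tp a p) z = B := by
  have h1 : val (Tp a p) z = MvPolynomial.eval a (MvPolynomial.pderiv p
      (∑ s : Mon, Phi s * MvPolynomial.C ((s : Multiset (Fin 6)).map z).prod)) := by
    rw [val_eq, map_sum, map_sum]
    refine Finset.sum_congr rfl fun s _ => ?_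
    rw [MvPolynomial.pderiv_mul, MvPolynomial.pderiv_C, mul_zero, add_zero, map_mul, MvPolynomial.eval_C]
    rfl
  rw [h1, sum_Phi, ← (dual_pderiv a p _).2, map_famP]
  simp only [MvPolynomial.coe_eval₂Hom, MvPolynomial.eval₂_X, MvPolynomial.eval₂_C]
  rw [h, ep_snd]

end Pool.Agent.ENR
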