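import Pool.Agent.ENR.Rank3

/-! tangent vectors as explicit lists of monomials -/

namespace Pool.Agent.ENR

open Matrix

/-- cubic forms as lists of monomials -/
abbrev LL := List (ℤ × Fin 6 × Fin 6 × Fin 6)

/-- value of a list of monomials -/
def evL {R : Type*} [CommRing R] (L : LL) (z : Fin 6 → R) : R :=
  (L.map fun q => (q.1 : R) * (z q.2.1 * z q.2.2.1 * z q.2.2.2)).sum

theorem map_evL {R S : Type*} [CommRing R] [CommRing S] (f : R →+* S) (L : LL) (z : Fin 6 → R) :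
    f (evL L z) = evL L (fun i => f (z i)) := by
  unfold evL
  rw [map_list_sum, List.map_map]
  congr 2
  funext q
  simp

/-- monomials -/
def mo (i j k : Fin 6) : Mon := ⟨i ::ₘ j ::ₘ {k}, rfl⟩

/-- pairing of a list with a functional -/
noncomputable def prL (L : LL) (l : Mon → ℂ) : ℂ := (L.map fun q => (q.1 : ℂ) * l (mo q.2.1 q.2.2.1 q.2.2.2)).sum

theorem val_single (i j k : Fin 6) (z : Fin 6 → ℂ) : val (Pi.single (mo i j k) 1) z = z i * z j * z k := by
  classical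
  rw [val_eq, Finset.sum_eq_single (mo i j k)]
  · simp [mo]
    ring
  · intro b _ hb
    rw [Pi.single_eq_of_ne hb, zero_mul]
  · intro h; exact absurd (Finset.mem_univ _) h

/-- pairing with a functional -/
noncomputable def pairS (l T : Mon → ℂ) : ℂ := ∑ s, l s * T s

theorem pairS_add (l T T' : Mon → ℂ) : pairS l (T + T') = pairS l T + pairS l T' := by
  unfold pairS
  simp only [Pi.add_apply, mul_add, Finset.sum_add_distrib]

theorem pairS_smul (c : ℂ) (l T : Mon → ℂ) : pairS l (c • T) = c * pairS l T := by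
  unfold pairS
  simp only [Pi.smul_apply, smul_eq_mul, Finset.mul_sum]
  exact Finset.sum_congr rfl fun s _ => by ring

theorem pairS_zero (l : Mon → ℂ) : pairS l 0 = 0 := by
  unfold pairS
  simp only [Pi.zero_apply, mul_zero, Finset.sum_const_zero]

theorem pairS_single (l : Mon → ℂ) (m : Mon) : pairS l (Pi.single m 1) = l m := by
  unfold pairS
  have : ∀ s, l s * (Pi.single m 1 : Mon → ℂ) s = if s = m then l s else 0 := by
    intro s
    rw [Pi.single_apply]
    split_ifs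
    · rw [mul_one]
    · rw [mul_zero]
  rw [Finset.sum_congr rfl (fun s _ => this s)]
  rw [Finset.sum_ite_eq' Finset.univ m l]
  rw [if_pos (Finset.mem_univ m)]

/-- the form of a list -/
noncomputable def ofL : LL → Mon → ℂ
  | [] => 0
  | q :: L => (q.1 : ℂ) • Pi.single (mo q.2.1 q.2.2.1 q.2.2.2) 1 + ofL L

theorem val_ofL (L : LL) (z : Fin 6 → ℂ) : val (ofL L) z = evL L z := by
  induction L with
  | nil => rw [ofL, val_zero]; simp [evL]
  | cons q L ih =>
    rw [ofL, val_add, val_smul, val_single, ih]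
    simp [evL]

theorem pairS_ofL (L : LL) (l : Mon → ℂ) : pairS l (ofL L) = prL L l := by
  induction L with
  | nil => rw [ofL, pairS_zero]; simp [prL]
  | cons q L ih =>
    rw [ofL, pairS_add, pairS_smul, pairS_single, ih]
    simp [prL]

theorem prL_of (l T : Mon → ℂ) (L : LL) (h : ∀ z, val T z = evL L z) : pairS l T = prL L l := by
  have hT : T = ofL L := by
    apply val_inj
    intro z
    rw [h, val_ofL]
  rw [hT, pairS_ofL]

section
variable {R : Type*} [CommRing R]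

/-- list of `g0` -/
def L0 : LL := [(8, 0, 0, 3), (32, 0, 3, 3), (8, 0, 4, 5), (8, 1, 1, 4), (8, 1, 3, 5), (32, 1, 4, 4), (8, 2, 2, 5), (8, 2, 3, 4), (32, 2, 5, 5), (24, 3, 3, 3), (24, 3, 4, 5), (24, 4, 4, 4), (24, 5, 5, 5)]

theorem g0_L (z : Fin 6 → R) : g0 (fx z) (fy z) = evL L0 z := by
  simp [g0, evL, L0, fx, fy]
  ring

/-- the partial derivatives of `g0` -/
def dg0 (z : Fin 6 → R) : Fin 6 → R := ![16 * z 0 * z 3 + 32 * z 3 ^ 2 + 8 * z 4 * z 5,
  16 * z 1 * z 4 + 8 * z 3 * z 5 + 32 * z 4 ^ 2,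
  16 * z 2 * z 5 + 8 * z 3 * z 4 + 32 * z 5 ^ 2,
  8 * z 0 ^ 2 + 64 * z 0 * z 3 + 8 * z 1 * z 5 + 8 * z 2 * z 4 + 72 * z 3 ^ 2 + 24 * z 4 * z 5,
  8 * z 0 * z 5 + 8 * z 1 ^ 2 + 64 * z 1 * z 4 + 8 * z 2 * z 3 + 24 * z 3 * z 5 + 72 * z 4 ^ 2,
  8 * z 0 * z 4 + 8 * z 1 * z 3 + 8 * z 2 ^ 2 + 64 * z 2 * z 5 + 24 * z 3 * z 4 + 72 * z 5 ^ 2]

theorem g0_dir (i : Fin 6) (e w : R) (he : e * e = 0) (z : Fin 6 → R) :
    evL L0 (fun b => z b + if b = i then e * w else 0) = evL L0 z + e * (w * dg0 z i) := by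
  fin_cases i
  · simp [evL, L0, dg0]; linear_combination (8 * z 3 * w ^ 2) * he
  · simp [evL, L0, dg0]; linear_combination (8 * z 4 * w ^ 2) * he
  · simp [evL, L0, dg0]; linear_combination (8 * z 5 * w ^ 2) * he
  · simp [evL, L0, dg0]; linear_combination (32 * z 0 * w ^ 2 + 72 * z 3 * w ^ 2 + 24 * e * w ^ 3) * he
  · simp [evL, L0, dg0]; linear_combination (32 * z 1 * w ^ 2 + 72 * z 4 * w ^ 2 + 24 * e * w ^ 3) * he
  · simp [evL, L0, dg0]; linear_combination (32 * z 2 * w ^ 2 + 72 * z 5 * w ^ 2 + 24 * e * w ^ 3) * he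

end

end Pool.Agent.ENR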