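import Pool.Agent.ENR.Rank4

/-! tangent vectors of the family at the special parameter: the general formulas -/

namespace Pool.Agent.ENR

open Matrix

theorem famP_form {R : Type*} [CommRing R] {A : Par → R} {t : R} {n : Fin 3 → Fin 3 → R} {c : Fin 10 → R}
    {g : Matrix (Fin 6) (Fin 6) R} (ht : pt A = t) (hn : pn A = n) (hc : pc A = c) (hg : pg A = g) (w : Fin 6 → R) :
    famP A w = fam t n c g w := by
  subst ht; subst hn; subst hc; subst hg; rfl

/-- the constant zero parameter -/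
abbrev n00 (R : Type*) [CommRing R] : Fin 3 → Fin 3 → R := fun _ _ => 0

theorem fam_e8 {R : Type*} [CommRing R] (t : R) (n : Fin 3 → Fin 3 → R) (g : Matrix (Fin 6) (Fin 6) R) (w : Fin 6 → R)
    {c : Fin 10 → R} (hc : ∀ j, c j = if j = 8 then 1 else 0) :
    fam t n c g w = Gz t n (g.mulVec w) 8 := by
  unfold fam
  rw [Finset.sum_eq_single (8 : Fin 10)]
  · rw [hc, if_pos rfl, one_mul]
  · intro b _ hb; rw [hc, if_neg hb, zero_mul]
  · intro h; exact absurd (Finset.mem_univ (8 : Fin 10)) h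

theorem a1_t : a1 (Sum.inl ()) = -1 := rfl
theorem a1_n (p : Fin 3 × Fin 3) : a1 (Sum.inr (Sum.inl p)) = 0 := rfl
theorem a1_c (j : Fin 10) : a1 (Sum.inr (Sum.inr (Sum.inl j))) = if j = 8 then 1 else 0 := by
  show (Pi.single 8 1 : Fin 10 → ℂ) j = _
  rw [Pi.single_apply]
theorem a1_g (p : Fin 6 × Fin 6) : a1 (Sum.inr (Sum.inr (Sum.inr p))) = if p.1 = p.2 then 1 else 0 := by
  show (1 : Matrix (Fin 6) (Fin 6) ℂ) p.1 p.2 = _
  rw [Matrix.one_apply]

theorem ic_ite (p : Prop) [Decidable p] : ic ℂ (if p then 1 else 0) = if p then 1 else 0 := by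
  split_ifs
  · exact map_one _
  · exact map_zero _

theorem ic_neg_one : ic ℂ (-1) = -1 := by rw [map_neg, map_one]

/-- parameters of the deformation, when `p` is not of the given kind -/
theorem dt_ne {p : Par} (h : Sum.inl () ≠ p) : pt (dA a1 p) = -1 := by
  show dA a1 p (Sum.inl ()) = -1
  unfold dA
  rw [a1_t, if_neg h, ic_neg_one, add_zero]

theorem dn_ne {p : Par} (h : ∀ q, Sum.inr (Sum.inl q) ≠ p) : pn (dA a1 p) = n00 (DN ℂ) := by
  funext k j
  show dA a1 p (Sum.inr (Sum.inl (k, j))) = 0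
  unfold dA
  rw [a1_n, if_neg (h _), map_zero, add_zero]

theorem dc_ne {p : Par} (h : ∀ q, Sum.inr (Sum.inr (Sum.inl q)) ≠ p) (j : Fin 10) :
    pc (dA a1 p) j = if j = 8 then 1 else 0 := by
  show dA a1 p (Sum.inr (Sum.inr (Sum.inl j))) = _
  unfold dA
  rw [a1_c, if_neg (h _), ic_ite, add_zero]

theorem dg_ne {p : Par} (h : ∀ q, Sum.inr (Sum.inr (Sum.inr q)) ≠ p) : pg (dA a1 p) = 1 := by
  ext1 i j
  show dA a1 p (Sum.inr (Sum.inr (Sum.inr (i, j)))) = _
  unfold dA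
  rw [a1_g, if_neg (h _), ic_ite, add_zero, Matrix.one_apply]

theorem Gz_ic (z : Fin 6 → ℂ) (j : Fin 10) : Gz (-1) (n00 (DN ℂ)) (fun b => ic ℂ (z b)) j
    = ic ℂ (gn (fx z) (fy z) j) := by
  have h := map_Gz (ic ℂ) (-1) (fun _ _ => 0) z j
  rw [ic_neg_one] at h
  simp only [map_zero] at h
  rw [← h]
  congr 1
  unfold Gz
  exact Gf_n0 _ _ _

theorem gn8 {R : Type*} [CommRing R] (x y : Fin 3 → R) : gn x y 8 = g0 x y := rfl

theorem fx_ic (z : Fin 6 → ℂ) : fx (fun b => ic ℂ (z b)) = fun i => ic ℂ (fx z i) := (map_fx (ic ℂ) z).symm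
theorem fy_ic (z : Fin 6 → ℂ) : fy (fun b => ic ℂ (z b)) = fun i => ic ℂ (fy z i) := (map_fy (ic ℂ) z).symm

theorem Tp_c (j : Fin 10) (z : Fin 6 → ℂ) :
    val (Tp a1 (Sum.inr (Sum.inr (Sum.inl j)))) z = gn (fx z) (fy z) j := by
  apply val_Tp (A := gn (fx z) (fy z) 8)
  rw [famP_form (dt_ne (by simp)) (dn_ne (by simp)) rfl (dg_ne (by simp))]
  unfold fam
  rw [Matrix.one_mulVec]
  simp only [Gz_ic]
  have : ∀ i, pc (dA a1 (Sum.inr (Sum.inr (Sum.inl j)))) i * ic ℂ (gn (fx z) (fy z) i)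
      = (if i = 8 then ic ℂ (gn (fx z) (fy z) i) else 0) + (if i = j then ep * ic ℂ (gn (fx z) (fy z) i) else 0) := by
    intro i
    show dA a1 _ (Sum.inr (Sum.inr (Sum.inl i))) * _ = _
    unfold dA
    rw [a1_c, ic_ite, add_mul]
    congr 1
    · split_ifs
      · rw [one_mul]
      · rw [zero_mul]
    · by_cases h : i = j
      · rw [if_pos h, if_pos (by rw [h])]
      · rw [if_neg h, if_neg (by simpa using h), zero_mul]
  rw [Finset.sum_congr rfl (fun i _ => this i), Finset.sum_add_distrib, Finset.sum_ite_eq', Finset.sum_ite_eq',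
    if_pos (Finset.mem_univ (8 : Fin 10)), if_pos (Finset.mem_univ j)]

theorem map_dg0' {R S : Type*} [CommRing R] [CommRing S] (f : R →+* S) (z : Fin 6 → R) (i : Fin 6) :
    f (dg0 z i) = dg0 (fun b => f (z b)) i := by
  unfold dg0
  fin_cases i <;> simp [map_ofNat f]

theorem map_dg0 (z : Fin 6 → ℂ) (i : Fin 6) : dg0 (fun b => ic ℂ (z b)) i = ic ℂ (dg0 z i) :=
  (map_dg0' (ic ℂ) z i).symm

theorem Tp_g (i k : Fin 6) (z : Fin 6 → ℂ) :
    val (Tp a1 (Sum.inr (Sum.inr (Sum.inr (i, k))))) z = z k * dg0 z i := by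
  apply val_Tp (A := g0 (fx z) (fy z))
  rw [famP_form (dt_ne (by simp)) (dn_ne (by simp)) rfl rfl, fam_e8 _ _ _ _ (dc_ne (by simp))]
  have hv : (pg (dA a1 (Sum.inr (Sum.inr (Sum.inr (i, k)))))).mulVec (fun b => ic ℂ (z b))
      = fun b => ic ℂ (z b) + if b = i then ep * ic ℂ (z k) else 0 := by
    funext b
    show ∑ m, dA a1 (Sum.inr (Sum.inr (Sum.inr (i, k)))) (Sum.inr (Sum.inr (Sum.inr (b, m)))) * ic ℂ (z m) = _
    have : ∀ m, dA a1 (Sum.inr (Sum.inr (Sum.inr (i, k)))) (Sum.inr (Sum.inr (Sum.inr (b, m)))) * ic ℂ (z m)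
        = (if m = b then ic ℂ (z m) else 0) + (if m = k then (if b = i then ep * ic ℂ (z m) else 0) else 0) := by
      intro m
      unfold dA
      rw [a1_g, ic_ite, add_mul]
      congr 1
      · by_cases h : b = m
        · rw [if_pos h, if_pos h.symm, one_mul]
        · rw [if_neg h, if_neg (fun e => h e.symm), zero_mul]
      · by_cases h : m = k
        · by_cases h' : b = i
          · rw [if_pos h, if_pos h', if_pos (by rw [h, h'])]
          · rw [if_pos h, if_neg h', if_neg (by simp [h, h']), zero_mul]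
        · rw [if_neg h, if_neg (by simp [h]), zero_mul]
    rw [Finset.sum_congr rfl (fun m _ => this m), Finset.sum_add_distrib, Finset.sum_ite_eq', Finset.sum_ite_eq',
      if_pos (Finset.mem_univ b), if_pos (Finset.mem_univ k)]
  rw [hv]
  have h1 : ∀ w : Fin 6 → DN ℂ, Gz (-1) (n00 (DN ℂ)) w 8 = evL L0 w := by
    intro w
    unfold Gz
    rw [Gf_n0, gn8, g0_L]
  rw [h1, g0_dir i ep (ic ℂ (z k)) ep_sq, map_dg0, ← map_evL, ← g0_L, map_mul]

theorem Tp_t (z : Fin 6 → ℂ) {A B C : DN ℂ} {b : ℂ}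
    (h : G9 (-1 + ep) (fun _ _ => 0) (fx (fun b => ic ℂ (z b))) (fy (fun b => ic ℂ (z b))) = A + ep * B + ep ^ 2 * C)
    (hA : ∃ a, A = ic ℂ a) (hB : B = ic ℂ b) :
    val (Tp a1 (Sum.inl ())) z = b := by
  obtain ⟨a, hA⟩ := hA
  apply val_Tp (A := a)
  rw [famP_form rfl (dn_ne (by simp)) rfl (dg_ne (by simp)), fam_e8 _ _ _ _ (dc_ne (by simp)), Matrix.one_mulVec]
  have ht : pt (dA a1 (Sum.inl ())) = -1 + ep := by
    show dA a1 (Sum.inl ()) (Sum.inl ()) = _
    unfold dA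
    rw [a1_t, if_pos rfl, ic_neg_one]
  rw [ht]
  have h1 : Gz (-1 + ep) (n00 (DN ℂ)) (fun b => ic ℂ (z b)) 8
      = G9 (-1 + ep) (fun _ _ => 0) (fx (fun b => ic ℂ (z b))) (fy (fun b => ic ℂ (z b))) := rfl
  rw [h1, h, hA, hB, pow_two, ep_sq, zero_mul, add_zero]

theorem Tp_n (k j : Fin 3) (z : Fin 6 → ℂ) {A B C : DN ℂ} {b : ℂ}
    (h : G9 (-1) (nE k j ep) (fx (fun b => ic ℂ (z b))) (fy (fun b => ic ℂ (z b))) = A + ep * B + ep ^ 2 * C)
    (hA : ∃ a, A = ic ℂ a) (hB : B = ic ℂ b) :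
    val (Tp a1 (Sum.inr (Sum.inl (k, j)))) z = b := by
  obtain ⟨a, hA⟩ := hA
  apply val_Tp (A := a)
  rw [famP_form (dt_ne (by simp)) rfl rfl (dg_ne (by simp)), fam_e8 _ _ _ _ (dc_ne (by simp)), Matrix.one_mulVec]
  have hn : pn (dA a1 (Sum.inr (Sum.inl (k, j)))) = nE k j ep := by
    funext a b
    show dA a1 (Sum.inr (Sum.inl (k, j))) (Sum.inr (Sum.inl (a, b))) = _
    unfold dA nE
    rw [a1_n, map_zero, zero_add]
    by_cases h : a = k ∧ b = j
    · rw [if_pos h, if_pos (by rw [h.1, h.2])]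
    · rw [if_neg h, if_neg]
      intro e
      apply h
      simpa using e
  rw [hn]
  have h1 : Gz (-1) (nE k j ep) (fun b => ic ℂ (z b)) 8
      = G9 (-1) (nE k j ep) (fx (fun b => ic ℂ (z b))) (fy (fun b => ic ℂ (z b))) := rfl
  rw [h1, h, hA, hB, pow_two, ep_sq, zero_mul, add_zero]

end Pool.Agent.ENR
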