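import Pool.Agent.ENR.Rank5

/-! the 56 tangent vectors as explicit lists of monomials -/

namespace Pool.Agent.ENR

open Matrix

theorem pr_eq {l : Mon → ℂ} {p : Par} {L : LL} (hT : ∀ z, val (Tp a1 p) z = evL L z)
    (H : pairS l (Tp a1 p) = 0) : prL L l = 0 := by
  rw [← prL_of l _ L hT, H]

/-- list of monomials of a tangent vector -/
def L_t : LL := [(-32, 0, 0, 3), (-96, 0, 3, 3), (-32, 0, 4, 5), (-32, 1, 1, 4), (-32, 1, 3, 5), (-96, 1, 4, 4), (-32, 2, 2, 5), (-32, 2, 3, 4), (-96, 2, 5, 5), (-48, 3, 3, 3), (-144, 3, 4, 5), (-48, 4, 4, 4), (-48, 5, 5, 5)]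

theorem TL_t (z : Fin 6 → ℂ) : val (Tp a1 (Sum.inl ())) z = evL L_t z := by
  refine Tp_t z (G9_t ep _ _) ⟨g0 (fx z) (fy z), ?_⟩ ?_
  · rw [g0_L (fun b => ic ℂ (z b)), g0_L z, map_evL]
  · rw [map_evL]
    generalize (fun b => ic ℂ (z b)) = w
    simp [evL, L_t, fx, fy]
    ring

theorem E_t {l : Mon → ℂ} (H : ∀ p, pairS l (Tp a1 p) = 0) : -32 * l (mo 0 0 3) - 96 * l (mo 0 3 3) - 32 * l (mo 0 4 5) - 32 * l (mo 1 1 4) - 32 * l (mo 1 3 5) - 96 * l (mo 1 4 4) - 32 * l (mo 2 2 5) - 32 * l (mo 2 3 4) - 96 * l (mo 2 5 5) - 48 * l (mo 3 3 3) - 144 * l (mo 3 4 5) - 48 * l (mo 4 4 4) - 48 * l (mo 5 5 5) = 0 := by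
  have h := pr_eq TL_t (H _)
  simp only [prL, L_t, List.map_cons, List.map_nil, List.sum_cons, List.sum_nil] at h
  push_cast at h
  linear_combination h

/-- list of monomials of a tangent vector -/
def L_n00 : LL := [(24, 0, 0, 3), (40, 0, 3, 3), (16, 0, 4, 5), (-8, 1, 1, 4), (16, 1, 2, 3), (16, 1, 3, 5), (-8, 1, 4, 4), (-8, 2, 2, 5), (16, 2, 3, 4), (-8, 2, 5, 5)]

theorem TL_n00 (z : Fin 6 → ℂ) : val (Tp a1 (Sum.inr (Sum.inl (0, 0)))) z = evL L_n00 z := by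
  refine Tp_n 0 0 z (G9_n00 ep _ _) ⟨g0 (fx z) (fy z), ?_⟩ ?_
  · rw [g0_L (fun b => ic ℂ (z b)), g0_L z, map_evL]
  · rw [map_evL]
    generalize (fun b => ic ℂ (z b)) = w
    simp [evL, L_n00, fx, fy]
    ring

theorem E_n00 {l : Mon → ℂ} (H : ∀ p, pairS l (Tp a1 p) = 0) : 24 * l (mo 0 0 3) + 40 * l (mo 0 3 3) + 16 * l (mo 0 4 5) - 8 * l (mo 1 1 4) + 16 * l (mo 1 2 3) + 16 * l (mo 1 3 5) - 8 * l (mo 1 4 4) - 8 * l (mo 2 2 5) + 16 * l (mo 2 3 4) - 8 * l (mo 2 5 5) = 0 := by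
  have h := pr_eq TL_n00 (H _)
  simp only [prL, L_n00, List.map_cons, List.map_nil, List.sum_cons, List.sum_nil] at h
  push_cast at h
  linear_combination h

/-- list of monomials of a tangent vector -/
def L_n01 : LL := [(-16, 0, 1, 3), (8, 0, 2, 5), (-24, 0, 3, 4), (24, 0, 5, 5), (-8, 1, 2, 4), (-24, 1, 3, 3), (24, 1, 4, 5), (-8, 2, 2, 3), (-24, 2, 3, 5), (-24, 2, 4, 4)]

theorem TL_n01 (z : Fin 6 → ℂ) : val (Tp a1 (Sum.inr (Sum.inl (0, 1)))) z = evL L_n01 z := by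
  refine Tp_n 0 1 z (G9_n01 ep _ _) ⟨g0 (fx z) (fy z), ?_⟩ ?_
  · rw [g0_L (fun b => ic ℂ (z b)), g0_L z, map_evL]
  · rw [map_evL]
    generalize (fun b => ic ℂ (z b)) = w
    simp [evL, L_n01, fx, fy]
    ring

theorem E_n01 {l : Mon → ℂ} (H : ∀ p, pairS l (Tp a1 p) = 0) : -16 * l (mo 0 1 3) + 8 * l (mo 0 2 5) - 24 * l (mo 0 3 4) + 24 * l (mo 0 5 5) - 8 * l (mo 1 2 4) - 24 * l (mo 1 3 3) + 24 * l (mo 1 4 5) - 8 * l (mo 2 2 3) - 24 * l (mo 2 3 5) - 24 * l (mo 2 4 4) = 0 := by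
  have h := pr_eq TL_n01 (H _)
  simp only [prL, L_n01, List.map_cons, List.map_nil, List.sum_cons, List.sum_nil] at h
  push_cast at h
  linear_combination h

/-- list of monomials of a tangent vector -/
def L_n02 : LL := [(8, 0, 1, 4), (-16, 0, 2, 3), (-24, 0, 3, 5), (24, 0, 4, 4), (-8, 1, 1, 3), (-8, 1, 2, 5), (-24, 1, 3, 4), (-24, 1, 5, 5), (-24, 2, 3, 3), (24, 2, 4, 5)]

theorem TL_n02 (z : Fin 6 → ℂ) : val (Tp a1 (Sum.inr (Sum.inl (0, 2)))) z = evL L_n02 z := by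
  refine Tp_n 0 2 z (G9_n02 ep _ _) ⟨g0 (fx z) (fy z), ?_⟩ ?_
  · rw [g0_L (fun b => ic ℂ (z b)), g0_L z, map_evL]
  · rw [map_evL]
    generalize (fun b => ic ℂ (z b)) = w
    simp [evL, L_n02, fx, fy]
    ring

theorem E_n02 {l : Mon → ℂ} (H : ∀ p, pairS l (Tp a1 p) = 0) : 8 * l (mo 0 1 4) - 16 * l (mo 0 2 3) - 24 * l (mo 0 3 5) + 24 * l (mo 0 4 4) - 8 * l (mo 1 1 3) - 8 * l (mo 1 2 5) - 24 * l (mo 1 3 4) - 24 * l (mo 1 5 5) - 24 * l (mo 2 3 3) + 24 * l (mo 2 4 5) = 0 := by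
  have h := pr_eq TL_n02 (H _)
  simp only [prL, L_n02, List.map_cons, List.map_nil, List.sum_cons, List.sum_nil] at h
  push_cast at h
  linear_combination h

/-- list of monomials of a tangent vector -/
def L_n10 : LL := [(-16, 0, 1, 4), (-8, 0, 2, 3), (24, 0, 3, 5), (-24, 0, 4, 4), (8, 1, 2, 5), (-24, 1, 3, 4), (24, 1, 5, 5), (-8, 2, 2, 4), (-24, 2, 3, 3), (-24, 2, 4, 5)]

theorem TL_n10 (z : Fin 6 → ℂ) : val (Tp a1 (Sum.inr (Sum.inl (1, 0)))) z = evL L_n10 z := by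
  refine Tp_n 1 0 z (G9_n10 ep _ _) ⟨g0 (fx z) (fy z), ?_⟩ ?_
  · rw [g0_L (fun b => ic ℂ (z b)), g0_L z, map_evL]
  · rw [map_evL]
    generalize (fun b => ic ℂ (z b)) = w
    simp [evL, L_n10, fx, fy]
    ring

theorem E_n10 {l : Mon → ℂ} (H : ∀ p, pairS l (Tp a1 p) = 0) : -16 * l (mo 0 1 4) - 8 * l (mo 0 2 3) + 24 * l (mo 0 3 5) - 24 * l (mo 0 4 4) + 8 * l (mo 1 2 5) - 24 * l (mo 1 3 4) + 24 * l (mo 1 5 5) - 8 * l (mo 2 2 4) - 24 * l (mo 2 3 3) - 24 * l (mo 2 4 5) = 0 := by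
  have h := pr_eq TL_n10 (H _)
  simp only [prL, L_n10, List.map_cons, List.map_nil, List.sum_cons, List.sum_nil] at h
  push_cast at h
  linear_combination h

/-- list of monomials of a tangent vector -/
def L_n11 : LL := [(-8, 0, 0, 3), (16, 0, 2, 4), (-8, 0, 3, 3), (16, 0, 4, 5), (24, 1, 1, 4), (16, 1, 3, 5), (40, 1, 4, 4), (-8, 2, 2, 5), (16, 2, 3, 4), (-8, 2, 5, 5)]

theorem TL_n11 (z : Fin 6 → ℂ) : val (Tp a1 (Sum.inr (Sum.inl (1, 1)))) z = evL L_n11 z := by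
  refine Tp_n 1 1 z (G9_n11 ep _ _) ⟨g0 (fx z) (fy z), ?_⟩ ?_
  · rw [g0_L (fun b => ic ℂ (z b)), g0_L z, map_evL]
  · rw [map_evL]
    generalize (fun b => ic ℂ (z b)) = w
    simp [evL, L_n11, fx, fy]
    ring

theorem E_n11 {l : Mon → ℂ} (H : ∀ p, pairS l (Tp a1 p) = 0) : -8 * l (mo 0 0 3) + 16 * l (mo 0 2 4) - 8 * l (mo 0 3 3) + 16 * l (mo 0 4 5) + 24 * l (mo 1 1 4) + 16 * l (mo 1 3 5) + 40 * l (mo 1 4 4) - 8 * l (mo 2 2 5) + 16 * l (mo 2 3 4) - 8 * l (mo 2 5 5) = 0 := by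
  have h := pr_eq TL_n11 (H _)
  simp only [prL, L_n11, List.map_cons, List.map_nil, List.sum_cons, List.sum_nil] at h
  push_cast at h
  linear_combination h

/-- list of monomials of a tangent vector -/
def L_n12 : LL := [(-8, 0, 0, 4), (8, 0, 1, 3), (-8, 0, 2, 5), (-24, 0, 3, 4), (-24, 0, 5, 5), (-16, 1, 2, 4), (24, 1, 3, 3), (-24, 1, 4, 5), (24, 2, 3, 5), (-24, 2, 4, 4)]

theorem TL_n12 (z : Fin 6 → ℂ) : val (Tp a1 (Sum.inr (Sum.inl (1, 2)))) z = evL L_n12 z := by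
  refine Tp_n 1 2 z (G9_n12 ep _ _) ⟨g0 (fx z) (fy z), ?_⟩ ?_
  · rw [g0_L (fun b => ic ℂ (z b)), g0_L z, map_evL]
  · rw [map_evL]
    generalize (fun b => ic ℂ (z b)) = w
    simp [evL, L_n12, fx, fy]
    ring

theorem E_n12 {l : Mon → ℂ} (H : ∀ p, pairS l (Tp a1 p) = 0) : -8 * l (mo 0 0 4) + 8 * l (mo 0 1 3) - 8 * l (mo 0 2 5) - 24 * l (mo 0 3 4) - 24 * l (mo 0 5 5) - 16 * l (mo 1 2 4) + 24 * l (mo 1 3 3) - 24 * l (mo 1 4 5) + 24 * l (mo 2 3 5) - 24 * l (mo 2 4 4) = 0 := by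
  have h := pr_eq TL_n12 (H _)
  simp only [prL, L_n12, List.map_cons, List.map_nil, List.sum_cons, List.sum_nil] at h
  push_cast at h
  linear_combination h

/-- list of monomials of a tangent vector -/
def L_n20 : LL := [(-8, 0, 1, 3), (-16, 0, 2, 5), (24, 0, 3, 4), (-24, 0, 5, 5), (-8, 1, 1, 5), (8, 1, 2, 4), (-24, 1, 3, 3), (-24, 1, 4, 5), (-24, 2, 3, 5), (24, 2, 4, 4)]

theorem TL_n20 (z : Fin 6 → ℂ) : val (Tp a1 (Sum.inr (Sum.inl (2, 0)))) z = evL L_n20 z := by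
  refine Tp_n 2 0 z (G9_n20 ep _ _) ⟨g0 (fx z) (fy z), ?_⟩ ?_
  · rw [g0_L (fun b => ic ℂ (z b)), g0_L z, map_evL]
  · rw [map_evL]
    generalize (fun b => ic ℂ (z b)) = w
    simp [evL, L_n20, fx, fy]
    ring

theorem E_n20 {l : Mon → ℂ} (H : ∀ p, pairS l (Tp a1 p) = 0) : -8 * l (mo 0 1 3) - 16 * l (mo 0 2 5) + 24 * l (mo 0 3 4) - 24 * l (mo 0 5 5) - 8 * l (mo 1 1 5) + 8 * l (mo 1 2 4) - 24 * l (mo 1 3 3) - 24 * l (mo 1 4 5) - 24 * l (mo 2 3 5) + 24 * l (mo 2 4 4) = 0 := by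
  have h := pr_eq TL_n20 (H _)
  simp only [prL, L_n20, List.map_cons, List.map_nil, List.sum_cons, List.sum_nil] at h
  push_cast at h
  linear_combination h

/-- list of monomials of a tangent vector -/
def L_n21 : LL := [(-8, 0, 0, 5), (-8, 0, 1, 4), (8, 0, 2, 3), (-24, 0, 3, 5), (-24, 0, 4, 4), (-16, 1, 2, 5), (24, 1, 3, 4), (-24, 1, 5, 5), (24, 2, 3, 3), (-24, 2, 4, 5)]

theorem TL_n21 (z : Fin 6 → ℂ) : val (Tp a1 (Sum.inr (Sum.inl (2, 1)))) z = evL L_n21 z := by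
  refine Tp_n 2 1 z (G9_n21 ep _ _) ⟨g0 (fx z) (fy z), ?_⟩ ?_
  · rw [g0_L (fun b => ic ℂ (z b)), g0_L z, map_evL]
  · rw [map_evL]
    generalize (fun b => ic ℂ (z b)) = w
    simp [evL, L_n21, fx, fy]
    ring

theorem E_n21 {l : Mon → ℂ} (H : ∀ p, pairS l (Tp a1 p) = 0) : -8 * l (mo 0 0 5) - 8 * l (mo 0 1 4) + 8 * l (mo 0 2 3) - 24 * l (mo 0 3 5) - 24 * l (mo 0 4 4) - 16 * l (mo 1 2 5) + 24 * l (mo 1 3 4) - 24 * l (mo 1 5 5) + 24 * l (mo 2 3 3) - 24 * l (mo 2 4 5) = 0 := by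
  have h := pr_eq TL_n21 (H _)
  simp only [prL, L_n21, List.map_cons, List.map_nil, List.sum_cons, List.sum_nil] at h
  push_cast at h
  linear_combination h

/-- list of monomials of a tangent vector -/
def L_n22 : LL := [(-8, 0, 0, 3), (16, 0, 1, 5), (-8, 0, 3, 3), (16, 0, 4, 5), (-8, 1, 1, 4), (16, 1, 3, 5), (-8, 1, 4, 4), (24, 2, 2, 5), (16, 2, 3, 4), (40, 2, 5, 5)]

theorem TL_n22 (z : Fin 6 → ℂ) : val (Tp a1 (Sum.inr (Sum.inl (2, 2)))) z = evL L_n22 z := by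
  refine Tp_n 2 2 z (G9_n22 ep _ _) ⟨g0 (fx z) (fy z), ?_⟩ ?_
  · rw [g0_L (fun b => ic ℂ (z b)), g0_L z, map_evL]
  · rw [map_evL]
    generalize (fun b => ic ℂ (z b)) = w
    simp [evL, L_n22, fx, fy]
    ring

theorem E_n22 {l : Mon → ℂ} (H : ∀ p, pairS l (Tp a1 p) = 0) : -8 * l (mo 0 0 3) + 16 * l (mo 0 1 5) - 8 * l (mo 0 3 3) + 16 * l (mo 0 4 5) - 8 * l (mo 1 1 4) + 16 * l (mo 1 3 5) - 8 * l (mo 1 4 4) + 24 * l (mo 2 2 5) + 16 * l (mo 2 3 4) + 40 * l (mo 2 5 5) = 0 := by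
  have h := pr_eq TL_n22 (H _)
  simp only [prL, L_n22, List.map_cons, List.map_nil, List.sum_cons, List.sum_nil] at h
  push_cast at h
  linear_combination h

/-- list of monomials of a tangent vector -/
def L_c0 : LL := [(-1, 0, 3, 4), (1, 1, 2, 4), (1, 1, 4, 5), (1, 2, 4, 4)]

theorem TL_c0 (z : Fin 6 → ℂ) : val (Tp a1 (Sum.inr (Sum.inr (Sum.inl 0)))) z = evL L_c0 z := by
  rw [Tp_c]
  simp [gn, evL, L_c0, fx, fy]
  ring

theorem E_c0 {l : Mon → ℂ} (H : ∀ p, pairS l (Tp a1 p) = 0) : -l (mo 0 3 4) + l (mo 1 2 4) + l (mo 1 4 5) + l (mo 2 4 4) = 0 := by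
  have h := pr_eq TL_c0 (H _)
  simp only [prL, L_c0, List.map_cons, List.map_nil, List.sum_cons, List.sum_nil] at h
  push_cast at h
  linear_combination h

/-- list of monomials of a tangent vector -/
def L_c1 : LL := [(-1, 0, 3, 5), (1, 1, 2, 5), (1, 1, 5, 5), (1, 2, 4, 5)]

theorem TL_c1 (z : Fin 6 → ℂ) : val (Tp a1 (Sum.inr (Sum.inr (Sum.inl 1)))) z = evL L_c1 z := by
  rw [Tp_c]
  simp [gn, evL, L_c1, fx, fy]
  ring

theorem E_c1 {l : Mon → ℂ} (H : ∀ p, pairS l (Tp a1 p) = 0) : -l (mo 0 3 5) + l (mo 1 2 5) + l (mo 1 5 5) + l (mo 2 4 5) = 0 := by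
  have h := pr_eq TL_c1 (H _)
  simp only [prL, L_c1, List.map_cons, List.map_nil, List.sum_cons, List.sum_nil] at h
  push_cast at h
  linear_combination h

/-- list of monomials of a tangent vector -/
def L_c2 : LL := [(1, 0, 2, 3), (1, 0, 3, 5), (-1, 1, 3, 4), (1, 2, 3, 3)]

theorem TL_c2 (z : Fin 6 → ℂ) : val (Tp a1 (Sum.inr (Sum.inr (Sum.inl 2)))) z = evL L_c2 z := by
  rw [Tp_c]
  simp [gn, evL, L_c2, fx, fy]
  ring

theorem E_c2 {l : Mon → ℂ} (H : ∀ p, pairS l (Tp a1 p) = 0) : l (mo 0 2 3) + l (mo 0 3 5) - l (mo 1 3 4) + l (mo 2 3 3) = 0 := by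
  have h := pr_eq TL_c2 (H _)
  simp only [prL, L_c2, List.map_cons, List.map_nil, List.sum_cons, List.sum_nil] at h
  push_cast at h
  linear_combination h

/-- list of monomials of a tangent vector -/
def L_c3 : LL := [(1, 0, 2, 5), (1, 0, 5, 5), (-1, 1, 4, 5), (1, 2, 3, 5)]

theorem TL_c3 (z : Fin 6 → ℂ) : val (Tp a1 (Sum.inr (Sum.inr (Sum.inl 3)))) z = evL L_c3 z := by
  rw [Tp_c]
  simp [gn, evL, L_c3, fx, fy]
  ring

theorem E_c3 {l : Mon → ℂ} (H : ∀ p, pairS l (Tp a1 p) = 0) : l (mo 0 2 5) + l (mo 0 5 5) - l (mo 1 4 5) + l (mo 2 3 5) = 0 := by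
  have h := pr_eq TL_c3 (H _)
  simp only [prL, L_c3, List.map_cons, List.map_nil, List.sum_cons, List.sum_nil] at h
  push_cast at h
  linear_combination h

/-- list of monomials of a tangent vector -/
def L_c4 : LL := [(1, 0, 1, 3), (1, 0, 3, 4), (1, 1, 3, 3), (-1, 2, 3, 5)]

theorem TL_c4 (z : Fin 6 → ℂ) : val (Tp a1 (Sum.inr (Sum.inr (Sum.inl 4)))) z = evL L_c4 z := by
  rw [Tp_c]
  simp [gn, evL, L_c4, fx, fy]
  ring

theorem E_c4 {l : Mon → ℂ} (H : ∀ p, pairS l (Tp a1 p) = 0) : l (mo 0 1 3) + l (mo 0 3 4) + l (mo 1 3 3) - l (mo 2 3 5) = 0 := by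
  have h := pr_eq TL_c4 (H _)
  simp only [prL, L_c4, List.map_cons, List.map_nil, List.sum_cons, List.sum_nil] at h
  push_cast at h
  linear_combination h

/-- list of monomials of a tangent vector -/
def L_c5 : LL := [(1, 0, 1, 4), (1, 0, 4, 4), (1, 1, 3, 4), (-1, 2, 4, 5)]

theorem TL_c5 (z : Fin 6 → ℂ) : val (Tp a1 (Sum.inr (Sum.inr (Sum.inl 5)))) z = evL L_c5 z := by
  rw [Tp_c]
  simp [gn, evL, L_c5, fx, fy]
  ring

theorem E_c5 {l : Mon → ℂ} (H : ∀ p, pairS l (Tp a1 p) = 0) : l (mo 0 1 4) + l (mo 0 4 4) + l (mo 1 3 4) - l (mo 2 4 5) = 0 := by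
  have h := pr_eq TL_c5 (H _)
  simp only [prL, L_c5, List.map_cons, List.map_nil, List.sum_cons, List.sum_nil] at h
  push_cast at h
  linear_combination h

/-- list of monomials of a tangent vector -/
def L_c6 : LL := [(-1, 0, 0, 3), (-1, 0, 3, 3), (-1, 0, 4, 5), (1, 1, 1, 4), (1, 1, 3, 5), (1, 1, 4, 4)]

theorem TL_c6 (z : Fin 6 → ℂ) : val (Tp a1 (Sum.inr (Sum.inr (Sum.inl 6)))) z = evL L_c6 z := by
  rw [Tp_c]
  simp [gn, evL, L_c6, fx, fy]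
  ring

theorem E_c6 {l : Mon → ℂ} (H : ∀ p, pairS l (Tp a1 p) = 0) : -l (mo 0 0 3) - l (mo 0 3 3) - l (mo 0 4 5) + l (mo 1 1 4) + l (mo 1 3 5) + l (mo 1 4 4) = 0 := by
  have h := pr_eq TL_c6 (H _)
  simp only [prL, L_c6, List.map_cons, List.map_nil, List.sum_cons, List.sum_nil] at h
  push_cast at h
  linear_combination h

/-- list of monomials of a tangent vector -/
def L_c7 : LL := [(-1, 1, 1, 4), (-1, 1, 3, 5), (-1, 1, 4, 4), (1, 2, 2, 5), (1, 2, 3, 4), (1, 2, 5, 5)]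

theorem TL_c7 (z : Fin 6 → ℂ) : val (Tp a1 (Sum.inr (Sum.inr (Sum.inl 7)))) z = evL L_c7 z := by
  rw [Tp_c]
  simp [gn, evL, L_c7, fx, fy]
  ring

theorem E_c7 {l : Mon → ℂ} (H : ∀ p, pairS l (Tp a1 p) = 0) : -l (mo 1 1 4) - l (mo 1 3 5) - l (mo 1 4 4) + l (mo 2 2 5) + l (mo 2 3 4) + l (mo 2 5 5) = 0 := by
  have h := pr_eq TL_c7 (H _)
  simp only [prL, L_c7, List.map_cons, List.map_nil, List.sum_cons, List.sum_nil] at h
  push_cast at h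
  linear_combination h

/-- list of monomials of a tangent vector -/
def L_c8 : LL := [(8, 0, 0, 3), (32, 0, 3, 3), (8, 0, 4, 5), (8, 1, 1, 4), (8, 1, 3, 5), (32, 1, 4, 4), (8, 2, 2, 5), (8, 2, 3, 4), (32, 2, 5, 5), (24, 3, 3, 3), (24, 3, 4, 5), (24, 4, 4, 4), (24, 5, 5, 5)]

theorem TL_c8 (z : Fin 6 → ℂ) : val (Tp a1 (Sum.inr (Sum.inr (Sum.inl 8)))) z = evL L_c8 z := by
  rw [Tp_c]
  simp [gn, evL, L_c8, fx, fy]
  ring

theorem E_c8 {l : Mon → ℂ} (H : ∀ p, pairS l (Tp a1 p) = 0) : 8 * l (mo 0 0 3) + 32 * l (mo 0 3 3) + 8 * l (mo 0 4 5) + 8 * l (mo 1 1 4) + 8 * l (mo 1 3 5) + 32 * l (mo 1 4 4) + 8 * l (mo 2 2 5) + 8 * l (mo 2 3 4) + 32 * l (mo 2 5 5) + 24 * l (mo 3 3 3) + 24 * l (mo 3 4 5) + 24 * l (mo 4 4 4) + 24 * l (mo 5 5 5) = 0 := by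
  have h := pr_eq TL_c8 (H _)
  simp only [prL, L_c8, List.map_cons, List.map_nil, List.sum_cons, List.sum_nil] at h
  push_cast at h
  linear_combination h

/-- list of monomials of a tangent vector -/
def L_c9 : LL := [(2, 0, 0, 3), (-6, 0, 1, 2), (-6, 0, 1, 5), (-6, 0, 2, 4), (2, 0, 3, 3), (-4, 0, 4, 5), (2, 1, 1, 4), (-6, 1, 2, 3), (-4, 1, 3, 5), (2, 1, 4, 4), (2, 2, 2, 5), (-4, 2, 3, 4), (2, 2, 5, 5)]

theorem TL_c9 (z : Fin 6 → ℂ) : val (Tp a1 (Sum.inr (Sum.inr (Sum.inl 9)))) z = evL L_c9 z := by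
  rw [Tp_c]
  simp [gn, evL, L_c9, fx, fy]
  ring

theorem E_c9 {l : Mon → ℂ} (H : ∀ p, pairS l (Tp a1 p) = 0) : 2 * l (mo 0 0 3) - 6 * l (mo 0 1 2) - 6 * l (mo 0 1 5) - 6 * l (mo 0 2 4) + 2 * l (mo 0 3 3) - 4 * l (mo 0 4 5) + 2 * l (mo 1 1 4) - 6 * l (mo 1 2 3) - 4 * l (mo 1 3 5) + 2 * l (mo 1 4 4) + 2 * l (mo 2 2 5) - 4 * l (mo 2 3 4) + 2 * l (mo 2 5 5) = 0 := by
  have h := pr_eq TL_c9 (H _)
  simp only [prL, L_c9, List.map_cons, List.map_nil, List.sum_cons, List.sum_nil] at h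
  push_cast at h
  linear_combination h

/-- list of monomials of a tangent vector -/
def L_g00 : LL := [(16, 0, 0, 3), (32, 0, 3, 3), (8, 0, 4, 5)]

theorem TL_g00 (z : Fin 6 → ℂ) : val (Tp a1 (Sum.inr (Sum.inr (Sum.inr (0, 0))))) z = evL L_g00 z := by
  rw [Tp_g]
  simp [dg0, evL, L_g00]
  ring

theorem E_g00 {l : Mon → ℂ} (H : ∀ p, pairS l (Tp a1 p) = 0) : 16 * l (mo 0 0 3) + 32 * l (mo 0 3 3) + 8 * l (mo 0 4 5) = 0 := by
  have h := pr_eq TL_g00 (H _)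
  simp only [prL, L_g00, List.map_cons, List.map_nil, List.sum_cons, List.sum_nil] at h
  push_cast at h
  linear_combination h

/-- list of monomials of a tangent vector -/
def L_g01 : LL := [(16, 0, 1, 3), (32, 1, 3, 3), (8, 1, 4, 5)]

theorem TL_g01 (z : Fin 6 → ℂ) : val (Tp a1 (Sum.inr (Sum.inr (Sum.inr (0, 1))))) z = evL L_g01 z := by
  rw [Tp_g]
  simp [dg0, evL, L_g01]
  ring

theorem E_g01 {l : Mon → ℂ} (H : ∀ p, pairS l (Tp a1 p) = 0) : 16 * l (mo 0 1 3) + 32 * l (mo 1 3 3) + 8 * l (mo 1 4 5) = 0 := by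
  have h := pr_eq TL_g01 (H _)
  simp only [prL, L_g01, List.map_cons, List.map_nil, List.sum_cons, List.sum_nil] at h
  push_cast at h
  linear_combination h

/-- list of monomials of a tangent vector -/
def L_g02 : LL := [(16, 0, 2, 3), (32, 2, 3, 3), (8, 2, 4, 5)]

theorem TL_g02 (z : Fin 6 → ℂ) : val (Tp a1 (Sum.inr (Sum.inr (Sum.inr (0, 2))))) z = evL L_g02 z := by
  rw [Tp_g]
  simp [dg0, evL, L_g02]
  ring

theorem E_g02 {l : Mon → ℂ} (H : ∀ p, pairS l (Tp a1 p) = 0) : 16 * l (mo 0 2 3) + 32 * l (mo 2 3 3) + 8 * l (mo 2 4 5) = 0 := by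
  have h := pr_eq TL_g02 (H _)
  simp only [prL, L_g02, List.map_cons, List.map_nil, List.sum_cons, List.sum_nil] at h
  push_cast at h
  linear_combination h

/-- list of monomials of a tangent vector -/
def L_g03 : LL := [(16, 0, 3, 3), (32, 3, 3, 3), (8, 3, 4, 5)]

theorem TL_g03 (z : Fin 6 → ℂ) : val (Tp a1 (Sum.inr (Sum.inr (Sum.inr (0, 3))))) z = evL L_g03 z := by
  rw [Tp_g]
  simp [dg0, evL, L_g03]
  ring

theorem E_g03 {l : Mon → ℂ} (H : ∀ p, pairS l (Tp a1 p) = 0) : 16 * l (mo 0 3 3) + 32 * l (mo 3 3 3) + 8 * l (mo 3 4 5) = 0 := by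
  have h := pr_eq TL_g03 (H _)
  simp only [prL, L_g03, List.map_cons, List.map_nil, List.sum_cons, List.sum_nil] at h
  push_cast at h
  linear_combination h

/-- list of monomials of a tangent vector -/
def L_g04 : LL := [(16, 0, 3, 4), (32, 3, 3, 4), (8, 4, 4, 5)]

theorem TL_g04 (z : Fin 6 → ℂ) : val (Tp a1 (Sum.inr (Sum.inr (Sum.inr (0, 4))))) z = evL L_g04 z := by
  rw [Tp_g]
  simp [dg0, evL, L_g04]
  ring

theorem E_g04 {l : Mon → ℂ} (H : ∀ p, pairS l (Tp a1 p) = 0) : 16 * l (mo 0 3 4) + 32 * l (mo 3 3 4) + 8 * l (mo 4 4 5) = 0 := by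
  have h := pr_eq TL_g04 (H _)
  simp only [prL, L_g04, List.map_cons, List.map_nil, List.sum_cons, List.sum_nil] at h
  push_cast at h
  linear_combination h

/-- list of monomials of a tangent vector -/
def L_g05 : LL := [(16, 0, 3, 5), (32, 3, 3, 5), (8, 4, 5, 5)]

theorem TL_g05 (z : Fin 6 → ℂ) : val (Tp a1 (Sum.inr (Sum.inr (Sum.inr (0, 5))))) z = evL L_g05 z := by
  rw [Tp_g]
  simp [dg0, evL, L_g05]
  ring

theorem E_g05 {l : Mon → ℂ} (H : ∀ p, pairS l (Tp a1 p) = 0) : 16 * l (mo 0 3 5) + 32 * l (mo 3 3 5) + 8 * l (mo 4 5 5) = 0 := by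
  have h := pr_eq TL_g05 (H _)
  simp only [prL, L_g05, List.map_cons, List.map_nil, List.sum_cons, List.sum_nil] at h
  push_cast at h
  linear_combination h

/-- list of monomials of a tangent vector -/
def L_g10 : LL := [(16, 0, 1, 4), (8, 0, 3, 5), (32, 0, 4, 4)]

theorem TL_g10 (z : Fin 6 → ℂ) : val (Tp a1 (Sum.inr (Sum.inr (Sum.inr (1, 0))))) z = evL L_g10 z := by
  rw [Tp_g]
  simp [dg0, evL, L_g10]
  ring

theorem E_g10 {l : Mon → ℂ} (H : ∀ p, pairS l (Tp a1 p) = 0) : 16 * l (mo 0 1 4) + 8 * l (mo 0 3 5) + 32 * l (mo 0 4 4) = 0 := by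
  have h := pr_eq TL_g10 (H _)
  simp only [prL, L_g10, List.map_cons, List.map_nil, List.sum_cons, List.sum_nil] at h
  push_cast at h
  linear_combination h

/-- list of monomials of a tangent vector -/
def L_g11 : LL := [(16, 1, 1, 4), (8, 1, 3, 5), (32, 1, 4, 4)]

theorem TL_g11 (z : Fin 6 → ℂ) : val (Tp a1 (Sum.inr (Sum.inr (Sum.inr (1, 1))))) z = evL L_g11 z := by
  rw [Tp_g]
  simp [dg0, evL, L_g11]
  ring

theorem E_g11 {l : Mon → ℂ} (H : ∀ p, pairS l (Tp a1 p) = 0) : 16 * l (mo 1 1 4) + 8 * l (mo 1 3 5) + 32 * l (mo 1 4 4) = 0 := by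
  have h := pr_eq TL_g11 (H _)
  simp only [prL, L_g11, List.map_cons, List.map_nil, List.sum_cons, List.sum_nil] at h
  push_cast at h
  linear_combination h

/-- list of monomials of a tangent vector -/
def L_g12 : LL := [(16, 1, 2, 4), (8, 2, 3, 5), (32, 2, 4, 4)]

theorem TL_g12 (z : Fin 6 → ℂ) : val (Tp a1 (Sum.inr (Sum.inr (Sum.inr (1, 2))))) z = evL L_g12 z := by
  rw [Tp_g]
  simp [dg0, evL, L_g12]
  ring

theorem E_g12 {l : Mon → ℂ} (H : ∀ p, pairS l (Tp a1 p) = 0) : 16 * l (mo 1 2 4) + 8 * l (mo 2 3 5) + 32 * l (mo 2 4 4) = 0 := by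
  have h := pr_eq TL_g12 (H _)
  simp only [prL, L_g12, List.map_cons, List.map_nil, List.sum_cons, List.sum_nil] at h
  push_cast at h
  linear_combination h

/-- list of monomials of a tangent vector -/
def L_g13 : LL := [(16, 1, 3, 4), (8, 3, 3, 5), (32, 3, 4, 4)]

theorem TL_g13 (z : Fin 6 → ℂ) : val (Tp a1 (Sum.inr (Sum.inr (Sum.inr (1, 3))))) z = evL L_g13 z := by
  rw [Tp_g]
  simp [dg0, evL, L_g13]
  ring

theorem E_g13 {l : Mon → ℂ} (H : ∀ p, pairS l (Tp a1 p) = 0) : 16 * l (mo 1 3 4) + 8 * l (mo 3 3 5) + 32 * l (mo 3 4 4) = 0 := by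
  have h := pr_eq TL_g13 (H _)
  simp only [prL, L_g13, List.map_cons, List.map_nil, List.sum_cons, List.sum_nil] at h
  push_cast at h
  linear_combination h

/-- list of monomials of a tangent vector -/
def L_g14 : LL := [(16, 1, 4, 4), (8, 3, 4, 5), (32, 4, 4, 4)]

theorem TL_g14 (z : Fin 6 → ℂ) : val (Tp a1 (Sum.inr (Sum.inr (Sum.inr (1, 4))))) z = evL L_g14 z := by
  rw [Tp_g]
  simp [dg0, evL, L_g14]
  ring

theorem E_g14 {l : Mon → ℂ} (H : ∀ p, pairS l (Tp a1 p) = 0) : 16 * l (mo 1 4 4) + 8 * l (mo 3 4 5) + 32 * l (mo 4 4 4) = 0 := by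
  have h := pr_eq TL_g14 (H _)
  simp only [prL, L_g14, List.map_cons, List.map_nil, List.sum_cons, List.sum_nil] at h
  push_cast at h
  linear_combination h

/-- list of monomials of a tangent vector -/
def L_g15 : LL := [(16, 1, 4, 5), (8, 3, 5, 5), (32, 4, 4, 5)]

theorem TL_g15 (z : Fin 6 → ℂ) : val (Tp a1 (Sum.inr (Sum.inr (Sum.inr (1, 5))))) z = evL L_g15 z := by
  rw [Tp_g]
  simp [dg0, evL, L_g15]
  ring

theorem E_g15 {l : Mon → ℂ} (H : ∀ p, pairS l (Tp a1 p) = 0) : 16 * l (mo 1 4 5) + 8 * l (mo 3 5 5) + 32 * l (mo 4 4 5) = 0 := by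
  have h := pr_eq TL_g15 (H _)
  simp only [prL, L_g15, List.map_cons, List.map_nil, List.sum_cons, List.sum_nil] at h
  push_cast at h
  linear_combination h

/-- list of monomials of a tangent vector -/
def L_g20 : LL := [(16, 0, 2, 5), (8, 0, 3, 4), (32, 0, 5, 5)]

theorem TL_g20 (z : Fin 6 → ℂ) : val (Tp a1 (Sum.inr (Sum.inr (Sum.inr (2, 0))))) z = evL L_g20 z := by
  rw [Tp_g]
  simp [dg0, evL, L_g20]
  ring

theorem E_g20 {l : Mon → ℂ} (H : ∀ p, pairS l (Tp a1 p) = 0) : 16 * l (mo 0 2 5) + 8 * l (mo 0 3 4) + 32 * l (mo 0 5 5) = 0 := by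
  have h := pr_eq TL_g20 (H _)
  simp only [prL, L_g20, List.map_cons, List.map_nil, List.sum_cons, List.sum_nil] at h
  push_cast at h
  linear_combination h

/-- list of monomials of a tangent vector -/
def L_g21 : LL := [(16, 1, 2, 5), (8, 1, 3, 4), (32, 1, 5, 5)]

theorem TL_g21 (z : Fin 6 → ℂ) : val (Tp a1 (Sum.inr (Sum.inr (Sum.inr (2, 1))))) z = evL L_g21 z := by
  rw [Tp_g]
  simp [dg0, evL, L_g21]
  ring

theorem E_g21 {l : Mon → ℂ} (H : ∀ p, pairS l (Tp a1 p) = 0) : 16 * l (mo 1 2 5) + 8 * l (mo 1 3 4) + 32 * l (mo 1 5 5) = 0 := by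
  have h := pr_eq TL_g21 (H _)
  simp only [prL, L_g21, List.map_cons, List.map_nil, List.sum_cons, List.sum_nil] at h
  push_cast at h
  linear_combination h

/-- list of monomials of a tangent vector -/
def L_g22 : LL := [(16, 2, 2, 5), (8, 2, 3, 4), (32, 2, 5, 5)]

theorem TL_g22 (z : Fin 6 → ℂ) : val (Tp a1 (Sum.inr (Sum.inr (Sum.inr (2, 2))))) z = evL L_g22 z := by
  rw [Tp_g]
  simp [dg0, evL, L_g22]
  ring

theorem E_g22 {l : Mon → ℂ} (H : ∀ p, pairS l (Tp a1 p) = 0) : 16 * l (mo 2 2 5) + 8 * l (mo 2 3 4) + 32 * l (mo 2 5 5) = 0 := by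
  have h := pr_eq TL_g22 (H _)
  simp only [prL, L_g22, List.map_cons, List.map_nil, List.sum_cons, List.sum_nil] at h
  push_cast at h
  linear_combination h

/-- list of monomials of a tangent vector -/
def L_g23 : LL := [(16, 2, 3, 5), (8, 3, 3, 4), (32, 3, 5, 5)]

theorem TL_g23 (z : Fin 6 → ℂ) : val (Tp a1 (Sum.inr (Sum.inr (Sum.inr (2, 3))))) z = evL L_g23 z := by
  rw [Tp_g]
  simp [dg0, evL, L_g23]
  ring

theorem E_g23 {l : Mon → ℂ} (H : ∀ p, pairS l (Tp a1 p) = 0) : 16 * l (mo 2 3 5) + 8 * l (mo 3 3 4) + 32 * l (mo 3 5 5) = 0 := by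
  have h := pr_eq TL_g23 (H _)
  simp only [prL, L_g23, List.map_cons, List.map_nil, List.sum_cons, List.sum_nil] at h
  push_cast at h
  linear_combination h

/-- list of monomials of a tangent vector -/
def L_g24 : LL := [(16, 2, 4, 5), (8, 3, 4, 4), (32, 4, 5, 5)]

theorem TL_g24 (z : Fin 6 → ℂ) : val (Tp a1 (Sum.inr (Sum.inr (Sum.inr (2, 4))))) z = evL L_g24 z := by
  rw [Tp_g]
  simp [dg0, evL, L_g24]
  ring

theorem E_g24 {l : Mon → ℂ} (H : ∀ p, pairS l (Tp a1 p) = 0) : 16 * l (mo 2 4 5) + 8 * l (mo 3 4 4) + 32 * l (mo 4 5 5) = 0 := by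
  have h := pr_eq TL_g24 (H _)
  simp only [prL, L_g24, List.map_cons, List.map_nil, List.sum_cons, List.sum_nil] at h
  push_cast at h
  linear_combination h

/-- list of monomials of a tangent vector -/
def L_g25 : LL := [(16, 2, 5, 5), (8, 3, 4, 5), (32, 5, 5, 5)]

theorem TL_g25 (z : Fin 6 → ℂ) : val (Tp a1 (Sum.inr (Sum.inr (Sum.inr (2, 5))))) z = evL L_g25 z := by
  rw [Tp_g]
  simp [dg0, evL, L_g25]
  ring

theorem E_g25 {l : Mon → ℂ} (H : ∀ p, pairS l (Tp a1 p) = 0) : 16 * l (mo 2 5 5) + 8 * l (mo 3 4 5) + 32 * l (mo 5 5 5) = 0 := by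
  have h := pr_eq TL_g25 (H _)
  simp only [prL, L_g25, List.map_cons, List.map_nil, List.sum_cons, List.sum_nil] at h
  push_cast at h
  linear_combination h

/-- list of monomials of a tangent vector -/
def L_g30 : LL := [(8, 0, 0, 0), (64, 0, 0, 3), (8, 0, 1, 5), (8, 0, 2, 4), (72, 0, 3, 3), (24, 0, 4, 5)]

theorem TL_g30 (z : Fin 6 → ℂ) : val (Tp a1 (Sum.inr (Sum.inr (Sum.inr (3, 0))))) z = evL L_g30 z := by
  rw [Tp_g]
  simp [dg0, evL, L_g30]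
  ring

theorem E_g30 {l : Mon → ℂ} (H : ∀ p, pairS l (Tp a1 p) = 0) : 8 * l (mo 0 0 0) + 64 * l (mo 0 0 3) + 8 * l (mo 0 1 5) + 8 * l (mo 0 2 4) + 72 * l (mo 0 3 3) + 24 * l (mo 0 4 5) = 0 := by
  have h := pr_eq TL_g30 (H _)
  simp only [prL, L_g30, List.map_cons, List.map_nil, List.sum_cons, List.sum_nil] at h
  push_cast at h
  linear_combination h

/-- list of monomials of a tangent vector -/
def L_g31 : LL := [(8, 0, 0, 1), (64, 0, 1, 3), (8, 1, 1, 5), (8, 1, 2, 4), (72, 1, 3, 3), (24, 1, 4, 5)]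

theorem TL_g31 (z : Fin 6 → ℂ) : val (Tp a1 (Sum.inr (Sum.inr (Sum.inr (3, 1))))) z = evL L_g31 z := by
  rw [Tp_g]
  simp [dg0, evL, L_g31]
  ring

theorem E_g31 {l : Mon → ℂ} (H : ∀ p, pairS l (Tp a1 p) = 0) : 8 * l (mo 0 0 1) + 64 * l (mo 0 1 3) + 8 * l (mo 1 1 5) + 8 * l (mo 1 2 4) + 72 * l (mo 1 3 3) + 24 * l (mo 1 4 5) = 0 := by
  have h := pr_eq TL_g31 (H _)
  simp only [prL, L_g31, List.map_cons, List.map_nil, List.sum_cons, List.sum_nil] at h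
  push_cast at h
  linear_combination h

/-- list of monomials of a tangent vector -/
def L_g32 : LL := [(8, 0, 0, 2), (64, 0, 2, 3), (8, 1, 2, 5), (8, 2, 2, 4), (72, 2, 3, 3), (24, 2, 4, 5)]

theorem TL_g32 (z : Fin 6 → ℂ) : val (Tp a1 (Sum.inr (Sum.inr (Sum.inr (3, 2))))) z = evL L_g32 z := by
  rw [Tp_g]
  simp [dg0, evL, L_g32]
  ring

theorem E_g32 {l : Mon → ℂ} (H : ∀ p, pairS l (Tp a1 p) = 0) : 8 * l (mo 0 0 2) + 64 * l (mo 0 2 3) + 8 * l (mo 1 2 5) + 8 * l (mo 2 2 4) + 72 * l (mo 2 3 3) + 24 * l (mo 2 4 5) = 0 := by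
  have h := pr_eq TL_g32 (H _)
  simp only [prL, L_g32, List.map_cons, List.map_nil, List.sum_cons, List.sum_nil] at h
  push_cast at h
  linear_combination h

/-- list of monomials of a tangent vector -/
def L_g33 : LL := [(8, 0, 0, 3), (64, 0, 3, 3), (8, 1, 3, 5), (8, 2, 3, 4), (72, 3, 3, 3), (24, 3, 4, 5)]

theorem TL_g33 (z : Fin 6 → ℂ) : val (Tp a1 (Sum.inr (Sum.inr (Sum.inr (3, 3))))) z = evL L_g33 z := by
  rw [Tp_g]
  simp [dg0, evL, L_g33]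
  ring

theorem E_g33 {l : Mon → ℂ} (H : ∀ p, pairS l (Tp a1 p) = 0) : 8 * l (mo 0 0 3) + 64 * l (mo 0 3 3) + 8 * l (mo 1 3 5) + 8 * l (mo 2 3 4) + 72 * l (mo 3 3 3) + 24 * l (mo 3 4 5) = 0 := by
  have h := pr_eq TL_g33 (H _)
  simp only [prL, L_g33, List.map_cons, List.map_nil, List.sum_cons, List.sum_nil] at h
  push_cast at h
  linear_combination h

/-- list of monomials of a tangent vector -/
def L_g34 : LL := [(8, 0, 0, 4), (64, 0, 3, 4), (8, 1, 4, 5), (8, 2, 4, 4), (72, 3, 3, 4), (24, 4, 4, 5)]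

theorem TL_g34 (z : Fin 6 → ℂ) : val (Tp a1 (Sum.inr (Sum.inr (Sum.inr (3, 4))))) z = evL L_g34 z := by
  rw [Tp_g]
  simp [dg0, evL, L_g34]
  ring

theorem E_g34 {l : Mon → ℂ} (H : ∀ p, pairS l (Tp a1 p) = 0) : 8 * l (mo 0 0 4) + 64 * l (mo 0 3 4) + 8 * l (mo 1 4 5) + 8 * l (mo 2 4 4) + 72 * l (mo 3 3 4) + 24 * l (mo 4 4 5) = 0 := by
  have h := pr_eq TL_g34 (H _)
  simp only [prL, L_g34, List.map_cons, List.map_nil, List.sum_cons, List.sum_nil] at h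
  push_cast at h
  linear_combination h

/-- list of monomials of a tangent vector -/
def L_g35 : LL := [(8, 0, 0, 5), (64, 0, 3, 5), (8, 1, 5, 5), (8, 2, 4, 5), (72, 3, 3, 5), (24, 4, 5, 5)]

theorem TL_g35 (z : Fin 6 → ℂ) : val (Tp a1 (Sum.inr (Sum.inr (Sum.inr (3, 5))))) z = evL L_g35 z := by
  rw [Tp_g]
  simp [dg0, evL, L_g35]
  ring

theorem E_g35 {l : Mon → ℂ} (H : ∀ p, pairS l (Tp a1 p) = 0) : 8 * l (mo 0 0 5) + 64 * l (mo 0 3 5) + 8 * l (mo 1 5 5) + 8 * l (mo 2 4 5) + 72 * l (mo 3 3 5) + 24 * l (mo 4 5 5) = 0 := by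
  have h := pr_eq TL_g35 (H _)
  simp only [prL, L_g35, List.map_cons, List.map_nil, List.sum_cons, List.sum_nil] at h
  push_cast at h
  linear_combination h

/-- list of monomials of a tangent vector -/
def L_g40 : LL := [(8, 0, 0, 5), (8, 0, 1, 1), (64, 0, 1, 4), (8, 0, 2, 3), (24, 0, 3, 5), (72, 0, 4, 4)]

theorem TL_g40 (z : Fin 6 → ℂ) : val (Tp a1 (Sum.inr (Sum.inr (Sum.inr (4, 0))))) z = evL L_g40 z := by
  rw [Tp_g]
  simp [dg0, evL, L_g40]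
  ring

theorem E_g40 {l : Mon → ℂ} (H : ∀ p, pairS l (Tp a1 p) = 0) : 8 * l (mo 0 0 5) + 8 * l (mo 0 1 1) + 64 * l (mo 0 1 4) + 8 * l (mo 0 2 3) + 24 * l (mo 0 3 5) + 72 * l (mo 0 4 4) = 0 := by
  have h := pr_eq TL_g40 (H _)
  simp only [prL, L_g40, List.map_cons, List.map_nil, List.sum_cons, List.sum_nil] at h
  push_cast at h
  linear_combination h

/-- list of monomials of a tangent vector -/
def L_g41 : LL := [(8, 0, 1, 5), (8, 1, 1, 1), (64, 1, 1, 4), (8, 1, 2, 3), (24, 1, 3, 5), (72, 1, 4, 4)]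

theorem TL_g41 (z : Fin 6 → ℂ) : val (Tp a1 (Sum.inr (Sum.inr (Sum.inr (4, 1))))) z = evL L_g41 z := by
  rw [Tp_g]
  simp [dg0, evL, L_g41]
  ring

theorem E_g41 {l : Mon → ℂ} (H : ∀ p, pairS l (Tp a1 p) = 0) : 8 * l (mo 0 1 5) + 8 * l (mo 1 1 1) + 64 * l (mo 1 1 4) + 8 * l (mo 1 2 3) + 24 * l (mo 1 3 5) + 72 * l (mo 1 4 4) = 0 := by
  have h := pr_eq TL_g41 (H _)
  simp only [prL, L_g41, List.map_cons, List.map_nil, List.sum_cons, List.sum_nil] at h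
  push_cast at h
  linear_combination h

/-- list of monomials of a tangent vector -/
def L_g42 : LL := [(8, 0, 2, 5), (8, 1, 1, 2), (64, 1, 2, 4), (8, 2, 2, 3), (24, 2, 3, 5), (72, 2, 4, 4)]

theorem TL_g42 (z : Fin 6 → ℂ) : val (Tp a1 (Sum.inr (Sum.inr (Sum.inr (4, 2))))) z = evL L_g42 z := by
  rw [Tp_g]
  simp [dg0, evL, L_g42]
  ring

theorem E_g42 {l : Mon → ℂ} (H : ∀ p, pairS l (Tp a1 p) = 0) : 8 * l (mo 0 2 5) + 8 * l (mo 1 1 2) + 64 * l (mo 1 2 4) + 8 * l (mo 2 2 3) + 24 * l (mo 2 3 5) + 72 * l (mo 2 4 4) = 0 := by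
  have h := pr_eq TL_g42 (H _)
  simp only [prL, L_g42, List.map_cons, List.map_nil, List.sum_cons, List.sum_nil] at h
  push_cast at h
  linear_combination h

/-- list of monomials of a tangent vector -/
def L_g43 : LL := [(8, 0, 3, 5), (8, 1, 1, 3), (64, 1, 3, 4), (8, 2, 3, 3), (24, 3, 3, 5), (72, 3, 4, 4)]

theorem TL_g43 (z : Fin 6 → ℂ) : val (Tp a1 (Sum.inr (Sum.inr (Sum.inr (4, 3))))) z = evL L_g43 z := by
  rw [Tp_g]
  simp [dg0, evL, L_g43]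
  ring

theorem E_g43 {l : Mon → ℂ} (H : ∀ p, pairS l (Tp a1 p) = 0) : 8 * l (mo 0 3 5) + 8 * l (mo 1 1 3) + 64 * l (mo 1 3 4) + 8 * l (mo 2 3 3) + 24 * l (mo 3 3 5) + 72 * l (mo 3 4 4) = 0 := by
  have h := pr_eq TL_g43 (H _)
  simp only [prL, L_g43, List.map_cons, List.map_nil, List.sum_cons, List.sum_nil] at h
  push_cast at h
  linear_combination h

/-- list of monomials of a tangent vector -/
def L_g44 : LL := [(8, 0, 4, 5), (8, 1, 1, 4), (64, 1, 4, 4), (8, 2, 3, 4), (24, 3, 4, 5), (72, 4, 4, 4)]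

theorem TL_g44 (z : Fin 6 → ℂ) : val (Tp a1 (Sum.inr (Sum.inr (Sum.inr (4, 4))))) z = evL L_g44 z := by
  rw [Tp_g]
  simp [dg0, evL, L_g44]
  ring

theorem E_g44 {l : Mon → ℂ} (H : ∀ p, pairS l (Tp a1 p) = 0) : 8 * l (mo 0 4 5) + 8 * l (mo 1 1 4) + 64 * l (mo 1 4 4) + 8 * l (mo 2 3 4) + 24 * l (mo 3 4 5) + 72 * l (mo 4 4 4) = 0 := by
  have h := pr_eq TL_g44 (H _)
  simp only [prL, L_g44, List.map_cons, List.map_nil, List.sum_cons, List.sum_nil] at h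
  push_cast at h
  linear_combination h

/-- list of monomials of a tangent vector -/
def L_g45 : LL := [(8, 0, 5, 5), (8, 1, 1, 5), (64, 1, 4, 5), (8, 2, 3, 5), (24, 3, 5, 5), (72, 4, 4, 5)]

theorem TL_g45 (z : Fin 6 → ℂ) : val (Tp a1 (Sum.inr (Sum.inr (Sum.inr (4, 5))))) z = evL L_g45 z := by
  rw [Tp_g]
  simp [dg0, evL, L_g45]
  ring

theorem E_g45 {l : Mon → ℂ} (H : ∀ p, pairS l (Tp a1 p) = 0) : 8 * l (mo 0 5 5) + 8 * l (mo 1 1 5) + 64 * l (mo 1 4 5) + 8 * l (mo 2 3 5) + 24 * l (mo 3 5 5) + 72 * l (mo 4 4 5) = 0 := by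
  have h := pr_eq TL_g45 (H _)
  simp only [prL, L_g45, List.map_cons, List.map_nil, List.sum_cons, List.sum_nil] at h
  push_cast at h
  linear_combination h

/-- list of monomials of a tangent vector -/
def L_g50 : LL := [(8, 0, 0, 4), (8, 0, 1, 3), (8, 0, 2, 2), (64, 0, 2, 5), (24, 0, 3, 4), (72, 0, 5, 5)]

theorem TL_g50 (z : Fin 6 → ℂ) : val (Tp a1 (Sum.inr (Sum.inr (Sum.inr (5, 0))))) z = evL L_g50 z := by
  rw [Tp_g]
  simp [dg0, evL, L_g50]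
  ring

theorem E_g50 {l : Mon → ℂ} (H : ∀ p, pairS l (Tp a1 p) = 0) : 8 * l (mo 0 0 4) + 8 * l (mo 0 1 3) + 8 * l (mo 0 2 2) + 64 * l (mo 0 2 5) + 24 * l (mo 0 3 4) + 72 * l (mo 0 5 5) = 0 := by
  have h := pr_eq TL_g50 (H _)
  simp only [prL, L_g50, List.map_cons, List.map_nil, List.sum_cons, List.sum_nil] at h
  push_cast at h
  linear_combination h

/-- list of monomials of a tangent vector -/
def L_g51 : LL := [(8, 0, 1, 4), (8, 1, 1, 3), (8, 1, 2, 2), (64, 1, 2, 5), (24, 1, 3, 4), (72, 1, 5, 5)]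

theorem TL_g51 (z : Fin 6 → ℂ) : val (Tp a1 (Sum.inr (Sum.inr (Sum.inr (5, 1))))) z = evL L_g51 z := by
  rw [Tp_g]
  simp [dg0, evL, L_g51]
  ring

theorem E_g51 {l : Mon → ℂ} (H : ∀ p, pairS l (Tp a1 p) = 0) : 8 * l (mo 0 1 4) + 8 * l (mo 1 1 3) + 8 * l (mo 1 2 2) + 64 * l (mo 1 2 5) + 24 * l (mo 1 3 4) + 72 * l (mo 1 5 5) = 0 := by
  have h := pr_eq TL_g51 (H _)
  simp only [prL, L_g51, List.map_cons, List.map_nil, List.sum_cons, List.sum_nil] at h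
  push_cast at h
  linear_combination h

/-- list of monomials of a tangent vector -/
def L_g52 : LL := [(8, 0, 2, 4), (8, 1, 2, 3), (8, 2, 2, 2), (64, 2, 2, 5), (24, 2, 3, 4), (72, 2, 5, 5)]

theorem TL_g52 (z : Fin 6 → ℂ) : val (Tp a1 (Sum.inr (Sum.inr (Sum.inr (5, 2))))) z = evL L_g52 z := by
  rw [Tp_g]
  simp [dg0, evL, L_g52]
  ring

theorem E_g52 {l : Mon → ℂ} (H : ∀ p, pairS l (Tp a1 p) = 0) : 8 * l (mo 0 2 4) + 8 * l (mo 1 2 3) + 8 * l (mo 2 2 2) + 64 * l (mo 2 2 5) + 24 * l (mo 2 3 4) + 72 * l (mo 2 5 5) = 0 := by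
  have h := pr_eq TL_g52 (H _)
  simp only [prL, L_g52, List.map_cons, List.map_nil, List.sum_cons, List.sum_nil] at h
  push_cast at h
  linear_combination h

/-- list of monomials of a tangent vector -/
def L_g53 : LL := [(8, 0, 3, 4), (8, 1, 3, 3), (8, 2, 2, 3), (64, 2, 3, 5), (24, 3, 3, 4), (72, 3, 5, 5)]

theorem TL_g53 (z : Fin 6 → ℂ) : val (Tp a1 (Sum.inr (Sum.inr (Sum.inr (5, 3))))) z = evL L_g53 z := by
  rw [Tp_g]
  simp [dg0, evL, L_g53]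
  ring

theorem E_g53 {l : Mon → ℂ} (H : ∀ p, pairS l (Tp a1 p) = 0) : 8 * l (mo 0 3 4) + 8 * l (mo 1 3 3) + 8 * l (mo 2 2 3) + 64 * l (mo 2 3 5) + 24 * l (mo 3 3 4) + 72 * l (mo 3 5 5) = 0 := by
  have h := pr_eq TL_g53 (H _)
  simp only [prL, L_g53, List.map_cons, List.map_nil, List.sum_cons, List.sum_nil] at h
  push_cast at h
  linear_combination h

/-- list of monomials of a tangent vector -/
def L_g54 : LL := [(8, 0, 4, 4), (8, 1, 3, 4), (8, 2, 2, 4), (64, 2, 4, 5), (24, 3, 4, 4), (72, 4, 5, 5)]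

theorem TL_g54 (z : Fin 6 → ℂ) : val (Tp a1 (Sum.inr (Sum.inr (Sum.inr (5, 4))))) z = evL L_g54 z := by
  rw [Tp_g]
  simp [dg0, evL, L_g54]
  ring

theorem E_g54 {l : Mon → ℂ} (H : ∀ p, pairS l (Tp a1 p) = 0) : 8 * l (mo 0 4 4) + 8 * l (mo 1 3 4) + 8 * l (mo 2 2 4) + 64 * l (mo 2 4 5) + 24 * l (mo 3 4 4) + 72 * l (mo 4 5 5) = 0 := by
  have h := pr_eq TL_g54 (H _)
  simp only [prL, L_g54, List.map_cons, List.map_nil, List.sum_cons, List.sum_nil] at h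
  push_cast at h
  linear_combination h

/-- list of monomials of a tangent vector -/
def L_g55 : LL := [(8, 0, 4, 5), (8, 1, 3, 5), (8, 2, 2, 5), (64, 2, 5, 5), (24, 3, 4, 5), (72, 5, 5, 5)]

theorem TL_g55 (z : Fin 6 → ℂ) : val (Tp a1 (Sum.inr (Sum.inr (Sum.inr (5, 5))))) z = evL L_g55 z := by
  rw [Tp_g]
  simp [dg0, evL, L_g55]
  ring

theorem E_g55 {l : Mon → ℂ} (H : ∀ p, pairS l (Tp a1 p) = 0) : 8 * l (mo 0 4 5) + 8 * l (mo 1 3 5) + 8 * l (mo 2 2 5) + 64 * l (mo 2 5 5) + 24 * l (mo 3 4 5) + 72 * l (mo 5 5 5) = 0 := by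
  have h := pr_eq TL_g55 (H _)
  simp only [prL, L_g55, List.map_cons, List.map_nil, List.sum_cons, List.sum_nil] at h
  push_cast at h
  linear_combination h

end Pool.Agent.ENR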