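import Pool.Agent.ENR.Rank6

/-! the span of the tangent vectors -/

namespace Pool.Agent.ENR

open Matrix

theorem Z_001 {l : Mon → ℂ} (H : ∀ p, pairS l (Tp a1 p) = 0) (_ : l (mo 0 0 0) = 0) :
    l (mo 0 0 1) = 0 := by
  linear_combination (-47/336) * E_g20 H + (-251/336) * E_g12 H + (319/336) * E_g01 H + (-323/18) * E_c4 H + (-13/12) * E_g15 H + (1/8) * E_g31 H + (1021/2016) * E_g45 H + (11/12) * E_g04 H + (193/18) * E_c3 H + (7/24) * E_g23 H + (-29/18) * E_c0 H + (-767/2016) * E_g34 H + (-359/2016) * E_g53 H + (1273/2016) * E_n20 H + (-767/2016) * E_n12 H + (-359/2016) * E_n01 H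

theorem Z_002 {l : Mon → ℂ} (H : ∀ p, pairS l (Tp a1 p) = 0) (_ : l (mo 0 0 0) = 0) :
    l (mo 0 0 2) = 0 := by
  linear_combination (-251/336) * E_g21 H + (-47/336) * E_g10 H + (319/336) * E_g02 H + (193/18) * E_c5 H + (7/24) * E_g13 H + (1/8) * E_g32 H + (-359/2016) * E_g43 H + (11/12) * E_g05 H + (-323/18) * E_c2 H + (-13/12) * E_g24 H + (-29/18) * E_c1 H + (-767/2016) * E_g35 H + (1021/2016) * E_g54 H + (-767/2016) * E_n21 H + (1273/2016) * E_n10 H + (-359/2016) * E_n02 H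

theorem Z_003 {l : Mon → ℂ} (H : ∀ p, pairS l (Tp a1 p) = 0) (H0 : l (mo 0 0 0) = 0) :
    l (mo 0 0 3) = 0 := by
  linear_combination (-5/4) * E_g11 H + (-45/16) * E_g14 H + (-15/16) * E_g33 H + (21/16) * E_g44 H + (-5/4) * E_g22 H + (19/16) * E_g00 H + (30) * E_c6 H + (-45/16) * E_g25 H + (9/4) * E_g03 H + (15) * E_c7 H + (5/16) * E_g30 H + (21/16) * E_g55 H + (-5/32) * E_n11 H + (-5/32) * E_n22 H + (3/32) * E_t H - (5/2) * H0

theorem Z_004 {l : Mon → ℂ} (H : ∀ p, pairS l (Tp a1 p) = 0) (_ : l (mo 0 0 0) = 0) :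
    l (mo 0 0 4) = 0 := by
  linear_combination (1/24) * E_g20 H + (1/6) * E_g12 H + (-13/48) * E_g01 H + (10/9) * E_c4 H + (31/48) * E_g15 H + (-85/288) * E_g45 H + (-11/48) * E_g04 H + (-91/18) * E_c3 H + (5/24) * E_g23 H + (-11/9) * E_c0 H + (29/288) * E_g34 H + (-19/288) * E_g53 H + (-85/288) * E_n20 H + (-7/288) * E_n12 H + (-19/288) * E_n01 H

theorem Z_005 {l : Mon → ℂ} (H : ∀ p, pairS l (Tp a1 p) = 0) (_ : l (mo 0 0 0) = 0) :
    l (mo 0 0 5) = 0 := by
  linear_combination (1/6) * E_g21 H + (1/24) * E_g10 H + (-13/48) * E_g02 H + (-91/18) * E_c5 H + (5/24) * E_g13 H + (-19/288) * E_g43 H + (-11/48) * E_g05 H + (10/9) * E_c2 H + (31/48) * E_g24 H + (-11/9) * E_c1 H + (29/288) * E_g35 H + (-85/288) * E_g54 H + (-7/288) * E_n21 H + (-85/288) * E_n10 H + (-19/288) * E_n02 H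

theorem Z_011 {l : Mon → ℂ} (H : ∀ p, pairS l (Tp a1 p) = 0) (_ : l (mo 0 0 0) = 0) :
    l (mo 0 1 1) = 0 := by
  linear_combination (-47/336) * E_g21 H + (319/336) * E_g10 H + (-251/336) * E_g02 H + (-323/18) * E_c5 H + (11/12) * E_g13 H + (-767/2016) * E_g43 H + (-13/12) * E_g05 H + (-29/18) * E_c2 H + (1/8) * E_g40 H + (7/24) * E_g24 H + (193/18) * E_c1 H + (1021/2016) * E_g35 H + (-359/2016) * E_g54 H + (1273/2016) * E_n21 H + (-359/2016) * E_n10 H + (-767/2016) * E_n02 H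

theorem Z_012 {l : Mon → ℂ} (H : ∀ p, pairS l (Tp a1 p) = 0) (H0 : l (mo 0 0 0) = 0) :
    l (mo 0 1 2) = 0 := by
  linear_combination (-569/96) * E_g11 H + (-213/16) * E_g14 H + (-847/192) * E_g33 H + (1193/192) * E_g44 H + (-569/96) * E_g22 H + (1157/192) * E_g00 H + (425/3) * E_c6 H + (-213/16) * E_g25 H + (339/32) * E_g03 H + (425/6) * E_c7 H + (85/64) * E_g30 H + (1193/192) * E_g55 H + (-1/16) * E_n00 H + (-93/128) * E_n11 H + (-93/128) * E_n22 H + (57/128) * E_t H + (-1/6) * E_c9 H - (85/8) * H0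

theorem Z_013 {l : Mon → ℂ} (H : ∀ p, pairS l (Tp a1 p) = 0) (_ : l (mo 0 0 0) = 0) :
    l (mo 0 1 3) = 0 := by
  linear_combination (-31/336) * E_g20 H + (8/21) * E_g12 H + (-59/168) * E_g01 H + (64/9) * E_c4 H + (11/24) * E_g15 H + (-415/2016) * E_g45 H + (-11/48) * E_g04 H + (-23/9) * E_c3 H + (-17/48) * E_g23 H + (-31/18) * E_c0 H + (167/2016) * E_g34 H + (353/2016) * E_g53 H + (-415/2016) * E_n20 H + (167/2016) * E_n12 H + (353/2016) * E_n01 H

theorem Z_014 {l : Mon → ℂ} (H : ∀ p, pairS l (Tp a1 p) = 0) (_ : l (mo 0 0 0) = 0) :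
    l (mo 0 1 4) = 0 := by
  linear_combination (-31/336) * E_g21 H + (-59/168) * E_g10 H + (8/21) * E_g02 H + (64/9) * E_c5 H + (-11/48) * E_g13 H + (167/2016) * E_g43 H + (11/24) * E_g05 H + (-31/18) * E_c2 H + (-17/48) * E_g24 H + (-23/9) * E_c1 H + (-415/2016) * E_g35 H + (353/2016) * E_g54 H + (-415/2016) * E_n21 H + (353/2016) * E_n10 H + (167/2016) * E_n02 H

theorem Z_015 {l : Mon → ℂ} (H : ∀ p, pairS l (Tp a1 p) = 0) (H0 : l (mo 0 0 0) = 0) :
    l (mo 0 1 5) = 0 := by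
  linear_combination (241/96) * E_g11 H + (45/8) * E_g14 H + (383/192) * E_g33 H + (-505/192) * E_g44 H + (265/96) * E_g22 H + (-517/192) * E_g00 H + (-63) * E_c6 H + (99/16) * E_g25 H + (-153/32) * E_g03 H + (-67/2) * E_c7 H + (-37/64) * E_g30 H + (-553/192) * E_g55 H + (37/128) * E_n11 H + (45/128) * E_n22 H + (-25/128) * E_t H - (-37/8) * H0

theorem Z_022 {l : Mon → ℂ} (H : ∀ p, pairS l (Tp a1 p) = 0) (_ : l (mo 0 0 0) = 0) :
    l (mo 0 2 2) = 0 := by
  linear_combination (319/336) * E_g20 H + (-47/336) * E_g12 H + (-251/336) * E_g01 H + (-29/18) * E_c4 H + (7/24) * E_g15 H + (-359/2016) * E_g45 H + (-13/12) * E_g04 H + (-323/18) * E_c3 H + (11/12) * E_g23 H + (193/18) * E_c0 H + (1021/2016) * E_g34 H + (-767/2016) * E_g53 H + (1/8) * E_g50 H + (-359/2016) * E_n20 H + (1273/2016) * E_n12 H + (-767/2016) * E_n01 H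

theorem Z_023 {l : Mon → ℂ} (H : ∀ p, pairS l (Tp a1 p) = 0) (_ : l (mo 0 0 0) = 0) :
    l (mo 0 2 3) = 0 := by
  linear_combination (8/21) * E_g21 H + (-31/336) * E_g10 H + (-59/168) * E_g02 H + (-23/9) * E_c5 H + (-17/48) * E_g13 H + (353/2016) * E_g43 H + (-11/48) * E_g05 H + (64/9) * E_c2 H + (11/24) * E_g24 H + (-31/18) * E_c1 H + (167/2016) * E_g35 H + (-415/2016) * E_g54 H + (167/2016) * E_n21 H + (-415/2016) * E_n10 H + (353/2016) * E_n02 H

theorem Z_024 {l : Mon → ℂ} (H : ∀ p, pairS l (Tp a1 p) = 0) (H0 : l (mo 0 0 0) = 0) :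
    l (mo 0 2 4) = 0 := by
  linear_combination (265/96) * E_g11 H + (99/16) * E_g14 H + (383/192) * E_g33 H + (-553/192) * E_g44 H + (241/96) * E_g22 H + (-517/192) * E_g00 H + (-63) * E_c6 H + (45/8) * E_g25 H + (-153/32) * E_g03 H + (-59/2) * E_c7 H + (-37/64) * E_g30 H + (-505/192) * E_g55 H + (45/128) * E_n11 H + (37/128) * E_n22 H + (-25/128) * E_t H - (-37/8) * H0

theorem Z_025 {l : Mon → ℂ} (H : ∀ p, pairS l (Tp a1 p) = 0) (_ : l (mo 0 0 0) = 0) :
    l (mo 0 2 5) = 0 := by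
  linear_combination (-59/168) * E_g20 H + (-31/336) * E_g12 H + (8/21) * E_g01 H + (-31/18) * E_c4 H + (-17/48) * E_g15 H + (353/2016) * E_g45 H + (11/24) * E_g04 H + (64/9) * E_c3 H + (-11/48) * E_g23 H + (-23/9) * E_c0 H + (-415/2016) * E_g34 H + (167/2016) * E_g53 H + (353/2016) * E_n20 H + (-415/2016) * E_n12 H + (167/2016) * E_n01 H

theorem Z_033 {l : Mon → ℂ} (H : ∀ p, pairS l (Tp a1 p) = 0) (H0 : l (mo 0 0 0) = 0) :
    l (mo 0 3 3) = 0 := by
  linear_combination (133/144) * E_g11 H + (33/16) * E_g14 H + (203/288) * E_g33 H + (-277/288) * E_g44 H + (133/144) * E_g22 H + (-253/288) * E_g00 H + (-22) * E_c6 H + (33/16) * E_g25 H + (-27/16) * E_g03 H + (-11) * E_c7 H + (-7/32) * E_g30 H + (-277/288) * E_g55 H + (7/64) * E_n11 H + (7/64) * E_n22 H + (-13/192) * E_t H - (-7/4) * H0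

theorem Z_034 {l : Mon → ℂ} (H : ∀ p, pairS l (Tp a1 p) = 0) (_ : l (mo 0 0 0) = 0) :
    l (mo 0 3 4) = 0 := by
  linear_combination (11/168) * E_g20 H + (-19/168) * E_g12 H + (1/21) * E_g01 H + (-7/9) * E_c4 H + (-5/24) * E_g15 H + (89/1008) * E_g45 H + (-1/12) * E_g04 H + (8/9) * E_c3 H + (1/24) * E_g23 H + (14/9) * E_c0 H + (41/1008) * E_g34 H + (-25/1008) * E_g53 H + (89/1008) * E_n20 H + (41/1008) * E_n12 H + (-25/1008) * E_n01 H

theorem Z_035 {l : Mon → ℂ} (H : ∀ p, pairS l (Tp a1 p) = 0) (_ : l (mo 0 0 0) = 0) :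
    l (mo 0 3 5) = 0 := by
  linear_combination (-19/168) * E_g21 H + (11/168) * E_g10 H + (1/21) * E_g02 H + (8/9) * E_c5 H + (1/24) * E_g13 H + (-25/1008) * E_g43 H + (-1/12) * E_g05 H + (-7/9) * E_c2 H + (-5/24) * E_g24 H + (14/9) * E_c1 H + (41/1008) * E_g35 H + (89/1008) * E_g54 H + (41/1008) * E_n21 H + (89/1008) * E_n10 H + (-25/1008) * E_n02 H

theorem Z_044 {l : Mon → ℂ} (H : ∀ p, pairS l (Tp a1 p) = 0) (_ : l (mo 0 0 0) = 0) :
    l (mo 0 4 4) = 0 := by
  linear_combination (25/336) * E_g21 H + (4/21) * E_g10 H + (-17/84) * E_g02 H + (-34/9) * E_c5 H + (5/48) * E_g13 H + (-71/2016) * E_g43 H + (-5/24) * E_g05 H + (19/18) * E_c2 H + (11/48) * E_g24 H + (8/9) * E_c1 H + (187/2016) * E_g35 H + (-221/2016) * E_g54 H + (187/2016) * E_n21 H + (-221/2016) * E_n10 H + (-71/2016) * E_n02 H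

theorem Z_045 {l : Mon → ℂ} (H : ∀ p, pairS l (Tp a1 p) = 0) (H0 : l (mo 0 0 0) = 0) :
    l (mo 0 4 5) = 0 := by
  linear_combination (-43/36) * E_g11 H + (-21/8) * E_g14 H + (-17/18) * E_g33 H + (11/9) * E_g44 H + (-43/36) * E_g22 H + (91/72) * E_g00 H + (28) * E_c6 H + (-21/8) * E_g25 H + (9/4) * E_g03 H + (14) * E_c7 H + (1/4) * E_g30 H + (11/9) * E_g55 H + (-1/8) * E_n11 H + (-1/8) * E_n22 H + (1/12) * E_t H - (2) * H0

theorem Z_055 {l : Mon → ℂ} (H : ∀ p, pairS l (Tp a1 p) = 0) (_ : l (mo 0 0 0) = 0) :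
    l (mo 0 5 5) = 0 := by
  linear_combination (4/21) * E_g20 H + (25/336) * E_g12 H + (-17/84) * E_g01 H + (19/18) * E_c4 H + (11/48) * E_g15 H + (-221/2016) * E_g45 H + (-5/24) * E_g04 H + (-34/9) * E_c3 H + (5/48) * E_g23 H + (8/9) * E_c0 H + (187/2016) * E_g34 H + (-71/2016) * E_g53 H + (-221/2016) * E_n20 H + (187/2016) * E_n12 H + (-71/2016) * E_n01 H

theorem Z_111 {l : Mon → ℂ} (H : ∀ p, pairS l (Tp a1 p) = 0) (H0 : l (mo 0 0 0) = 0) :
    l (mo 1 1 1) = 0 := by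
  linear_combination (9/8) * E_g11 H + (9/4) * E_g14 H + (1) * E_g33 H + (-1) * E_g44 H + (-9/8) * E_g00 H + (-20) * E_c6 H + (-9/4) * E_g03 H + (-1/8) * E_g30 H + (1/8) * E_g41 H + (-1/16) * E_n00 H + (1/16) * E_n11 H - (-1) * H0

theorem Z_112 {l : Mon → ℂ} (H : ∀ p, pairS l (Tp a1 p) = 0) (_ : l (mo 0 0 0) = 0) :
    l (mo 1 1 2) = 0 := by
  linear_combination (-251/336) * E_g20 H + (319/336) * E_g12 H + (-47/336) * E_g01 H + (193/18) * E_c4 H + (11/12) * E_g15 H + (-767/2016) * E_g45 H + (7/24) * E_g04 H + (-29/18) * E_c3 H + (1/8) * E_g42 H + (-13/12) * E_g23 H + (-323/18) * E_c0 H + (-359/2016) * E_g34 H + (1021/2016) * E_g53 H + (-767/2016) * E_n20 H + (-359/2016) * E_n12 H + (1273/2016) * E_n01 H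

theorem Z_113 {l : Mon → ℂ} (H : ∀ p, pairS l (Tp a1 p) = 0) (_ : l (mo 0 0 0) = 0) :
    l (mo 1 1 3) = 0 := by
  linear_combination (1/24) * E_g21 H + (-13/48) * E_g10 H + (1/6) * E_g02 H + (10/9) * E_c5 H + (-11/48) * E_g13 H + (29/288) * E_g43 H + (31/48) * E_g05 H + (-11/9) * E_c2 H + (5/24) * E_g24 H + (-91/18) * E_c1 H + (-85/288) * E_g35 H + (-19/288) * E_g54 H + (-85/288) * E_n21 H + (-19/288) * E_n10 H + (-7/288) * E_n02 H

theorem Z_114 {l : Mon → ℂ} (H : ∀ p, pairS l (Tp a1 p) = 0) (H0 : l (mo 0 0 0) = 0) :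
    l (mo 1 1 4) = 0 := by
  linear_combination (-13/8) * E_g11 H + (-27/8) * E_g14 H + (-19/16) * E_g33 H + (25/16) * E_g44 H + (-5/4) * E_g22 H + (25/16) * E_g00 H + (35) * E_c6 H + (-45/16) * E_g25 H + (45/16) * E_g03 H + (15) * E_c7 H + (5/16) * E_g30 H + (21/16) * E_g55 H + (-5/32) * E_n11 H + (-5/32) * E_n22 H + (3/32) * E_t H - (5/2) * H0

theorem Z_115 {l : Mon → ℂ} (H : ∀ p, pairS l (Tp a1 p) = 0) (_ : l (mo 0 0 0) = 0) :
    l (mo 1 1 5) = 0 := by
  linear_combination (1/6) * E_g20 H + (-13/48) * E_g12 H + (1/24) * E_g01 H + (-91/18) * E_c4 H + (-11/48) * E_g15 H + (29/288) * E_g45 H + (5/24) * E_g04 H + (-11/9) * E_c3 H + (31/48) * E_g23 H + (10/9) * E_c0 H + (-19/288) * E_g34 H + (-85/288) * E_g53 H + (-7/288) * E_n20 H + (-19/288) * E_n12 H + (-85/288) * E_n01 H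

theorem Z_122 {l : Mon → ℂ} (H : ∀ p, pairS l (Tp a1 p) = 0) (_ : l (mo 0 0 0) = 0) :
    l (mo 1 2 2) = 0 := by
  linear_combination (319/336) * E_g21 H + (-251/336) * E_g10 H + (-47/336) * E_g02 H + (-29/18) * E_c5 H + (-13/12) * E_g13 H + (1021/2016) * E_g43 H + (7/24) * E_g05 H + (193/18) * E_c2 H + (11/12) * E_g24 H + (-323/18) * E_c1 H + (-359/2016) * E_g35 H + (-767/2016) * E_g54 H + (1/8) * E_g51 H + (-359/2016) * E_n21 H + (-767/2016) * E_n10 H + (1273/2016) * E_n02 H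

theorem Z_123 {l : Mon → ℂ} (H : ∀ p, pairS l (Tp a1 p) = 0) (H0 : l (mo 0 0 0) = 0) :
    l (mo 1 2 3) = 0 := by
  linear_combination (241/96) * E_g11 H + (45/8) * E_g14 H + (335/192) * E_g33 H + (-505/192) * E_g44 H + (241/96) * E_g22 H + (-469/192) * E_g00 H + (-59) * E_c6 H + (45/8) * E_g25 H + (-135/32) * E_g03 H + (-59/2) * E_c7 H + (-37/64) * E_g30 H + (-505/192) * E_g55 H + (1/16) * E_n00 H + (37/128) * E_n11 H + (37/128) * E_n22 H + (-25/128) * E_t H - (-37/8) * H0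

theorem Z_124 {l : Mon → ℂ} (H : ∀ p, pairS l (Tp a1 p) = 0) (_ : l (mo 0 0 0) = 0) :
    l (mo 1 2 4) = 0 := by
  linear_combination (8/21) * E_g20 H + (-59/168) * E_g12 H + (-31/336) * E_g01 H + (-23/9) * E_c4 H + (-11/48) * E_g15 H + (167/2016) * E_g45 H + (-17/48) * E_g04 H + (-31/18) * E_c3 H + (11/24) * E_g23 H + (64/9) * E_c0 H + (353/2016) * E_g34 H + (-415/2016) * E_g53 H + (167/2016) * E_n20 H + (353/2016) * E_n12 H + (-415/2016) * E_n01 H

theorem Z_125 {l : Mon → ℂ} (H : ∀ p, pairS l (Tp a1 p) = 0) (_ : l (mo 0 0 0) = 0) :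
    l (mo 1 2 5) = 0 := by
  linear_combination (-59/168) * E_g21 H + (8/21) * E_g10 H + (-31/336) * E_g02 H + (-31/18) * E_c5 H + (11/24) * E_g13 H + (-415/2016) * E_g43 H + (-17/48) * E_g05 H + (-23/9) * E_c2 H + (-11/48) * E_g24 H + (64/9) * E_c1 H + (353/2016) * E_g35 H + (167/2016) * E_g54 H + (353/2016) * E_n21 H + (167/2016) * E_n10 H + (-415/2016) * E_n02 H

theorem Z_133 {l : Mon → ℂ} (H : ∀ p, pairS l (Tp a1 p) = 0) (_ : l (mo 0 0 0) = 0) :
    l (mo 1 3 3) = 0 := by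
  linear_combination (25/336) * E_g20 H + (-17/84) * E_g12 H + (4/21) * E_g01 H + (-34/9) * E_c4 H + (-5/24) * E_g15 H + (187/2016) * E_g45 H + (5/48) * E_g04 H + (8/9) * E_c3 H + (11/48) * E_g23 H + (19/18) * E_c0 H + (-71/2016) * E_g34 H + (-221/2016) * E_g53 H + (187/2016) * E_n20 H + (-71/2016) * E_n12 H + (-221/2016) * E_n01 H

theorem Z_134 {l : Mon → ℂ} (H : ∀ p, pairS l (Tp a1 p) = 0) (_ : l (mo 0 0 0) = 0) :
    l (mo 1 3 4) = 0 := by
  linear_combination (11/168) * E_g21 H + (1/21) * E_g10 H + (-19/168) * E_g02 H + (-7/9) * E_c5 H + (-1/12) * E_g13 H + (41/1008) * E_g43 H + (-5/24) * E_g05 H + (14/9) * E_c2 H + (1/24) * E_g24 H + (8/9) * E_c1 H + (89/1008) * E_g35 H + (-25/1008) * E_g54 H + (89/1008) * E_n21 H + (-25/1008) * E_n10 H + (41/1008) * E_n02 H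

theorem Z_135 {l : Mon → ℂ} (H : ∀ p, pairS l (Tp a1 p) = 0) (H0 : l (mo 0 0 0) = 0) :
    l (mo 1 3 5) = 0 := by
  linear_combination (-71/72) * E_g11 H + (-9/4) * E_g14 H + (-7/9) * E_g33 H + (19/18) * E_g44 H + (-43/36) * E_g22 H + (19/18) * E_g00 H + (26) * E_c6 H + (-21/8) * E_g25 H + (15/8) * E_g03 H + (14) * E_c7 H + (1/4) * E_g30 H + (11/9) * E_g55 H + (-1/8) * E_n11 H + (-1/8) * E_n22 H + (1/12) * E_t H - (2) * H0

theorem Z_144 {l : Mon → ℂ} (H : ∀ p, pairS l (Tp a1 p) = 0) (H0 : l (mo 0 0 0) = 0) :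
    l (mo 1 4 4) = 0 := by
  linear_combination (157/144) * E_g11 H + (9/4) * E_g14 H + (227/288) * E_g33 H + (-301/288) * E_g44 H + (133/144) * E_g22 H + (-301/288) * E_g00 H + (-24) * E_c6 H + (33/16) * E_g25 H + (-15/8) * E_g03 H + (-11) * E_c7 H + (-7/32) * E_g30 H + (-277/288) * E_g55 H + (7/64) * E_n11 H + (7/64) * E_n22 H + (-13/192) * E_t H - (-7/4) * H0

theorem Z_145 {l : Mon → ℂ} (H : ∀ p, pairS l (Tp a1 p) = 0) (_ : l (mo 0 0 0) = 0) :
    l (mo 1 4 5) = 0 := by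
  linear_combination (-19/168) * E_g20 H + (1/21) * E_g12 H + (11/168) * E_g01 H + (8/9) * E_c4 H + (-1/12) * E_g15 H + (41/1008) * E_g45 H + (1/24) * E_g04 H + (14/9) * E_c3 H + (-5/24) * E_g23 H + (-7/9) * E_c0 H + (-25/1008) * E_g34 H + (89/1008) * E_g53 H + (41/1008) * E_n20 H + (-25/1008) * E_n12 H + (89/1008) * E_n01 H

theorem Z_155 {l : Mon → ℂ} (H : ∀ p, pairS l (Tp a1 p) = 0) (_ : l (mo 0 0 0) = 0) :
    l (mo 1 5 5) = 0 := by
  linear_combination (4/21) * E_g21 H + (-17/84) * E_g10 H + (25/336) * E_g02 H + (19/18) * E_c5 H + (-5/24) * E_g13 H + (187/2016) * E_g43 H + (11/48) * E_g05 H + (8/9) * E_c2 H + (5/48) * E_g24 H + (-34/9) * E_c1 H + (-221/2016) * E_g35 H + (-71/2016) * E_g54 H + (-221/2016) * E_n21 H + (-71/2016) * E_n10 H + (187/2016) * E_n02 H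

theorem Z_222 {l : Mon → ℂ} (H : ∀ p, pairS l (Tp a1 p) = 0) (H0 : l (mo 0 0 0) = 0) :
    l (mo 2 2 2) = 0 := by
  linear_combination (1) * E_g33 H + (9/8) * E_g22 H + (-9/8) * E_g00 H + (-20) * E_c6 H + (9/4) * E_g25 H + (-9/4) * E_g03 H + (-20) * E_c7 H + (-1/8) * E_g30 H + (1/8) * E_g52 H + (-1) * E_g55 H + (-1/16) * E_n00 H + (1/16) * E_n22 H - (-1) * H0

theorem Z_223 {l : Mon → ℂ} (H : ∀ p, pairS l (Tp a1 p) = 0) (_ : l (mo 0 0 0) = 0) :
    l (mo 2 2 3) = 0 := by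
  linear_combination (-13/48) * E_g20 H + (1/24) * E_g12 H + (1/6) * E_g01 H + (-11/9) * E_c4 H + (5/24) * E_g15 H + (-19/288) * E_g45 H + (31/48) * E_g04 H + (10/9) * E_c3 H + (-11/48) * E_g23 H + (-91/18) * E_c0 H + (-85/288) * E_g34 H + (29/288) * E_g53 H + (-19/288) * E_n20 H + (-85/288) * E_n12 H + (-7/288) * E_n01 H

theorem Z_224 {l : Mon → ℂ} (H : ∀ p, pairS l (Tp a1 p) = 0) (_ : l (mo 0 0 0) = 0) :
    l (mo 2 2 4) = 0 := by
  linear_combination (-13/48) * E_g21 H + (1/6) * E_g10 H + (1/24) * E_g02 H + (-11/9) * E_c5 H + (31/48) * E_g13 H + (-85/288) * E_g43 H + (5/24) * E_g05 H + (-91/18) * E_c2 H + (-11/48) * E_g24 H + (10/9) * E_c1 H + (-19/288) * E_g35 H + (29/288) * E_g54 H + (-19/288) * E_n21 H + (-7/288) * E_n10 H + (-85/288) * E_n02 H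

theorem Z_225 {l : Mon → ℂ} (H : ∀ p, pairS l (Tp a1 p) = 0) (H0 : l (mo 0 0 0) = 0) :
    l (mo 2 2 5) = 0 := by
  linear_combination (-5/4) * E_g11 H + (-45/16) * E_g14 H + (-19/16) * E_g33 H + (21/16) * E_g44 H + (-13/8) * E_g22 H + (25/16) * E_g00 H + (35) * E_c6 H + (-27/8) * E_g25 H + (45/16) * E_g03 H + (20) * E_c7 H + (5/16) * E_g30 H + (25/16) * E_g55 H + (-5/32) * E_n11 H + (-5/32) * E_n22 H + (3/32) * E_t H - (5/2) * H0

theorem Z_233 {l : Mon → ℂ} (H : ∀ p, pairS l (Tp a1 p) = 0) (_ : l (mo 0 0 0) = 0) :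
    l (mo 2 3 3) = 0 := by
  linear_combination (-17/84) * E_g21 H + (25/336) * E_g10 H + (4/21) * E_g02 H + (8/9) * E_c5 H + (11/48) * E_g13 H + (-221/2016) * E_g43 H + (5/48) * E_g05 H + (-34/9) * E_c2 H + (-5/24) * E_g24 H + (19/18) * E_c1 H + (-71/2016) * E_g35 H + (187/2016) * E_g54 H + (-71/2016) * E_n21 H + (187/2016) * E_n10 H + (-221/2016) * E_n02 H

theorem Z_234 {l : Mon → ℂ} (H : ∀ p, pairS l (Tp a1 p) = 0) (H0 : l (mo 0 0 0) = 0) :
    l (mo 2 3 4) = 0 := by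
  linear_combination (-43/36) * E_g11 H + (-21/8) * E_g14 H + (-7/9) * E_g33 H + (11/9) * E_g44 H + (-71/72) * E_g22 H + (19/18) * E_g00 H + (26) * E_c6 H + (-9/4) * E_g25 H + (15/8) * E_g03 H + (12) * E_c7 H + (1/4) * E_g30 H + (19/18) * E_g55 H + (-1/8) * E_n11 H + (-1/8) * E_n22 H + (1/12) * E_t H - (2) * H0

theorem Z_235 {l : Mon → ℂ} (H : ∀ p, pairS l (Tp a1 p) = 0) (_ : l (mo 0 0 0) = 0) :
    l (mo 2 3 5) = 0 := by
  linear_combination (1/21) * E_g20 H + (11/168) * E_g12 H + (-19/168) * E_g01 H + (14/9) * E_c4 H + (1/24) * E_g15 H + (-25/1008) * E_g45 H + (-5/24) * E_g04 H + (-7/9) * E_c3 H + (-1/12) * E_g23 H + (8/9) * E_c0 H + (89/1008) * E_g34 H + (41/1008) * E_g53 H + (-25/1008) * E_n20 H + (89/1008) * E_n12 H + (41/1008) * E_n01 H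

theorem Z_244 {l : Mon → ℂ} (H : ∀ p, pairS l (Tp a1 p) = 0) (_ : l (mo 0 0 0) = 0) :
    l (mo 2 4 4) = 0 := by
  linear_combination (-17/84) * E_g20 H + (4/21) * E_g12 H + (25/336) * E_g01 H + (8/9) * E_c4 H + (5/48) * E_g15 H + (-71/2016) * E_g45 H + (11/48) * E_g04 H + (19/18) * E_c3 H + (-5/24) * E_g23 H + (-34/9) * E_c0 H + (-221/2016) * E_g34 H + (187/2016) * E_g53 H + (-71/2016) * E_n20 H + (-221/2016) * E_n12 H + (187/2016) * E_n01 H

theorem Z_245 {l : Mon → ℂ} (H : ∀ p, pairS l (Tp a1 p) = 0) (_ : l (mo 0 0 0) = 0) :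
    l (mo 2 4 5) = 0 := by
  linear_combination (1/21) * E_g21 H + (-19/168) * E_g10 H + (11/168) * E_g02 H + (14/9) * E_c5 H + (-5/24) * E_g13 H + (89/1008) * E_g43 H + (1/24) * E_g05 H + (8/9) * E_c2 H + (-1/12) * E_g24 H + (-7/9) * E_c1 H + (-25/1008) * E_g35 H + (41/1008) * E_g54 H + (-25/1008) * E_n21 H + (41/1008) * E_n10 H + (89/1008) * E_n02 H

theorem Z_255 {l : Mon → ℂ} (H : ∀ p, pairS l (Tp a1 p) = 0) (H0 : l (mo 0 0 0) = 0) :
    l (mo 2 5 5) = 0 := by
  linear_combination (133/144) * E_g11 H + (33/16) * E_g14 H + (227/288) * E_g33 H + (-277/288) * E_g44 H + (157/144) * E_g22 H + (-301/288) * E_g00 H + (-24) * E_c6 H + (9/4) * E_g25 H + (-15/8) * E_g03 H + (-13) * E_c7 H + (-7/32) * E_g30 H + (-301/288) * E_g55 H + (7/64) * E_n11 H + (7/64) * E_n22 H + (-13/192) * E_t H - (-7/4) * H0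

theorem Z_333 {l : Mon → ℂ} (H : ∀ p, pairS l (Tp a1 p) = 0) (H0 : l (mo 0 0 0) = 0) :
    l (mo 3 3 3) = 0 := by
  linear_combination (-19/36) * E_g11 H + (-19/16) * E_g14 H + (-29/72) * E_g33 H + (5/9) * E_g44 H + (-19/36) * E_g22 H + (37/72) * E_g00 H + (38/3) * E_c6 H + (-19/16) * E_g25 H + (1) * E_g03 H + (19/3) * E_c7 H + (1/8) * E_g30 H + (5/9) * E_g55 H + (-1/16) * E_n11 H + (-1/16) * E_n22 H + (1/24) * E_t H - (1) * H0

theorem Z_334 {l : Mon → ℂ} (H : ∀ p, pairS l (Tp a1 p) = 0) (_ : l (mo 0 0 0) = 0) :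
    l (mo 3 3 4) = 0 := by
  linear_combination (-1/21) * E_g20 H + (5/84) * E_g12 H + (-1/84) * E_g01 H + (4/9) * E_c4 H + (1/12) * E_g15 H + (-19/504) * E_g45 H + (1/12) * E_g04 H + (-2/9) * E_c3 H + (-1/24) * E_g23 H + (-8/9) * E_c0 H + (-13/504) * E_g34 H + (11/504) * E_g53 H + (-19/504) * E_n20 H + (-13/504) * E_n12 H + (11/504) * E_n01 H

theorem Z_335 {l : Mon → ℂ} (H : ∀ p, pairS l (Tp a1 p) = 0) (_ : l (mo 0 0 0) = 0) :
    l (mo 3 3 5) = 0 := by
  linear_combination (5/84) * E_g21 H + (-1/21) * E_g10 H + (-1/84) * E_g02 H + (-2/9) * E_c5 H + (-1/24) * E_g13 H + (11/504) * E_g43 H + (1/12) * E_g05 H + (4/9) * E_c2 H + (1/12) * E_g24 H + (-8/9) * E_c1 H + (-13/504) * E_g35 H + (-19/504) * E_g54 H + (-13/504) * E_n21 H + (-19/504) * E_n10 H + (11/504) * E_n02 H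

theorem Z_344 {l : Mon → ℂ} (H : ∀ p, pairS l (Tp a1 p) = 0) (_ : l (mo 0 0 0) = 0) :
    l (mo 3 4 4) = 0 := by
  linear_combination (-1/21) * E_g21 H + (-1/84) * E_g10 H + (5/84) * E_g02 H + (4/9) * E_c5 H + (1/12) * E_g13 H + (-13/504) * E_g43 H + (1/12) * E_g05 H + (-8/9) * E_c2 H + (-1/24) * E_g24 H + (-2/9) * E_c1 H + (-19/504) * E_g35 H + (11/504) * E_g54 H + (-19/504) * E_n21 H + (11/504) * E_n10 H + (-13/504) * E_n02 H

theorem Z_345 {l : Mon → ℂ} (H : ∀ p, pairS l (Tp a1 p) = 0) (H0 : l (mo 0 0 0) = 0) :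
    l (mo 3 4 5) = 0 := by
  linear_combination (19/72) * E_g11 H + (5/8) * E_g14 H + (29/144) * E_g33 H + (-43/144) * E_g44 H + (19/72) * E_g22 H + (-43/144) * E_g00 H + (-20/3) * E_c6 H + (5/8) * E_g25 H + (-1/2) * E_g03 H + (-10/3) * E_c7 H + (-1/16) * E_g30 H + (-43/144) * E_g55 H + (1/32) * E_n11 H + (1/32) * E_n22 H + (-1/32) * E_t H - (-1/2) * H0

theorem Z_355 {l : Mon → ℂ} (H : ∀ p, pairS l (Tp a1 p) = 0) (_ : l (mo 0 0 0) = 0) :
    l (mo 3 5 5) = 0 := by
  linear_combination (-1/84) * E_g20 H + (-1/21) * E_g12 H + (5/84) * E_g01 H + (-8/9) * E_c4 H + (-1/24) * E_g15 H + (11/504) * E_g45 H + (1/12) * E_g04 H + (4/9) * E_c3 H + (1/12) * E_g23 H + (-2/9) * E_c0 H + (-19/504) * E_g34 H + (-13/504) * E_g53 H + (11/504) * E_n20 H + (-19/504) * E_n12 H + (-13/504) * E_n01 H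

theorem Z_444 {l : Mon → ℂ} (H : ∀ p, pairS l (Tp a1 p) = 0) (H0 : l (mo 0 0 0) = 0) :
    l (mo 4 4 4) = 0 := by
  linear_combination (-11/18) * E_g11 H + (-5/4) * E_g14 H + (-4/9) * E_g33 H + (43/72) * E_g44 H + (-19/36) * E_g22 H + (43/72) * E_g00 H + (41/3) * E_c6 H + (-19/16) * E_g25 H + (17/16) * E_g03 H + (19/3) * E_c7 H + (1/8) * E_g30 H + (5/9) * E_g55 H + (-1/16) * E_n11 H + (-1/16) * E_n22 H + (1/24) * E_t H - (1) * H0

theorem Z_445 {l : Mon → ℂ} (H : ∀ p, pairS l (Tp a1 p) = 0) (_ : l (mo 0 0 0) = 0) :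
    l (mo 4 4 5) = 0 := by
  linear_combination (5/84) * E_g20 H + (-1/84) * E_g12 H + (-1/21) * E_g01 H + (-2/9) * E_c4 H + (1/12) * E_g15 H + (-13/504) * E_g45 H + (-1/24) * E_g04 H + (-8/9) * E_c3 H + (1/12) * E_g23 H + (4/9) * E_c0 H + (11/504) * E_g34 H + (-19/504) * E_g53 H + (-13/504) * E_n20 H + (11/504) * E_n12 H + (-19/504) * E_n01 H

theorem Z_455 {l : Mon → ℂ} (H : ∀ p, pairS l (Tp a1 p) = 0) (_ : l (mo 0 0 0) = 0) :
    l (mo 4 5 5) = 0 := by
  linear_combination (-1/84) * E_g21 H + (5/84) * E_g10 H + (-1/21) * E_g02 H + (-8/9) * E_c5 H + (1/12) * E_g13 H + (-19/504) * E_g43 H + (-1/24) * E_g05 H + (-2/9) * E_c2 H + (1/12) * E_g24 H + (4/9) * E_c1 H + (11/504) * E_g35 H + (-13/504) * E_g54 H + (11/504) * E_n21 H + (-13/504) * E_n10 H + (-19/504) * E_n02 H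

theorem Z_555 {l : Mon → ℂ} (H : ∀ p, pairS l (Tp a1 p) = 0) (H0 : l (mo 0 0 0) = 0) :
    l (mo 5 5 5) = 0 := by
  linear_combination (-19/36) * E_g11 H + (-19/16) * E_g14 H + (-4/9) * E_g33 H + (5/9) * E_g44 H + (-11/18) * E_g22 H + (43/72) * E_g00 H + (41/3) * E_c6 H + (-5/4) * E_g25 H + (17/16) * E_g03 H + (22/3) * E_c7 H + (1/8) * E_g30 H + (43/72) * E_g55 H + (-1/16) * E_n11 H + (-1/16) * E_n22 H + (1/24) * E_t H - (1) * H0

/-- all values on ordered monomials vanish -/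
theorem Z_all {l : Mon → ℂ} (H : ∀ p, pairS l (Tp a1 p) = 0) (H0 : l (mo 0 0 0) = 0) (i j k : Fin 6)
    (hij : i ≤ j) (hjk : j ≤ k) : l (mo i j k) = 0 := by
  fin_cases i <;> fin_cases j <;> fin_cases k
  · exact H0
  · exact Z_001 H H0
  · exact Z_002 H H0
  · exact Z_003 H H0
  · exact Z_004 H H0
  · exact Z_005 H H0
  · exact absurd hjk (by decide)
  · exact Z_011 H H0
  · exact Z_012 H H0
  · exact Z_013 H H0
  · exact Z_014 H H0
  · exact Z_015 H H0
  · exact absurd hjk (by decide)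
  · exact absurd hjk (by decide)
  · exact Z_022 H H0
  · exact Z_023 H H0
  · exact Z_024 H H0
  · exact Z_025 H H0
  · exact absurd hjk (by decide)
  · exact absurd hjk (by decide)
  · exact absurd hjk (by decide)
  · exact Z_033 H H0
  · exact Z_034 H H0
  · exact Z_035 H H0
  · exact absurd hjk (by decide)
  · exact absurd hjk (by decide)
  · exact absurd hjk (by decide)
  · exact absurd hjk (by decide)
  · exact Z_044 H H0
  · exact Z_045 H H0
  · exact absurd hjk (by decide)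
  · exact absurd hjk (by decide)
  · exact absurd hjk (by decide)
  · exact absurd hjk (by decide)
  · exact absurd hjk (by decide)
  · exact Z_055 H H0
  · exact absurd hij (by decide)
  · exact absurd hij (by decide)
  · exact absurd hij (by decide)
  · exact absurd hij (by decide)
  · exact absurd hij (by decide)
  · exact absurd hij (by decide)
  · exact absurd hjk (by decide)
  · exact Z_111 H H0
  · exact Z_112 H H0
  · exact Z_113 H H0
  · exact Z_114 H H0
  · exact Z_115 H H0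
  · exact absurd hjk (by decide)
  · exact absurd hjk (by decide)
  · exact Z_122 H H0
  · exact Z_123 H H0
  · exact Z_124 H H0
  · exact Z_125 H H0
  · exact absurd hjk (by decide)
  · exact absurd hjk (by decide)
  · exact absurd hjk (by decide)
  · exact Z_133 H H0
  · exact Z_134 H H0
  · exact Z_135 H H0
  · exact absurd hjk (by decide)
  · exact absurd hjk (by decide)
  · exact absurd hjk (by decide)
  · exact absurd hjk (by decide)
  · exact Z_144 H H0
  · exact Z_145 H H0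
  · exact absurd hjk (by decide)
  · exact absurd hjk (by decide)
  · exact absurd hjk (by decide)
  · exact absurd hjk (by decide)
  · exact absurd hjk (by decide)
  · exact Z_155 H H0
  · exact absurd hij (by decide)
  · exact absurd hij (by decide)
  · exact absurd hij (by decide)
  · exact absurd hij (by decide)
  · exact absurd hij (by decide)
  · exact absurd hij (by decide)
  · exact absurd hij (by decide)
  · exact absurd hij (by decide)
  · exact absurd hij (by decide)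
  · exact absurd hij (by decide)
  · exact absurd hij (by decide)
  · exact absurd hij (by decide)
  · exact absurd hjk (by decide)
  · exact absurd hjk (by decide)
  · exact Z_222 H H0
  · exact Z_223 H H0
  · exact Z_224 H H0
  · exact Z_225 H H0
  · exact absurd hjk (by decide)
  · exact absurd hjk (by decide)
  · exact absurd hjk (by decide)
  · exact Z_233 H H0
  · exact Z_234 H H0
  · exact Z_235 H H0
  · exact absurd hjk (by decide)
  · exact absurd hjk (by decide)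
  · exact absurd hjk (by decide)
  · exact absurd hjk (by decide)
  · exact Z_244 H H0
  · exact Z_245 H H0
  · exact absurd hjk (by decide)
  · exact absurd hjk (by decide)
  · exact absurd hjk (by decide)
  · exact absurd hjk (by decide)
  · exact absurd hjk (by decide)
  · exact Z_255 H H0
  · exact absurd hij (by decide)
  · exact absurd hij (by decide)
  · exact absurd hij (by decide)
  · exact absurd hij (by decide)
  · exact absurd hij (by decide)
  · exact absurd hij (by decide)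
  · exact absurd hij (by decide)
  · exact absurd hij (by decide)
  · exact absurd hij (by decide)
  · exact absurd hij (by decide)
  · exact absurd hij (by decide)
  · exact absurd hij (by decide)
  · exact absurd hij (by decide)
  · exact absurd hij (by decide)
  · exact absurd hij (by decide)
  · exact absurd hij (by decide)
  · exact absurd hij (by decide)
  · exact absurd hij (by decide)
  · exact absurd hjk (by decide)
  · exact absurd hjk (by decide)
  · exact absurd hjk (by decide)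
  · exact Z_333 H H0
  · exact Z_334 H H0
  · exact Z_335 H H0
  · exact absurd hjk (by decide)
  · exact absurd hjk (by decide)
  · exact absurd hjk (by decide)
  · exact absurd hjk (by decide)
  · exact Z_344 H H0
  · exact Z_345 H H0
  · exact absurd hjk (by decide)
  · exact absurd hjk (by decide)
  · exact absurd hjk (by decide)
  · exact absurd hjk (by decide)
  · exact absurd hjk (by decide)
  · exact Z_355 H H0
  · exact absurd hij (by decide)
  · exact absurd hij (by decide)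
  · exact absurd hij (by decide)
  · exact absurd hij (by decide)
  · exact absurd hij (by decide)
  · exact absurd hij (by decide)
  · exact absurd hij (by decide)
  · exact absurd hij (by decide)
  · exact absurd hij (by decide)
  · exact absurd hij (by decide)
  · exact absurd hij (by decide)
  · exact absurd hij (by decide)
  · exact absurd hij (by decide)
  · exact absurd hij (by decide)
  · exact absurd hij (by decide)
  · exact absurd hij (by decide)
  · exact absurd hij (by decide)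
  · exact absurd hij (by decide)
  · exact absurd hij (by decide)
  · exact absurd hij (by decide)
  · exact absurd hij (by decide)
  · exact absurd hij (by decide)
  · exact absurd hij (by decide)
  · exact absurd hij (by decide)
  · exact absurd hjk (by decide)
  · exact absurd hjk (by decide)
  · exact absurd hjk (by decide)
  · exact absurd hjk (by decide)
  · exact Z_444 H H0
  · exact Z_445 H H0
  · exact absurd hjk (by decide)
  · exact absurd hjk (by decide)
  · exact absurd hjk (by decide)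
  · exact absurd hjk (by decide)
  · exact absurd hjk (by decide)
  · exact Z_455 H H0
  · exact absurd hij (by decide)
  · exact absurd hij (by decide)
  · exact absurd hij (by decide)
  · exact absurd hij (by decide)
  · exact absurd hij (by decide)
  · exact absurd hij (by decide)
  · exact absurd hij (by decide)
  · exact absurd hij (by decide)
  · exact absurd hij (by decide)
  · exact absurd hij (by decide)
  · exact absurd hij (by decide)
  · exact absurd hij (by decide)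
  · exact absurd hij (by decide)
  · exact absurd hij (by decide)
  · exact absurd hij (by decide)
  · exact absurd hij (by decide)
  · exact absurd hij (by decide)
  · exact absurd hij (by decide)
  · exact absurd hij (by decide)
  · exact absurd hij (by decide)
  · exact absurd hij (by decide)
  · exact absurd hij (by decide)
  · exact absurd hij (by decide)
  · exact absurd hij (by decide)
  · exact absurd hij (by decide)
  · exact absurd hij (by decide)
  · exact absurd hij (by decide)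
  · exact absurd hij (by decide)
  · exact absurd hij (by decide)
  · exact absurd hij (by decide)
  · exact absurd hjk (by decide)
  · exact absurd hjk (by decide)
  · exact absurd hjk (by decide)
  · exact absurd hjk (by decide)
  · exact absurd hjk (by decide)
  · exact Z_555 H H0

end Pool.Agent.ENR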