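import Pool.Agent.ENR.Rank7
import Pool.Agent.ENR.Jac
import Pool.Agent.ENR.Gauss2
import Pool.Agent.ENR.Dep

/-! 55 of the 56 coefficients are algebraically independent; the ideal of relations is principal -/

namespace Pool.Agent.ENR

theorem mo_swap1 (i j k : Fin 6) : mo i j k = mo j i k :=
  Subtype.ext (Multiset.cons_swap i j {k})

theorem mo_swap2 (i j k : Fin 6) : mo i j k = mo i k j := by
  apply Subtype.ext
  show i ::ₘ j ::ₘ {k} = i ::ₘ k ::ₘ {j}
  congr 1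
  exact Multiset.cons_swap j k 0

theorem mo_exists (s : Mon) : ∃ i j k, i ≤ j ∧ j ≤ k ∧ s = mo i j k := by
  obtain ⟨m, hm⟩ := s
  obtain ⟨x, y, z, rfl⟩ := Multiset.card_eq_three.mp hm
  have h0 : (⟨{x, y, z}, hm⟩ : Mon) = mo x y z := rfl
  rw [h0]
  rcases le_total x y with h1 | h1 <;> rcases le_total y z with h2 | h2 <;> rcases le_total x z with h3 | h3
  · exact ⟨x, y, z, h1, h2, rfl⟩
  · exact ⟨x, y, z, h1, h2, rfl⟩
  · exact ⟨x, z, y, h3, h2, mo_swap2 _ _ _⟩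
  · exact ⟨z, x, y, h3, h1, by rw [mo_swap2, mo_swap1]⟩
  · exact ⟨y, x, z, h1, h3, mo_swap1 _ _ _⟩
  · exact ⟨y, z, x, h2, h3, by rw [mo_swap1, mo_swap2]⟩
  · exact ⟨y, x, z, h1, h3, mo_swap1 _ _ _⟩
  · exact ⟨z, y, x, h2, h1, by rw [mo_swap1, mo_swap2, mo_swap1]⟩

theorem l_zero {l : Mon → ℂ} (H : ∀ p, pairS l (Tp a1 p) = 0) (H0 : l (mo 0 0 0) = 0) : l = 0 := by
  funext s
  obtain ⟨i, j, k, hij, hjk, rfl⟩ := mo_exists s
  exact Z_all H H0 i j k hij hjk

theorem algInd_Phi : AlgebraicIndependent ℂ (fun s : {s : Mon // s ≠ mo 0 0 0} => Phi s) := by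
  apply algInd_of_jac _ a1
  intro l' hl'
  let l : Mon → ℂ := fun s => if h : s ≠ mo 0 0 0 then l' ⟨s, h⟩ else 0
  have H0 : l (mo 0 0 0) = 0 := by
    simp only [l]
    rw [dif_neg (by simp)]
  have H : ∀ p, pairS l (Tp a1 p) = 0 := by
    intro p
    unfold pairS
    rw [Fintype.sum_eq_add_sum_subtype_ne _ (mo 0 0 0), H0, zero_mul, zero_add, ← hl' p]
    refine Finset.sum_congr rfl fun s _ => ?_
    have : l s = l' s := by
      simp only [l]
      rw [dif_pos s.2]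
    rw [this]
    rfl
  have hz := l_zero H H0
  funext s
  have h1 : l s = l' s := by
    simp only [l]
    rw [dif_pos s.2]
  rw [← h1, hz]
  rfl

/-- the equation of the divisor -/
theorem exists_Psi : ∃ Ψ : MvPolynomial Mon ℂ, Irreducible Ψ ∧ ∀ P, MvPolynomial.aeval Phi P = 0 ↔ Ψ ∣ P :=
  principal_ker Phi (mo 0 0 0) algInd_Phi exists_dep

end Pool.Agent.ENR
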