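import Pool.Agent.ENR.Irr
import Pool.Agent.ENR.Phi

/-! polynomials vanishing on the cubic outside the base locus -/

namespace Pool.Agent.ENR

open MvPolynomial Matrix

/-- Nullstellensatz for an irreducible polynomial -/
theorem dvd_of_zeros {σ : Type} [Finite σ] {f g : MvPolynomial σ ℂ} (hf : Irreducible f)
    (h : ∀ z, eval z f = 0 → eval z g = 0) : f ∣ g := by
  have hp : (Ideal.span {f}).IsPrime :=
    (Ideal.span_singleton_prime hf.ne_zero).mpr hf.prime
  have := IsPrime.vanishingIdeal_zeroLocus (k := ℂ) (K := ℂ) (Ideal.span {f})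
  rw [← Ideal.mem_span_singleton, ← this, mem_vanishingIdeal_iff]
  intro z hz
  rw [mem_zeroLocus_iff] at hz
  have h1 := hz f (Ideal.mem_span_singleton_self f)
  rw [aeval_eq_eval] at h1 ⊢
  exact h z h1

theorem det_ne {a : PS} (ha : a ∈ Ug) : (pg a).det ≠ 0 := ha.2

theorem exists_preimage {a : PS} (ha : a ∈ Ug) (w : Fin 6 → ℂ) : ∃ z, (pg a).mulVec z = w := by
  refine ⟨(pg a)⁻¹.mulVec w, ?_⟩
  rw [Matrix.mulVec_mulVec, Matrix.mul_nonsing_inv _ (isUnit_iff_ne_zero.mpr (det_ne ha)), Matrix.one_mulVec]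

theorem div_of_vanish {a : PS} (ha : a ∈ Ug) (Q : MvPolynomial (Fin 6) ℂ)
    (h : ∀ z, val (cf a) z = 0 → (∃ j, Gz (pt a) (pn a) ((pg a).mulVec z) j ≠ 0) → eval z Q = 0) :
    form (cf a) ∣ Q := by
  obtain ⟨hsm, -⟩ := good_of_Ug ha (val_cf a)
  have hirr := irr_of_smooth hsm
  have hprime := hirr.prime
  choose G hG using fun j : Fin 10 => exists_fam (pt a) (pn a) (Pi.single j 1) (pg a)
  have hG' : ∀ j z, val (G j) z = Gz (pt a) (pn a) ((pg a).mulVec z) j := by
    intro j z; rw [hG, fam_single]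
  have h1 : ∀ j, form (cf a) ∣ Q * form (G j) := by
    intro j
    apply dvd_of_zeros hirr
    intro z hz
    rw [map_mul]
    by_cases h0 : eval z (form (G j)) = 0
    · rw [h0, mul_zero]
    · rw [h z hz ⟨j, by rw [← hG']; exact h0⟩, zero_mul]
  by_contra hQ
  have h2 : ∀ j, form (cf a) ∣ form (G j) := fun j => (hprime.dvd_or_dvd (h1 j)).resolve_left hQ
  have h3 : ∀ j, ∃ κ : ℂ, ∀ z, val (G j) z = κ * val (cf a) z := by
    intro j
    obtain ⟨q, hq⟩ := h2 j
    by_cases hq0 : q = 0
    · refine ⟨0, fun z => ?_⟩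
      rw [val, hq, hq0, mul_zero, map_zero, zero_mul]
    · have hne := form_ne_zero hsm
      have hGne : form (G j) ≠ 0 := by rw [hq]; exact mul_ne_zero hne hq0
      have hd : (form (G j)).totalDegree = 3 := (form_hom _).totalDegree hGne
      rw [hq, totalDegree_mul_of_isDomain hne hq0, (form_hom _).totalDegree hne] at hd
      have hq1 : q.totalDegree = 0 := by omega
      rw [totalDegree_eq_zero_iff_eq_C] at hq1
      refine ⟨coeff 0 q, fun z => ?_⟩
      rw [val, hq, hq1, map_mul, eval_C, coeff_C, if_pos rfl, mul_comm]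
      rfl
  choose κ hκ using h3
  obtain ⟨p, hp⟩ := plane_of_det ha.1.2
  rw [Fintype.linearIndependent_iff] at hp
  -- relation between the first two cubics
  have hrel : ∀ w, κ 1 * Gz (pt a) (pn a) w 0 - κ 0 * Gz (pt a) (pn a) w 1 = 0 := by
    intro w
    obtain ⟨z, rfl⟩ := exists_preimage ha w
    rw [← hG', ← hG', hκ, hκ]
    ring
  have h4 := hp (fun j => if j = 0 then κ 1 else if j = 1 then - κ 0 else 0) (by
    funext s
    have := hrel (fun i => ∑ m, s m * p m i)
    simp only [Finset.sum_apply, Pi.smul_apply, smul_eq_mul, Pi.zero_apply]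
    rw [Fin.sum_univ_succ, Fin.sum_univ_succ, Finset.sum_eq_zero]
    · simp
      linear_combination this
    · intro i _
      have e0 : (i.succ.succ : Fin 10) ≠ 0 := Fin.succ_ne_zero _
      have e1 : (i.succ.succ : Fin 10) ≠ 1 := by
        intro e
        have : (i.succ.succ : Fin 10) = Fin.succ 0 := e
        exact Fin.succ_ne_zero _ (Fin.succ_injective _ this)
      rw [if_neg e0, if_neg e1, zero_mul])
  have k1 : κ 1 = 0 := by simpa using h4 0
  have h5 := hp (fun j => if j = 1 then 1 else 0) (by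
    funext s
    simp only [Finset.sum_apply, Pi.smul_apply, smul_eq_mul, Pi.zero_apply, ite_mul, one_mul, zero_mul,
      Finset.sum_ite_eq', Finset.mem_univ, if_true]
    obtain ⟨z, hz⟩ := exists_preimage ha (fun i => ∑ m, s m * p m i)
    rw [← hz, ← hG', hκ, k1, zero_mul])
  have := h5 1
  simp at this

end Pool.Agent.ENR
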