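import Pool.Agent.ENR.Uni1

/-! extension of divisibility from good forms to the whole divisor -/

namespace Pool.Agent.ENR

open MvPolynomial

theorem pseudo {A : Type*} [CommRing A] (f : Polynomial A) {n : ℕ} (hn : 0 < n) (hf : f.natDegree ≤ n)
    (g : Polynomial A) : ∃ (k : ℕ) (q r : Polynomial A),
      Polynomial.C (f.coeff n) ^ k * g = q * f + r ∧ r.natDegree < n := by
  have key : ∀ N : ℕ, ∀ g : Polynomial A, g.natDegree ≤ N → ∃ (k : ℕ) (q r : Polynomial A),
      Polynomial.C (f.coeff n) ^ k * g = q * f + r ∧ r.natDegree < n := by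
    intro N
    induction N with
    | zero =>
      intro g hg
      exact ⟨0, 0, g, by ring, by omega⟩
    | succ N ih =>
      intro g hg
      by_cases h : g.natDegree < n
      · exact ⟨0, 0, g, by ring, h⟩
      · push Not at h
        have hnN : n ≤ N + 1 := h.trans hg
        obtain ⟨d, hd⟩ := Nat.exists_eq_add_of_le hnN
        obtain ⟨g', hg0⟩ : ∃ g', g' = Polynomial.C (f.coeff n) * g - Polynomial.C (g.coeff (N + 1)) * (Polynomial.X ^ d * f) :=
          ⟨_, rfl⟩
        have hg' : g'.natDegree ≤ N := by
          rw [Polynomial.natDegree_le_iff_coeff_eq_zero]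
          intro m hm
          have h1 : m = N + 1 ∨ N + 1 < m := by omega
          rw [hg0, Polynomial.coeff_sub, Polynomial.coeff_C_mul, Polynomial.coeff_C_mul]
          rcases h1 with h1 | h1
          · have e : (Polynomial.X ^ d * f).coeff (N + 1) = f.coeff n := by
              rw [hd]
              exact Polynomial.coeff_X_pow_mul f d n
            rw [h1, e]; ring
          · rw [Polynomial.coeff_eq_zero_of_natDegree_lt (lt_of_le_of_lt hg h1)]
            have : (Polynomial.X ^ d * f).natDegree < m := by
              refine lt_of_le_of_lt (Polynomial.natDegree_mul_le.trans ?_) h1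
              have := Polynomial.natDegree_X_pow_le (R := A) d
              omega
            rw [Polynomial.coeff_eq_zero_of_natDegree_lt this]
            ring
        obtain ⟨k, q, r, h2, h3⟩ := ih g' hg'
        refine ⟨k + 1, q + Polynomial.C (f.coeff n) ^ k * (Polynomial.C (g.coeff (N + 1)) * Polynomial.X ^ d), r, ?_, h3⟩
        rw [hg0] at h2
        linear_combination h2
  exact key _ g le_rfl

/-- value of a cubic form over a ring -/
def valR {R : Type*} [CommRing R] (F : Mon → R) (z : Fin 6 → R) : R :=
  ∑ s : Mon, F s * ((s : Multiset (Fin 6)).map z).prod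

theorem map_valR {R S : Type*} [CommRing R] [CommRing S] (f : R →+* S) (F : Mon → R) (z : Fin 6 → R) :
    f (valR F z) = valR (fun s => f (F s)) (fun i => f (z i)) := by
  unfold valR
  rw [map_sum]
  refine Finset.sum_congr rfl fun s _ => ?_
  rw [map_mul, map_multiset_prod, Multiset.map_map]
  rfl

theorem valR_eq (F : Mon → ℂ) (z : Fin 6 → ℂ) : valR F z = val F z := (val_eq F z).symm

/-- the universal cubic on a line -/
noncomputable def fU (z p : Fin 6 → ℂ) : Polynomial (MvPolynomial Mon ℂ) :=
  valR (fun s => Polynomial.C (X s)) (fun b => Polynomial.C (C (z b)) + Polynomial.C (C (p b)) * Polynomial.X)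

theorem fU_natDegree (z p : Fin 6 → ℂ) : (fU z p).natDegree ≤ 3 := by
  unfold fU valR
  apply Polynomial.natDegree_sum_le_of_forall_le
  intro s _
  refine (Polynomial.natDegree_C_mul_le _ _).trans ?_
  refine (Polynomial.natDegree_multiset_prod_le _).trans ?_
  rw [Multiset.map_map]
  have h1 : ∀ x ∈ ((s : Multiset (Fin 6)).map (Polynomial.natDegree ∘ fun b =>
      Polynomial.C (C (z b) : MvPolynomial Mon ℂ) + Polynomial.C (C (p b)) * Polynomial.X)), x ≤ 1 := by
    intro x hx
    rw [Multiset.mem_map] at hx
    obtain ⟨b, _, rfl⟩ := hx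
    simp only [Function.comp_apply]
    compute_degree
  refine (Multiset.sum_le_card_nsmul _ 1 h1).trans ?_
  rw [Multiset.card_map]
  have : Multiset.card (s : Multiset (Fin 6)) = 3 := s.2
  rw [this]
  norm_num

theorem fU_coeff (z p : Fin 6 → ℂ) : (fU z p).coeff 3 = valR (fun s => (X s : MvPolynomial Mon ℂ)) (fun b => C (p b)) := by
  unfold fU valR
  rw [Polynomial.finsetSum_coeff]
  refine Finset.sum_congr rfl fun s _ => ?_
  rw [Polynomial.coeff_C_mul]
  congr 1
  have h := Polynomial.coeff_multiset_prod_of_natDegree_le ((s : Multiset (Fin 6)).map fun b =>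
      Polynomial.C (C (z b) : MvPolynomial Mon ℂ) + Polynomial.C (C (p b)) * Polynomial.X) 1 (by
      intro x hx
      rw [Multiset.mem_map] at hx
      obtain ⟨b, _, rfl⟩ := hx
      compute_degree)
  rw [Multiset.card_map, Multiset.map_map] at h
  have hs : Multiset.card (s : Multiset (Fin 6)) = 3 := s.2
  rw [hs] at h
  rw [h]
  congr 1
  apply Multiset.map_congr rfl
  intro b _
  simp

end Pool.Agent.ENR
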