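import Pool.Agent.ENR.Uni2
import Pool.Agent.ENR.Rank8

/-! extension of divisibility from good forms to the whole divisor -/

namespace Pool.Agent.ENR

open MvPolynomial

/-- specialisation of the coefficients -/
noncomputable def spec (F : Mon → ℂ) (P : MvPolynomial (Mon ⊕ Fin 6) ℂ) : MvPolynomial (Fin 6) ℂ :=
  eval₂Hom C (Sum.elim (fun s => C (F s)) X) P

theorem eval_spec (F : Mon → ℂ) (P : MvPolynomial (Mon ⊕ Fin 6) ℂ) (z : Fin 6 → ℂ) :
    eval z (spec F P) = eval (Sum.elim F z) P := by
  unfold spec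
  induction P using MvPolynomial.induction_on with
  | C a => simp
  | add p q hp hq => rw [map_add, map_add, hp, hq, map_add]
  | mul_X p m hp =>
    rw [map_mul, map_mul, hp, map_mul]
    congr 1
    rcases m with m | m <;> simp

/-- the universal restriction of `P` to a line -/
noncomputable def pU (z p : Fin 6 → ℂ) (P : MvPolynomial (Mon ⊕ Fin 6) ℂ) : Polynomial (MvPolynomial Mon ℂ) :=
  eval₂Hom (Polynomial.C.comp C) (Sum.elim (fun s => Polynomial.C (X s))
    (fun b => Polynomial.C (C (z b)) + Polynomial.C (C (p b)) * Polynomial.X)) P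

/-- specialisation of polynomials over the universal ring -/
noncomputable def sp (F : Mon → ℂ) : Polynomial (MvPolynomial Mon ℂ) →+* Polynomial ℂ :=
  Polynomial.mapRingHom (eval F)

theorem sp_pU (F : Mon → ℂ) (z p : Fin 6 → ℂ) (P : MvPolynomial (Mon ⊕ Fin 6) ℂ) :
    sp F (pU z p P) = lineP z p (spec F P) := by
  unfold pU spec lineP
  induction P using MvPolynomial.induction_on with
  | C a => simp [sp]
  | add P Q hp hq => simp only [map_add, hp, hq]
  | mul_X P m hp =>
    rw [map_mul, map_mul, hp, map_mul, map_mul]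
    congr 1
    rcases m with m | m <;> simp [sp]

theorem valR_map_form {R : Type} [CommRing R] [Algebra ℂ R] (F : Mon → ℂ) (w : Fin 6 → R) :
    valR (fun s => algebraMap ℂ R (F s)) w = aeval w (form F) := by
  unfold valR form
  rw [map_sum]
  refine Finset.sum_congr rfl fun s _ => ?_
  rw [map_mul, map_multiset_prod, Multiset.map_map, algHom_C]
  congr 2
  apply Multiset.map_congr rfl
  intro i _
  simp

theorem sp_fU (F : Mon → ℂ) (z p : Fin 6 → ℂ) : sp F (fU z p) = lineP z p (form F) := by
  unfold fU lineP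
  rw [map_valR, ← valR_map_form]
  congr 1
  · funext s
    simp [sp]
  · funext b
    simp [sp]

theorem extend {Ψ : MvPolynomial Mon ℂ} (hΨ : ∀ P, aeval Phi P = 0 ↔ Ψ ∣ P)
    (P : MvPolynomial (Mon ⊕ Fin 6) ℂ) (hP : ∀ a ∈ Ug, form (cf a) ∣ spec (cf a) P)
    {F : Mon → ℂ} (hF : eval F Ψ = 0) {z p : Fin 6 → ℂ} (hz : val F z = 0) (hp : val F p ≠ 0) :
    eval (Sum.elim F z) P = 0 := by
  obtain ⟨k, q, r, h1, h2⟩ := pseudo (fU z p) (n := 3) (by norm_num) (fU_natDegree z p) (pU z p P)
  have hlead : ∀ F' : Mon → ℂ, eval F' ((fU z p).coeff 3) = val F' p := by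
    intro F'
    rw [fU_coeff, map_valR]
    simp only [eval_X, eval_C]
    exact valR_eq _ _
  -- open set
  have hcont : Continuous fun a : PS => val (cf a) p := by
    have : (fun a : PS => val (cf a) p) = fun a => eval a (aeval Phi ((fU z p).coeff 3)) := by
      funext a
      rw [eval_aeval, hlead]
    rw [this]
    exact MvPolynomial.continuous_eval _
  have hU : IsOpen (Ug ∩ {a | val (cf a) p ≠ 0}) := isOpen_Ug.inter (isOpen_ne_fun hcont continuous_const)
  have hne : (Ug ∩ {a | val (cf a) p ≠ 0}).Nonempty := by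
    by_contra hemp
    rw [Set.not_nonempty_iff_eq_empty] at hemp
    have h3 : aeval Phi ((fU z p).coeff 3) = 0 := by
      rw [aeval_iff isOpen_Ug nonempty_Ug]
      intro a ha
      by_contra h4
      have h4' : val (cf a) p ≠ 0 := by rw [← hlead]; exact h4
      have : a ∈ Ug ∩ {a | val (cf a) p ≠ 0} := ⟨ha, h4'⟩
      rw [hemp] at this
      exact this
    obtain ⟨Q, hQ⟩ := (hΨ _).mp h3
    apply hp
    rw [← hlead, hQ, map_mul, hF, zero_mul]
  -- the remainder vanishes on the divisor
  have hr : ∀ i, Ψ ∣ r.coeff i := by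
    intro i
    rw [← hΨ, aeval_iff hU hne]
    rintro a ⟨ha, hap⟩
    have h4 := congrArg (sp (cf a)) h1
    rw [map_mul, map_pow, map_add, map_mul, sp_pU, sp_fU] at h4
    obtain ⟨Q, hQ⟩ := hP a ha
    have h5 : lineP z p (form (cf a)) ∣ lineP z p (spec (cf a) P) := by
      rw [hQ]
      unfold lineP
      rw [map_mul]
      exact Dvd.intro _ rfl
    have h6 : lineP z p (form (cf a)) ∣ sp (cf a) r := by
      have h7 : sp (cf a) r = sp (cf a) (Polynomial.C ((fU z p).coeff 3)) ^ k * lineP z p (spec (cf a) P)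
          - sp (cf a) q * lineP z p (form (cf a)) := by rw [h4]; ring
      rw [h7]
      exact dvd_sub (Dvd.dvd.mul_left h5 _) (Dvd.intro_left _ rfl)
    have h8 : (sp (cf a) r).natDegree < 3 := lt_of_le_of_lt (Polynomial.natDegree_map_le) h2
    have h9 : 3 ≤ (lineP z p (form (cf a))).natDegree := by
      apply Polynomial.le_natDegree_of_ne_zero
      rw [← sp_fU]
      show ((fU z p).map (eval (cf a))).coeff 3 ≠ 0
      rw [Polynomial.coeff_map, hlead]
      exact hap
    have h10 : sp (cf a) r = 0 := Polynomial.eq_zero_of_dvd_of_natDegree_lt h6 (by omega)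
    have h11 : eval (cf a) (r.coeff i) = (sp (cf a) r).coeff i := (Polynomial.coeff_map _ _).symm
    rw [h11, h10, Polynomial.coeff_zero]
  have hr0 : sp F r = 0 := by
    ext i
    have h11 : (sp F r).coeff i = eval F (r.coeff i) := Polynomial.coeff_map _ _
    obtain ⟨Q, hQ⟩ := hr i
    rw [h11, hQ, map_mul, hF, zero_mul, Polynomial.coeff_zero]
  have h4 := congrArg (sp F) h1
  rw [map_mul, map_pow, map_add, map_mul, sp_pU, sp_fU, hr0, add_zero] at h4
  have h5 := congrArg (Polynomial.eval 0) h4
  rw [Polynomial.eval_mul, Polynomial.eval_mul, Polynomial.eval_pow, eval_lineP, eval_lineP] at h5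
  have e0 : (fun i => z i + p i * 0) = z := by funext i; ring
  rw [e0, eval_spec] at h5
  have e1 : Polynomial.eval 0 (sp F (Polynomial.C ((fU z p).coeff 3))) = val F p := by
    have : sp F (Polynomial.C ((fU z p).coeff 3)) = Polynomial.C (eval F ((fU z p).coeff 3)) := Polynomial.map_C _
    rw [this, Polynomial.eval_C, hlead]
  rw [e1] at h5
  have e2 : eval z (form F) = 0 := hz
  rw [e2, mul_zero] at h5
  exact (mul_eq_zero.mp h5).resolve_left (pow_ne_zero _ hp)

end Pool.Agent.ENR
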