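import Pool.Agent.ENR.Uni3

/-! the universal family is unirational -/

namespace Pool.Agent.ENR

open MvPolynomial

/-- parameters of the universal family: `t`, `n`, `g`, the point `p`, the matrix `S` -/
abbrev QQ : Type := Unit ⊕ (Fin 3 × Fin 3) ⊕ (Fin 6 × Fin 6) ⊕ Fin 6 ⊕ (Fin 10 × Fin 10)

section
variable {R : Type*} [CommRing R]

/-- parameter `t` -/
def qt (b : QQ → R) : R := b (Sum.inl ())
/-- parameter `n` -/
def qn (b : QQ → R) (k j : Fin 3) : R := b (Sum.inr (Sum.inl (k, j)))
/-- parameter `g` -/
def qg (b : QQ → R) : Matrix (Fin 6) (Fin 6) R := fun i j => b (Sum.inr (Sum.inr (Sum.inl (i, j))))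
/-- the point -/
def qp (b : QQ → R) (i : Fin 6) : R := b (Sum.inr (Sum.inr (Sum.inr (Sum.inl i))))
/-- the matrix `S` -/
def qS (b : QQ → R) (i j : Fin 10) : R := b (Sum.inr (Sum.inr (Sum.inr (Sum.inr (i, j)))))

/-- coefficients `c = (S - S^T) G(g p)` -/
def cq (b : QQ → R) (j : Fin 10) : R :=
  ∑ k, (qS b j k - qS b k j) * Gz (qt b) (qn b) ((qg b).mulVec (qp b)) k

/-- parameter of the cubic -/
def aq (b : QQ → R) : Par → R :=
  Sum.elim (fun _ => qt b) (Sum.elim (fun x => qn b x.1 x.2) (Sum.elim (cq b) (fun x => qg b x.1 x.2)))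

theorem famP_aq (b : QQ → R) : famP (aq b) (qp b) = 0 := by
  have h : famP (aq b) (qp b) = ∑ j, cq b j * Gz (qt b) (qn b) ((qg b).mulVec (qp b)) j := rfl
  rw [h]
  unfold cq
  generalize Gz (qt b) (qn b) ((qg b).mulVec (qp b)) = G
  generalize qS b = S
  have h1 : ∑ j, (∑ k, (S j k - S k j) * G k) * G j = (∑ j, ∑ k, S j k * G k * G j) - ∑ j, ∑ k, S k j * G k * G j := by
    rw [← Finset.sum_sub_distrib]
    refine Finset.sum_congr rfl fun j _ => ?_
    rw [← Finset.sum_sub_distrib, Finset.sum_mul]
    exact Finset.sum_congr rfl fun k _ => by ring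
  rw [h1]
  have h2 : ∑ j, ∑ k, S k j * G k * G j = ∑ j, ∑ k, S j k * G k * G j := by
    rw [Finset.sum_comm]
    exact Finset.sum_congr rfl fun j _ => Finset.sum_congr rfl fun k _ => by ring
  rw [h2, sub_self]
end

theorem map_cq {R S : Type*} [CommRing R] [CommRing S] (f : R →+* S) (b : QQ → R) (j : Fin 10) :
    f (cq b j) = cq (fun q => f (b q)) j := by
  unfold cq
  rw [map_sum]
  refine Finset.sum_congr rfl fun k _ => ?_
  rw [map_mul, map_sub, map_Gz]
  congr 2
  funext i
  simp only [Matrix.mulVec, dotProduct, map_sum, map_mul]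
  rfl

theorem map_aq {R S : Type*} [CommRing R] [CommRing S] (f : R →+* S) (b : QQ → R) (p : Par) :
    f (aq b p) = aq (fun q => f (b q)) p := by
  rcases p with u | x | j | x
  · rfl
  · rfl
  · exact map_cq f b j
  · rfl

/-- the parametrisation of the universal family -/
noncomputable def Xi : Mon ⊕ Fin 6 → MvPolynomial QQ ℂ :=
  Sum.elim (fun s => aeval (aq (fun q => (X q : MvPolynomial QQ ℂ))) (Phi s))
    (fun i => X (Sum.inr (Sum.inr (Sum.inr (Sum.inl i)))))

theorem eval_Xi_inl (b : QQ → ℂ) (s : Mon) : eval b (Xi (Sum.inl s)) = cf (aq b) s := by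
  have key : ∀ Q : MvPolynomial Par ℂ, eval b (aeval (aq (fun q => (X q : MvPolynomial QQ ℂ))) Q) = eval (aq b) Q := by
    intro Q
    induction Q using MvPolynomial.induction_on with
    | C a => simp
    | add p q hp hq => rw [map_add, map_add, hp, hq, map_add]
    | mul_X p m hp =>
      rw [map_mul, map_mul, hp, map_mul, aeval_X, map_aq, eval_X]
      simp only [eval_X]
  exact key _

theorem eval_Xi_inr (b : QQ → ℂ) (i : Fin 6) : eval b (Xi (Sum.inr i)) = qp b i := by
  show eval b (X _) = _
  rw [eval_X]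
  rfl

/-- every parameter with a point outside the base locus is in the image -/
theorem exists_b {a : PS} {z : Fin 6 → ℂ} (hz : val (cf a) z = 0) {k : Fin 10}
    (hk : Gz (pt a) (pn a) ((pg a).mulVec z) k ≠ 0) : ∃ b : QQ → ℂ, aq b = a ∧ qp b = z := by
  let G := Gz (pt a) (pn a) ((pg a).mulVec z)
  have hk' : G k ≠ 0 := hk
  let S : Fin 10 → Fin 10 → ℂ := fun i j => if j = k then pc a i / G k else 0
  let b : QQ → ℂ := Sum.elim (fun _ => pt a) (Sum.elim (fun x => pn a x.1 x.2) (Sum.elim (fun x => pg a x.1 x.2)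
    (Sum.elim z (fun x => S x.1 x.2))))
  have hsum : ∑ j, pc a j * G j = 0 := by
    rw [val_cf] at hz
    exact hz
  refine ⟨b, ?_, rfl⟩
  funext p
  rcases p with u | x | j | x
  · rfl
  · rfl
  · show cq b j = pc a j
    have h1 : cq b j = ∑ m, (S j m - S m j) * G m := rfl
    rw [h1]
    have h2 : ∀ m, (S j m - S m j) * G m = (if m = k then pc a j / G k * G m else 0) -
        (if j = k then (pc a m * G m) / G k else 0) := by
      intro m
      simp only [S]
      split_ifs <;> ring
    simp only [h2]
    rw [Finset.sum_sub_distrib, Finset.sum_ite_eq', if_pos (Finset.mem_univ k)]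
    by_cases hjk : j = k
    · simp only [hjk, if_true]
      rw [← Finset.sum_div, hsum]
      field_simp
      ring
    · simp only [hjk, if_false, Finset.sum_const_zero]
      field_simp
      ring
  · rfl

theorem uni {Ψ : MvPolynomial Mon ℂ} (hΨ : ∀ P, aeval Phi P = 0 ↔ Ψ ∣ P) :
    Unirational (univFamily {F | eval F Ψ = 0}) := by
  have hmem : ∀ a : PS, eval (cf a) Ψ = 0 := by
    intro a
    rw [← eval_aeval, (hΨ Ψ).mpr dvd_rfl, map_zero]
  let e : QQ ≃ Fin (Fintype.card QQ) := Fintype.equivFin QQ
  refine ⟨Fintype.card QQ, fun i => rename e (Xi i), ?_, ?_⟩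
  · intro b
    have h1 : (fun i => eval b (rename e (Xi i))) = fun i => eval (fun q => b (e q)) (Xi i) := by
      funext i
      rw [eval_rename]
      rfl
    rw [h1]
    constructor
    · show (fun s => eval (fun q => b (e q)) (Xi (Sum.inl s))) ∈ {F | eval F Ψ = 0}
      simp only [eval_Xi_inl]
      exact hmem _
    · show val (fun s => eval (fun q => b (e q)) (Xi (Sum.inl s))) (fun i => eval (fun q => b (e q)) (Xi (Sum.inr i))) = 0
      simp only [eval_Xi_inl, eval_Xi_inr]
      have := val_cf (aq (fun q => b (e q))) (qp (fun q => b (e q)))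
      rw [famP_aq] at this
      exact this
  · intro P hP y hy
    have hP' : ∀ b : QQ → ℂ, eval (Sum.elim (cf (aq b)) (qp b)) P = 0 := by
      intro b
      have h1 := hP (fun i => b (e.symm i))
      have h2 : (fun i => eval (fun i => b (e.symm i)) (rename e (Xi i))) = Sum.elim (cf (aq b)) (qp b) := by
        funext i
        rw [eval_rename]
        have : ((fun i => b (e.symm i)) ∘ e) = b := by
          funext q
          simp
        rw [this]
        rcases i with s | i
        · exact eval_Xi_inl b s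
        · exact eval_Xi_inr b i
      rw [h2] at h1
      exact h1
    have hdiv : ∀ a ∈ Ug, form (cf a) ∣ spec (cf a) P := by
      intro a ha
      apply div_of_vanish ha
      rintro z hz ⟨k, hk⟩
      obtain ⟨b, hb1, hb2⟩ := exists_b hz hk
      rw [eval_spec, ← hb1, ← hb2]
      exact hP' b
    obtain ⟨hyD, hyz⟩ := hy
    have hy0 : y = Sum.elim (fun s => y (Sum.inl s)) (fun i => y (Sum.inr i)) := by
      funext i
      rcases i with s | i <;> rfl
    by_cases h : ∀ p, val (fun s => y (Sum.inl s)) p = 0
    · -- the zero form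
      have hF0 : (fun s => y (Sum.inl s)) = 0 := by
        apply val_inj
        intro z
        rw [h, val_zero]
      let b : QQ → ℂ := Sum.elim (fun _ => 0) (Sum.elim (fun _ => 0) (Sum.elim (fun _ => 0)
        (Sum.elim (fun i => y (Sum.inr i)) (fun _ => 0))))
      have hb : cf (aq b) = 0 := by
        apply val_inj
        intro z
        rw [val_cf, val_zero]
        show ∑ j, cq b j * _ = 0
        apply Finset.sum_eq_zero
        intro j _
        have : cq b j = 0 := by
          show ∑ k, ((0 : ℂ) - 0) * _ = 0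
          apply Finset.sum_eq_zero
          intro k _
          ring
        rw [this, zero_mul]
      have := hP' b
      rw [hb] at this
      rw [hy0, hF0]
      exact this
    · push Not at h
      obtain ⟨p, hp⟩ := h
      rw [hy0]
      exact extend hΨ P hdiv hyD hyz hp

end Pool.Agent.ENR
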