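import Pool.Agent.ENR.Fam3

namespace Pool.Agent.ENR

open Matrix

variable {K : Type*} [Field K]

variable {t : K} {n : Fin 3 → Fin 3 → K} {x y : Fin 3 → K} {m v : K}

/-- if `adj A(x) + y y^T = 0` then `A(x) y = 0`. -/
theorem w_zero (hD : ∀ i j, adj (hes t x) i j + y i * y j = 0) (i : Fin 3) :
    mv (hes t x) y i = 0 := by
  have key : ∀ i j, mv (hes t x) y i * y j = if i = j then - det3 (hes t x) else 0 := by
    intro i j
    have h1 := mul_adj t x i j
    have h2 : mm (hes t x) (adj (hes t x)) i j = - (mv (hes t x) y i * y j) := by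
      simp only [mm, mv, dt]
      linear_combination hes t x i 0 * hD 0 j + hes t x i 1 * hD 1 j + hes t x i 2 * hD 2 j
    rw [h2] at h1
    split_ifs at h1 ⊢ with hij
    · linear_combination -h1
    · linear_combination -h1
  generalize hes t x = A at *
  generalize hw : mv A y = w at *
  by_contra hi
  have hyj : ∀ j, i ≠ j → y j = 0 := by
    intro j hij
    have := key i j
    rw [if_neg hij] at this
    exact (mul_eq_zero.mp this).resolve_left hi
  have hdet : det3 A = 0 := by
    obtain ⟨j, hj⟩ : ∃ j : Fin 3, i ≠ j := by
      fin_cases i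
      · exact ⟨1, by decide⟩
      · exact ⟨0, by decide⟩
      · exact ⟨0, by decide⟩
    have := key j j
    rw [if_pos rfl, hyj j hj] at this
    linear_combination this
  have hyi : y i = 0 := by
    have := key i i
    rw [if_pos rfl, hdet] at this
    have := mul_eq_zero.mp (this.trans neg_zero)
    exact this.resolve_left hi
  have hy : y = 0 := by
    funext j
    by_cases hij : i = j
    · rw [← hij]; exact hyi
    · exact hyj j hij
  apply hi
  rw [← hw, hy]
  simp [mv, dt]

/-- all ten cubics vanish at the image point `(m x : v y)`, `m delta' = v delta`. -/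
theorem Gvan (h : ∀ j, qT t n x y j = 0) (hm : ∀ k, m * de t n x y k = v * dl t x y k)
    (h0 : (∃ k, dl t x y k ≠ 0) ∨ m = 0 ∧ ∀ k, dl t x y k = 0) (i : Fin 10) :
    Gf t n (fun i => m * x i) (fun i => v * y i) i = 0 := by
  have h9 : G9 t n (fun i => m * x i) (fun i => v * y i) = 0 := by
    rw [G9val h hm]
    rcases h0 with ⟨k, hk⟩ | ⟨hm0, hk⟩
    · have hr := dt_rho h k
      generalize (x 0 * rho (hes t x) y (Nn n) 0 + x 1 * rho (hes t x) y (Nn n) 1
        + x 2 * rho (hes t x) y (Nn n) 2) = r at *
      have h2 : dl t x y k * (8 * v * dt x (mv (hes t x) y) - m * r) = 0 := by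
        linear_combination -8 * dt x (mv (hes t x) y) * hm k - m * hr
      rw [(mul_eq_zero.mp h2).resolve_left hk, mul_zero]
    · have hD : ∀ i j, adj (hes t x) i j + y i * y j = 0 := by
        intro i j
        have e := congrFun (congrFun (adj_hes_add t n x y h) i) j
        rw [Matrix.add_apply] at e
        have e0 : net n (dl t x y) i j = 0 := by
          have : dl t x y = fun k => 0 * dl t x y k := by
            funext k; rw [hk k, mul_zero]
          rw [this, net_smul, zero_mul]
        rw [e0] at e
        exact e
      have hw := w_zero hD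
      have : dt x (mv (hes t x) y) = 0 := by
        simp only [dt, hw]
        ring
      rw [this, hm0]
      ring
  have h10 : G10 t n (fun i => m * x i) (fun i => v * y i) = 0 := by
    rw [G10val h hm]
    rcases h0 with ⟨k, hk⟩ | ⟨hm0, _⟩
    · have hr := g10id (HT_of_qT h) k
      have e : (fun k => sy (gv n k)) = Nn n := rfl
      have e' : sy (hv t x) = hes t x := rfl
      rw [e, e'] at hr
      have e2 : dlt' (hes t x) y (Nn n) k = de t n x y k := rfl
      rw [e2] at hr
      have hmk := hm k
      generalize det3 (KM (hes t x) (Nn n)) = a at *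
      generalize (8 * det3 (hes t x) + 2 * dt y (mv (hes t x) y)) = b at *
      generalize J3P y (adj (hes t x)) (Nn n) = c at *
      generalize de t n x y k = e at *
      generalize dl t x y k = d at *
      have h2 : d ^ 2 * (m ^ 2 * (2 * a) - v ^ 2 * b - m * v * c) = 0 := by
        linear_combination m ^ 2 * hr + (m * e + v * d) * b * hmk + m * c * d * hmk
      rw [(mul_eq_zero.mp h2).resolve_left (pow_ne_zero 2 hk), mul_zero]
    · rw [hm0]; ring
  have hz := fun i j => Zval h hm i j
  unfold Gf
  rw [h9, h10, hz, hz, hz, hz, hz, hz, hz, hz, hz]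
  fin_cases i <;> simp

end Pool.Agent.ENR
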